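import Pool.Agent.Lib.MP_9b5ce2_ntD.Defs
import Pool.Agent.Lib.MP_10e784_ag.TW.TWMulti
import Pool.Agent.Lib.MP_10e784_ag.EL.ELMert

/-! An upper bound sieve in a cube, for sieving densities `O(1 / p)`, with the right order of magnitude (Brun - Hooley).

Use `TW.multi` (`TW/TWMulti.lean`), `TW.tail` (`TW/TWTrunc.lean`), cf. `TW/TWSVa.lean` (private lemmas `twsva_prod_le`, `twsva_prod_le'`, `twsva_pow` may be copied).  Mertens: there is `M` with `∑_{y < p ≤ y ^ 2} 1 / p ≤ M` for all `y ≥ 1` (all primes)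
and `∑_{p ≤ x} 1 / p ≤ log log x + M` for `x ≥ 2` (`EL.ps_pow`, `EL.ps_shift` with `R = Set.univ`, `PT.PS (PT.ind Set.univ)`; for `y < 2` trivial).
Let `H ≥ 2 ^ 10`, `Z = H ^ (1/5) ≥ 4` (real), `z j = Z ^ (2 ^ (-j))` for `j < J` where `J` is minimal with `Z ^ (2 ^ (-J)) < 2`, `P j` = the `p ∈ S` with `z (j + 1) < p ≤ z j` (`z J := Z ^ (2 ^ (-J)) < 2`); these sets are disjoint, their union is the set of the `p ∈ S`, `p ≤ Z`.  `D j = (z j) ^ j`, so `∏ (D j * z j) = Z ^ (∑ (j + 1) 2 ^ (-j)) ≤ Z ^ 4 = H ^ (4/5) = η H`, `η = H ^ (-1/5) ≤ 1`.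
Apply `TW.multi` with `κ = Fin n`, `K = J`, `lev c = J` for all `c` (the side condition on `y` in `hΩ` is empty and the filter is everything).  `W j = ∑_{p ∈ P j} ω p ≤ A0 M =: W*`.  `1 - ω ≥ exp (-2 ω)` for `0 ≤ ω ≤ 1/2`, so `∏_{P j} (1 - ω) ≥ exp (-2 W*)`; `tl ≤ exp (-j) exp (e W*)` by `TW.tail` (`log D j / log z j = j`), so
`∏_{P j} (1 - ω) + 2 tl ≤ ∏_{P j} (1 - ω) * (1 + 2 exp ((e + 2) W*) exp (-j))`; the product over `j` is `≤ exp (-∑_{p ≤ Z} ω p) * exp (2 exp ((e + 2) W*) ∑_j exp (-j))`, `∑_j exp (-j) ≤ 2`.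
Error: `((1 + η) ^ n - 1) ∏ ∏ (1 + ω) ≤ 2 ^ n η exp (∑ ω)` and `η exp (2 ∑_{p ≤ Z} ω) ≤ H ^ (-1/5) exp (2 A0 (log log H + M))` is bounded by a constant (`H ^ (-1/5) (log H) ^ (2 A0)` is bounded), so the error is `≤ C exp (-∑ ω)`.
Finally `∑_{Z < p ≤ H, p ∈ S} ω p ≤ A0 * (constant)` (apply Mertens three times: `H ≤ Z ^ 8`), so `exp (-∑_{p ≤ Z})` may be replaced by `C exp (-∑_{p ≤ H})`.  For `H < 2 ^ 10` use the trivial bound `H ^ n` and `∑ ω ≤ 2 ^ 10`. -/

namespace FD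

open Finset

/-- the sum of the reciprocals of all primes `p ≤ x` -/
private noncomputable def sieve_U (x : ℝ) : ℝ := PT.PS (PT.ind Set.univ) x

private theorem sieve_U_split (x y : ℝ) (hxy : x ≤ y) :
    sieve_U y = sieve_U x + ∑ p ∈ (Ioc ⌊x⌋₊ ⌊y⌋₊).filter Nat.Prime, (1 : ℝ) / p := by
  have hi : ∀ p : ℕ, PT.ind Set.univ p = 1 := fun p => by
    unfold PT.ind
    rw [if_pos (Set.mem_univ p)]
  unfold sieve_U PT.PS
  simp only [hi]
  have h1 : ⌊x⌋₊ ≤ ⌊y⌋₊ := Nat.floor_le_floor hxy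
  have h2 : (Icc 1 ⌊y⌋₊).filter Nat.Prime = (Icc 1 ⌊x⌋₊).filter Nat.Prime ∪ (Ioc ⌊x⌋₊ ⌊y⌋₊).filter Nat.Prime := by
    ext p
    simp only [mem_filter, mem_Icc, mem_union, mem_Ioc]
    constructor
    · rintro ⟨⟨h3, h4⟩, h5⟩
      rcases le_or_gt p ⌊x⌋₊ with h6 | h6
      · exact Or.inl ⟨⟨h3, h6⟩, h5⟩
      · exact Or.inr ⟨⟨h6, h4⟩, h5⟩
    · rintro (⟨⟨h3, h4⟩, h5⟩ | ⟨⟨h3, h4⟩, h5⟩)
      · exact ⟨⟨h3, h4.trans h1⟩, h5⟩
      · exact ⟨⟨by omega, h4⟩, h5⟩
  rw [h2, Finset.sum_union]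
  rw [Finset.disjoint_left]
  intro p hp hp'
  simp only [mem_filter, mem_Icc, mem_Ioc] at hp hp'
  omega

private theorem sieve_U_nonneg (x : ℝ) : 0 ≤ sieve_U x := by
  unfold sieve_U PT.PS
  refine Finset.sum_nonneg fun p _ => ?_
  unfold PT.ind
  split_ifs <;> positivity

private theorem sieve_mert : ∃ M : ℝ, 0 ≤ M ∧ (∀ x : ℝ, 1 ≤ x → sieve_U (x ^ 2) ≤ sieve_U x + M) ∧
    (∀ x : ℝ, 2 ≤ x → sieve_U x ≤ Real.log (Real.log x) + M) ∧
    (∀ x : ℝ, 2 ≤ x → sieve_U (x ^ 5) ≤ sieve_U x + M) := by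
  obtain ⟨A, hA, h⟩ := EL.ps_pow
  obtain ⟨A', hA', h'⟩ := EL.ps_shift
  refine ⟨Real.log 5 + A + A' + sieve_U 4 + |Real.log (Real.log 2)|, ?_, ?_, ?_, ?_⟩
  · have := Real.log_nonneg (show (1 : ℝ) ≤ 5 by norm_num)
    have := sieve_U_nonneg 4
    positivity
  · intro x hx
    have h5 : Real.log 2 ≤ Real.log 5 := Real.log_le_log (by norm_num) (by norm_num)
    have h6 := Real.log_nonneg (show (1 : ℝ) ≤ 5 by norm_num)
    have h7 := sieve_U_nonneg 4
    have h8 := abs_nonneg (Real.log (Real.log 2))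
    by_cases h2 : 2 ≤ x
    · have h1 := h Set.univ x 2 h2 (by norm_num)
      rw [show x ^ (2 : ℝ) = x ^ 2 by norm_cast] at h1
      change sieve_U (x ^ 2) ≤ sieve_U x + Real.log 2 + A at h1
      linarith
    · push Not at h2
      have h1 : sieve_U (x ^ 2) ≤ sieve_U 4 := EL.ps_mono Set.univ (x ^ 2) 4 (by nlinarith)
      have h3 := sieve_U_nonneg x
      linarith
  · intro x hx
    have h1 := h' Set.univ 2 x le_rfl hx
    change sieve_U x ≤ sieve_U 2 + _ - _ + _ at h1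
    have h2 : sieve_U 2 ≤ sieve_U 4 := EL.ps_mono Set.univ 2 4 (by norm_num)
    have h6 := Real.log_nonneg (show (1 : ℝ) ≤ 5 by norm_num)
    have h8 := neg_abs_le (Real.log (Real.log 2))
    linarith
  · intro x hx
    have h1 := h Set.univ x 5 hx (by norm_num)
    rw [show x ^ (5 : ℝ) = x ^ 5 by norm_cast] at h1
    change sieve_U (x ^ 5) ≤ sieve_U x + Real.log 5 + A at h1
    have h7 := sieve_U_nonneg 4
    have h8 := abs_nonneg (Real.log (Real.log 2))
    linarith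

open Classical in
private theorem sieve_W {A0 : ℝ} {S : Set ℕ} {ω : ℕ → ℝ} (hS : ∀ p ∈ S, p.Prime) (hA0 : 0 ≤ A0)
    (hω : ∀ p ∈ S, 0 ≤ ω p ∧ ω p ≤ 1 / 2 ∧ ω p ≤ A0 / p) (N : ℕ) (x y : ℝ) (hx : 0 ≤ x) (hxy : x ≤ y) :
    ∑ p ∈ (Icc 1 N).filter (fun p => p ∈ S ∧ x < p ∧ (p : ℝ) ≤ y), ω p ≤ A0 * (sieve_U y - sieve_U x) := by
  rw [sieve_U_split x y hxy, add_sub_cancel_left, Finset.mul_sum]
  calc ∑ p ∈ (Icc 1 N).filter (fun p => p ∈ S ∧ x < p ∧ (p : ℝ) ≤ y), ω p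
      ≤ ∑ p ∈ (Icc 1 N).filter (fun p => p ∈ S ∧ x < p ∧ (p : ℝ) ≤ y), A0 * (1 / (p : ℝ)) := by
        refine Finset.sum_le_sum fun p hp => ?_
        rw [mul_one_div]
        exact (hω p (Finset.mem_filter.mp hp).2.1).2.2
    _ ≤ ∑ p ∈ (Ioc ⌊x⌋₊ ⌊y⌋₊).filter Nat.Prime, A0 * (1 / (p : ℝ)) := by
        refine Finset.sum_le_sum_of_subset_of_nonneg ?_ fun p _ _ => by positivity
        intro p hp
        simp only [mem_filter, mem_Icc, mem_Ioc] at hp ⊢
        exact ⟨⟨(Nat.floor_lt hx).mpr hp.2.2.1, Nat.le_floor hp.2.2.2⟩, hS p hp.2.1⟩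

private theorem sieve_pow (n : ℕ) (η : ℝ) (h0 : 0 ≤ η) (h1 : η ≤ 1) : (1 + η) ^ n - 1 ≤ 2 ^ n * η := by
  have key : (1 + η) ^ n ≤ 1 + η * (2 ^ n - 1) := by
    induction n with
    | zero => simp
    | succ n ih =>
      have h2 : (1 : ℝ) ≤ 2 ^ n := one_le_pow₀ (by norm_num)
      calc (1 + η) ^ (n + 1) = (1 + η) ^ n * (1 + η) := pow_succ _ _
        _ ≤ (1 + η * (2 ^ n - 1)) * (1 + η) := mul_le_mul_of_nonneg_right ih (by linarith)
        _ = 1 + η * (2 ^ n + η * (2 ^ n - 1)) := by ring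
        _ ≤ 1 + η * (2 ^ n + 1 * (2 ^ n - 1)) := by gcongr
        _ = 1 + η * (2 ^ (n + 1) - 1) := by ring
  nlinarith [h0]

private theorem sieve_log (c t : ℝ) (hc : 0 ≤ c) (ht : 0 < t) : c * Real.log t ≤ t + |c * Real.log c| := by
  rcases hc.eq_or_lt with h | h
  · subst h; simp; exact ht.le
  · have h1 : Real.log (t / c) ≤ t / c - 1 := Real.log_le_sub_one_of_pos (div_pos ht h)
    rw [Real.log_div ht.ne' h.ne'] at h1
    have h2 : c * (Real.log t - Real.log c) ≤ c * (t / c - 1) := mul_le_mul_of_nonneg_left h1 hc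
    have h3 : c * (t / c - 1) = t - c := by field_simp
    have h4 := le_abs_self (c * Real.log c)
    nlinarith

private theorem sieve_prod_le (P : Finset ℕ) (ω : ℕ → ℝ) (h : ∀ p ∈ P, 0 ≤ ω p ∧ ω p ≤ 1 / 2) :
    Real.exp (-(2 * ∑ p ∈ P, ω p)) ≤ ∏ p ∈ P, (1 - ω p) ∧
      ∏ p ∈ P, (1 - ω p) ≤ Real.exp (-∑ p ∈ P, ω p) := by
  constructor
  · rw [Finset.mul_sum, ← Finset.sum_neg_distrib, Real.exp_sum]
    refine Finset.prod_le_prod (fun p _ => (Real.exp_pos _).le) fun p hp => ?_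
    obtain ⟨h0, h1⟩ := h p hp
    -- exp (-2w) ≤ 1 - w for 0 ≤ w ≤ 1/2
    have hpos : 0 < 1 - ω p := by linarith
    have h2 : -(2 * ω p) ≤ Real.log (1 - ω p) := by
      have h3 : Real.log ((1 - ω p)⁻¹) ≤ (1 - ω p)⁻¹ - 1 := Real.log_le_sub_one_of_pos (inv_pos.mpr hpos)
      rw [Real.log_inv] at h3
      have h4 : (1 - ω p)⁻¹ - 1 ≤ 2 * ω p := by
        rw [sub_le_iff_le_add, inv_le_iff_one_le_mul₀ hpos]
        nlinarith
      linarith
    calc Real.exp (-(2 * ω p)) ≤ Real.exp (Real.log (1 - ω p)) := Real.exp_le_exp.mpr h2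
      _ = 1 - ω p := Real.exp_log hpos
  · rw [← Finset.sum_neg_distrib, Real.exp_sum]
    refine Finset.prod_le_prod (fun p hp => by linarith [(h p hp).2]) fun p hp => ?_
    linarith [Real.add_one_le_exp (-ω p)]

private theorem sieve_geom (B : ℝ) (hB : 0 ≤ B) (J : ℕ) :
    ∏ j ∈ range J, (1 + B * Real.exp (-(j : ℝ))) ≤ Real.exp (2 * B) := by
  calc ∏ j ∈ range J, (1 + B * Real.exp (-(j : ℝ))) ≤ ∏ j ∈ range J, Real.exp (B * Real.exp (-(j : ℝ))) := by
        refine Finset.prod_le_prod (fun j _ => by positivity) fun j _ => ?_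
        linarith [Real.add_one_le_exp (B * Real.exp (-(j : ℝ)))]
    _ = Real.exp (B * ∑ j ∈ range J, Real.exp (-(j : ℝ))) := by
        rw [← Real.exp_sum, Finset.mul_sum]
    _ ≤ Real.exp (2 * B) := by
        refine Real.exp_le_exp.mpr ?_
        have h1 : ∑ j ∈ range J, Real.exp (-(j : ℝ)) ≤ 2 - 2 * (1 / 2) ^ J := by
          induction J with
          | zero => simp
          | succ J ih =>
            rw [Finset.sum_range_succ]
            have h2 : Real.exp (-(J : ℝ)) ≤ (1 / 2) ^ J := by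
              have h3 : Real.exp (-(J : ℝ)) = (Real.exp (-1)) ^ J := by
                rw [← Real.exp_nat_mul]; ring_nf
              rw [h3]
              refine pow_le_pow_left₀ (Real.exp_pos _).le ?_ J
              rw [Real.exp_neg, one_div]
              exact inv_anti₀ (by norm_num) (by linarith [Real.add_one_le_exp 1])
            rw [pow_succ]
            linarith
        have h2 : (0 : ℝ) ≤ (1 / 2) ^ J := by positivity
        nlinarith

open Classical in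
/-- the main range `4 ≤ Z`, `H = Z ^ 5` -/
private theorem sieve_big (n : ℕ) (A0 M : ℝ) (hA0 : 0 ≤ A0)
    (hM1 : ∀ x : ℝ, 1 ≤ x → sieve_U (x ^ 2) ≤ sieve_U x + M)
    (hM2 : ∀ x : ℝ, 2 ≤ x → sieve_U x ≤ Real.log (Real.log x) + M)
    (hM3 : ∀ x : ℝ, 2 ≤ x → sieve_U (x ^ 5) ≤ sieve_U x + M)
    (S : Set ℕ) (ω : ℕ → ℝ) (Ω : (p : ℕ) → Set (Fin n → ZMod p))
    (hS : ∀ p ∈ S, p.Prime) (hω : ∀ p ∈ S, 0 ≤ ω p ∧ ω p ≤ 1 / 2 ∧ ω p ≤ A0 / p)
    (hΩ : ∀ p ∈ S, (Nat.card {w : Fin n → ZMod p // w ∈ Ω p} : ℝ) = ω p * (p : ℝ) ^ n)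
    (a : Fin n → ℤ) (H : ℕ) (Z : ℝ) (hZ : 4 ≤ Z) (hHZ : (H : ℝ) = Z ^ 5) :
    (Nat.card {x : Fin n → ℤ // (∀ c, a c ≤ x c ∧ x c < a c + H) ∧
        ∀ p ∈ S, (fun c => ((x c : ℤ) : ZMod p)) ∉ Ω p} : ℝ) ≤
      (Real.exp (4 * Real.exp ((Real.exp 1 + 2) * (A0 * M))) +
        2 ^ n * Real.exp (|2 * A0 * Real.log (2 * A0)| + 2 * A0 * M)) * Real.exp (A0 * M) *
      (H : ℝ) ^ n * Real.exp (-∑ p ∈ (Icc 1 H).filter (fun p => p ∈ S), ω p) := by
  have hZ1 : (1 : ℝ) < Z := by linarith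
  have hZ0 : (0 : ℝ) < Z := by linarith
  -- the levels
  set z : ℕ → ℝ := fun j => Z ^ (((1 : ℝ) / 2) ^ j) with hz
  have hz0 : z 0 = Z := by simp [hz]
  have hz1 : ∀ j, 1 < z j := fun j => Real.one_lt_rpow hZ1 (by positivity)
  have hzs : ∀ j, z (j + 1) ^ 2 = z j := by
    intro j
    simp only [hz]
    rw [← Real.rpow_natCast, ← Real.rpow_mul hZ0.le]
    congr 1
    push_cast
    ring
  have hzle : ∀ j, z (j + 1) ≤ z j := fun j => by
    rw [← hzs j]
    nlinarith [hz1 (j + 1)]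
  have hzZ : ∀ j, z j ≤ Z := fun j => by
    induction j with
    | zero => exact hz0.le
    | succ j ih => exact (hzle j).trans ih
  obtain ⟨J, hJ⟩ : ∃ J, z J < 2 := by
    obtain ⟨J, hJ⟩ := pow_unbounded_of_one_lt (Real.log Z / Real.log 2) (show (1 : ℝ) < 2 by norm_num)
    refine ⟨J, ?_⟩
    have hl2 : 0 < Real.log 2 := Real.log_pos (by norm_num)
    rw [div_lt_iff₀ hl2] at hJ
    simp only [hz]
    rw [← Real.log_lt_log_iff (by positivity) (by norm_num), Real.log_rpow hZ0]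
    have h2 : (0 : ℝ) < (1 / 2) ^ J := by positivity
    calc (1 / 2) ^ J * Real.log Z < (1 / 2) ^ J * (2 ^ J * Real.log 2) := mul_lt_mul_of_pos_left hJ h2
      _ = Real.log 2 := by rw [← mul_assoc, ← mul_pow]; norm_num
  -- the sets
  set P : Fin J → Finset ℕ := fun j => (Icc 1 H).filter fun p => p ∈ S ∧ z (j + 1) < p ∧ (p : ℝ) ≤ z j with hP
  have hPS : ∀ j, ∀ p ∈ P j, p ∈ S ∧ z (j + 1) < p ∧ (p : ℝ) ≤ z j := fun j p hp => by
    simp only [hP, mem_filter] at hp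
    exact hp.2
  have hanti : ∀ i j : ℕ, i ≤ j → z j ≤ z i := by
    intro i j hij
    induction hij with
    | refl => exact le_rfl
    | step _ ih => exact (hzle _).trans ih
  have hdis : ∀ k k', k ≠ k' → Disjoint (P k) (P k') := by
    intro k k' hkk'
    rw [Finset.disjoint_left]
    intro p hp hp'
    have h1 := (hPS k p hp).2
    have h2 := (hPS k' p hp').2
    rcases lt_or_gt_of_ne (fun h => hkk' (Fin.ext h) : (k : ℕ) ≠ k') with h | h
    · have := hanti (k + 1) k' h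
      linarith [h1.1, h2.2]
    · have := hanti (k' + 1) k h
      linarith [h2.1, h1.2]
  have hωP : ∀ k, ∀ p ∈ P k, 0 ≤ ω p ∧ ω p ≤ 1 / 2 := fun k p hp =>
    ⟨(hω p (hPS k p hp).1).1, (hω p (hPS k p hp).1).2.1⟩
  -- the sums
  set F : ℝ → ℝ := fun y => ∑ p ∈ (Icc 1 H).filter (fun p => p ∈ S ∧ (p : ℝ) ≤ y), ω p with hF
  have hFsplit : ∀ x y, x ≤ y → F y = F x + ∑ p ∈ (Icc 1 H).filter (fun p => p ∈ S ∧ x < p ∧ (p : ℝ) ≤ y), ω p := by
    intro x y hxy
    simp only [hF]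
    have h2 : (Icc 1 H).filter (fun p => p ∈ S ∧ (p : ℝ) ≤ y) =
        (Icc 1 H).filter (fun p => p ∈ S ∧ (p : ℝ) ≤ x) ∪ (Icc 1 H).filter (fun p => p ∈ S ∧ x < p ∧ (p : ℝ) ≤ y) := by
      ext p
      simp only [mem_filter, mem_union]
      constructor
      · rintro ⟨h3, h4, h5⟩
        rcases le_or_gt (p : ℝ) x with h6 | h6
        · exact Or.inl ⟨h3, h4, h6⟩
        · exact Or.inr ⟨h3, h4, h6, h5⟩
      · rintro (⟨h3, h4, h5⟩ | ⟨h3, h4, _, h5⟩)
        · exact ⟨h3, h4, h5.trans hxy⟩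
        · exact ⟨h3, h4, h5⟩
    rw [h2, Finset.sum_union]
    rw [Finset.disjoint_left]
    intro p hp hp'
    simp only [mem_filter] at hp hp'
    linarith [hp.2.2, hp'.2.2.1]
  have hFU : ∀ x y, 0 ≤ x → x ≤ y → F y ≤ F x + A0 * (sieve_U y - sieve_U x) := by
    intro x y hx hxy
    rw [hFsplit x y hxy]
    have := sieve_W hS hA0 hω H x y hx hxy
    linarith
  have hFnn : ∀ x, 0 ≤ F x := fun x => Finset.sum_nonneg fun p hp => (hω p (mem_filter.mp hp).2.1).1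
  have hF0 : ∀ x, x < 2 → F x = 0 := by
    intro x hx
    simp only [hF]
    rw [Finset.filter_false_of_mem, Finset.sum_empty]
    rintro p _ ⟨h1, h2⟩
    have h3 : (2 : ℝ) ≤ p := by exact_mod_cast (hS p h1).two_le
    linarith
  set W : Fin J → ℝ := fun j => ∑ p ∈ P j, ω p with hW
  have hWF : ∀ j : Fin J, W j = F (z j) - F (z (j + 1)) := fun j => by
    have := hFsplit (z (j + 1)) (z j) (hzle j)
    simp only [hW, hP]
    linarith
  have hWsum : ∑ j, W j = F Z := by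
    have h1 : ∑ j : Fin J, W j = ∑ j ∈ range J, (F (z j) - F (z (j + 1))) := by
      rw [Finset.sum_range fun j => F (z j) - F (z (j + 1))]
      exact Finset.sum_congr rfl fun j _ => hWF j
    rw [h1, Finset.sum_range_sub' (fun j => F (z j)), hF0 (z J) hJ, hz0, sub_zero]
  have hWle : ∀ j, W j ≤ A0 * M := fun j => by
    rw [hWF j]
    have h1 := hFU (z (j + 1)) (z j) (by linarith [hz1 (j + 1)]) (hzle j)
    have h2 := hM1 (z (j + 1)) (hz1 _).le
    rw [hzs] at h2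
    have h3 : A0 * (sieve_U (z j) - sieve_U (z (j + 1))) ≤ A0 * M := mul_le_mul_of_nonneg_left (by linarith) hA0
    linarith
  have hW0 : ∀ j, 0 ≤ W j := fun j => Finset.sum_nonneg fun p hp => (hωP j p hp).1
  -- the sieve
  set D : Fin J → ℝ := fun j => z j ^ (j : ℕ) with hD
  have hD1 : ∀ k, 1 ≤ D k := fun k => one_le_pow₀ (hz1 _).le
  have hprod : ∏ k : Fin J, (D k * z k) ≤ Z ^ 4 := by
    have h1 : ∏ k : Fin J, (D k * z k) = ∏ j ∈ range J, z j ^ (j + 1) := by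
      rw [Finset.prod_range fun j => z j ^ (j + 1)]
      refine Finset.prod_congr rfl fun k _ => ?_
      simp only [hD]
      rw [pow_succ]
    have h2 : ∀ m : ℕ, (∏ j ∈ range m, z j ^ (j + 1)) * z m ^ (2 * m + 4) = Z ^ 4 := by
      intro m
      induction m with
      | zero => simp [hz0]
      | succ m ih =>
        rw [← ih, Finset.prod_range_succ, mul_assoc]
        congr 1
        have h3 : z (m + 1) ^ (2 * (m + 1) + 4) = z m ^ (m + 3) := by
          rw [← hzs m, ← pow_mul]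
          congr 1
        rw [h3, ← pow_add]
        congr 1
        ring
    rw [h1, ← h2 J]
    refine le_mul_of_one_le_right (Finset.prod_nonneg fun j _ => by have := hz1 j; positivity) ?_
    exact one_le_pow₀ (hz1 J).le
  have hmulti := TW.multi J P (fun k p hp => hS p (hPS k p hp).1) hdis (fun _ => J) Ω ω
    (fun k p hp => ⟨(hωP k p hp).1, by linarith [(hωP k p hp).2]⟩)
    (by
      intro k p hp y
      have hk : (k : ℕ) + 1 ≤ J := k.2
      have h1 : (univ.filter fun _ : Fin n => (k : ℕ) + 1 ≤ J).card = n := by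
        rw [Finset.filter_true_of_mem fun _ _ => hk, Finset.card_univ, Fintype.card_fin]
      rw [h1, ← hΩ p (hPS k p hp).1]
      congr 1
      refine Nat.card_congr (Equiv.subtypeEquivRight fun w => ?_)
      constructor
      · exact fun h => h.1
      · exact fun h => ⟨h, fun c hc => absurd hk (by omega)⟩)
    a (fun _ => H) D (fun k => z k) hD1 (fun k => (hz1 k).le) (fun k p hp => (hPS k p hp).2.2)
    (1 / Z) (by positivity)
    (by
      intro c
      right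
      have h1 : (univ.filter fun k : Fin J => (k : ℕ) + 1 ≤ J) = univ :=
        Finset.filter_true_of_mem fun k _ => k.2
      rw [h1, hHZ]
      calc ∏ k : Fin J, (D k * z k) ≤ Z ^ 4 := hprod
        _ = 1 / Z * Z ^ 5 := by field_simp)
  have hη1 : 1 / Z ≤ 1 := by
    rw [div_le_one hZ0]; exact hZ1.le
  have hE := sieve_pow n (1 / Z) (by positivity) hη1
  -- main term
  set Ws : ℝ := A0 * M with hWs
  set B : ℝ := 2 * Real.exp ((Real.exp 1 + 2) * Ws) with hB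
  have hfac : ∀ k : Fin J, ∏ p ∈ P k, (1 - ω p) + 2 * TW.tl (D k) (P k) ω ≤
      Real.exp (-W k) * (1 + B * Real.exp (-(k : ℝ))) := by
    intro k
    have h1 := TW.tail (D k) (z k) (hD1 k) (hz1 k) (P k)
      (fun p hp => ⟨(hS p (hPS k p hp).1).one_lt.le, (hPS k p hp).2.2⟩) ω (fun p hp => (hωP k p hp).1)
    have hlz : Real.log (z k) ≠ 0 := (Real.log_pos (hz1 k)).ne'
    have h2 : Real.log (D k) / Real.log (z k) = (k : ℝ) := by
      simp only [hD]
      rw [Real.log_pow]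
      field_simp
    rw [h2] at h1
    obtain ⟨h3, h4⟩ := sieve_prod_le (P k) ω (hωP k)
    have h5 : TW.tl (D k) (P k) ω ≤ Real.exp (-(k : ℝ)) * Real.exp (Real.exp 1 * Ws) := by
      refine h1.trans (mul_le_mul_of_nonneg_left (Real.exp_le_exp.mpr ?_) (Real.exp_pos _).le)
      exact mul_le_mul_of_nonneg_left (hWle k) (Real.exp_pos _).le
    have h6 : Real.exp (Real.exp 1 * Ws) ≤ Real.exp ((Real.exp 1 + 2) * Ws) * ∏ p ∈ P k, (1 - ω p) := by
      calc Real.exp (Real.exp 1 * Ws) = Real.exp ((Real.exp 1 + 2) * Ws) * Real.exp (-(2 * Ws)) := by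
            rw [← Real.exp_add]; ring_nf
        _ ≤ Real.exp ((Real.exp 1 + 2) * Ws) * ∏ p ∈ P k, (1 - ω p) := by
            refine mul_le_mul_of_nonneg_left (le_trans (Real.exp_le_exp.mpr ?_) h3) (Real.exp_pos _).le
            have := hWle k
            simp only [hW] at this
            linarith
    have h7 : 2 * TW.tl (D k) (P k) ω ≤ B * Real.exp (-(k : ℝ)) * ∏ p ∈ P k, (1 - ω p) := by
      calc 2 * TW.tl (D k) (P k) ω ≤ 2 * (Real.exp (-(k : ℝ)) * Real.exp (Real.exp 1 * Ws)) := by linarith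
        _ ≤ 2 * (Real.exp (-(k : ℝ)) * (Real.exp ((Real.exp 1 + 2) * Ws) * ∏ p ∈ P k, (1 - ω p))) := by
            gcongr
        _ = B * Real.exp (-(k : ℝ)) * ∏ p ∈ P k, (1 - ω p) := by rw [hB]; ring
    calc ∏ p ∈ P k, (1 - ω p) + 2 * TW.tl (D k) (P k) ω
        ≤ ∏ p ∈ P k, (1 - ω p) + B * Real.exp (-(k : ℝ)) * ∏ p ∈ P k, (1 - ω p) := by linarith
      _ = (∏ p ∈ P k, (1 - ω p)) * (1 + B * Real.exp (-(k : ℝ))) := by ring
      _ ≤ Real.exp (-W k) * (1 + B * Real.exp (-(k : ℝ))) := by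
          refine mul_le_mul_of_nonneg_right h4 ?_
          have : 0 ≤ B := by rw [hB]; positivity
          positivity
  have hB0 : 0 ≤ B := by rw [hB]; positivity
  have htl0 : ∀ k, 0 ≤ TW.tl (D k) (P k) ω := fun k => by
    unfold TW.tl
    refine Finset.sum_nonneg fun T hT => Finset.prod_nonneg fun p hp => (hωP k p ?_).1
    exact Finset.mem_powerset.mp (Finset.mem_filter.mp hT).1 hp
  have hmain : ∏ k, (∏ p ∈ P k, (1 - ω p) + 2 * TW.tl (D k) (P k) ω) ≤ Real.exp (-F Z) * Real.exp (2 * B) := by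
    calc ∏ k, (∏ p ∈ P k, (1 - ω p) + 2 * TW.tl (D k) (P k) ω)
        ≤ ∏ k : Fin J, (Real.exp (-W k) * (1 + B * Real.exp (-(k : ℝ)))) := by
          refine Finset.prod_le_prod (fun k _ => ?_) fun k _ => hfac k
          have h1 : 0 ≤ ∏ p ∈ P k, (1 - ω p) := Finset.prod_nonneg fun p hp => by linarith [(hωP k p hp).2]
          have h2 := htl0 k
          positivity
      _ = Real.exp (-F Z) * ∏ j ∈ range J, (1 + B * Real.exp (-(j : ℝ))) := by
          rw [Finset.prod_mul_distrib, ← Real.exp_sum, Finset.sum_neg_distrib, hWsum,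
            Finset.prod_range fun j => (1 + B * Real.exp (-(j : ℝ)))]
      _ ≤ Real.exp (-F Z) * Real.exp (2 * B) :=
          mul_le_mul_of_nonneg_left (sieve_geom B hB0 J) (Real.exp_pos _).le
  -- error term
  have herr : ((1 + 1 / Z) ^ Fintype.card (Fin n) - 1) * ∏ k, ∏ p ∈ P k, (1 + ω p) ≤
      Real.exp (-F Z) * (2 ^ n * Real.exp (|2 * A0 * Real.log (2 * A0)| + 2 * A0 * M)) := by
    have h1 : ∏ k, ∏ p ∈ P k, (1 + ω p) ≤ Real.exp (F Z) := by
      calc ∏ k, ∏ p ∈ P k, (1 + ω p) ≤ ∏ k, Real.exp (W k) := by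
            refine Finset.prod_le_prod (fun k _ => Finset.prod_nonneg fun p hp => by linarith [(hωP k p hp).1])
              fun k _ => ?_
            simp only [hW]
            rw [Real.exp_sum]
            refine Finset.prod_le_prod (fun p hp => by linarith [(hωP k p hp).1]) fun p _ => ?_
            linarith [Real.add_one_le_exp (ω p)]
        _ = Real.exp (F Z) := by rw [← Real.exp_sum, hWsum]
    have h2 : F Z ≤ A0 * (Real.log (Real.log Z) + M) := by
      have h3 := hFU 0 Z le_rfl hZ0.le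
      rw [hF0 0 (by norm_num)] at h3
      have h4 := hM2 Z (by linarith)
      have h5 := sieve_U_nonneg 0
      have h6 : A0 * (sieve_U Z - sieve_U 0) ≤ A0 * (Real.log (Real.log Z) + M) :=
        mul_le_mul_of_nonneg_left (by linarith) hA0
      linarith
    have h3 := sieve_log (2 * A0) (Real.log Z) (by linarith) (Real.log_pos hZ1)
    have h4 : 1 / Z = Real.exp (-Real.log Z) := by
      rw [Real.exp_neg, Real.exp_log hZ0, one_div]
    rw [Fintype.card_fin]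
    have h5 : (1 / Z) * Real.exp (F Z) ≤
        Real.exp (-F Z) * Real.exp (|2 * A0 * Real.log (2 * A0)| + 2 * A0 * M) := by
      rw [h4, ← Real.exp_add, ← Real.exp_add, Real.exp_le_exp]
      linarith
    calc ((1 + 1 / Z) ^ n - 1) * ∏ k, ∏ p ∈ P k, (1 + ω p)
        ≤ (2 ^ n * (1 / Z)) * Real.exp (F Z) := by
          refine mul_le_mul hE h1 (Finset.prod_nonneg fun k _ => Finset.prod_nonneg fun p hp => by
            linarith [(hωP k p hp).1]) (by positivity)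
      _ = 2 ^ n * ((1 / Z) * Real.exp (F Z)) := by ring
      _ ≤ 2 ^ n * (Real.exp (-F Z) * Real.exp (|2 * A0 * Real.log (2 * A0)| + 2 * A0 * M)) :=
          mul_le_mul_of_nonneg_left h5 (by positivity)
      _ = _ := by ring
  -- from Z to H
  have hFH : ∑ p ∈ (Icc 1 H).filter (fun p => p ∈ S), ω p ≤ F Z + A0 * M := by
    have h1 : ∑ p ∈ (Icc 1 H).filter (fun p => p ∈ S), ω p = F (Z ^ 5) := by
      simp only [hF]
      congr 1
      ext p
      simp only [mem_filter, mem_Icc]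
      constructor
      · rintro ⟨h2, h3⟩
        refine ⟨h2, h3, ?_⟩
        rw [← hHZ]
        exact_mod_cast h2.2
      · rintro ⟨h2, h3, _⟩
        exact ⟨h2, h3⟩
    have hZ5 : Z ≤ Z ^ 5 := by
      calc Z = Z ^ 1 := (pow_one Z).symm
        _ ≤ Z ^ 5 := pow_le_pow_right₀ hZ1.le (by norm_num)
    have h2 := hFU Z (Z ^ 5) hZ0.le hZ5
    have h3 := hM3 Z (by linarith)
    have h4 : A0 * (sieve_U (Z ^ 5) - sieve_U Z) ≤ A0 * M := mul_le_mul_of_nonneg_left (by linarith) hA0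
    rw [h1]
    linarith
  have hFH' : Real.exp (-F Z) ≤ Real.exp (A0 * M) * Real.exp (-∑ p ∈ (Icc 1 H).filter (fun p => p ∈ S), ω p) := by
    rw [← Real.exp_add, Real.exp_le_exp]
    linarith
  -- comparison of the sets
  have hsub : (Nat.card {x : Fin n → ℤ // (∀ c, a c ≤ x c ∧ x c < a c + H) ∧
        ∀ p ∈ S, (fun c => ((x c : ℤ) : ZMod p)) ∉ Ω p} : ℝ) ≤
      (Nat.card {x : Fin n → ℤ // (∀ c, a c ≤ x c ∧ x c < a c + H) ∧
        ∀ k, ∀ p ∈ P k, (fun c => ((x c : ℤ) : ZMod p)) ∉ Ω p} : ℝ) := by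
    have hfin : Finite {x : Fin n → ℤ // (∀ c, a c ≤ x c ∧ x c < a c + H) ∧
        ∀ k, ∀ p ∈ P k, (fun c => ((x c : ℤ) : ZMod p)) ∉ Ω p} := by
      refine Set.Finite.subset (Fintype.piFinset (fun c => Finset.Ico (a c) (a c + H))).finite_toSet ?_
      intro x hx
      simp only [Finset.mem_coe, Fintype.mem_piFinset, Finset.mem_Ico]
      exact hx.1
    rw [Nat.cast_le]
    refine Nat.card_le_card_of_injective
      (fun x => ⟨x.1, x.2.1, fun k p hp => x.2.2 p (hPS k p hp).1⟩) ?_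
    intro x y hxy
    simp only [Subtype.mk.injEq] at hxy
    exact Subtype.ext hxy
  have hV : ∏ _c : Fin n, (H : ℝ) = (H : ℝ) ^ n := by
    rw [Finset.prod_const, Finset.card_univ, Fintype.card_fin]
  refine hsub.trans (hmulti.trans ?_)
  rw [hV]
  have hH0 : (0 : ℝ) ≤ (H : ℝ) ^ n := by positivity
  set K : ℝ := Real.exp (|2 * A0 * Real.log (2 * A0)| + 2 * A0 * M) with hK
  have h2B : Real.exp (2 * B) = Real.exp (4 * Real.exp ((Real.exp 1 + 2) * Ws)) := by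
    rw [hB]; ring_nf
  calc (H : ℝ) ^ n * (∏ k, (∏ p ∈ P k, (1 - ω p) + 2 * TW.tl (D k) (P k) ω) +
        ((1 + 1 / Z) ^ Fintype.card (Fin n) - 1) * ∏ k, ∏ p ∈ P k, (1 + ω p))
      ≤ (H : ℝ) ^ n * (Real.exp (-F Z) * Real.exp (2 * B) + Real.exp (-F Z) * (2 ^ n * K)) :=
        mul_le_mul_of_nonneg_left (add_le_add hmain herr) hH0
    _ = (H : ℝ) ^ n * (Real.exp (2 * B) + 2 ^ n * K) * Real.exp (-F Z) := by ring
    _ ≤ (H : ℝ) ^ n * (Real.exp (2 * B) + 2 ^ n * K) *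
        (Real.exp (A0 * M) * Real.exp (-∑ p ∈ (Icc 1 H).filter (fun p => p ∈ S), ω p)) :=
        mul_le_mul_of_nonneg_left hFH' (by positivity)
    _ = _ := by rw [h2B]; ring

open Classical in
theorem sieve (n : ℕ) (A0 : ℝ) (hA0 : 0 ≤ A0) : ∃ C : ℝ, 0 < C ∧ ∀ (S : Set ℕ) (ω : ℕ → ℝ) (Ω : (p : ℕ) → Set (Fin n → ZMod p)),
    (∀ p ∈ S, p.Prime) → (∀ p ∈ S, 0 ≤ ω p ∧ ω p ≤ 1 / 2 ∧ ω p ≤ A0 / p) →
    (∀ p ∈ S, (Nat.card {w : Fin n → ZMod p // w ∈ Ω p} : ℝ) = ω p * (p : ℝ) ^ n) →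
    ∀ (a : Fin n → ℤ) (H : ℕ), 1 ≤ H →
      (Nat.card {x : Fin n → ℤ // (∀ c, a c ≤ x c ∧ x c < a c + H) ∧
        ∀ p ∈ S, (fun c => ((x c : ℤ) : ZMod p)) ∉ Ω p} : ℝ) ≤
      C * (H : ℝ) ^ n * Real.exp (-∑ p ∈ (Icc 1 H).filter (fun p => p ∈ S), ω p) := by
  obtain ⟨M, hM, hM1, hM2, hM3⟩ := sieve_mert
  set C1 : ℝ := (Real.exp (4 * Real.exp ((Real.exp 1 + 2) * (A0 * M))) +
        2 ^ n * Real.exp (|2 * A0 * Real.log (2 * A0)| + 2 * A0 * M)) * Real.exp (A0 * M) with hC1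
  have hC1pos : 0 < C1 := by rw [hC1]; positivity
  refine ⟨C1 + Real.exp 1024, by positivity, ?_⟩
  intro S ω Ω hS hω hΩ a H hH
  set E : ℝ := ∑ p ∈ (Icc 1 H).filter (fun p => p ∈ S), ω p with hE
  have hX : 0 ≤ (H : ℝ) ^ n * Real.exp (-E) := by positivity
  by_cases hbig : 1024 ≤ H
  · set Z : ℝ := (H : ℝ) ^ ((1 : ℝ) / 5) with hZ
    have hH0 : (0 : ℝ) ≤ H := Nat.cast_nonneg H
    have hZ5 : (H : ℝ) = Z ^ 5 := by
      rw [hZ, ← Real.rpow_natCast, ← Real.rpow_mul hH0]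
      norm_num
    have hZ4 : 4 ≤ Z := by
      by_contra h
      push Not at h
      have hZ0 : 0 ≤ Z := by positivity
      have h1 : Z ^ 5 < 4 ^ 5 := pow_lt_pow_left₀ h hZ0 (by norm_num)
      rw [← hZ5] at h1
      have h2 : (1024 : ℝ) ≤ H := by exact_mod_cast hbig
      norm_num at h1
      linarith
    have h1 := sieve_big n A0 M hA0 hM1 hM2 hM3 S ω Ω hS hω hΩ a H Z hZ4 hZ5
    rw [← hC1, ← hE, mul_assoc] at h1
    rw [mul_assoc]
    refine h1.trans (mul_le_mul_of_nonneg_right ?_ hX)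
    linarith [Real.exp_pos 1024]
  · push Not at hbig
    have h1 : (Nat.card {x : Fin n → ℤ // (∀ c, a c ≤ x c ∧ x c < a c + H) ∧
        ∀ p ∈ S, (fun c => ((x c : ℤ) : ZMod p)) ∉ Ω p} : ℝ) ≤ (H : ℝ) ^ n := by
      have h2 : Nat.card {x : Fin n → ℤ // (∀ c, a c ≤ x c ∧ x c < a c + H) ∧
          ∀ p ∈ S, (fun c => ((x c : ℤ) : ZMod p)) ∉ Ω p} ≤
          Nat.card (Fintype.piFinset (fun c => Finset.Ico (a c) (a c + H)) : Finset (Fin n → ℤ)) := by
        refine Nat.card_le_card_of_injective (fun x => ⟨x.1, ?_⟩) ?_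
        · simp only [Fintype.mem_piFinset, Finset.mem_Ico]
          exact x.2.1
        · intro x y hxy
          simp only [Subtype.mk.injEq] at hxy
          exact Subtype.ext hxy
      rw [Nat.card_eq_fintype_card (α := (Fintype.piFinset (fun c => Finset.Ico (a c) (a c + H)) : Finset (Fin n → ℤ))),
        Fintype.card_coe, Fintype.card_piFinset] at h2
      simp only [Int.card_Ico, add_sub_cancel_left, Int.toNat_natCast, Finset.prod_const, Finset.card_univ,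
        Fintype.card_fin] at h2
      exact_mod_cast h2
    have h2 : E ≤ 1024 := by
      have h3 : E ≤ ∑ p ∈ (Icc 1 H).filter (fun p => p ∈ S), (1 : ℝ) :=
        Finset.sum_le_sum fun p hp => by linarith [(hω p (mem_filter.mp hp).2).2.1]
      rw [Finset.sum_const, nsmul_eq_mul, mul_one] at h3
      have h4 : ((Icc 1 H).filter (fun p => p ∈ S)).card ≤ H :=
        (Finset.card_filter_le _ _).trans (by simp)
      have h5 : (((Icc 1 H).filter (fun p => p ∈ S)).card : ℝ) ≤ H := by exact_mod_cast h4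
      have h6 : (H : ℝ) ≤ 1024 := by exact_mod_cast hbig.le
      linarith
    have h3 : 1 ≤ Real.exp 1024 * Real.exp (-E) := by
      rw [← Real.exp_add]
      exact Real.one_le_exp (by linarith)
    calc (Nat.card {x : Fin n → ℤ // (∀ c, a c ≤ x c ∧ x c < a c + H) ∧
        ∀ p ∈ S, (fun c => ((x c : ℤ) : ZMod p)) ∉ Ω p} : ℝ) ≤ (H : ℝ) ^ n := h1
      _ ≤ (H : ℝ) ^ n * (Real.exp 1024 * Real.exp (-E)) := le_mul_of_one_le_right (by positivity) h3
      _ = Real.exp 1024 * ((H : ℝ) ^ n * Real.exp (-E)) := by ring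
      _ ≤ (C1 + Real.exp 1024) * ((H : ℝ) ^ n * Real.exp (-E)) := by
          refine mul_le_mul_of_nonneg_right ?_ hX
          linarith
      _ = (C1 + Real.exp 1024) * (H : ℝ) ^ n * Real.exp (-E) := by ring

end FD
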