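import Pool.Agent.Lib.MP_9b5ce2_ntD.CntB
import Pool.Agent.Lib.MP_9b5ce2_ntD.Sieve

/-! The number of vectors in a cube satisfying all local conditions.

`sieve 4 4` with `S = {p | p.Prime ∧ p % 8 = 1 ∧ B < p}`, `Ω p = {w | ¬ Al p w}`, `ω p = Nat.card {w // ¬ Al p w} / p ^ 4` (`card_bad`), `a c = -H`, side `2 H + 1`.
`∑_{p ∈ S, p ≤ 2 H + 1} ω p ≥ ∑_{p ∈ S, p ≤ H} ω p ≥ 15/4 ∑_{p ∈ S, p ≤ H} 1/p - 6 ∑ 1/p ^ 2 ≥ 15/4 (TT H - B) - 12` (the primes `≤ B` contribute at most `B` to `TT`), and `(2 H + 1) ^ 4 ≤ 81 H ^ 4`. -/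

namespace FD

open Finset

private theorem alLe_sq (H : ℕ) : ∑ p ∈ Icc 1 H, (1 : ℝ) / (p : ℝ) ^ 2 ≤ 2 := by
  have h := sum_Ioo_inv_sq_le (α := ℝ) 0 (H + 1)
  have e : Icc 1 H = Ioo 0 (H + 1) := by
    ext x
    simp only [mem_Icc, mem_Ioo]
    omega
  rw [e]
  calc ∑ p ∈ Ioo 0 (H + 1), (1 : ℝ) / (p : ℝ) ^ 2 = ∑ p ∈ Ioo 0 (H + 1), ((p : ℝ) ^ 2)⁻¹ := by
        refine sum_congr rfl fun p _ => one_div _
    _ ≤ 2 / ((0 : ℕ) + 1 : ℝ) := h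
    _ = 2 := by norm_num

open Classical in
private theorem alLe_tt (B H : ℕ) (S : Set ℕ) (hS : ∀ p : ℕ, p.Prime → p % 8 = 1 → B < p → p ∈ S) :
    TT (H : ℝ) ≤ ∑ p ∈ (Icc 1 H).filter (fun p => p ∈ S), (1 : ℝ) / (p : ℝ) + B := by
  unfold TT PT.PS
  rw [Nat.floor_natCast]
  have h1 : ∀ p ∈ (Icc 1 H).filter Nat.Prime, PT.ind P8 p / (p : ℝ) ≤
      (if p ∈ S then (1 : ℝ) / (p : ℝ) else 0) +
        (if p ≤ B then 1 else 0) := by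
    intro p hp
    rw [mem_filter, mem_Icc] at hp
    have hp1 : (1 : ℝ) ≤ p := by exact_mod_cast hp.1.1
    have hle : (1 : ℝ) / p ≤ 1 := by
      rw [div_le_one (by linarith)]
      exact hp1
    have hpos : (0 : ℝ) ≤ 1 / p := by positivity
    unfold PT.ind
    by_cases h8 : p ∈ P8
    · rw [if_pos h8]
      by_cases hB : p ≤ B
      · rw [if_pos hB]
        split_ifs <;> linarith
      · rw [if_neg hB, if_pos (hS p hp.2 h8 (not_le.1 hB))]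
        linarith
    · rw [if_neg h8, zero_div]
      split_ifs <;> linarith
  refine (sum_le_sum h1).trans ?_
  rw [sum_add_distrib]
  refine add_le_add ?_ ?_
  · rw [← sum_filter]
    refine sum_le_sum_of_subset_of_nonneg ?_ fun p _ _ => by positivity
    intro p hp
    rw [mem_filter, mem_filter] at hp
    rw [mem_filter]
    exact ⟨hp.1.1, hp.2⟩
  · rw [← sum_filter, sum_const, nsmul_eq_mul, mul_one]
    have h2 : (((Icc 1 H).filter Nat.Prime).filter fun p => p ≤ B) ⊆ Icc 1 B := by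
      intro p hp
      rw [mem_filter, mem_filter, mem_Icc] at hp
      rw [mem_Icc]
      exact ⟨hp.1.1.1, hp.2⟩
    have h3 := card_le_card h2
    rw [Nat.card_Icc, Nat.add_sub_cancel] at h3
    exact_mod_cast h3

theorem al_le (B : ℕ) : ∃ A : ℝ, 0 < A ∧ ∀ H : ℕ, 1 ≤ H →
    (Nat.card {a : Fin 4 → ℤ // (∀ i, |a i| ≤ (H : ℤ)) ∧ ∀ p : ℕ, p.Prime → B < p → Al p (fun i => (a i : ZMod p))} : ℝ) ≤
      A * (H : ℝ) ^ 4 * Real.exp (-(15 / 4 * TT H)) := by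
  classical
  obtain ⟨C, hC, hs⟩ := sieve 4 4 (by norm_num)
  refine ⟨C * 81 * Real.exp (15 / 4 * B + 12), by positivity, fun H hH => ?_⟩
  obtain ⟨S, hS⟩ : ∃ S : Set ℕ, ∀ p, p ∈ S ↔ p.Prime ∧ p % 8 = 1 ∧ B < p :=
    ⟨{p : ℕ | p.Prime ∧ p % 8 = 1 ∧ B < p}, fun p => Iff.rfl⟩
  set ω : ℕ → ℝ := fun p => (Nat.card {w : Fin 4 → ZMod p // ¬ Al p w} : ℝ) / (p : ℝ) ^ 4 with hω
  have hbad : ∀ p ∈ S, (15 / 4 : ℝ) / p - 6 / (p : ℝ) ^ 2 ≤ ω p ∧ ω p ≤ 4 / p ∧ ω p ≤ 1 / 2 := by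
    intro p hp
    have : Fact p.Prime := ⟨((hS p).1 hp).1⟩
    exact card_bad p ((hS p).1 hp).2.1
  have h1 := hs S ω (fun p => {w | ¬ Al p w}) (fun p hp => ((hS p).1 hp).1)
    (fun p hp => ⟨by simp only [hω]; positivity, (hbad p hp).2.2, (hbad p hp).2.1⟩)
    (fun p hp => by
      have hp0 : (p : ℝ) ≠ 0 := by exact_mod_cast ((hS p).1 hp).1.ne_zero
      simp only [hω]
      rw [div_mul_cancel₀ _ (pow_ne_zero 4 hp0)]
      rfl)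
    (fun _ => -(H : ℤ)) (2 * H + 1) (by omega)
  have h2 : (Nat.card {a : Fin 4 → ℤ // (∀ i, |a i| ≤ (H : ℤ)) ∧
      ∀ p : ℕ, p.Prime → B < p → Al p (fun i => (a i : ZMod p))} : ℝ) ≤
      (Nat.card {x : Fin 4 → ℤ // (∀ c, -(H : ℤ) ≤ x c ∧ x c < -(H : ℤ) + ((2 * H + 1 : ℕ) : ℤ)) ∧
        ∀ p ∈ S, (fun c => ((x c : ℤ) : ZMod p)) ∉ {w : Fin 4 → ZMod p | ¬ Al p w}} : ℝ) := by
    have hfin : ({x : Fin 4 → ℤ | (∀ c, -(H : ℤ) ≤ x c ∧ x c < -(H : ℤ) + ((2 * H + 1 : ℕ) : ℤ)) ∧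
        ∀ p ∈ S, (fun c => ((x c : ℤ) : ZMod p)) ∉ {w : Fin 4 → ZMod p | ¬ Al p w}}).Finite := by
      refine Set.Finite.subset (Set.finite_Icc (fun _ : Fin 4 => -(H : ℤ)) (fun _ => -(H : ℤ) + ((2 * H + 1 : ℕ) : ℤ))) ?_
      intro x hx
      exact ⟨fun c => (hx.1 c).1, fun c => (hx.1 c).2.le⟩
    have := Nat.card_mono hfin (s := {a : Fin 4 → ℤ | (∀ i, |a i| ≤ (H : ℤ)) ∧
      ∀ p : ℕ, p.Prime → B < p → Al p (fun i => (a i : ZMod p))}) (by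
        intro a ha
        refine ⟨fun c => ?_, fun p hp hn => hn (ha.2 p ((hS p).1 hp).1 ((hS p).1 hp).2.2)⟩
        have := abs_le.1 (ha.1 c)
        push_cast
        constructor <;> omega)
    exact_mod_cast this
  refine h2.trans (h1.trans ?_)
  have hH1 : (1 : ℝ) ≤ H := by exact_mod_cast hH
  have h3 : (((2 * H + 1 : ℕ) : ℝ)) ^ 4 ≤ 81 * (H : ℝ) ^ 4 := by
    have : ((2 * H + 1 : ℕ) : ℝ) ≤ 3 * H := by
      push_cast
      linarith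
    calc (((2 * H + 1 : ℕ) : ℝ)) ^ 4 ≤ (3 * (H : ℝ)) ^ 4 := pow_le_pow_left₀ (by positivity) this 4
      _ = 81 * (H : ℝ) ^ 4 := by ring
  have h4 : 15 / 4 * TT (H : ℝ) - (15 / 4 * B + 12) ≤ ∑ p ∈ (Icc 1 (2 * H + 1)).filter (fun p => p ∈ S), ω p := by
    have a1 : ∑ p ∈ (Icc 1 H).filter (fun p => p ∈ S), ω p ≤ ∑ p ∈ (Icc 1 (2 * H + 1)).filter (fun p => p ∈ S), ω p := by
      refine sum_le_sum_of_subset_of_nonneg ?_ fun p _ _ => by simp only [hω]; positivity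
      intro p hp
      rw [mem_filter, mem_Icc] at hp ⊢
      exact ⟨⟨hp.1.1, by omega⟩, hp.2⟩
    have a2 : ∑ p ∈ (Icc 1 H).filter (fun p => p ∈ S), ((15 / 4 : ℝ) / p - 6 / (p : ℝ) ^ 2) ≤
        ∑ p ∈ (Icc 1 H).filter (fun p => p ∈ S), ω p :=
      sum_le_sum fun p hp => (hbad p (mem_filter.1 hp).2).1
    have a3 : ∑ p ∈ (Icc 1 H).filter (fun p => p ∈ S), ((15 / 4 : ℝ) / p - 6 / (p : ℝ) ^ 2) =
        15 / 4 * ∑ p ∈ (Icc 1 H).filter (fun p => p ∈ S), (1 : ℝ) / p -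
          6 * ∑ p ∈ (Icc 1 H).filter (fun p => p ∈ S), (1 : ℝ) / (p : ℝ) ^ 2 := by
      rw [mul_sum, mul_sum, ← sum_sub_distrib]
      refine sum_congr rfl fun p _ => ?_
      ring
    have a4 : ∑ p ∈ (Icc 1 H).filter (fun p => p ∈ S), (1 : ℝ) / (p : ℝ) ^ 2 ≤ 2 :=
      (sum_le_sum_of_subset_of_nonneg (filter_subset _ _) fun p _ _ => by positivity).trans (alLe_sq H)
    have a5 := alLe_tt B H S fun p h1 h2 h3 => (hS p).2 ⟨h1, h2, h3⟩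
    linarith
  have h5 : Real.exp (-∑ p ∈ (Icc 1 (2 * H + 1)).filter (fun p => p ∈ S), ω p) ≤
      Real.exp (15 / 4 * B + 12) * Real.exp (-(15 / 4 * TT (H : ℝ))) := by
    rw [← Real.exp_add]
    refine Real.exp_le_exp.2 ?_
    linarith
  calc C * (((2 * H + 1 : ℕ) : ℝ)) ^ 4 * Real.exp (-∑ p ∈ (Icc 1 (2 * H + 1)).filter (fun p => p ∈ S), ω p)
      ≤ C * (81 * (H : ℝ) ^ 4) * (Real.exp (15 / 4 * B + 12) * Real.exp (-(15 / 4 * TT (H : ℝ)))) := by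
        refine mul_le_mul (mul_le_mul_of_nonneg_left h3 hC.le) h5 (Real.exp_pos _).le (by positivity)
    _ = C * 81 * Real.exp (15 / 4 * B + 12) * (H : ℝ) ^ 4 * Real.exp (-(15 / 4 * TT (H : ℝ))) := by ring

end FD
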