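import Pool.Agent.Lib.MP_9b5ce2_ntD.Fld

/-! The class group modulo fourth powers.

Copy the proof of `TW.cls` (`Pool/Agent/Lib/MP_10e784_ag/TW/TWRep.lean`) and replace the squares by fourth powers. -/

namespace FD

open NumberField Polynomial

theorem cls4 : ∃ B : ℕ, 1 ≤ B ∧ ∀ (α : 𝓞 E) (𝔡 𝔞 : Ideal (𝓞 E)), α ≠ 0 → Ideal.span {α} = 𝔡 * 𝔞 ^ 4 →
    ∃ (𝔯 : Ideal (𝓞 E)) (β x y : 𝓞 E), x ≠ 0 ∧ y ≠ 0 ∧ α * x ^ 4 = β * y ^ 4 ∧ Ideal.span {β} = 𝔡 * 𝔯 ^ 4 ∧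
      Ideal.absNorm 𝔯 ≤ B ∧ Ideal.absNorm 𝔯 ≠ 0 := by
  classical
  choose I hI using (ClassGroup.mk0_surjective : Function.Surjective (ClassGroup.mk0 (R := 𝓞 E)))
  refine ⟨∑ c, Ideal.absNorm (I c : Ideal (𝓞 E)) + 1, Nat.le_add_left 1 _, ?_⟩
  intro α 𝔡 𝔞 hα h
  have h𝔞 : 𝔞 ≠ 0 := by
    rintro rfl
    rw [zero_pow four_ne_zero, mul_zero] at h
    exact hα (Ideal.span_singleton_eq_bot.1 h)
  set a : nonZeroDivisors (Ideal (𝓞 E)) := ⟨𝔞, mem_nonZeroDivisors_of_ne_zero h𝔞⟩ with ha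
  set c := ClassGroup.mk0 a with hc
  have h1 : ClassGroup.mk0 a = ClassGroup.mk0 (I c) := by rw [hI]
  obtain ⟨x, y, hx, hy, hxy⟩ := ClassGroup.mk0_eq_mk0_iff.1 h1
  have hy2 : y ^ 4 ≠ 0 := pow_ne_zero 4 hy
  have h2 : Ideal.span {α * x ^ 4} = Ideal.span {y ^ 4} * (𝔡 * (I c : Ideal (𝓞 E)) ^ 4) := by
    calc Ideal.span {α * x ^ 4} = Ideal.span {α} * Ideal.span {x} ^ 4 := by
          rw [Ideal.span_singleton_pow, Ideal.span_singleton_mul_span_singleton]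
      _ = 𝔡 * (Ideal.span {x} * 𝔞) ^ 4 := by rw [h]; ring
      _ = 𝔡 * (Ideal.span {y} * (I c : Ideal (𝓞 E))) ^ 4 := by rw [← hxy]
      _ = Ideal.span {y ^ 4} * (𝔡 * (I c : Ideal (𝓞 E)) ^ 4) := by
          rw [← Ideal.span_singleton_pow]; ring
  have h3 : α * x ^ 4 ∈ Ideal.span {y ^ 4} := by
    have h4 : α * x ^ 4 ∈ Ideal.span {y ^ 4} * (𝔡 * (I c : Ideal (𝓞 E)) ^ 4) := by
      rw [← h2]
      exact Ideal.mem_span_singleton_self _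
    have h5 : Ideal.span {y ^ 4} * (𝔡 * (I c : Ideal (𝓞 E)) ^ 4) ≤ Ideal.span {y ^ 4} :=
      Ideal.mul_le_left
    exact h5 h4
  obtain ⟨β, hβ⟩ := Ideal.mem_span_singleton'.1 h3
  refine ⟨I c, β, x, y, hx, hy, hβ.symm, ?_, ?_, ?_⟩
  · have h5 : Ideal.span {y ^ 4} * Ideal.span {β}
        = Ideal.span {y ^ 4} * (𝔡 * (I c : Ideal (𝓞 E)) ^ 4) := by
      rw [← h2, ← hβ, Ideal.span_singleton_mul_span_singleton, mul_comm]
    refine mul_left_cancel₀ ?_ h5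
    intro h6
    exact hy2 (Ideal.span_singleton_eq_bot.1 h6)
  · have h7 : Ideal.absNorm (I c : Ideal (𝓞 E)) ≤ ∑ c, Ideal.absNorm (I c : Ideal (𝓞 E)) :=
      Finset.single_le_sum (f := fun c => Ideal.absNorm (I c : Ideal (𝓞 E)))
        (fun _ _ => Nat.zero_le _) (Finset.mem_univ c)
    omega
  · rw [Ne, Ideal.absNorm_eq_zero_iff]
    exact nonZeroDivisors.coe_ne_zero (I c)

end FD
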