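import Pool.Agent.Lib.MP_9b5ce2_ntD.Defs

/-! The number of residue classes modulo `p ≡ 1 mod 8` satisfying the local condition.

Let `T` be the set of the `t : ZMod p` with `t ^ 4 = -1`; it has exactly four elements (`(ZMod p)ˣ` is cyclic of order divisible by `8`: there is `g` of order `8`, `T = {g, g ^ 3, g ^ 5, g ^ 7}`; at most four roots of `X ^ 4 + 1`).
The map `w ↦ (ev w t)_{t ∈ T}` from `Fin 4 → ZMod p` to `T → ZMod p` is bijective (injective: a polynomial of degree `< 4` with four zeros is zero, e.g. `Matrix.det_vandermonde_ne_zero_iff` or `Polynomial.eq_zero_of_natDegree_lt_card_of_eval_eq_zero`; both sides have `p ^ 4` elements).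
So the number of `w` with `Al p w` is the number of `u : T → ZMod p` such that all `u t ≠ 0` (`(p - 1) ^ 4` of them), or there are `t₀ ∈ T`, `s ≠ 0` with `u t₀ = 0` and `u t = s (t₀ - t) b ^ 4`, `b ≠ 0`, for all `t ≠ t₀`.  The second set is disjoint from the first one and is the disjoint union over `t₀` of sets `V t₀`:
let `F4` be the group of the nonzero fourth powers, of order `(p - 1) / 4` (kernel of `b ↦ b ^ 4` on `(ZMod p)ˣ` has four elements); `V t₀` is in bijection with the triples `(v_t)_{t ≠ t₀}` (`v_t = u t / (t₀ - t)`) of elements of one and the same coset of `F4` (`s` may be changed by a fourth power):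
`4 ((p - 1) / 4) ^ 3` triples (first `v_1` is arbitrary, `p - 1` choices, then `v_2, v_3 ∈ v_1 F4`).  So `4 * #V = 4 * 4 * (p - 1) * ((p - 1) / 4) ^ 2 = (p - 1) ^ 3`, `4 #{Al} = 4 (p - 1) ^ 4 + (p - 1) ^ 3`. -/

namespace FD

open Finset

private theorem Cnt_g (p : ℕ) [Fact p.Prime] (hp : p % 8 = 1) : ∃ g : ZMod p, g ^ 4 = -1 := by
  have hpp : p.Prime := Fact.out
  obtain ⟨G, hG⟩ := IsCyclic.exists_generator (α := (ZMod p)ˣ)
  have h1 : orderOf G = p - 1 := by
    rw [orderOf_eq_card_of_forall_mem_zpowers hG, Nat.card_eq_fintype_card, ZMod.card_units]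
  have h2 : 2 ≤ p := hpp.two_le
  have h3 : 8 * ((p - 1) / 8) = p - 1 := by omega
  have h4 : (p - 1) / 8 ≠ 0 := by omega
  have h5 : orderOf (G ^ ((p - 1) / 8)) = 8 := by
    rw [orderOf_pow_of_dvd h4 ⟨8, by rw [h1]; omega⟩, h1]
    exact Nat.div_eq_of_eq_mul_left (Nat.pos_of_ne_zero h4) h3.symm
  set u := G ^ ((p - 1) / 8) with hu
  have h6 : u ^ 8 = 1 := by rw [← h5]; exact pow_orderOf_eq_one u
  have h7 : u ^ 4 ≠ 1 := by
    intro h
    have := orderOf_dvd_of_pow_eq_one h
    rw [h5] at this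
    omega
  refine ⟨(u : ZMod p), ?_⟩
  have h8 : ((u : ZMod p) ^ 4 - 1) * ((u : ZMod p) ^ 4 + 1) = 0 := by
    have : (u : ZMod p) ^ 8 = 1 := by rw [← Units.val_pow_eq_pow_val, h6, Units.val_one]
    linear_combination this
  rcases mul_eq_zero.1 h8 with h | h
  · exfalso
    apply h7
    ext
    push_cast
    linear_combination h
  · linear_combination h

private theorem Cnt_roots (p : ℕ) [Fact p.Prime] (hp : p % 8 = 1) :
    ∃ r : Fin 4 → ZMod p, Function.Injective r ∧ ∀ t : ZMod p, t ^ 4 = -1 ↔ ∃ j, r j = t := by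
  obtain ⟨g, hg⟩ := Cnt_g p hp
  have h2 : (2 : ZMod p) ≠ 0 := by
    intro h
    have h3 : ((2 : ℕ) : ZMod p) = 0 := by exact_mod_cast h
    rw [ZMod.natCast_eq_zero_iff] at h3
    have := Nat.le_of_dvd (by norm_num) h3
    have h4 := (Fact.out : p.Prime).two_le
    omega
  have hg0 : g ≠ 0 := by
    rintro rfl
    have : (1 : ZMod p) = 0 := by linear_combination hg
    exact one_ne_zero this
  have a1 : g ^ 2 ≠ 1 := by
    intro h
    have : (2 : ZMod p) = 0 := by linear_combination hg - (g ^ 2 + 1) * h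
    exact h2 this
  have a2 : g ^ 2 ≠ -1 := by
    intro h
    have : (2 : ZMod p) = 0 := by linear_combination hg - (g ^ 2 - 1) * h
    exact h2 this
  have b1 : g ≠ g ^ 3 := fun h => a1 (mul_left_cancel₀ hg0 (by linear_combination -h))
  have b2 : g ≠ -g := fun h => h2 (mul_left_cancel₀ hg0 (by linear_combination h))
  have b3 : g ≠ -g ^ 3 := fun h => a2 (mul_left_cancel₀ hg0 (by linear_combination h))
  have b4 : g ^ 3 ≠ -g ^ 3 := fun h => h2 (mul_left_cancel₀ (pow_ne_zero 3 hg0) (by linear_combination h))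
  refine ⟨![g, g ^ 3, -g, -g ^ 3], ?_, ?_⟩
  · intro i j hij
    fin_cases i <;> fin_cases j <;> simp at hij ⊢
    · exact b1 hij
    · exact b2 hij
    · exact b3 hij
    · exact b1 hij.symm
    · exact b3 (by linear_combination hij)
    · exact b4 hij
    · exact b2 hij.symm
    · exact b3 (by linear_combination -hij)
    · exact b1 hij
    · exact b3 hij.symm
    · exact b4 hij.symm
    · exact b1 hij.symm
  · intro t
    constructor
    · intro ht
      have : (t - g) * ((t - g ^ 3) * ((t - -g) * (t - -g ^ 3))) = 0 := by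
        linear_combination ht + (- t ^ 2 * g ^ 2 + g ^ 4 - 1) * hg
      rcases mul_eq_zero.1 this with h | h
      · exact ⟨0, by simp; linear_combination -h⟩
      rcases mul_eq_zero.1 h with h | h
      · exact ⟨1, by simp; linear_combination -h⟩
      rcases mul_eq_zero.1 h with h | h
      · exact ⟨2, by simp; linear_combination -h⟩
      · exact ⟨3, by simp; linear_combination -h⟩
    · rintro ⟨j, rfl⟩
      have h12 : g ^ 12 = -1 := by linear_combination (g ^ 8 - g ^ 4 + 1) * hg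
      fin_cases j
      · simpa using hg
      · simp; linear_combination h12
      · simp; linear_combination hg
      · simp; linear_combination h12

/-- the set of the vectors of values with zero at `j₀` -/
private def CntV (p : ℕ) (r : Fin 4 → ZMod p) (j₀ : Fin 4) (u : Fin 4 → ZMod p) : Prop :=
  ∃ s : ZMod p, s ≠ 0 ∧ u j₀ = 0 ∧ ∀ j, j ≠ j₀ → ∃ b : ZMod p, b ≠ 0 ∧ u j = s * (r j₀ - r j) * b ^ 4

private theorem Cnt_F4 (p : ℕ) [Fact p.Prime] (hp : p % 8 = 1) :
    4 * Nat.card (powMonoidHom 4 : (ZMod p)ˣ →* (ZMod p)ˣ).range = p - 1 := by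
  have h1 := Subgroup.card_mul_index (powMonoidHom 4 : (ZMod p)ˣ →* (ZMod p)ˣ).range
  have h2 := IsCyclic.index_powMonoidHom_range (G := (ZMod p)ˣ) 4
  have h3 : Nat.card (ZMod p)ˣ = p - 1 := by rw [Nat.card_eq_fintype_card, ZMod.card_units]
  rw [h3] at h1 h2
  have h4 : (p - 1).gcd 4 = 4 := by
    apply Nat.gcd_eq_right
    have := (Fact.out : p.Prime).two_le
    omega
  rw [h2, h4] at h1
  omega

private theorem Cnt_cardV (p : ℕ) [Fact p.Prime] (r : Fin 4 → ZMod p)
    (hr : Function.Injective r) (j₀ : Fin 4) :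
    Nat.card {u : Fin 4 → ZMod p // CntV p r j₀ u} =
      (p - 1) * (Nat.card (powMonoidHom 4 : (ZMod p)ˣ →* (ZMod p)ˣ).range * Nat.card (powMonoidHom 4 : (ZMod p)ˣ →* (ZMod p)ˣ).range) := by
  set R := (powMonoidHom 4 : (ZMod p)ˣ →* (ZMod p)ˣ).range with hR
  let y : (ZMod p)ˣ × R × R → Fin 3 → ZMod p := fun q =>
    ![(q.1 : ZMod p), (q.1 : ZMod p) * ((q.2.1 : (ZMod p)ˣ) : ZMod p), (q.1 : ZMod p) * ((q.2.2 : (ZMod p)ˣ) : ZMod p)]
  let f0 : (ZMod p)ˣ × R × R → (Fin 4 → ZMod p) := fun q j => (r j₀ - r j) * (Fin.insertNth j₀ (0 : ZMod p) (y q) : Fin 4 → ZMod p) j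
  have hne : ∀ i : Fin 3, r j₀ - r (j₀.succAbove i) ≠ 0 := fun i h =>
    (Fin.succAbove_ne j₀ i) (hr (sub_eq_zero.1 h)).symm
  have hf0 : ∀ q i, f0 q (j₀.succAbove i) = (r j₀ - r (j₀.succAbove i)) * y q i := by
    intro q i
    simp only [f0, Fin.insertNth_apply_succAbove]
  have hmem : ∀ q, CntV p r j₀ (f0 q) := by
    intro q
    refine ⟨q.1, q.1.ne_zero, by simp [f0], ?_⟩
    intro j hj
    obtain ⟨i, rfl⟩ := Fin.exists_succAbove_eq hj
    obtain ⟨⟨a, ha⟩, ⟨b, hb⟩⟩ := q.2
    rw [hf0]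
    fin_cases i
    · exact ⟨1, one_ne_zero, by simp [y]; ring⟩
    · obtain ⟨c, hc⟩ := q.2.1.2
      refine ⟨c, c.ne_zero, ?_⟩
      have : (((q.2.1 : (ZMod p)ˣ)) : ZMod p) = (c : ZMod p) ^ 4 := by
        rw [← hc]; simp
      simp [y, this]; ring
    · obtain ⟨c, hc⟩ := q.2.2.2
      refine ⟨c, c.ne_zero, ?_⟩
      have : (((q.2.2 : (ZMod p)ˣ)) : ZMod p) = (c : ZMod p) ^ 4 := by
        rw [← hc]; simp
      simp [y, this]; ring
  let f : (ZMod p)ˣ × R × R → {u : Fin 4 → ZMod p // CntV p r j₀ u} := fun q => ⟨f0 q, hmem q⟩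
  have hbij : Function.Bijective f := by
    constructor
    · intro q q' h
      have h1 : f0 q = f0 q' := congrArg Subtype.val h
      have h2 : ∀ i, y q i = y q' i := fun i => by
        have := congrFun h1 (j₀.succAbove i)
        rw [hf0, hf0] at this
        exact mul_left_cancel₀ (hne i) this
      have e0 := h2 0
      have e1 := h2 1
      have e2 := h2 2
      simp only [y, Matrix.cons_val_zero, Matrix.cons_val_one, Matrix.cons_val] at e0 e1 e2
      rw [e0] at e1 e2
      have k0 : q.1 = q'.1 := Units.ext e0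
      have k1 : q.2.1 = q'.2.1 := Subtype.ext (Units.ext (mul_left_cancel₀ q'.1.ne_zero e1))
      have k2 : q.2.2 = q'.2.2 := Subtype.ext (Units.ext (mul_left_cancel₀ q'.1.ne_zero e2))
      exact Prod.ext k0 (Prod.ext k1 k2)
    · rintro ⟨u, s, hs, hu0, hu⟩
      have hb := fun i : Fin 3 => hu (j₀.succAbove i) (Fin.succAbove_ne j₀ i)
      choose b hb0 hb1 using hb
      let bu : Fin 3 → (ZMod p)ˣ := fun i => Units.mk0 (b i) (hb0 i)
      refine ⟨⟨Units.mk0 s hs * bu 0 ^ 4, ⟨(bu 1 / bu 0) ^ 4, ⟨bu 1 / bu 0, rfl⟩⟩, ⟨(bu 2 / bu 0) ^ 4, ⟨bu 2 / bu 0, rfl⟩⟩⟩, ?_⟩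
      apply Subtype.ext
      funext j
      by_cases hj : j = j₀
      · subst hj
        simp only [f, f0, sub_self, zero_mul]
        exact hu0.symm
      · obtain ⟨i, rfl⟩ := Fin.exists_succAbove_eq hj
        change f0 _ _ = u _
        rw [hf0, hb1 i]
        have h0 := hb0 0
        fin_cases i
        · simp [y, bu]; ring
        · simp [y, bu]; field_simp
        · simp [y, bu]; field_simp
  rw [← Nat.card_congr (Equiv.ofBijective f hbij), Nat.card_prod, Nat.card_prod, Nat.card_eq_fintype_card (α := (ZMod p)ˣ),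
    ZMod.card_units]

theorem card_al (p : ℕ) [Fact p.Prime] (hp : p % 8 = 1) :
    4 * Nat.card {w : Fin 4 → ZMod p // Al p w} = 4 * (p - 1) ^ 4 + (p - 1) ^ 3 := by
  classical
  obtain ⟨r, hr, hT⟩ := Cnt_roots p hp
  let Q : (Fin 4 → ZMod p) → Prop := fun u => (∀ j, u j ≠ 0) ∨ ∃ j₀, CntV p r j₀ u
  let Φ : (Fin 4 → ZMod p) → (Fin 4 → ZMod p) := fun w j => ev w (r j)
  have hΦ : Function.Bijective Φ := by
    rw [← Finite.injective_iff_bijective]
    have h1 : IsUnit (Matrix.vandermonde r) :=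
      (Matrix.isUnit_iff_isUnit_det _).2 (isUnit_iff_ne_zero.2 (Matrix.det_vandermonde_ne_zero_iff.2 hr))
    have h2 := Matrix.mulVec_injective_iff_isUnit.2 h1
    intro w w' h
    apply h2
    funext j
    have := congrFun h j
    simp only [Φ, ev] at this
    simp only [Matrix.mulVec, dotProduct, Matrix.vandermonde_apply]
    simpa only [mul_comm] using this
  have hAl : ∀ w, Al p w ↔ Q (Φ w) := by
    intro w
    apply or_congr
    · constructor
      · intro h j
        exact h (r j) ((hT _).2 ⟨j, rfl⟩)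
      · intro h t ht
        obtain ⟨j, rfl⟩ := (hT t).1 ht
        exact h j
    · constructor
      · rintro ⟨t₀, s, ht, hs, h0, h⟩
        obtain ⟨j₀, rfl⟩ := (hT t₀).1 ht
        refine ⟨j₀, s, hs, h0, fun j hj => ?_⟩
        exact h (r j) ((hT _).2 ⟨j, rfl⟩) fun h' => hj (hr h')
      · rintro ⟨j₀, s, hs, h0, h⟩
        refine ⟨r j₀, s, (hT _).2 ⟨j₀, rfl⟩, hs, h0, fun t ht hne => ?_⟩
        obtain ⟨j, rfl⟩ := (hT t).1 ht
        exact h j fun h' => hne (by rw [h'])
  have e1 : Nat.card {w : Fin 4 → ZMod p // Al p w} = Nat.card {u : Fin 4 → ZMod p // Q u} :=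
    Nat.card_congr ((Equiv.ofBijective Φ hΦ).subtypeEquiv hAl)
  rw [e1]
  have e2 : Nat.card {u : Fin 4 → ZMod p // Q u} = (univ.filter fun u : Fin 4 → ZMod p => Q u).card := by
    rw [Nat.card_eq_fintype_card, Fintype.card_subtype]
  have hz : ∀ j₀ u, CntV p r j₀ u → ∀ j, u j = 0 ↔ j = j₀ := by
    rintro j₀ u ⟨s, hs, h0, h⟩ j
    constructor
    · intro hj
      by_contra hne
      obtain ⟨b, hb, hb'⟩ := h j hne
      rw [hj] at hb'
      have : r j₀ - r j ≠ 0 := fun h' => hne (hr (sub_eq_zero.1 h')).symm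
      exact absurd hb'.symm (mul_ne_zero (mul_ne_zero hs this) (pow_ne_zero 4 hb))
    · rintro rfl
      exact h0
  have e3 : (univ.filter fun u : Fin 4 → ZMod p => Q u) =
      (univ.filter fun u : Fin 4 → ZMod p => ∀ j, u j ≠ 0) ∪ univ.biUnion fun j₀ : Fin 4 => univ.filter fun u => CntV p r j₀ u := by
    ext u
    simp [Q]
  have e4 : Disjoint (univ.filter fun u : Fin 4 → ZMod p => ∀ j, u j ≠ 0) (univ.biUnion fun j₀ : Fin 4 => univ.filter fun u => CntV p r j₀ u) := by
    rw [Finset.disjoint_left]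
    intro u hu hu'
    simp only [mem_filter, mem_univ, true_and, mem_biUnion] at hu hu'
    obtain ⟨j₀, hj⟩ := hu'
    exact hu j₀ ((hz j₀ u hj j₀).2 rfl)
  have e5 : (univ.filter fun u : Fin 4 → ZMod p => ∀ j, u j ≠ 0).card = (p - 1) ^ 4 := by
    have : (univ.filter fun u : Fin 4 → ZMod p => ∀ j, u j ≠ 0) = Fintype.piFinset fun _ : Fin 4 => (univ.erase (0 : ZMod p)) := by
      ext u
      simp
    rw [this, Fintype.card_piFinset]
    simp [Finset.card_erase_of_mem, ZMod.card]
  have e6 : (univ.biUnion fun j₀ : Fin 4 => univ.filter fun u => CntV p r j₀ u).card = ∑ j₀ : Fin 4, (univ.filter fun u => CntV p r j₀ u).card := by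
    apply Finset.card_biUnion
    intro i _ j _ hij
    rw [Function.onFun, Finset.disjoint_left]
    intro u hu hu'
    simp only [mem_filter, mem_univ, true_and] at hu hu'
    exact hij ((hz j u hu' i).1 ((hz i u hu i).2 rfl))
  have e7 : ∀ j₀ : Fin 4, (univ.filter fun u => CntV p r j₀ u).card = (p - 1) * (Nat.card (powMonoidHom 4 : (ZMod p)ˣ →* (ZMod p)ˣ).range * Nat.card (powMonoidHom 4 : (ZMod p)ˣ →* (ZMod p)ˣ).range) := by
    intro j₀
    rw [← Cnt_cardV p r hr j₀, Nat.card_eq_fintype_card, Fintype.card_subtype]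
  rw [e2, e3, Finset.card_union_of_disjoint e4, e5, e6, Finset.sum_congr rfl fun j _ => e7 j]
  have h4 := Cnt_F4 p hp
  set R := Nat.card (powMonoidHom 4 : (ZMod p)ˣ →* (ZMod p)ˣ).range
  rw [← h4]
  simp only [Finset.sum_const, Finset.card_univ, Fintype.card_fin, smul_eq_mul]
  ring

end FD
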