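import Pool.Agent.Lib.MP_9b5ce2_ntD.Cnt

/-! The proportion of the excluded classes. -/

namespace FD

open Finset

/-- The proportion of the excluded classes. PROOF: from `card_al` and `Nat.card_pi`-type counts; with `q = 1 / p`:
`ω = 1 - (1 - q) ^ 4 - (1 - q) ^ 3 q / 4 = 15/4 q - 21/4 q ^ 2 + 13/4 q ^ 3 - 3/4 q ^ 4`, and `p ≥ 17`. -/
theorem card_bad (p : ℕ) [Fact p.Prime] (hp : p % 8 = 1) :
    (15 / 4 : ℝ) / p - 6 / (p : ℝ) ^ 2 ≤ (Nat.card {w : Fin 4 → ZMod p // ¬ Al p w} : ℝ) / (p : ℝ) ^ 4 ∧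
    (Nat.card {w : Fin 4 → ZMod p // ¬ Al p w} : ℝ) / (p : ℝ) ^ 4 ≤ 4 / p ∧
    (Nat.card {w : Fin 4 → ZMod p // ¬ Al p w} : ℝ) / (p : ℝ) ^ 4 ≤ 1 / 2 := by
  classical
  have hpp : p.Prime := Fact.out
  have h17 : 17 ≤ p := by
    have h2 := hpp.two_le
    by_contra h
    have h9 : p = 9 := by omega
    subst h9
    exact absurd hpp (by decide)
  have h1 := card_al p hp
  have h2 : Nat.card {w : Fin 4 → ZMod p // Al p w} + Nat.card {w : Fin 4 → ZMod p // ¬ Al p w} = p ^ 4 := by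
    rw [Nat.card_eq_fintype_card, Nat.card_eq_fintype_card]
    have := Fintype.card_subtype_compl (Al p)
    have h3 := Fintype.card_subtype_le (Al p)
    have h4 : Fintype.card (Fin 4 → ZMod p) = p ^ 4 := by
      rw [Fintype.card_fun, ZMod.card, Fintype.card_fin]
    rw [h4] at this h3
    omega
  have h3 : (4 : ℝ) * (Nat.card {w : Fin 4 → ZMod p // Al p w} : ℝ) = 4 * ((p : ℝ) - 1) ^ 4 + ((p : ℝ) - 1) ^ 3 := by
    have : ((4 * Nat.card {w : Fin 4 → ZMod p // Al p w} : ℕ) : ℝ) = ((4 * (p - 1) ^ 4 + (p - 1) ^ 3 : ℕ) : ℝ) := by rw [h1]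
    rw [Nat.cast_mul, Nat.cast_add, Nat.cast_mul, Nat.cast_pow, Nat.cast_pow, Nat.cast_sub (by omega)] at this
    simpa using this
  have h4 : (Nat.card {w : Fin 4 → ZMod p // Al p w} : ℝ) + (Nat.card {w : Fin 4 → ZMod p // ¬ Al p w} : ℝ) = (p : ℝ) ^ 4 := by
    exact_mod_cast h2
  set N : ℝ := (Nat.card {w : Fin 4 → ZMod p // ¬ Al p w} : ℝ) with hN
  have h5 : N = 15 / 4 * (p : ℝ) ^ 3 - 21 / 4 * (p : ℝ) ^ 2 + 13 / 4 * p - 3 / 4 := by
    linear_combination h4 - h3 / 4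
  have hP : (17 : ℝ) ≤ p := by exact_mod_cast h17
  set P : ℝ := (p : ℝ) with hPd
  have hP0 : 0 < P := by linarith
  have hP2 : 0 < P ^ 2 := by positivity
  have hP3 : 0 < P ^ 3 := by positivity
  refine ⟨?_, ?_, ?_⟩
  · have e : (15 / 4 : ℝ) / P - 6 / P ^ 2 = (15 / 4 * P ^ 3 - 6 * P ^ 2) / P ^ 4 := by
      field_simp
    rw [e]
    apply div_le_div_of_nonneg_right _ (by positivity)
    rw [h5]
    nlinarith
  · have e : (4 : ℝ) / P = 4 * P ^ 3 / P ^ 4 := by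
      field_simp
    rw [e]
    apply div_le_div_of_nonneg_right _ (by positivity)
    rw [h5]
    nlinarith
  · rw [div_le_iff₀ (by positivity)]
    have h6 : 17 * P ^ 3 ≤ P ^ 4 := by
      have : P ^ 4 = P * P ^ 3 := by ring
      rw [this]
      exact mul_le_mul_of_nonneg_right hP hP3.le
    rw [h5]
    nlinarith

end FD
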