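import Mathlib
import Pool.Agent.Lib.MP_10e784_ag.PT.PTDefs

/-!
MP_9b5ce2_nt, sums of two rational fourth powers and everywhere locally soluble integers.
Definitions shared by all files.
-/

namespace FD

open Finset NumberField

/-- `c` is a sum of two fourth powers of rational numbers -/
def Rat4 (c : ℕ) : Prop := ∃ x y : ℚ, x ^ 4 + y ^ 4 = c

/-- `c` is a sum of two fourth powers in `ℚ_p` for every prime `p` -/
def Loc4 (c : ℕ) : Prop := ∀ (p : ℕ) [Fact p.Prime], ∃ x y : ℚ_[p], x ^ 4 + y ^ 4 = c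

/-- `c z ^ 4` is a sum of two coprime fourth powers for some `z ≥ 1` -/
def Prim (c : ℕ) : Prop := ∃ (x y : ℤ) (z : ℕ), IsCoprime x y ∧ 1 ≤ z ∧ x ^ 4 + y ^ 4 = (c : ℤ) * (z : ℤ) ^ 4

/-- the eighth cyclotomic field -/
abbrev E : Type := CyclotomicField 8 ℚ

instance cyc8 : IsCyclotomicExtension {8} ℚ E := by
  have h : (CyclotomicField.algebra 8 ℚ) = (DivisionRing.toRatAlgebra : Algebra ℚ (CyclotomicField 8 ℚ)) :=
    Subsingleton.elim _ _
  have h2 : @IsCyclotomicExtension {8} ℚ (CyclotomicField 8 ℚ) _ _ (CyclotomicField.algebra 8 ℚ) := inferInstance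
  rw [h] at h2
  exact h2

/-- a primitive eighth root of unity -/
noncomputable def ze : 𝓞 E := (IsCyclotomicExtension.zeta_spec 8 ℚ E).toInteger

/-- the integer with coordinates `a` -/
noncomputable def ga (a : Fin 4 → ℤ) : 𝓞 E := ∑ i : Fin 4, (a i : 𝓞 E) * ze ^ (i : ℕ)

/-- `x - ζ y` -/
noncomputable def al (x y : ℤ) : 𝓞 E := (x : 𝓞 E) - (y : 𝓞 E) * ze

/-- the value at `t` of the polynomial with coefficients `w` -/
def ev {R : Type} [CommRing R] (w : Fin 4 → R) (t : R) : R := ∑ i : Fin 4, w i * t ^ (i : ℕ)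

/-- the local condition at `p` (`w` is the vector of coordinates modulo `p`): the polynomial with coefficients `w` has
no zero `t` with `t ^ 4 = -1`, or it has such a zero `t₀` and its values at the other `t` are `s (t₀ - t)` times a
nonzero fourth power, with the same `s ≠ 0` -/
def Al (p : ℕ) (w : Fin 4 → ZMod p) : Prop :=
  (∀ t : ZMod p, t ^ 4 = -1 → ev w t ≠ 0) ∨
  ∃ t₀ s : ZMod p, t₀ ^ 4 = -1 ∧ s ≠ 0 ∧ ev w t₀ = 0 ∧
    ∀ t : ZMod p, t ^ 4 = -1 → t ≠ t₀ → ∃ b : ZMod p, b ≠ 0 ∧ ev w t = s * (t₀ - t) * b ^ 4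

/-- the primes congruent to one modulo eight -/
def P8 : Set ℕ := {p | p % 8 = 1}

/-- the sum of the reciprocals of the primes `p ≤ x` congruent to one modulo eight -/
noncomputable def TT (x : ℝ) : ℝ := PT.PS (PT.ind P8) x

end FD
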