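import Pool.Agent.Lib.MP_9b5ce2_ntD.Defs

/-! Elementary congruences.

`crt`: Chinese remainder theorem for prime powers (`Nat.chineseRemainderOfFinset` on `Int.emod` representatives, or induction on `s`, `Int.isCoprime...`, or `Ideal.exists_forall_sub_mem_ideal`).
`shift`: for `y ≠ 0` and `a, b` such that no prime divides `a, b, y` there are arbitrarily large `t` with `a + b t` coprime to `y`: `t₀` = the product of the primes which divide `y` but not `a`; if a prime `l ∣ y` divides `a` then `l ∤ b`, `l ∤ t₀`, so `l ∤ a + b t₀`; if `l ∤ a` then `l ∣ t₀`, `l ∤ a + b t₀`.  Then `t = t₀ + |y| n` for any `n`.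
`root`: `q ≡ 1 mod 8` prime: there is `r` with `q ^ 4 ∣ r ^ 4 + 1`: a root modulo `q` (`(ZMod q)ˣ` is cyclic of order divisible by `8`) and Hensel (`hensels_lemma` in `ℤ_[q]` and approximation; or directly: if `q ^ n ∣ r ^ 4 + 1`, `q ∤ 4 r ^ 3`, then `r' = r + q ^ n s` works modulo `q ^ (n + 1)` for a suitable `s`). -/

namespace FD

theorem crt (s : Finset ℕ) (hs : ∀ p ∈ s, p.Prime) (e : ℕ → ℕ) (r : ℕ → ℤ) :
    ∃ x : ℤ, ∀ p ∈ s, (p : ℤ) ^ e p ∣ x - r p := by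
  classical
  induction s using Finset.induction_on with
  | empty => exact ⟨0, by simp⟩
  | insert q s hq ih =>
    obtain ⟨x₀, hx₀⟩ := ih fun p hp => hs p (Finset.mem_insert_of_mem hp)
    have hqp := hs q (Finset.mem_insert_self q s)
    have hcop : IsCoprime ((q : ℤ) ^ e q) (∏ p ∈ s, (p : ℤ) ^ e p) := by
      refine IsCoprime.prod_right fun p hp => ?_
      refine IsCoprime.pow ?_
      rw [Nat.isCoprime_iff_coprime]
      exact (Nat.coprime_primes hqp (hs p (Finset.mem_insert_of_mem hp))).2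
        (fun h => hq (h ▸ hp))
    obtain ⟨u, v, huv⟩ := hcop
    refine ⟨x₀ + (∏ p ∈ s, (p : ℤ) ^ e p) * (v * (r q - x₀)), fun p hp => ?_⟩
    rcases Finset.mem_insert.1 hp with rfl | hp
    · refine ⟨(x₀ - r p) * u, ?_⟩
      linear_combination (r p - x₀) * huv
    · have h1 : (p : ℤ) ^ e p ∣ ∏ p ∈ s, (p : ℤ) ^ e p := Finset.dvd_prod_of_mem _ hp
      have e : x₀ + (∏ p ∈ s, (p : ℤ) ^ e p) * (v * (r q - x₀)) - r p =
          (x₀ - r p) + (∏ p ∈ s, (p : ℤ) ^ e p) * (v * (r q - x₀)) := by ring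
      rw [e]
      exact dvd_add (hx₀ p hp) (h1.mul_right (v * (r q - x₀)))

theorem shift (a b y : ℤ) (hy : y ≠ 0) (h : ∀ l : ℕ, l.Prime → ¬ ((l : ℤ) ∣ a ∧ (l : ℤ) ∣ b ∧ (l : ℤ) ∣ y)) (T : ℤ) :
    ∃ t : ℤ, T < t ∧ IsCoprime (a + b * t) y := by
  classical
  set t₀ : ℤ := ∏ l ∈ y.natAbs.primeFactors.filter (fun l : ℕ => ¬ (l : ℤ) ∣ a), (l : ℤ) with ht₀
  have hpos : 1 ≤ |y| := Int.one_le_abs hy
  refine ⟨t₀ + |y| * (|T| + |t₀| + 1), ?_, ?_⟩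
  · have h1 := le_abs_self T
    have h2 := neg_abs_le t₀
    have h3 := abs_nonneg T
    have h4 := abs_nonneg t₀
    nlinarith
  · rw [Int.isCoprime_iff_gcd_eq_one]
    by_contra hg
    obtain ⟨l, hl, hlg⟩ := Nat.exists_prime_and_dvd hg
    have hg1 : (l : ℤ) ∣ a + b * (t₀ + |y| * (|T| + |t₀| + 1)) :=
      (Int.natCast_dvd_natCast.2 hlg).trans (Int.gcd_dvd_left _ _)
    have hg2 : (l : ℤ) ∣ y := (Int.natCast_dvd_natCast.2 hlg).trans (Int.gcd_dvd_right _ _)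
    have hg3 : (l : ℤ) ∣ |y| := (dvd_abs _ _).2 hg2
    have hg4 : (l : ℤ) ∣ a + b * t₀ := by
      have e : a + b * t₀ = a + b * (t₀ + |y| * (|T| + |t₀| + 1)) - b * (|y| * (|T| + |t₀| + 1)) := by ring
      rw [e]
      exact dvd_sub hg1 ((hg3.mul_right (|T| + |t₀| + 1)).mul_left b)
    have hlp : Prime (l : ℤ) := Nat.prime_iff_prime_int.1 hl
    by_cases ha : (l : ℤ) ∣ a
    · have hbt : (l : ℤ) ∣ b * t₀ := (dvd_add_right ha).1 hg4
      rcases hlp.dvd_or_dvd hbt with hb | ht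
      · exact h l hl ⟨ha, hb, hg2⟩
      · rw [ht₀] at ht
        obtain ⟨l', hl', hll⟩ := (hlp.dvd_finsetProd_iff _).1 ht
        rw [Finset.mem_filter, Nat.mem_primeFactors] at hl'
        have : l = l' := (Nat.prime_dvd_prime_iff_eq hl hl'.1.1).1 (Int.natCast_dvd_natCast.1 hll)
        subst this
        exact hl'.2 ha
    · have hmem : l ∈ y.natAbs.primeFactors.filter (fun l : ℕ => ¬ (l : ℤ) ∣ a) := by
        rw [Finset.mem_filter, Nat.mem_primeFactors]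
        exact ⟨⟨hl, Int.natCast_dvd.1 hg2, Int.natAbs_ne_zero.2 hy⟩, ha⟩
      have ht : (l : ℤ) ∣ t₀ := Finset.dvd_prod_of_mem (fun l : ℕ => (l : ℤ)) hmem
      exact ha ((dvd_add_left (ht.mul_left b)).1 hg4)

private theorem DenA_step (q : ℕ) (hq : q.Prime) (h2 : q ≠ 2) (n : ℕ) (hn : 1 ≤ n) (r : ℤ)
    (h : (q : ℤ) ^ n ∣ r ^ 4 + 1) : ∃ r' : ℤ, (q : ℤ) ^ (n + 1) ∣ r' ^ 4 + 1 := by
  obtain ⟨m, hm⟩ := h
  have hqp : Prime (q : ℤ) := Nat.prime_iff_prime_int.1 hq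
  have hqd : (q : ℤ) ∣ r ^ 4 + 1 := by
    rw [hm]
    exact (dvd_pow_self _ (by omega)).mul_right m
  have hr : ¬ (q : ℤ) ∣ r := by
    intro hr
    have h1 : (q : ℤ) ∣ r ^ 4 := hr.trans (dvd_pow_self r (by norm_num))
    have h3 : (q : ℤ) ∣ 1 := (dvd_add_right h1).1 hqd
    exact hqp.not_isUnit (isUnit_of_dvd_one h3)
  have h4 : ¬ (q : ℤ) ∣ 4 * r ^ 3 := by
    intro h4
    rcases hqp.dvd_or_dvd h4 with h5 | h5
    · have h6 : (q : ℤ) ∣ (2 : ℤ) ^ 2 := by norm_num; exact h5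
      have h7 := hqp.dvd_of_dvd_pow h6
      have h8 : q ∣ 2 := by exact_mod_cast h7
      exact h2 ((Nat.prime_dvd_prime_iff_eq hq Nat.prime_two).1 h8)
    · exact hr (hqp.dvd_of_dvd_pow h5)
  have hcop : IsCoprime (q : ℤ) (4 * r ^ 3) := (hqp.coprime_iff_not_dvd).2 h4
  obtain ⟨u, v, huv⟩ := hcop
  refine ⟨r + (q : ℤ) ^ n * (-m * v), ?_⟩
  obtain ⟨k, rfl⟩ : ∃ k, n = k + 1 := ⟨n - 1, by omega⟩
  refine ⟨m * u + (q : ℤ) ^ k * (6 * r ^ 2 * (-m * v) ^ 2 + 4 * r * (q : ℤ) ^ (k + 1) * (-m * v) ^ 3 +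
    (q : ℤ) ^ (2 * (k + 1)) * (-m * v) ^ 4), ?_⟩
  have e1 : (q : ℤ) ^ (k + 1) = q * q ^ k := by ring
  have e2 : (q : ℤ) ^ (2 * (k + 1)) = q ^ 2 * (q ^ k) ^ 2 := by ring
  have e3 : (q : ℤ) ^ (k + 1 + 1) = q ^ 2 * q ^ k := by ring
  rw [e2, e3]
  rw [e1] at hm ⊢
  linear_combination hm + (-(q : ℤ) * q ^ k * m) * huv

theorem root (q : ℕ) (hq : q.Prime) (h8 : q % 8 = 1) : ∃ r : ℤ, (q : ℤ) ^ 4 ∣ r ^ 4 + 1 := by
  have : Fact q.Prime := ⟨hq⟩
  have h2 : q ≠ 2 := by rintro rfl; norm_num at h8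
  obtain ⟨g, hg⟩ := IsCyclic.exists_ofOrder_eq_natCard (α := (ZMod q)ˣ)
  have hcard : Nat.card (ZMod q)ˣ = q - 1 := by
    rw [Nat.card_eq_fintype_card, ZMod.card_units]
  rw [hcard] at hg
  have hq1 := hq.two_le
  obtain ⟨k, hk⟩ : ∃ k, q - 1 = 8 * k := ⟨(q - 1) / 8, by omega⟩
  have hk0 : 0 < k := by omega
  have h1 : (g ^ k) ^ 8 = 1 := by
    rw [← pow_mul, mul_comm, ← hk, ← hg, pow_orderOf_eq_one]
  have h3 : (g ^ k) ^ 4 ≠ 1 := by
    rw [← pow_mul]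
    intro h
    have := orderOf_dvd_of_pow_eq_one h
    rw [hg, hk] at this
    have := Nat.le_of_dvd (by omega) this
    omega
  have h5 : (((g ^ k : (ZMod q)ˣ) : ZMod q) ^ 4) = -1 := by
    have h6 : (((g ^ k : (ZMod q)ˣ) : ZMod q) ^ 4) ^ 2 = 1 := by
      rw [← pow_mul]
      have := congrArg (Units.val) h1
      simpa using this
    rcases sq_eq_one_iff.1 h6 with h7 | h7
    · exact absurd (Units.ext (by simpa using h7)) h3
    · exact h7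
  obtain ⟨r, hr⟩ := ZMod.intCast_surjective ((g ^ k : (ZMod q)ˣ) : ZMod q)
  have hr1 : (q : ℤ) ^ 1 ∣ r ^ 4 + 1 := by
    rw [pow_one, ← ZMod.intCast_zmod_eq_zero_iff_dvd]
    push_cast
    rw [hr, h5]
    ring
  obtain ⟨r2, hr2⟩ := DenA_step q hq h2 1 (by norm_num) r hr1
  obtain ⟨r3, hr3⟩ := DenA_step q hq h2 2 (by norm_num) r2 hr2
  exact DenA_step q hq h2 3 (by norm_num) r3 hr3

end FD
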