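import Pool.Agent.Lib.MP_9b5ce2_ntD.DenL
import Pool.Agent.Lib.MP_9b5ce2_ntD.DenA

/-! Admissible integers in residue classes.

For the primes `p ∣ m` take `v p` from `den_loc` (`Loc4 c0`, `hf`; choose `v : ℕ → ℕ`), `Z0 = ∏_{p ∣ m} p ^ v p`.  Let `q > m` be a prime, `q ≡ 1 mod 8` (`Nat.exists_prime_gt_modEq_one`), `ρ` from `root q`, `z = Z0 q > 1`.  For `p ∣ m`: `z = p ^ (v p) u p` with `p ∤ u p`; `K p = 4 v p + v_p(m)`, `x p, y p` from `den_loc` with `k = K p + 1`, `u = u p`.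
`s = m.primeFactors ∪ {q}`; `crt` with exponents `K p + 1` (`4` for `q`): `y` with `y ≡ y p mod p ^ (K p + 1)`, `y ≡ 1 mod q ^ 4`; `y ≠ 0` (it is `≡ 1 mod q`).  `a` with `a ≡ x p mod p ^ (K p + 1)`, `a ≡ ρ mod q ^ 4`; `b = q ^ 4 ∏_{p ∣ m} p ^ (K p + 1)`.  No prime divides `a, b, y`: a prime dividing `b` is `q` (`∤ y`) or `p ∣ m` (`x p, y p` not both divisible by `p`).
`shift` gives `t` (as large as we want) such that `x = a + b t` is coprime to `y`.  Then `p ^ K p ∣ x ^ 4 + y ^ 4 - c0 z ^ 4` for `p ∣ m` and `q ^ 4 ∣ x ^ 4 + y ^ 4`.  So `z ^ 4 ∣ x ^ 4 + y ^ 4` (the factors `p ^ (4 v p)`, `q ^ 4` are pairwise coprime), `x ^ 4 + y ^ 4 = c z ^ 4`, `c > N` if `x` is large,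
and `p ^ (4 v p + v_p(m)) ∣ z ^ 4 (c - c0)`, `z ^ 4 = p ^ (4 v p) (u p) ^ 4`, so `p ^ (v_p(m)) ∣ c - c0` for all `p ∣ m`, so `m ∣ c - c0`. -/

namespace FD

private theorem DenB_coprime_pow {p q : ℕ} (hp : p.Prime) (hq : q.Prime) (hpq : p ≠ q) (a b : ℕ) :
    IsCoprime ((p : ℤ) ^ a) ((q : ℤ) ^ b) := by
  apply IsCoprime.pow
  rw [Nat.isCoprime_iff_coprime]
  exact (Nat.coprime_primes hp hq).mpr hpq

private theorem DenB_prod_dvd (s : Finset ℕ) (hs : ∀ p ∈ s, p.Prime) (e : ℕ → ℕ) (X : ℤ)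
    (h : ∀ p ∈ s, (p : ℤ) ^ e p ∣ X) : ∏ p ∈ s, (p : ℤ) ^ e p ∣ X := by
  apply Finset.prod_dvd_of_coprime
  · intro p hp q hq hpq
    exact DenB_coprime_pow (hs p hp) (hs q hq) hpq _ _
  · exact h

private theorem DenB_pow_sub {d x x' y y' : ℤ} (hx : d ∣ x - x') (hy : d ∣ y - y') :
    d ∣ (x ^ 4 + y ^ 4) - (x' ^ 4 + y' ^ 4) := by
  have h1 : d ∣ x ^ 4 - x' ^ 4 := hx.trans (sub_dvd_pow_sub_pow x x' 4)
  have h2 : d ∣ y ^ 4 - y' ^ 4 := hy.trans (sub_dvd_pow_sub_pow y y' 4)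
  have h3 := dvd_add h1 h2
  have e : x ^ 4 - x' ^ 4 + (y ^ 4 - y' ^ 4) = (x ^ 4 + y ^ 4) - (x' ^ 4 + y' ^ 4) := by ring
  rwa [e] at h3

theorem dense (c0 : ℕ) (h1 : 1 ≤ c0) (hf : ∀ p : ℕ, p.Prime → ¬ p ^ 4 ∣ c0) (h : Loc4 c0) (m : ℕ) (hm : 1 ≤ m) (N : ℕ) :
    ∃ (c : ℕ) (x y z : ℤ), N < c ∧ (m : ℤ) ∣ (c : ℤ) - c0 ∧ IsCoprime x y ∧ 1 < z ∧ x ^ 4 + y ^ 4 = (c : ℤ) * z ^ 4 := by
  classical
  have hloc : ∀ p : ℕ, p.Prime → ∃ v : ℕ, ∀ (k : ℕ) (u : ℤ), ¬ (p : ℤ) ∣ u →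
      ∃ x y : ℤ, ¬ ((p : ℤ) ∣ x ∧ (p : ℤ) ∣ y) ∧
        (p : ℤ) ^ k ∣ x ^ 4 + y ^ 4 - (c0 : ℤ) * ((p : ℤ) ^ v * u) ^ 4 := by
    intro p hp
    have : Fact p.Prime := ⟨hp⟩
    obtain ⟨v, -, hv⟩ := den_loc (p := p) (hf p hp) (h p)
    exact ⟨v, hv⟩
  choose! v hv using hloc
  obtain ⟨q, hq, hqm, hq8⟩ := Nat.exists_prime_gt_modEq_one (k := 8) m (by norm_num)
  have hq8' : q % 8 = 1 := hq8
  obtain ⟨ρ, hρ⟩ := root q hq hq8'
  set P := m.primeFactors with hP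
  have hPp : ∀ p ∈ P, p.Prime := fun p hp => Nat.prime_of_mem_primeFactors hp
  have hPq : ∀ p ∈ P, p ≠ q := by
    intro p hp hpq
    have := Nat.le_of_mem_primeFactors hp
    omega
  have hqP : q ∉ P := fun hqP => hPq q hqP rfl
  set z : ℤ := (∏ p ∈ P, (p : ℤ) ^ v p) * q with hz
  -- the cofactors
  let u : ℕ → ℤ := fun p => (∏ r ∈ P.erase p, (r : ℤ) ^ v r) * q
  have hzu : ∀ p ∈ P, z = (p : ℤ) ^ v p * u p := by
    intro p hp
    rw [hz, ← Finset.mul_prod_erase P _ hp]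
    ring
  have hqZ : Prime (q : ℤ) := Nat.prime_iff_prime_int.mp hq
  have hpZ : ∀ p ∈ P, Prime (p : ℤ) := fun p hp => Nat.prime_iff_prime_int.mp (hPp p hp)
  have hup : ∀ p ∈ P, IsCoprime (p : ℤ) (u p) := by
    intro p hp
    apply IsCoprime.mul_right
    · apply IsCoprime.prod_right
      intro r hr
      have hr' := Finset.mem_of_mem_erase hr
      have hne := Finset.ne_of_mem_erase hr
      have := DenB_coprime_pow (hPp p hp) (hPp r hr') (Ne.symm hne) 1 (v r)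
      rwa [pow_one] at this
    · have := DenB_coprime_pow (hPp p hp) hq (hPq p hp) 1 1
      rwa [pow_one, pow_one] at this
  have hup' : ∀ p ∈ P, ¬ (p : ℤ) ∣ u p := by
    intro p hp hd
    exact (hpZ p hp).not_isUnit (IsCoprime.isUnit_of_dvd' (hup p hp) dvd_rfl hd)
  let K : ℕ → ℕ := fun p => 4 * v p + m.factorization p
  have hxy : ∀ p, ∃ x y : ℤ, p ∈ P → (¬ ((p : ℤ) ∣ x ∧ (p : ℤ) ∣ y) ∧
      (p : ℤ) ^ (K p + 1) ∣ x ^ 4 + y ^ 4 - (c0 : ℤ) * z ^ 4) := by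
    intro p
    by_cases hp : p ∈ P
    · obtain ⟨x, y, hxy⟩ := hv p (hPp p hp) (K p + 1) (u p) (hup' p hp)
      rw [← hzu p hp] at hxy
      exact ⟨x, y, fun _ => hxy⟩
    · exact ⟨0, 0, fun h => absurd h hp⟩
  choose xx yy hxy using hxy
  set s := insert q P with hs
  have hsp : ∀ p ∈ s, p.Prime := by
    intro p hp
    rcases Finset.mem_insert.mp hp with rfl | hp
    · exact hq
    · exact hPp p hp
  let e : ℕ → ℕ := fun p => if p = q then 4 else K p + 1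
  have heq : e q = 4 := if_pos rfl
  have hep : ∀ p ∈ P, e p = K p + 1 := fun p hp => if_neg (hPq p hp)
  obtain ⟨y, hy⟩ := crt s hsp e (fun p => if p = q then 1 else yy p)
  obtain ⟨a, ha⟩ := crt s hsp e (fun p => if p = q then ρ else xx p)
  have hqs : q ∈ s := Finset.mem_insert_self _ _
  have hPs : ∀ p ∈ P, p ∈ s := fun p hp => Finset.mem_insert_of_mem hp
  have hyq : (q : ℤ) ^ 4 ∣ y - 1 := by
    have := hy q hqs
    rwa [heq, if_pos rfl] at this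
  have haq : (q : ℤ) ^ 4 ∣ a - ρ := by
    have := ha q hqs
    rwa [heq, if_pos rfl] at this
  have hyp : ∀ p ∈ P, (p : ℤ) ^ (K p + 1) ∣ y - yy p := by
    intro p hp
    have := hy p (hPs p hp)
    rwa [hep p hp, if_neg (hPq p hp)] at this
  have hap : ∀ p ∈ P, (p : ℤ) ^ (K p + 1) ∣ a - xx p := by
    intro p hp
    have := ha p (hPs p hp)
    rwa [hep p hp, if_neg (hPq p hp)] at this
  have hqy : ¬ (q : ℤ) ∣ y := by
    intro hd
    have h2 : (q : ℤ) ∣ y - 1 := (dvd_pow_self _ (by norm_num)).trans hyq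
    have h3 := dvd_sub hd h2
    rw [sub_sub_cancel] at h3
    exact hqZ.not_isUnit (isUnit_of_dvd_one h3)
  have hy0 : y ≠ 0 := by
    rintro rfl
    exact hqy (dvd_zero _)
  set b : ℤ := ∏ p ∈ s, (p : ℤ) ^ e p with hb
  have hbp : ∀ p ∈ s, (p : ℤ) ^ e p ∣ b := fun p hp => Finset.dvd_prod_of_mem _ hp
  have hb1 : 1 ≤ b := by
    rw [hb]
    have : 0 < ∏ p ∈ s, (p : ℤ) ^ e p := by
      apply Finset.prod_pos
      intro p hp
      have := (hsp p hp).pos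
      positivity
    omega
  have hno : ∀ l : ℕ, l.Prime → ¬ ((l : ℤ) ∣ a ∧ (l : ℤ) ∣ b ∧ (l : ℤ) ∣ y) := by
    rintro l hl ⟨hla, hlb, hly⟩
    have hlZ : Prime (l : ℤ) := Nat.prime_iff_prime_int.mp hl
    obtain ⟨p, hp, hlp⟩ := (Prime.dvd_finsetProd_iff hlZ _).mp hlb
    have h2 : (l : ℤ) ∣ (p : ℤ) := hlZ.dvd_of_dvd_pow hlp
    have h3 : l = p := (Nat.prime_dvd_prime_iff_eq hl (hsp p hp)).mp (Int.natCast_dvd_natCast.mp h2)
    subst h3
    rcases Finset.mem_insert.mp hp with h4 | h4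
    · rw [h4] at hly
      exact hqy hly
    · have h5 : (l : ℤ) ∣ yy l := by
        have h6 : (l : ℤ) ∣ y - yy l := (dvd_pow_self _ (by omega)).trans (hyp l h4)
        have := dvd_sub hly h6
        rwa [sub_sub_cancel] at this
      have h6 : (l : ℤ) ∣ xx l := by
        have h6 : (l : ℤ) ∣ a - xx l := (dvd_pow_self _ (by omega)).trans (hap l h4)
        have := dvd_sub hla h6
        rwa [sub_sub_cancel] at this
      exact (hxy l h4).1 ⟨h6, h5⟩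
  have hz1 : 1 < z := by
    have h2 : 0 < ∏ p ∈ P, (p : ℤ) ^ v p := by
      apply Finset.prod_pos
      intro p hp
      have := (hPp p hp).pos
      positivity
    have h3 : (2 : ℤ) ≤ q := by exact_mod_cast hq.two_le
    rw [hz]
    nlinarith
  obtain ⟨t, ht, hcop⟩ := shift a b y hy0 hno (|a| + (N + 1) * z ^ 4)
  set x := a + b * t with hx
  have hz4 : 0 < z ^ 4 := by positivity
  have hxbig : (N + 1) * z ^ 4 < x := by
    have h2 := neg_abs_le a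
    have h3 : 0 < t := by
      have := abs_nonneg a
      have : (0 : ℤ) ≤ (N + 1) * z ^ 4 := by positivity
      linarith
    have h4 : t ≤ b * t := by nlinarith
    rw [hx]
    linarith
  have hxp : ∀ p ∈ P, (p : ℤ) ^ (K p + 1) ∣ x - xx p := by
    intro p hp
    have h2 := hbp p (hPs p hp)
    rw [hep p hp] at h2
    have h3 := dvd_add (hap p hp) (h2.mul_right t)
    have e1 : a - xx p + b * t = x - xx p := by rw [hx]; ring
    rwa [e1] at h3
  have hxq : (q : ℤ) ^ 4 ∣ x - ρ := by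
    have h2 := hbp q hqs
    rw [heq] at h2
    have h3 := dvd_add haq (h2.mul_right t)
    have e1 : a - ρ + b * t = x - ρ := by rw [hx]; ring
    rwa [e1] at h3
  -- the local congruences
  have hKp : ∀ p ∈ P, (p : ℤ) ^ (K p + 1) ∣ x ^ 4 + y ^ 4 - (c0 : ℤ) * z ^ 4 := by
    intro p hp
    have h2 := dvd_add (DenB_pow_sub (hxp p hp) (hyp p hp)) (hxy p hp).2
    have e1 : (x ^ 4 + y ^ 4) - (xx p ^ 4 + yy p ^ 4) + (xx p ^ 4 + yy p ^ 4 - (c0 : ℤ) * z ^ 4) =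
        x ^ 4 + y ^ 4 - (c0 : ℤ) * z ^ 4 := by ring
    rwa [e1] at h2
  have hzd : z ^ 4 ∣ x ^ 4 + y ^ 4 := by
    let g : ℕ → ℕ := fun p => if p = q then 4 else 4 * v p
    have hg : z ^ 4 = ∏ p ∈ s, (p : ℤ) ^ g p := by
      rw [hs, Finset.prod_insert hqP, hz, mul_pow, ← Finset.prod_pow, mul_comm]
      congr 1
      · rw [show g q = 4 from if_pos rfl]
      · refine Finset.prod_congr rfl fun p hp => ?_
        rw [show g p = 4 * v p from if_neg (hPq p hp), ← pow_mul, mul_comm]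
    rw [hg]
    apply DenB_prod_dvd s hsp
    intro p hp
    rcases Finset.mem_insert.mp hp with h4 | h4
    · rw [h4, show g q = 4 from if_pos rfl]
      have h2 := dvd_add (DenB_pow_sub hxq hyq) hρ
      have e1 : (x ^ 4 + y ^ 4) - (ρ ^ 4 + 1 ^ 4) + (ρ ^ 4 + 1) = x ^ 4 + y ^ 4 := by ring
      rwa [e1] at h2
    · rw [show g p = 4 * v p from if_neg (hPq p h4)]
      have h2 : (p : ℤ) ^ (4 * v p) ∣ x ^ 4 + y ^ 4 - (c0 : ℤ) * z ^ 4 :=
        (pow_dvd_pow _ (by show 4 * v p ≤ 4 * v p + m.factorization p + 1; omega)).trans (hKp p h4)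
      have h3 : (p : ℤ) ^ (4 * v p) ∣ (c0 : ℤ) * z ^ 4 := by
        rw [hzu p h4, mul_pow, ← pow_mul, mul_comm (v p) 4]
        exact (dvd_mul_right _ _).mul_left _
      have := dvd_add h2 h3
      rwa [sub_add_cancel] at this
  obtain ⟨C, hC⟩ := hzd
  have hCN : (N : ℤ) < C := by
    have h2 : x ≤ x ^ 4 := by
      have h3 : 1 ≤ x := by
        have : (0 : ℤ) ≤ (N + 1) * z ^ 4 := by positivity
        linarith
      calc x = x ^ 1 := (pow_one x).symm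
        _ ≤ x ^ 4 := pow_le_pow_right₀ h3 (by norm_num)
    have h4 : (N + 1) * z ^ 4 < z ^ 4 * C := by
      rw [← hC]
      have : 0 ≤ y ^ 4 := by positivity
      linarith
    have h5 : z ^ 4 * (N + 1) < z ^ 4 * C := by linarith
    have h6 := lt_of_mul_lt_mul_left h5 hz4.le
    linarith
  have hmC : (m : ℤ) ∣ C - c0 := by
    have h2 : (m : ℤ) = ∏ p ∈ P, (p : ℤ) ^ m.factorization p := by
      have h3 := Nat.prod_factorization_pow_eq_self (n := m) (by omega)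
      rw [Finsupp.prod, Nat.support_factorization] at h3
      conv_lhs => rw [← h3]
      push_cast
      rfl
    rw [h2]
    apply DenB_prod_dvd P hPp
    intro p hp
    have h3 := (pow_dvd_pow (p : ℤ) (by omega : K p ≤ K p + 1)).trans (hKp p hp)
    have e1 : x ^ 4 + y ^ 4 - (c0 : ℤ) * z ^ 4 = (p : ℤ) ^ (4 * v p) * ((u p) ^ 4 * (C - c0)) := by
      rw [hC]
      conv_lhs => rw [hzu p hp]
      rw [mul_pow, ← pow_mul, mul_comm (v p) 4]
      ring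
    have e2 : (p : ℤ) ^ K p = (p : ℤ) ^ (4 * v p) * (p : ℤ) ^ m.factorization p := pow_add _ _ _
    rw [e1, e2] at h3
    have hp0 : (p : ℤ) ^ (4 * v p) ≠ 0 := pow_ne_zero _ (hpZ p hp).ne_zero
    have h4 := (mul_dvd_mul_iff_left hp0).mp h3
    exact IsCoprime.dvd_of_dvd_mul_left ((hup p hp).pow) h4
  refine ⟨C.toNat, x, y, z, ?_, ?_, hcop, hz1, ?_⟩
  · omega
  · rw [Int.toNat_of_nonneg (by omega)]
    exact hmC
  · rw [Int.toNat_of_nonneg (by omega), hC]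
    ring

end FD
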