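import Pool.Agent.Lib.MP_9b5ce2_ntD.Defs

/-! Local solutions, primitive in `x, y`.

Let `x ^ 4 + y ^ 4 = c` in `ℚ_p`, not both zero (`c ≠ 0` since `p ^ 4 ∤ c`), `μ = min (v x) (v y)`.  `μ ≤ 0`, since `p ^ 4 ∤ c`.  Let `v = -μ ≥ 0`, `X = p ^ v x`, `Y = p ^ v y ∈ ℤ_p`, not both divisible by `p`, `X ^ 4 + Y ^ 4 = c (p ^ v) ^ 4`.
If `v ≥ 1` then `p` divides `X ^ 4 + Y ^ 4`, so both `X, Y` are units; `p ≠ 2` since `X ^ 4 + Y ^ 4 ≡ 2 mod 16` for odd `X, Y` but `16` divides the right side; and `(X / Y) ^ 4 = -1` in `ZMod p` (`PadicInt.toZMod`) gives an element of order `8` of `(ZMod p)ˣ`, `8 ∣ p - 1`.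
Given `k, u`: `(u X) ^ 4 + (u Y) ^ 4 = c (p ^ v u) ^ 4`; take integers `x ≡ u X`, `y ≡ u Y` modulo `p ^ (k + 1)` (`PadicInt.appr`, `PadicInt.appr_spec`, or `PadicInt.toZModPow`); they are not both divisible by `p`, and the integer `x ^ 4 + y ^ 4 - c (p ^ v u) ^ 4` is divisible by `p ^ k` in `ℤ_p`, hence in `ℤ` (`PadicInt.norm_int_le_pow_iff_dvd`). -/

namespace FD

private theorem DenL_core {p : ℕ} [Fact p.Prime] {c : ℕ} (hc : ¬ p ^ 4 ∣ c) {x y : ℚ_[p]}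
    (h : x ^ 4 + y ^ 4 = c) (hle : ‖y‖ ≤ ‖x‖) :
    ∃ v : ℕ, ∃ X Y : ℤ_[p], IsUnit X ∧ X ^ 4 + Y ^ 4 = (c : ℤ_[p]) * ((p : ℤ_[p]) ^ v) ^ 4 := by
  have hp := (Fact.out : p.Prime)
  have hp0 : (0 : ℝ) < p := by exact_mod_cast hp.pos
  have hp1 : (1 : ℝ) < p := by exact_mod_cast hp.one_lt
  have hc0 : c ≠ 0 := by
    rintro rfl
    exact hc (dvd_zero _)
  have hx : x ≠ 0 := by
    rintro rfl
    rw [norm_zero] at hle
    have hy : y = 0 := norm_eq_zero.mp (le_antisymm hle (norm_nonneg _))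
    rw [hy] at h
    norm_num at h
    exact hc0 (by exact_mod_cast h.symm)
  have hnx : ‖x‖ = (p : ℝ) ^ (-x.valuation) := Padic.norm_eq_zpow_neg_valuation hx
  have hval : x.valuation ≤ 0 := by
    by_contra hcon
    push Not at hcon
    have h1 : ‖x‖ ≤ (p : ℝ) ^ (-1 : ℤ) := by
      rw [hnx]
      exact zpow_le_zpow_right₀ hp1.le (by omega)
    have h2 : ‖(c : ℚ_[p])‖ ≤ (p : ℝ) ^ (-(4 : ℕ) : ℤ) := by
      rw [← h]
      refine (Padic.nonarchimedean _ _).trans ?_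
      rw [norm_pow, norm_pow]
      have h3 : ((p : ℝ) ^ (-1 : ℤ)) ^ 4 = (p : ℝ) ^ (-(4 : ℕ) : ℤ) := by
        rw [← zpow_natCast, ← zpow_mul]
        norm_num
      rw [← h3]
      exact max_le (pow_le_pow_left₀ (norm_nonneg _) h1 4)
        (pow_le_pow_left₀ (norm_nonneg _) (hle.trans h1) 4)
    have h4 : (p : ℤ) ^ 4 ∣ (c : ℤ) := by
      rw [← Padic.norm_int_le_pow_iff_dvd]
      simpa using h2
    exact hc (by exact_mod_cast h4)
  obtain ⟨v, hv⟩ : ∃ v : ℕ, x.valuation = -(v : ℤ) := ⟨(-x.valuation).toNat, by omega⟩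
  have hX : ‖(p : ℚ_[p]) ^ v * x‖ = 1 := by
    rw [norm_mul, norm_pow, Padic.norm_p, hnx, hv, neg_neg, zpow_natCast, inv_pow]
    exact inv_mul_cancel₀ (by positivity)
  have hY : ‖(p : ℚ_[p]) ^ v * y‖ ≤ 1 := by
    rw [← hX, norm_mul, norm_mul]
    exact mul_le_mul_of_nonneg_left hle (norm_nonneg _)
  refine ⟨v, ⟨(p : ℚ_[p]) ^ v * x, hX.le⟩, ⟨(p : ℚ_[p]) ^ v * y, hY⟩, ?_, ?_⟩
  · rw [PadicInt.isUnit_iff]
    exact hX
  · apply Subtype.ext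
    push_cast
    rw [mul_pow, mul_pow, ← mul_add, h, mul_comm]

private theorem DenL_mod {p : ℕ} [Fact p.Prime] {c v : ℕ} {X Y : ℤ_[p]} (hX : IsUnit X)
    (h : X ^ 4 + Y ^ 4 = (c : ℤ_[p]) * ((p : ℤ_[p]) ^ v) ^ 4) : v = 0 ∨ p % 8 = 1 := by
  have hp := (Fact.out : p.Prime)
  by_cases hv : v = 0
  · exact Or.inl hv
  right
  obtain ⟨w, rfl⟩ := Nat.exists_eq_succ_of_ne_zero hv
  by_cases hp2 : p = 2
  · exfalso
    subst hp2
    have h1 := congrArg (PadicInt.toZModPow 4) h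
    have h2 : (PadicInt.toZModPow 4) ((c : ℤ_[2]) * (((2 : ℕ) : ℤ_[2]) ^ (w + 1)) ^ 4) = 0 := by
      rw [map_mul, map_pow, map_pow, map_natCast, map_natCast, ← pow_mul,
        show (w + 1) * 4 = 4 + 4 * w by ring, pow_add]
      have : ((2 : ℕ) : ZMod (2 ^ 4)) ^ 4 = 0 := by decide
      rw [this]
      ring
    rw [Nat.succ_eq_add_one, h2, map_add, map_pow, map_pow] at h1
    have h3 : IsUnit ((PadicInt.toZModPow 4) X) := hX.map _
    obtain ⟨a, ha⟩ := h3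
    rw [← ha] at h1
    have key : ∀ (a : ZMod (2 ^ 4)) (b : ZMod (2 ^ 4)) (c : ZMod (2 ^ 4)), a * c = 1 → a ^ 4 + b ^ 4 ≠ 0 := by
      decide
    exact key _ _ ((a⁻¹ : (ZMod (2 ^ 4))ˣ) : ZMod (2 ^ 4)) (Units.mul_inv a) h1
  · have h1 := congrArg PadicInt.toZMod h
    rw [map_mul, map_pow, map_pow, map_natCast, map_natCast, ZMod.natCast_self, Nat.succ_eq_add_one,
      zero_pow (by omega), zero_pow (by norm_num), mul_zero, map_add, map_pow, map_pow] at h1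
    have hu : IsUnit (PadicInt.toZMod X) := hX.map _
    have hX0 : PadicInt.toZMod X ≠ 0 := hu.ne_zero
    set t : ZMod p := PadicInt.toZMod Y / PadicInt.toZMod X with ht
    have ht4 : t ^ 4 = -1 := by
      rw [ht, div_pow, div_eq_iff (pow_ne_zero 4 hX0)]
      linear_combination h1
    have hne : (-1 : ZMod p) ≠ 1 := by
      intro hcon
      have h2 : ((2 : ℕ) : ZMod p) = 0 := by
        push_cast
        linear_combination -hcon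
      rw [ZMod.natCast_eq_zero_iff] at h2
      exact hp2 ((Nat.prime_dvd_prime_iff_eq hp Nat.prime_two).mp h2)
    have ht0 : t ≠ 0 := by
      rintro h0
      rw [h0] at ht4
      norm_num at ht4
    have hord : orderOf t = 2 ^ (2 + 1) := by
      apply orderOf_eq_prime_pow
      · rw [show (2 : ℕ) ^ 2 = 4 by norm_num, ht4]
        exact hne
      · rw [show (2 : ℕ) ^ (2 + 1) = 4 * 2 by norm_num, pow_mul, ht4]
        norm_num
    have hdvd : 8 ∣ p - 1 := by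
      have h3 : orderOf t ∣ p - 1 := orderOf_dvd_of_pow_eq_one (ZMod.pow_card_sub_one_eq_one ht0)
      rw [hord] at h3
      exact h3
    have := hp.one_lt
    omega

private theorem DenL_lift {p : ℕ} [Fact p.Prime] {c v : ℕ} {X Y : ℤ_[p]} (hX : IsUnit X)
    (h : X ^ 4 + Y ^ 4 = (c : ℤ_[p]) * ((p : ℤ_[p]) ^ v) ^ 4) (k : ℕ) (u : ℤ) (hu : ¬ (p : ℤ) ∣ u) :
    ∃ x y : ℤ, ¬ (p : ℤ) ∣ x ∧ (p : ℤ) ^ k ∣ x ^ 4 + y ^ 4 - (c : ℤ) * ((p : ℤ) ^ v * u) ^ 4 := by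
  have hp := (Fact.out : p.Prime)
  have : NeZero (p ^ (k + 1)) := ⟨pow_ne_zero _ hp.ne_zero⟩
  have hU : IsUnit ((u : ℤ) : ℤ_[p]) := by
    rw [PadicInt.isUnit_iff]
    refine le_antisymm (PadicInt.norm_le_one _) ?_
    by_contra hcon
    push Not at hcon
    rw [PadicInt.norm_int_lt_one_iff_dvd] at hcon
    exact hu hcon
  set φ := PadicInt.toZModPow (p := p) (k + 1) with hφ
  set a : ZMod (p ^ (k + 1)) := φ (((u : ℤ) : ℤ_[p]) * X) with ha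
  set b : ZMod (p ^ (k + 1)) := φ (((u : ℤ) : ℤ_[p]) * Y) with hb
  have hau : IsUnit a := (hU.mul hX).map _
  refine ⟨(a.val : ℤ), (b.val : ℤ), ?_, ?_⟩
  · intro hcon
    have h1 : p ∣ a.val := by exact_mod_cast hcon
    obtain ⟨a', ha'⟩ := hau
    have h2 := ZMod.val_coe_unit_coprime a'
    rw [ha'] at h2
    have h3 : p ∣ Nat.gcd a.val (p ^ (k + 1)) := Nat.dvd_gcd h1 (dvd_pow_self p (by omega))
    rw [h2] at h3
    exact hp.one_lt.ne' (Nat.dvd_one.mp h3)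
  · have hk : (p : ℤ) ^ k ∣ ((p ^ (k + 1) : ℕ) : ℤ) := by
      push_cast
      exact pow_dvd_pow _ (by omega)
    refine hk.trans ?_
    rw [← ZMod.intCast_zmod_eq_zero_iff_dvd]
    push_cast
    rw [ZMod.natCast_zmod_val, ZMod.natCast_zmod_val, ha, hb, ← map_pow, ← map_pow, ← map_add]
    have h1 : (((u : ℤ) : ℤ_[p]) * X) ^ 4 + (((u : ℤ) : ℤ_[p]) * Y) ^ 4 =
        (c : ℤ_[p]) * ((p : ℤ_[p]) ^ v * ((u : ℤ) : ℤ_[p])) ^ 4 := by
      rw [mul_pow, mul_pow, ← mul_add, h]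
      ring
    rw [h1, map_mul, map_pow, map_mul, map_pow, map_natCast, map_natCast, map_intCast]
    ring

theorem den_loc {p : ℕ} [Fact p.Prime] {c : ℕ} (hc : ¬ p ^ 4 ∣ c) (h : ∃ x y : ℚ_[p], x ^ 4 + y ^ 4 = c) :
    ∃ v : ℕ, (v = 0 ∨ p % 8 = 1) ∧ ∀ (k : ℕ) (u : ℤ), ¬ (p : ℤ) ∣ u →
      ∃ x y : ℤ, ¬ ((p : ℤ) ∣ x ∧ (p : ℤ) ∣ y) ∧ (p : ℤ) ^ k ∣ x ^ 4 + y ^ 4 - (c : ℤ) * ((p : ℤ) ^ v * u) ^ 4 := by
  obtain ⟨x, y, hxy⟩ := h
  rcases le_total ‖y‖ ‖x‖ with hle | hle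
  · obtain ⟨v, X, Y, hX, hXY⟩ := DenL_core hc hxy hle
    refine ⟨v, DenL_mod hX hXY, fun k u hu => ?_⟩
    obtain ⟨a, b, ha, hab⟩ := DenL_lift hX hXY k u hu
    exact ⟨a, b, fun hh => ha hh.1, hab⟩
  · obtain ⟨v, X, Y, hX, hXY⟩ := DenL_core hc (x := y) (y := x) (by rw [add_comm]; exact hxy) hle
    refine ⟨v, DenL_mod hX hXY, fun k u hu => ?_⟩
    obtain ⟨a, b, ha, hab⟩ := DenL_lift hX hXY k u hu
    refine ⟨b, a, fun hh => ha hh.2, ?_⟩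
    rw [add_comm (b ^ 4)]
    exact hab

end FD
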