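import Pool.Agent.Lib.MP_9b5ce2_ntD.Fld

/-! The size of the coordinates. -/

namespace FD

open NumberField Polynomial

/-- The embeddings of the field. -/
private theorem FldC_emb (t : ℂ) (ht : t ^ 4 = -1) : ∃ σ : E →+* ℂ, σ ((ze : 𝓞 E) : E) = t := by
  have hz : IsPrimitiveRoot ((algebraMap (𝓞 E) E) ze) 8 :=
    ze_prim.map_of_injective (RingOfIntegers.coe_injective (K := E))
  have hc : cyclotomic 8 ℚ = X ^ 4 + 1 := by
    have := cyclotomic_prime_pow_eq_geom_sum (R := ℚ) (p := 2) (n := 2) Nat.prime_two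
    rw [show (8 : ℕ) = 2 ^ (2 + 1) by norm_num, this]
    simp [Finset.sum_range_succ]
    ring
  have hg : ((IsCyclotomicExtension.zeta_spec 8 ℚ E).powerBasis ℚ).gen = (algebraMap (𝓞 E) E) ze := by
    rw [IsPrimitiveRoot.powerBasis_gen]
    rfl
  set B := (IsCyclotomicExtension.zeta_spec 8 ℚ E).powerBasis ℚ
  have hm : minpoly ℚ B.gen = cyclotomic 8 ℚ := by
    rw [hg]
    exact (cyclotomic_eq_minpoly_rat hz (by norm_num)).symm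
  have h1 : aeval t (minpoly ℚ B.gen) = 0 := by
    rw [hm, hc]
    simp [ht]
  refine ⟨(B.lift t h1 : E →ₐ[ℚ] ℂ).toRingHom, ?_⟩
  have h2 := B.lift_gen t h1
  rw [hg] at h2
  exact h2

theorem coef_le (a : Fin 4 → ℤ) (R : ℝ) (h : ∀ σ : E →+* ℂ, ‖σ ((ga a : 𝓞 E) : E)‖ ≤ R) (i : Fin 4) :
    |(a i : ℝ)| ≤ R := by
  have key : ∀ t : ℂ, t ^ 4 = -1 →
      ‖(a 0 : ℂ) + (a 1 : ℂ) * t + (a 2 : ℂ) * t ^ 2 + (a 3 : ℂ) * t ^ 3‖ ≤ R := by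
    intro t ht
    obtain ⟨σ, hσ⟩ := FldC_emb t ht
    have h1 := hom_ga (σ.comp (algebraMap (𝓞 E) E)) a
    have h2 : (σ.comp (algebraMap (𝓞 E) E)) ze = t := hσ
    rw [h2] at h1
    have h3 := h σ
    have h4 : σ ((ga a : 𝓞 E) : E) = (σ.comp (algebraMap (𝓞 E) E)) (ga a) := rfl
    rw [h4, h1] at h3
    unfold ev at h3
    rw [Fin.sum_univ_four] at h3
    simpa using h3
  obtain ⟨t, ht⟩ := IsAlgClosed.exists_pow_nat_eq (-1 : ℂ) (n := 4) (by norm_num)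
  have hI := Complex.I_sq
  have hI4 : Complex.I ^ 4 = 1 := Complex.I_pow_four
  have hn : ‖t‖ = 1 := by
    have h1 : ‖t‖ ^ 4 = 1 := by rw [← norm_pow, ht, norm_neg, norm_one]
    exact (pow_eq_one_iff_of_nonneg (norm_nonneg t) (by norm_num)).1 h1
  have k0 := key t ht
  have k1 := key (t * Complex.I) (by rw [mul_pow, ht, hI4, mul_one])
  have k2 := key (-t) (by rw [neg_pow, ht]; norm_num)
  have k3 := key (-(t * Complex.I)) (by rw [neg_pow, mul_pow, ht, hI4]; norm_num)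
  set p0 := (a 0 : ℂ) + (a 1 : ℂ) * t + (a 2 : ℂ) * t ^ 2 + (a 3 : ℂ) * t ^ 3 with hp0
  set p1 := (a 0 : ℂ) + (a 1 : ℂ) * (t * Complex.I) + (a 2 : ℂ) * (t * Complex.I) ^ 2 +
    (a 3 : ℂ) * (t * Complex.I) ^ 3 with hp1
  set p2 := (a 0 : ℂ) + (a 1 : ℂ) * (-t) + (a 2 : ℂ) * (-t) ^ 2 + (a 3 : ℂ) * (-t) ^ 3 with hp2
  set p3 := (a 0 : ℂ) + (a 1 : ℂ) * (-(t * Complex.I)) + (a 2 : ℂ) * (-(t * Complex.I)) ^ 2 +
    (a 3 : ℂ) * (-(t * Complex.I)) ^ 3 with hp3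
  have e1 : p1 = (a 0 : ℂ) + (a 1 : ℂ) * t * Complex.I - (a 2 : ℂ) * t ^ 2 -
      (a 3 : ℂ) * t ^ 3 * Complex.I := by
    rw [hp1]
    linear_combination ((a 2 : ℂ) * t ^ 2 + (a 3 : ℂ) * t ^ 3 * Complex.I) * hI
  have e2 : p2 = (a 0 : ℂ) - (a 1 : ℂ) * t + (a 2 : ℂ) * t ^ 2 - (a 3 : ℂ) * t ^ 3 := by
    rw [hp2]
    ring
  have e3 : p3 = (a 0 : ℂ) - (a 1 : ℂ) * t * Complex.I - (a 2 : ℂ) * t ^ 2 +
      (a 3 : ℂ) * t ^ 3 * Complex.I := by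
    rw [hp3]
    linear_combination ((a 2 : ℂ) * t ^ 2 - (a 3 : ℂ) * t ^ 3 * Complex.I) * hI
  have fin : ∀ (m : ℤ) (s : ℂ) (c0 c1 c2 c3 : ℂ), ‖s‖ = 1 → ‖c0‖ = 1 → ‖c1‖ = 1 → ‖c2‖ = 1 → ‖c3‖ = 1 →
      4 * (m : ℂ) * s = c0 * p0 + c1 * p1 + c2 * p2 + c3 * p3 → |(m : ℝ)| ≤ R := by
    intro m s c0 c1 c2 c3 hs h0 h1 h2 h3 he
    have h4 : ‖4 * (m : ℂ) * s‖ = 4 * |(m : ℝ)| := by
      rw [norm_mul, norm_mul, hs, mul_one, Complex.norm_intCast]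
      norm_num
    have h5 : ‖c0 * p0 + c1 * p1 + c2 * p2 + c3 * p3‖ ≤ R + R + R + R := by
      refine (norm_add_le _ _).trans (add_le_add ((norm_add_le _ _).trans (add_le_add
        ((norm_add_le _ _).trans (add_le_add ?_ ?_)) ?_)) ?_)
      · rw [norm_mul, h0, one_mul]; exact k0
      · rw [norm_mul, h1, one_mul]; exact k1
      · rw [norm_mul, h2, one_mul]; exact k2
      · rw [norm_mul, h3, one_mul]; exact k3
    rw [← he, h4] at h5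
    linarith
  have hnI : ‖Complex.I‖ = 1 := Complex.norm_I
  have hn1 : ‖(1 : ℂ)‖ = 1 := norm_one
  have hnm1 : ‖(-1 : ℂ)‖ = 1 := by rw [norm_neg, norm_one]
  have hnmI : ‖-Complex.I‖ = 1 := by rw [norm_neg, hnI]
  fin_cases i
  · refine fin (a 0) 1 1 1 1 1 hn1 hn1 hn1 hn1 hn1 ?_
    rw [e1, e2, e3, hp0]
    ring
  · refine fin (a 1) t 1 (-Complex.I) (-1) Complex.I hn hn1 hnmI hnm1 hnI ?_
    rw [e1, e2, e3, hp0]
    linear_combination (2 * (a 1 : ℂ) * t - 2 * (a 3 : ℂ) * t ^ 3) * hI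
  · refine fin (a 2) (t ^ 2) 1 (-1) 1 (-1) (by rw [norm_pow, hn, one_pow]) hn1 hnm1 hn1 hnm1 ?_
    rw [e1, e2, e3, hp0]
    ring
  · refine fin (a 3) (t ^ 3) 1 Complex.I (-1) (-Complex.I) (by rw [norm_pow, hn, one_pow]) hn1 hnI hnm1 hnmI ?_
    rw [e1, e2, e3, hp0]
    linear_combination (-2 * (a 1 : ℂ) * t + 2 * (a 3 : ℂ) * t ^ 3) * hI

end FD
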