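import Pool.Agent.Lib.MP_9b5ce2_ntD.Fld

/-! Balancing an algebraic integer with the fourth power of a unit. -/

namespace FD

open NumberField Polynomial

open NumberField.mixedEmbedding NumberField.mixedEmbedding.fundamentalCone in
private theorem unit4_step (K : Type) [Field K] [NumberField K] :
    ∃ B : ℝ, 0 < B ∧ ∀ β : 𝓞 K, β ≠ 0 → ∃ u : (𝓞 K)ˣ, ∀ w : InfinitePlace K,
      w (((u : 𝓞 K) * β : 𝓞 K) : K) ≤
        B * (|(Algebra.norm ℤ β : ℤ)| : ℝ) ^ ((1 : ℝ) / Module.finrank ℚ K) := by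
  classical
  obtain ⟨C, hC⟩ := isBounded_iff_forall_norm_le.mp (isBounded_normLeOne K)
  refine ⟨max C 1, lt_max_of_lt_right one_pos, fun β hβ => ?_⟩
  have hβK : (β : K) ≠ 0 := RingOfIntegers.coe_ne_zero_iff.mpr hβ
  have hnorm : mixedEmbedding.norm (mixedEmbedding K (β : K)) =
      (|(Algebra.norm ℤ β : ℤ)| : ℝ) := by
    rw [norm_eq_norm, ← Algebra.coe_norm_int]
    push_cast
    rfl
  set N : ℝ := (|(Algebra.norm ℤ β : ℤ)| : ℝ) with hN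
  have hNpos : 0 < N := by
    rw [hN, abs_pos]
    exact_mod_cast (Algebra.norm_ne_zero_iff.mpr hβ)
  obtain ⟨u, hu⟩ := exists_unit_smul_mem (K := K) (x := mixedEmbedding K (β : K))
    (by rw [hnorm]; exact hNpos.ne')
  refine ⟨u, fun w => ?_⟩
  have hn : (0 : ℝ) < Module.finrank ℚ K := by exact_mod_cast Module.finrank_pos
  set c : ℝ := N ^ (-((1 : ℝ) / Module.finrank ℚ K)) with hc
  have hcpos : 0 < c := Real.rpow_pos_of_pos hNpos _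
  have hmem : c • (u • mixedEmbedding K (β : K)) ∈ normLeOne K := by
    rw [mem_normLeOne]
    refine ⟨smul_mem_of_mem hu hcpos.ne', ?_⟩
    rw [mixedEmbedding.norm_smul, norm_unit_smul, hnorm, abs_of_pos hcpos, hc,
      ← Real.rpow_natCast, ← Real.rpow_mul hNpos.le]
    have h1 : -((1 : ℝ) / Module.finrank ℚ K) * (Module.finrank ℚ K : ℕ) = -1 := by
      field_simp
    rw [h1, Real.rpow_neg_one, inv_mul_cancel₀ hNpos.ne']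
  have hb := hC _ hmem
  have h2 : normAtPlace w (c • (u • mixedEmbedding K (β : K))) ≤ C := by
    refine le_trans ?_ hb
    rw [norm_eq_sup'_normAtPlace]
    exact Finset.le_sup' (fun w => normAtPlace w (c • (u • mixedEmbedding K (β : K))))
      (Finset.mem_univ w)
  have h3 : normAtPlace w (u • mixedEmbedding K (β : K)) = w (((u : 𝓞 K) * β : 𝓞 K) : K) := by
    rw [unitSMul_smul, ← map_mul, normAtPlace_apply]
    push_cast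
    rfl
  rw [normAtPlace_smul, h3, abs_of_pos hcpos] at h2
  have h4 : c * N ^ ((1 : ℝ) / Module.finrank ℚ K) = 1 := by
    rw [hc, ← Real.rpow_add hNpos]
    simp
  have hN1 : 0 < N ^ ((1 : ℝ) / Module.finrank ℚ K) := Real.rpow_pos_of_pos hNpos _
  calc w (((u : 𝓞 K) * β : 𝓞 K) : K)
      = (c * w (((u : 𝓞 K) * β : 𝓞 K) : K)) * N ^ ((1 : ℝ) / Module.finrank ℚ K) := by
        rw [mul_right_comm, h4, one_mul]
    _ ≤ max C 1 * N ^ ((1 : ℝ) / Module.finrank ℚ K) :=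
        mul_le_mul_of_nonneg_right (h2.trans (le_max_left _ _)) hN1.le

private theorem unit4_gen (K : Type) [Field K] [NumberField K] :
    ∃ C : ℝ, 0 < C ∧ ∀ β : 𝓞 K, β ≠ 0 → ∃ ε : (𝓞 K)ˣ, ∀ σ : K →+* ℂ,
      ‖σ (((ε : 𝓞 K) ^ 4 * β : 𝓞 K) : K)‖ ≤ C * (|(Algebra.norm ℤ β : ℤ)| : ℝ) ^ ((1 : ℝ) / Module.finrank ℚ K) := by
  classical
  obtain ⟨B, hB, h⟩ := unit4_step K
  have hfg : Group.FG (𝓞 K)ˣ := Group.fg_iff_monoid_fg.mpr inferInstance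
  have hfin : (powMonoidHom (α := (𝓞 K)ˣ) 4).range.FiniteIndex :=
    Subgroup.finiteIndex_range_powMonoidHom_of_fg _ four_ne_zero
  have : Finite ((𝓞 K)ˣ ⧸ (powMonoidHom (α := (𝓞 K)ˣ) 4).range) :=
    Subgroup.finite_quotient_of_finiteIndex
  have := Fintype.ofFinite ((𝓞 K)ˣ ⧸ (powMonoidHom (α := (𝓞 K)ˣ) 4).range)
  let rep : ((𝓞 K)ˣ ⧸ (powMonoidHom (α := (𝓞 K)ˣ) 4).range) → (𝓞 K)ˣ := fun q => q.out
  let D : ℝ := ∑ q : ((𝓞 K)ˣ ⧸ (powMonoidHom (α := (𝓞 K)ˣ) 4).range), ∑ σ : K →+* ℂ,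
    ‖σ ((((rep q)⁻¹ : (𝓞 K)ˣ) : 𝓞 K) : K)‖
  have hD : 0 ≤ D := Finset.sum_nonneg fun q _ => Finset.sum_nonneg fun σ _ => norm_nonneg _
  have hDle : ∀ q, ∀ σ : K →+* ℂ, ‖σ ((((rep q)⁻¹ : (𝓞 K)ˣ) : 𝓞 K) : K)‖ ≤ D := by
    intro q σ
    refine le_trans ?_ (Finset.single_le_sum (f := fun q => ∑ σ : K →+* ℂ,
      ‖σ ((((rep q)⁻¹ : (𝓞 K)ˣ) : 𝓞 K) : K)‖)
      (fun q _ => Finset.sum_nonneg fun σ _ => norm_nonneg _) (Finset.mem_univ q))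
    exact Finset.single_le_sum (f := fun σ : K →+* ℂ => ‖σ ((((rep q)⁻¹ : (𝓞 K)ˣ) : 𝓞 K) : K)‖)
      (fun σ _ => norm_nonneg _) (Finset.mem_univ σ)
  refine ⟨(D + 1) * B, by positivity, fun β hβ => ?_⟩
  obtain ⟨u, hu⟩ := h β hβ
  have hq : (rep (QuotientGroup.mk u))⁻¹ * u ∈ (powMonoidHom (α := (𝓞 K)ˣ) 4).range := by
    rw [← QuotientGroup.eq]
    exact Quotient.out_eq _
  obtain ⟨ε, hε⟩ := hq
  refine ⟨ε, fun σ => ?_⟩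
  have hε' : ε ^ 4 = (rep (QuotientGroup.mk u))⁻¹ * u := hε
  have h1 : ((ε : 𝓞 K) ^ 4 * β : 𝓞 K) =
      (((rep (QuotientGroup.mk u))⁻¹ : (𝓞 K)ˣ) : 𝓞 K) * ((u : 𝓞 K) * β) := by
    rw [← Units.val_pow_eq_pow_val, hε', Units.val_mul, mul_assoc]
  rw [h1]
  have h2 : σ (((((rep (QuotientGroup.mk u))⁻¹ : (𝓞 K)ˣ) : 𝓞 K) * ((u : 𝓞 K) * β) : 𝓞 K) : K) =
      σ ((((rep (QuotientGroup.mk u))⁻¹ : (𝓞 K)ˣ) : 𝓞 K) : K) *
        σ (((u : 𝓞 K) * β : 𝓞 K) : K) := by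
    rw [← map_mul]
    push_cast
    rfl
  rw [h2, norm_mul]
  have h3 : ‖σ (((u : 𝓞 K) * β : 𝓞 K) : K)‖ ≤
      B * (|(Algebra.norm ℤ β : ℤ)| : ℝ) ^ ((1 : ℝ) / Module.finrank ℚ K) := by
    have := hu (InfinitePlace.mk σ)
    rwa [InfinitePlace.apply] at this
  have h4 := hDle (QuotientGroup.mk u) σ
  calc ‖σ ((((rep (QuotientGroup.mk u))⁻¹ : (𝓞 K)ˣ) : 𝓞 K) : K)‖ * ‖σ (((u : 𝓞 K) * β : 𝓞 K) : K)‖
      ≤ (D + 1) * (B * (|(Algebra.norm ℤ β : ℤ)| : ℝ) ^ ((1 : ℝ) / Module.finrank ℚ K)) :=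
        mul_le_mul (h4.trans (by linarith)) h3 (norm_nonneg _) (by positivity)
    _ = (D + 1) * B * (|(Algebra.norm ℤ β : ℤ)| : ℝ) ^ ((1 : ℝ) / Module.finrank ℚ K) := by ring

theorem unit_balance4 : ∃ C : ℝ, 0 < C ∧ ∀ β : 𝓞 E, β ≠ 0 → ∃ ε : (𝓞 E)ˣ, ∀ σ : E →+* ℂ,
    ‖σ (((ε : 𝓞 E) ^ 4 * β : 𝓞 E) : E)‖ ≤ C * (|(Algebra.norm ℤ β : ℤ)| : ℝ) ^ ((1 : ℝ) / 4) := by
  obtain ⟨C, hC, h⟩ := unit4_gen E
  rw [finrank_E] at h
  refine ⟨C, hC, fun β hβ => ?_⟩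
  obtain ⟨ε, hε⟩ := h β hβ
  exact ⟨ε, fun σ => by simpa using hε σ⟩

end FD
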