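import Pool.Agent.Lib.MP_9b5ce2_ntD.Idl
import Pool.Agent.Lib.MP_9b5ce2_ntD.FldC
import Pool.Agent.Lib.MP_9b5ce2_ntD.Unit4
import Pool.Agent.Lib.MP_9b5ce2_ntD.Cls4

/-! The descent.

`B` from `cls4`, `C1` from `unit_balance4`, `C = max 1 (C1 * B)`.  Let `α = al x y` (`≠ 0`: its norm is `x ^ 4 + y ^ 4 > 0`), `𝔡 = span {α, c}`, `𝔞 = span {α, z}` (`al_factor`), `𝔯, β, x', y'` from `cls4`, `r = absNorm 𝔯`, `ε` from `unit_balance4` for `β` (`≠ 0`), `γ = ε ^ 4 β = ga a` (`ga_surj`).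
`|norm γ| = |norm β| = absNorm (span {β}) = absNorm 𝔡 * r ^ 4 = c r ^ 4` (`Ideal.absNorm_span_singleton`, the norm of a unit is `±1`, `pair_norm`, `c ∣ x ^ 4 + y ^ 4`).  Size: `‖σ γ‖ ≤ C1 (c r ^ 4) ^ (1/4) = C1 r c ^ (1/4)`, then `coef_le`.
Local condition at a prime `p > B`: (*) for a homomorphism `φ : 𝓞 E →+* ZMod p`: `φ γ = 0` implies `φ α = 0`.  Indeed `𝔭 = ker φ` is prime, `β ∈ 𝔭` (`ε` is a unit), so `𝔡 𝔯 ^ 4 ≤ 𝔭`; `𝔯 ≤ 𝔭` is impossible, because `r ∈ 𝔯` (`Ideal.absNorm_mem`) and `φ r = r ≠ 0` (`1 ≤ r ≤ B < p`); so `𝔡 ≤ 𝔭` and `α ∈ 𝔭`.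
(**) There is `δ : 𝓞 E` with `δ ^ 4 = α ^ 3 γ`: `γ y' ^ 4 = α (ε x') ^ 4`, so `(α ε x') ^ 4 = α ^ 3 γ y' ^ 4`, `y' ^ 4 ∣ (α ε x') ^ 4`, so `y' ∣ α ε x'` (`IsIntegrallyClosed.pow_dvd_pow_iff`), `α ε x' = y' δ`, cancel `y' ^ 4`.
If `ev w t ≠ 0` for all `t` with `t ^ 4 = -1` (`w i = a i`) we are in the first case of `Al`.  Otherwise let `t₀ ^ 4 = -1`, `ev w t₀ = 0`; `φ₀` with `φ₀ ζ = t₀` (`hom_exists`, `hom_ga`: `φ₀ γ = ev w t₀`); by (*) `φ₀ α = x - y t₀ = 0` in `ZMod p`; `y ≠ 0` in `ZMod p` since `x, y` are coprime.  Take `s = y`.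
For `t ≠ t₀`, `t ^ 4 = -1`, `φ ζ = t`: `φ α = x - y t = y (t₀ - t) ≠ 0`, so `φ γ ≠ 0` by (*), and `(φ δ) ^ 4 = (φ α) ^ 3 φ γ`; `b = φ δ / φ α`: `φ γ = φ α b ^ 4`. -/

namespace FD

open NumberField Polynomial

private theorem Desc_star {x y : ℤ} {B : ℕ} {𝔡 𝔯 : Ideal (𝓞 E)} {β : 𝓞 E} (ε : (𝓞 E)ˣ)
    (hα : al x y ∈ 𝔡) (hβ : Ideal.span {β} = 𝔡 * 𝔯 ^ 4) (hr : Ideal.absNorm 𝔯 ≤ B)
    (hr0 : Ideal.absNorm 𝔯 ≠ 0) {p : ℕ} [hp : Fact p.Prime] (hBp : B < p) (φ : 𝓞 E →+* ZMod p)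
    (h : φ ((ε : 𝓞 E) ^ 4 * β) = 0) : φ (al x y) = 0 := by
  have hP : (RingHom.ker φ).IsPrime := RingHom.ker_isPrime φ
  have h1 : φ β = 0 := by
    rw [map_mul, map_pow] at h
    rcases mul_eq_zero.mp h with h2 | h2
    · exact absurd (pow_eq_zero_iff (by norm_num) |>.mp h2) (ε.isUnit.map φ).ne_zero
    · exact h2
  have h2 : 𝔡 * 𝔯 ^ 4 ≤ RingHom.ker φ := by
    rw [← hβ, Ideal.span_le]
    intro w hw
    rw [Set.mem_singleton_iff] at hw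
    rw [hw]
    exact (RingHom.mem_ker).mpr h1
  rcases (hP.mul_le).mp h2 with h3 | h3
  · exact (RingHom.mem_ker).mp (h3 hα)
  · exfalso
    have h4 : 𝔯 ≤ RingHom.ker φ := (hP.pow_le_iff (by norm_num)).mp h3
    have h5 := (RingHom.mem_ker).mp (h4 (Ideal.absNorm_mem 𝔯))
    rw [map_natCast] at h5
    have h6 : p ∣ Ideal.absNorm 𝔯 := (ZMod.natCast_eq_zero_iff _ _).mp h5
    have h7 := Nat.le_of_dvd (Nat.pos_of_ne_zero hr0) h6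
    omega

theorem desc : ∃ (B : ℕ) (C : ℝ), 1 ≤ B ∧ 1 ≤ C ∧ ∀ (x y : ℤ) (c z : ℕ), IsCoprime x y → 1 ≤ c → 1 ≤ z →
    x ^ 4 + y ^ 4 = (c : ℤ) * (z : ℤ) ^ 4 →
    ∃ (a : Fin 4 → ℤ) (r : ℕ), 1 ≤ r ∧ r ≤ B ∧ (Algebra.norm ℤ (ga a)).natAbs = c * r ^ 4 ∧
      (∀ i, |(a i : ℝ)| ≤ C * (c : ℝ) ^ ((1 : ℝ) / 4)) ∧
      ∀ p : ℕ, p.Prime → B < p → Al p (fun i => (a i : ZMod p)) := by
  obtain ⟨B, hB1, hcls⟩ := cls4
  obtain ⟨C1, hC1, hub⟩ := unit_balance4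
  refine ⟨B, max 1 (C1 * B), hB1, le_max_left _ _, ?_⟩
  intro x y c z hxy hc hz he
  set α := al x y with hαdef
  have hα : α ≠ 0 := by
    intro h0
    have h1 := norm_al x y
    rw [← hαdef, h0, Algebra.norm_zero, he] at h1
    have h2 : (0 : ℤ) < (c : ℤ) * (z : ℤ) ^ 4 := by
      have hc' : (0 : ℤ) < c := by exact_mod_cast hc
      have hz' : (0 : ℤ) < z := by exact_mod_cast hz
      positivity
    omega
  obtain ⟨𝔯, β, x', y', hx', hy', hxy', hβ, hr, hr0⟩ :=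
    hcls α (Ideal.span {al x y, (c : 𝓞 E)}) (Ideal.span {al x y, (z : 𝓞 E)}) hα (al_factor hxy c z he)
  have hβ0 : β ≠ 0 := by
    intro h0
    rw [h0, zero_mul] at hxy'
    exact mul_ne_zero hα (pow_ne_zero 4 hx') hxy'
  obtain ⟨ε, hε⟩ := hub β hβ0
  obtain ⟨a, ha⟩ := ga_surj ((ε : 𝓞 E) ^ 4 * β)
  have hdvd : (c : ℤ) ∣ x ^ 4 + y ^ 4 := by
    rw [he]
    exact Dvd.intro _ rfl
  have hnβ : (Algebra.norm ℤ β).natAbs = c * Ideal.absNorm 𝔯 ^ 4 := by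
    rw [← Ideal.absNorm_span_singleton, hβ, map_mul, map_pow, pair_norm hxy c hdvd]
  have hnγ : (Algebra.norm ℤ (ga a)).natAbs = c * Ideal.absNorm 𝔯 ^ 4 := by
    rw [← ha, ← Ideal.absNorm_span_singleton,
      Ideal.span_singleton_mul_left_unit (ε.isUnit.pow 4), Ideal.absNorm_span_singleton, hnβ]
  refine ⟨a, Ideal.absNorm 𝔯, Nat.pos_of_ne_zero hr0, hr, hnγ, ?_, ?_⟩
  · -- the size
    have hc0 : (0 : ℝ) ≤ (c : ℝ) ^ ((1 : ℝ) / 4) := by positivity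
    intro i
    refine coef_le a _ ?_ i
    intro σ
    rw [← ha]
    refine (hε σ).trans ?_
    have h1 : (|(Algebra.norm ℤ β : ℤ)| : ℝ) = (c : ℝ) * (Ideal.absNorm 𝔯 : ℝ) ^ 4 := by
      have h2 : ((Algebra.norm ℤ β).natAbs : ℝ) = (c : ℝ) * (Ideal.absNorm 𝔯 : ℝ) ^ 4 := by
        rw [hnβ]
        push_cast
        ring
      rw [← h2, Nat.cast_natAbs, Int.cast_abs]
    rw [h1, Real.mul_rpow (Nat.cast_nonneg _) (by positivity)]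
    have h3 : ((Ideal.absNorm 𝔯 : ℝ) ^ 4) ^ ((1 : ℝ) / 4) = (Ideal.absNorm 𝔯 : ℝ) := by
      rw [← Real.rpow_natCast, ← Real.rpow_mul (Nat.cast_nonneg _)]
      norm_num
    rw [h3]
    have h4 : (Ideal.absNorm 𝔯 : ℝ) ≤ B := by exact_mod_cast hr
    calc C1 * ((c : ℝ) ^ ((1 : ℝ) / 4) * (Ideal.absNorm 𝔯 : ℝ))
        ≤ C1 * ((c : ℝ) ^ ((1 : ℝ) / 4) * B) :=
          mul_le_mul_of_nonneg_left (mul_le_mul_of_nonneg_left h4 hc0) hC1.le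
      _ = (C1 * B) * (c : ℝ) ^ ((1 : ℝ) / 4) := by ring
      _ ≤ max 1 (C1 * B) * (c : ℝ) ^ ((1 : ℝ) / 4) :=
          mul_le_mul_of_nonneg_right (le_max_right _ _) hc0
  · -- the local condition
    intro p hp hBp
    have : Fact p.Prime := ⟨hp⟩
    have hstar : ∀ φ : 𝓞 E →+* ZMod p, φ (ga a) = 0 → φ α = 0 := by
      intro φ hφ
      rw [← ha] at hφ
      exact Desc_star ε (Ideal.subset_span (Set.mem_insert _ _)) hβ hr hr0 hBp φ hφ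
    obtain ⟨δ, hδ⟩ : ∃ δ : 𝓞 E, δ ^ 4 = α ^ 3 * ga a := by
      have h1 : (α * ε * x') ^ 4 = α ^ 3 * ga a * y' ^ 4 := by
        rw [← ha]
        calc (α * ε * x') ^ 4 = α ^ 3 * (ε : 𝓞 E) ^ 4 * (α * x' ^ 4) := by ring
          _ = α ^ 3 * (ε : 𝓞 E) ^ 4 * (β * y' ^ 4) := by rw [hxy']
          _ = α ^ 3 * ((ε : 𝓞 E) ^ 4 * β) * y' ^ 4 := by ring
      have h2 : y' ^ 4 ∣ (α * ε * x') ^ 4 := by
        rw [h1]
        exact Dvd.intro_left _ rfl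
      obtain ⟨δ, hδ⟩ := (IsIntegrallyClosed.pow_dvd_pow_iff (by norm_num)).mp h2
      refine ⟨δ, ?_⟩
      rw [hδ, mul_pow, mul_comm] at h1
      exact mul_right_cancel₀ (pow_ne_zero 4 hy') h1
    have hal : ∀ φ : 𝓞 E →+* ZMod p, φ α = (x : ZMod p) - (y : ZMod p) * φ ze := by
      intro φ
      rw [hαdef, al, map_sub, map_mul, map_intCast, map_intCast]
    by_cases hall : ∀ t : ZMod p, t ^ 4 = -1 → ev (fun i => (a i : ZMod p)) t ≠ 0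
    · exact Or.inl hall
    · push Not at hall
      obtain ⟨t₀, ht₀, hev⟩ := hall
      obtain ⟨φ₀, hφ₀⟩ := hom_exists p t₀ ht₀
      have h1 : φ₀ (ga a) = 0 := by
        rw [hom_ga, hφ₀]
        exact hev
      have h2 := hstar φ₀ h1
      rw [hal, hφ₀, sub_eq_zero] at h2
      have hy0 : (y : ZMod p) ≠ 0 := by
        intro hy0
        rw [hy0, zero_mul] at h2
        obtain ⟨u, v, huv⟩ := hxy
        have h3 := congrArg (Int.cast : ℤ → ZMod p) huv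
        push_cast at h3
        rw [h2, hy0, mul_zero, mul_zero, add_zero] at h3
        exact zero_ne_one h3
      refine Or.inr ⟨t₀, (y : ZMod p), ht₀, hy0, hev, ?_⟩
      intro t ht hne
      obtain ⟨φ, hφ⟩ := hom_exists p t ht
      have h4 : φ α = (y : ZMod p) * (t₀ - t) := by
        rw [hal, hφ, h2]
        ring
      have h5 : φ α ≠ 0 := by
        rw [h4]
        exact mul_ne_zero hy0 (sub_ne_zero.mpr (Ne.symm hne))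
      have h6 : φ (ga a) ≠ 0 := fun h => h5 (hstar φ h)
      have h7 : φ (ga a) = ev (fun i => (a i : ZMod p)) t := by
        rw [hom_ga, hφ]
      have h8 : (φ δ) ^ 4 = (φ α) ^ 3 * φ (ga a) := by
        rw [← map_pow, hδ, map_mul, map_pow]
      refine ⟨φ δ / φ α, ?_, ?_⟩
      · refine div_ne_zero ?_ h5
        intro h9
        rw [h9, zero_pow (by norm_num)] at h8
        exact mul_ne_zero (pow_ne_zero 3 h5) h6 h8.symm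
      · rw [← h7, ← h4, div_pow, h8]
        field_simp

end FD
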