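import Pool.Agent.Lib.MP_9b5ce2_ntD.Defs

/-! The eighth cyclotomic field: integral basis, homomorphisms to `ZMod p`. -/

namespace FD
open NumberField Polynomial

theorem ze_prim : IsPrimitiveRoot ze 8 := (IsCyclotomicExtension.zeta_spec 8 ℚ E).toInteger_isPrimitiveRoot

theorem ze_pow : ze ^ 4 = -1 := by
  have h1 : ze ^ 4 * ze ^ 4 = 1 := by rw [← pow_add]; exact ze_prim.pow_eq_one
  have h2 : ze ^ 4 ≠ 1 := ze_prim.pow_ne_one_of_pos_of_lt (by norm_num) (by norm_num)
  rcases mul_self_eq_one_iff.1 h1 with h3 | h3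
  · exact absurd h3 h2
  · exact h3

theorem finrank_E : Module.finrank ℚ E = 4 := by
  rw [IsCyclotomicExtension.finrank (n := 8) E (cyclotomic.irreducible_rat (by norm_num))]
  decide

theorem hom_ga {R : Type} [CommRing R] (φ : 𝓞 E →+* R) (a : Fin 4 → ℤ) :
    φ (ga a) = ev (fun i => (a i : R)) (φ ze) := by
  unfold ga ev
  rw [map_sum]
  exact Finset.sum_congr rfl fun i _ => by rw [map_mul, map_intCast, map_pow]

theorem ga_surj (β : 𝓞 E) : ∃ a : Fin 4 → ℤ, β = ga a := by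
  have hd : (IsCyclotomicExtension.zeta_spec 8 ℚ E).integralPowerBasis.dim = 4 := by
    rw [IsPrimitiveRoot.integralPowerBasis_dim]
    decide
  have hg : (IsCyclotomicExtension.zeta_spec 8 ℚ E).integralPowerBasis.gen = ze := by
    rw [IsPrimitiveRoot.integralPowerBasis_gen]
    rfl
  set B := (IsCyclotomicExtension.zeta_spec 8 ℚ E).integralPowerBasis
  refine ⟨fun i => B.basis.repr β (Fin.cast hd.symm i), ?_⟩
  unfold ga
  conv_lhs => rw [← B.basis.sum_repr β]
  rw [← Equiv.sum_comp (finCongr hd.symm)]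
  refine Finset.sum_congr rfl fun i _ => ?_
  rw [B.basis_eq_pow, hg, zsmul_eq_mul]
  rfl

theorem hom_exists (p : ℕ) [Fact p.Prime] (t : ZMod p) (ht : t ^ 4 = -1) : ∃ φ : 𝓞 E →+* ZMod p, φ ze = t := by
  have hg : (IsCyclotomicExtension.zeta_spec 8 ℚ E).integralPowerBasis.gen = ze := by
    rw [IsPrimitiveRoot.integralPowerBasis_gen]
    rfl
  set B := (IsCyclotomicExtension.zeta_spec 8 ℚ E).integralPowerBasis
  have hc : cyclotomic 8 ℤ = X ^ 4 + 1 := by
    have := cyclotomic_prime_pow_eq_geom_sum (R := ℤ) (p := 2) (n := 2) Nat.prime_two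
    rw [show (8 : ℕ) = 2 ^ (2 + 1) by norm_num, this]
    simp [Finset.sum_range_succ]
    ring
  have hm : minpoly ℤ B.gen = cyclotomic 8 ℤ := by
    rw [hg, ← minpoly.algebraMap_eq (RingOfIntegers.coe_injective (K := E)) ze]
    have hz : IsPrimitiveRoot ((algebraMap (𝓞 E) E) ze) 8 := ze_prim.map_of_injective (RingOfIntegers.coe_injective (K := E))
    exact (cyclotomic_eq_minpoly hz (by norm_num)).symm
  have h1 : aeval t (minpoly ℤ B.gen) = 0 := by
    rw [hm, hc]
    simp [ht]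
  refine ⟨(B.lift t h1 : 𝓞 E →ₐ[ℤ] ZMod p).toRingHom, ?_⟩
  have h2 := B.lift_gen t h1
  rw [hg] at h2
  exact h2
end FD
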