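import Pool.Agent.Lib.MP_9b5ce2_ntD.Fld

/-! The norm of `x - ζ y`. -/

namespace FD

open NumberField Polynomial

/-- The integral basis `1, ζ, ζ ^ 2, ζ ^ 3`. -/
private theorem FldB_basis : ∃ b : Module.Basis (Fin 4) ℤ (𝓞 E), ∀ j, b j = ze ^ (j : ℕ) := by
  have hd : (IsCyclotomicExtension.zeta_spec 8 ℚ E).integralPowerBasis.dim = 4 := by
    rw [IsPrimitiveRoot.integralPowerBasis_dim]
    decide
  have hg : (IsCyclotomicExtension.zeta_spec 8 ℚ E).integralPowerBasis.gen = ze := by
    rw [IsPrimitiveRoot.integralPowerBasis_gen]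
    rfl
  set B := (IsCyclotomicExtension.zeta_spec 8 ℚ E).integralPowerBasis
  refine ⟨B.basis.reindex (finCongr hd), fun j => ?_⟩
  rw [Module.Basis.reindex_apply, B.basis_eq_pow, hg]
  rfl

/-- the norm of `x - ζ y` -/
theorem norm_al (x y : ℤ) : Algebra.norm ℤ (al x y) = x ^ 4 + y ^ 4 := by
  obtain ⟨b, hb⟩ := FldB_basis
  have hM : Algebra.leftMulMatrix b (al x y) =
      !![x, 0, 0, y; -y, x, 0, 0; 0, -y, x, 0; 0, 0, -y, x] := by
    have h0 : al x y * b 0 = x • b 0 + (-y) • b 1 := by
      rw [hb, hb, al]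
      simp only [zsmul_eq_mul]
      push_cast
      simp
      ring
    have h1 : al x y * b 1 = x • b 1 + (-y) • b 2 := by
      rw [hb, hb, al]
      simp only [zsmul_eq_mul]
      push_cast
      simp
      ring
    have h2 : al x y * b 2 = x • b 2 + (-y) • b 3 := by
      rw [hb, hb, al]
      simp only [zsmul_eq_mul]
      push_cast
      simp
      ring
    have h3 : al x y * b 3 = x • b 3 + y • b 0 := by
      have hz := ze_pow
      rw [hb, hb, al]
      simp only [zsmul_eq_mul]
      push_cast
      simp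
      linear_combination (-(y : 𝓞 E)) * hz
    ext i j
    rw [Algebra.leftMulMatrix_eq_repr_mul]
    fin_cases j
    · change b.repr (al x y * b 0) i = _
      rw [h0, map_add, map_zsmul, map_zsmul, b.repr_self, b.repr_self]
      fin_cases i <;> simp
    · change b.repr (al x y * b 1) i = _
      rw [h1, map_add, map_zsmul, map_zsmul, b.repr_self, b.repr_self]
      fin_cases i <;> simp
    · change b.repr (al x y * b 2) i = _
      rw [h2, map_add, map_zsmul, map_zsmul, b.repr_self, b.repr_self]
      fin_cases i <;> simp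
    · change b.repr (al x y * b 3) i = _
      rw [h3, map_add, map_zsmul, map_zsmul, b.repr_self, b.repr_self]
      fin_cases i <;> simp
  rw [Algebra.norm_eq_matrix_det b, hM]
  simp [Matrix.det_succ_row_zero, Fin.sum_univ_succ, Fin.succAbove]
  ring

end FD
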