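import Pool.Agent.Lib.MP_9b5ce2_ntD.FldB

/-! The ideals containing `α = x - ζ y` (`x, y` coprime, `N = x ^ 4 + y ^ 4`) correspond to the divisors of `N`.

Let `I d = span {α, d}`.  (1) For every `β : 𝓞 E` there is `n : ℤ` with `β - n ∈ span {α}`: `y` and `N` are coprime, so there is `w` with `N ∣ y w - 1`; `N = norm α ∈ span {α}` (`norm_al`, `Ideal.absNorm_mem`, or `Algebra.norm` divisible by the element:
`N = (x - ζ y)(x ^ 3 + x ^ 2 y ζ + x y ^ 2 ζ ^ 2 + y ^ 3 ζ ^ 3)` because `ζ ^ 4 = -1`, directly by `ring`), so modulo `α`: `ζ = ζ y w = x w`.  Hence `ζ` is congruent to an integer and every `ga a` too (`ga_surj`).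
(2) If `n : ℤ` and `n ∈ span {α}` then `N ∣ n`: the additive group `𝓞 E ⧸ span {α}` has `|norm α| = N` elements (`Ideal.absNorm_span_singleton`, `absNorm` is the cardinality of the quotient: `Ideal.absNorm_apply`, `Submodule.cardQuot_apply`) and by (1) it is cyclic generated by `1`, so the order of `1` is `N`.
(3) `pair_norm`: for `d ∣ N`: `n ∈ I d ↔ d ∣ n` for `n : ℤ`: if `n = α β + d γ`, then `γ = g + α γ'` with `g : ℤ` by (1), so `n - d g ∈ span {α}`, so `N ∣ n - d g`, `d ∣ n`.  So `𝓞 E ⧸ I d` is cyclic generated by `1`, of order `d`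
(the map `ℤ → 𝓞 E ⧸ I d` is surjective with kernel `dℤ`: `Int.quotientSpanNatEquivZMod`/`RingHom.quotientKerEquivOfSurjective`, `Nat.card_congr`, `Nat.card_zmod`).
(4) `pair_mul`: `I d * I e ≤ I (d e)` (generators `α α, α e, d α, d e`); both sides have the norm `d e` (`map_mul`, (3)), nonzero, so they are equal (for ideals `J ≤ J'` in a Dedekind domain with the same nonzero norm: `J' ∣ J`, `J = J' L`, `absNorm L = 1`, `L = ⊤`: `Ideal.absNorm_eq_one_iff`).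
(5) `al_factor`: by (4) three times `I z ^ 4 = I (z ^ 4)` (`z ^ k ∣ N`), `I c * I (z ^ 4) = I (c z ^ 4) = I N = span {α}` since `α ∣ N`. -/

namespace FD

open NumberField Polynomial

private theorem idl_mul (x y : ℤ) : ((x ^ 4 + y ^ 4 : ℤ) : 𝓞 E) = al x y *
    ((x : 𝓞 E) ^ 3 + (x : 𝓞 E) ^ 2 * y * ze + x * (y : 𝓞 E) ^ 2 * ze ^ 2 + (y : 𝓞 E) ^ 3 * ze ^ 3) := by
  unfold al
  push_cast
  linear_combination (y : 𝓞 E) ^ 4 * ze_pow

private theorem idl_int {x y : ℤ} (h : IsCoprime x y) (β : 𝓞 E) :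
    ∃ n : ℤ, al x y ∣ β - (n : 𝓞 E) := by
  have h1 : IsCoprime y (x ^ 4 + y ^ 4) := by
    have h2 : IsCoprime y (x ^ 4) := h.symm.pow_right
    have h3 : x ^ 4 + y ^ 4 = x ^ 4 + y * y ^ 3 := by ring
    rw [h3]
    exact h2.add_mul_left_right _
  obtain ⟨w, a, hwa⟩ := h1
  have hz : al x y ∣ ze - ((x * w : ℤ) : 𝓞 E) := by
    have h4 : ((w * y + a * (x ^ 4 + y ^ 4) : ℤ) : 𝓞 E) = 1 := by rw [hwa, Int.cast_one]
    refine ⟨-(w : 𝓞 E) + a * ze * ((x : 𝓞 E) ^ 3 + (x : 𝓞 E) ^ 2 * y * ze + x * (y : 𝓞 E) ^ 2 * ze ^ 2 +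
      (y : 𝓞 E) ^ 3 * ze ^ 3), ?_⟩
    have h5 := idl_mul x y
    have h6 : al x y = (x : 𝓞 E) - (y : 𝓞 E) * ze := rfl
    push_cast at h4 h5 ⊢
    linear_combination (-ze) * h4 + a * ze * h5 + (w : 𝓞 E) * h6
  obtain ⟨b, rfl⟩ := ga_surj β
  refine ⟨∑ i : Fin 4, b i * (x * w) ^ (i : ℕ), ?_⟩
  unfold ga
  rw [Int.cast_sum, ← Finset.sum_sub_distrib]
  refine Finset.dvd_sum fun i _ => ?_
  rw [Int.cast_mul, Int.cast_pow, ← mul_sub]
  exact (hz.trans (sub_dvd_pow_sub_pow _ _ _)).mul_left _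

private theorem idl_ker (I : Ideal (𝓞 E)) (hs : ∀ β : 𝓞 E, ∃ n : ℤ, β - (n : 𝓞 E) ∈ I) (n : ℤ) :
    (n : 𝓞 E) ∈ I ↔ ((Ideal.absNorm I : ℕ) : ℤ) ∣ n := by
  let f : ℤ →+* 𝓞 E ⧸ I := Int.castRingHom _
  have hf : ∀ m : ℤ, f m = Ideal.Quotient.mk I (m : 𝓞 E) := fun m => by
    rw [map_intCast]
    rfl
  have hsurj : Function.Surjective f := by
    intro q
    obtain ⟨β, rfl⟩ := Ideal.Quotient.mk_surjective q
    obtain ⟨m, hm⟩ := hs β
    refine ⟨m, ?_⟩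
    rw [hf, eq_comm, Ideal.Quotient.eq]
    exact hm
  obtain ⟨m, hm⟩ : ∃ m : ℕ, RingHom.ker f = Ideal.span {(m : ℤ)} := by
    obtain ⟨g, hg⟩ := IsPrincipalIdealRing.principal (RingHom.ker f)
    refine ⟨g.natAbs, ?_⟩
    rw [Int.span_natAbs]
    exact hg
  have hcard : Ideal.absNorm I = m := by
    rw [Ideal.absNorm_apply, Submodule.cardQuot_apply,
      Nat.card_congr (RingHom.quotientKerEquivOfSurjective hsurj).symm.toEquiv, hm,
      Nat.card_congr (Int.quotientSpanNatEquivZMod m).toEquiv, Nat.card_zmod]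
  rw [hcard, ← Ideal.mem_span_singleton, ← hm, RingHom.mem_ker, hf,
    Ideal.Quotient.eq_zero_iff_mem]

private theorem idl_pos {x y : ℤ} (h : IsCoprime x y) : x ^ 4 + y ^ 4 ≠ 0 := by
  intro h0
  have hx : x ^ 4 = 0 := by nlinarith [sq_nonneg (x ^ 2), sq_nonneg (y ^ 2)]
  have hy : y ^ 4 = 0 := by nlinarith [sq_nonneg (x ^ 2), sq_nonneg (y ^ 2)]
  have hx' : x = 0 := by simpa using hx
  have hy' : y = 0 := by simpa using hy
  rw [hx', hy'] at h
  exact not_isCoprime_zero_zero h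

private theorem idl_dvd {x y : ℤ} (h : IsCoprime x y) (n : ℤ) (hn : al x y ∣ (n : 𝓞 E)) :
    x ^ 4 + y ^ 4 ∣ n := by
  have h1 := (idl_ker (Ideal.span {al x y}) (fun β => by
    obtain ⟨m, hm⟩ := idl_int h β
    exact ⟨m, Ideal.mem_span_singleton.2 hm⟩) n).1 (Ideal.mem_span_singleton.2 hn)
  rw [Ideal.absNorm_span_singleton, norm_al, Int.natCast_natAbs, abs_dvd] at h1
  exact h1

private theorem idl_mem {x y : ℤ} (h : IsCoprime x y) (d : ℕ) (hd : (d : ℤ) ∣ x ^ 4 + y ^ 4) (n : ℤ)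
    (hn : (n : 𝓞 E) ∈ Ideal.span {al x y, (d : 𝓞 E)}) : (d : ℤ) ∣ n := by
  obtain ⟨a, b, hab⟩ := Ideal.mem_span_pair.1 hn
  obtain ⟨g, γ, hγ⟩ := idl_int h b
  have h1 : al x y ∣ ((n - d * g : ℤ) : 𝓞 E) := by
    refine ⟨a + d * γ, ?_⟩
    push_cast
    linear_combination (d : 𝓞 E) * hγ - hab
  have h2 := hd.trans (idl_dvd h _ h1)
  exact (dvd_sub_left (dvd_mul_right _ _)).1 h2

theorem pair_norm {x y : ℤ} (h : IsCoprime x y) (d : ℕ) (hd : (d : ℤ) ∣ x ^ 4 + y ^ 4) :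
    Ideal.absNorm (Ideal.span {al x y, (d : 𝓞 E)}) = d := by
  have hk := idl_ker (Ideal.span {al x y, (d : 𝓞 E)}) (fun β => by
    obtain ⟨m, hm⟩ := idl_int h β
    refine ⟨m, ?_⟩
    exact Ideal.span_mono (by simp) (Ideal.mem_span_singleton.2 hm))
  apply Nat.dvd_antisymm
  · have h1 : ((d : ℤ) : 𝓞 E) ∈ Ideal.span {al x y, (d : 𝓞 E)} := by
      rw [Int.cast_natCast]
      exact Ideal.subset_span (by simp)
    exact_mod_cast (hk d).1 h1
  · exact_mod_cast idl_mem h d hd _ ((hk _).2 dvd_rfl)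

theorem pair_mul {x y : ℤ} (h : IsCoprime x y) (d e : ℕ) (hd : ((d * e : ℕ) : ℤ) ∣ x ^ 4 + y ^ 4) :
    Ideal.span {al x y, (d : 𝓞 E)} * Ideal.span {al x y, (e : 𝓞 E)} = Ideal.span {al x y, ((d * e : ℕ) : 𝓞 E)} := by
  have hd1 : (d : ℤ) ∣ x ^ 4 + y ^ 4 := by
    refine dvd_trans ?_ hd
    push_cast
    exact dvd_mul_right _ _
  have he1 : (e : ℤ) ∣ x ^ 4 + y ^ 4 := by
    refine dvd_trans ?_ hd
    push_cast
    exact dvd_mul_left _ _
  have hle : Ideal.span {al x y, (d : 𝓞 E)} * Ideal.span {al x y, (e : 𝓞 E)} ≤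
      Ideal.span {al x y, ((d * e : ℕ) : 𝓞 E)} := by
    have ha : al x y ∈ Ideal.span {al x y, ((d * e : ℕ) : 𝓞 E)} := Ideal.subset_span (by simp)
    have hb : ((d * e : ℕ) : 𝓞 E) ∈ Ideal.span {al x y, ((d * e : ℕ) : 𝓞 E)} :=
      Ideal.subset_span (by simp)
    rw [Ideal.span_mul_span, Ideal.span_le]
    rintro z hz
    obtain ⟨u, hu, v, hv, rfl⟩ := Set.mem_mul.1 (by simpa using hz)
    simp only [Set.mem_insert_iff, Set.mem_singleton_iff] at hu hv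
    rcases hu with rfl | rfl
    · exact Ideal.mul_mem_right _ _ ha
    · rcases hv with rfl | rfl
      · exact Ideal.mul_mem_left _ _ ha
      · rw [← Nat.cast_mul]
        exact hb
  obtain ⟨L, hL⟩ := Ideal.dvd_iff_le.2 hle
  have hn := congrArg Ideal.absNorm hL
  rw [map_mul, map_mul, pair_norm h d hd1, pair_norm h e he1, pair_norm h (d * e) hd] at hn
  have h0 : d * e ≠ 0 := by
    intro h0
    rw [h0, Nat.cast_zero, zero_dvd_iff] at hd
    exact idl_pos h hd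
  have h1 : Ideal.absNorm L = 1 := by
    have h2 : d * e * Ideal.absNorm L = d * e * 1 := by rw [← hn, mul_one]
    exact Nat.eq_of_mul_eq_mul_left (Nat.pos_of_ne_zero h0) h2
  rw [Ideal.absNorm_eq_one_iff] at h1
  rw [hL, h1, Ideal.mul_top]

private theorem idl_pow {x y : ℤ} (h : IsCoprime x y) (z : ℕ) (k : ℕ)
    (hd : ((z ^ k : ℕ) : ℤ) ∣ x ^ 4 + y ^ 4) :
    Ideal.span {al x y, (z : 𝓞 E)} ^ k = Ideal.span {al x y, ((z ^ k : ℕ) : 𝓞 E)} := by
  induction k with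
  | zero =>
    rw [pow_zero, pow_zero, Nat.cast_one, Ideal.one_eq_top, eq_comm, Ideal.eq_top_iff_one]
    exact Ideal.subset_span (by simp)
  | succ k ih =>
    rw [pow_succ, ih (dvd_trans (by rw [pow_succ]; push_cast; exact dvd_mul_right _ _) hd),
      pair_mul h (z ^ k) z (by rwa [← pow_succ]), ← pow_succ]

theorem al_factor {x y : ℤ} (h : IsCoprime x y) (c z : ℕ) (he : x ^ 4 + y ^ 4 = (c : ℤ) * (z : ℤ) ^ 4) :
    Ideal.span {al x y} = Ideal.span {al x y, (c : 𝓞 E)} * Ideal.span {al x y, (z : 𝓞 E)} ^ 4 := by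
  have h1 : x ^ 4 + y ^ 4 = ((c * z ^ 4 : ℕ) : ℤ) := by rw [he]; push_cast; ring
  rw [idl_pow h z 4 (by rw [he]; push_cast; exact dvd_mul_left _ _),
    pair_mul h c (z ^ 4) (by rw [h1])]
  have h2 : ((c * z ^ 4 : ℕ) : 𝓞 E) = ((x ^ 4 + y ^ 4 : ℤ) : 𝓞 E) := by
    rw [h1, Int.cast_natCast]
  rw [h2]
  apply le_antisymm
  · exact Ideal.span_mono (by simp)
  · rw [Ideal.span_le]
    intro u hu
    simp only [Set.mem_insert_iff, Set.mem_singleton_iff] at hu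
    rcases hu with rfl | rfl
    · exact Ideal.subset_span rfl
    · exact Ideal.mem_span_singleton.2 ⟨_, idl_mul x y⟩

end FD
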