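import Pool.Agent.Lib.MP_9b5ce2_ntD.Defs

/-! Every element of `ZMod p`, `p > 60`, is a sum of two fourth powers.

If `p % 4 = 3`: `u = s ^ 2 + t ^ 2` (`ZMod.sq_add_sq`), and every square is a fourth power: `s` or `-s` is a square (`-1` is not a square: `ZMod.exists_sq_eq_neg_one_iff`, `quadraticChar`), so `s ^ 2 = (±s) ^ 2 = v ^ 4`.
If `p % 4 = 1` (`u ≠ 0`; `u = 0` is trivial): let `χ : MulChar (ZMod p) ℂ` have order `4` (`MulChar.exists_mulChar_orderOf`).  For `a ≠ 0`: `∑_{i < 4} χ(a) ^ i = 4` if `χ a = 1` and `0` otherwise (`χ(a) ^ 4 = 1`), and `χ a = 1` iff `a` is a fourth power (the fourth powers form the subgroup of index `4` of the cyclic group `(ZMod p)ˣ`, contained in the kernel of `χ`, which has index `4`).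
So if `u` were not of the form `x ^ 4 + y ^ 4` with `x, y ≠ 0`, then `0 = ∑_{a ≠ 0, u} (∑_i χ ^ i (a)) (∑_j χ ^ j (u - a)) = ∑_{i, j < 4} χ ^ (i + j) (u) J(χ ^ i, χ ^ j)` (`a = u a'`; `jacobiSum`; `MulChar` powers: `(χ ^ i) 0 = 0` also for the trivial character).
`J(1, 1) = p - 2` (`jacobiSum_one_one`), `J(1, ψ) = -1` for `ψ ≠ 1` (`jacobiSum_one_nontrivial`; six of them), `J(ψ, ψ⁻¹) = -ψ(-1)` (`jacobiSum_nontrivial_inv`; three), and the other six have absolute value `√p`: `J(ψ, φ) J(ψ⁻¹, φ⁻¹) = p` (`jacobiSum_mul_jacobiSum_inv`) and `J(ψ⁻¹, φ⁻¹)` is the complex conjugate of `J(ψ, φ)`.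
So `p - 2 ≤ 6 + 3 + 6 √p`, impossible for `p > 60` (`√p > 7.47`; `p ≥ 61`). -/

namespace FD

open Finset

/-- the values of a character are of norm one -/
theorem Jac_norm {p : ℕ} [Fact p.Prime] (ψ : MulChar (ZMod p) ℂ) {a : ZMod p} (ha : a ≠ 0) : ‖ψ a‖ = 1 := by
  have hp : p.Prime := Fact.out
  have h1 : ψ a ^ (p - 1) = 1 := by
    rw [← map_pow, ZMod.pow_card_sub_one_eq_one ha, map_one]
  have h2 : ‖ψ a‖ ^ (p - 1) = 1 := by
    rw [← norm_pow, h1, norm_one]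
  exact (pow_eq_one_iff_of_nonneg (norm_nonneg _) (Nat.sub_ne_zero_of_lt hp.one_lt)).1 h2

theorem Jac_inv {p : ℕ} [Fact p.Prime] (ψ : MulChar (ZMod p) ℂ) (a : ZMod p) :
    ψ⁻¹ a = (starRingEnd ℂ) (ψ a) := by
  by_cases ha : a = 0
  · subst ha
    rw [MulChar.map_zero, MulChar.map_zero, map_zero]
  · rw [MulChar.inv_apply_eq_inv', Complex.inv_eq_conj (Jac_norm ψ ha)]

theorem Jac_J_conj {p : ℕ} [Fact p.Prime] (ψ φ : MulChar (ZMod p) ℂ) :
    jacobiSum ψ⁻¹ φ⁻¹ = (starRingEnd ℂ) (jacobiSum ψ φ) := by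
  unfold jacobiSum
  rw [map_sum]
  refine Finset.sum_congr rfl fun x _ => ?_
  rw [Jac_inv, Jac_inv, map_mul]

theorem Jac_J_norm {p : ℕ} [Fact p.Prime] {ψ φ : MulChar (ZMod p) ℂ} (h1 : ψ ≠ 1) (h2 : φ ≠ 1) (h3 : ψ * φ ≠ 1) :
    ‖jacobiSum ψ φ‖ = Real.sqrt p := by
  have hp : p.Prime := Fact.out
  have hc : ringChar ℂ ≠ ringChar (ZMod p) := by
    rw [ZMod.ringChar_zmod_n, ringChar.eq ℂ 0]
    exact hp.ne_zero.symm
  have h := jacobiSum_mul_jacobiSum_inv hc h1 h2 h3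
  rw [Jac_J_conj, Complex.mul_conj', ZMod.card] at h
  have h4 : ‖jacobiSum ψ φ‖ ^ 2 = (p : ℝ) := by
    exact_mod_cast h
  rw [← h4, Real.sqrt_sq (norm_nonneg _)]

/-- a nonzero element in the kernel of a character of order four is a fourth power -/
theorem Jac_fourth {p : ℕ} [Fact p.Prime] (χ : MulChar (ZMod p) ℂ) (hχ : orderOf χ = 4) {a : ZMod p} (ha : a ≠ 0)
    (h : χ a = 1) : ∃ x : ZMod p, x ^ 4 = a := by
  obtain ⟨g, hg⟩ := IsCyclic.exists_monoid_generator (α := (ZMod p)ˣ)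
  obtain ⟨k, hk⟩ := hg (Units.mk0 a ha)
  have hk' : ((g : ZMod p)) ^ k = a := by
    have := congrArg (fun u : (ZMod p)ˣ => (u : ZMod p)) hk
    simpa using this
  have h1 : χ ^ k = 1 := by
    apply MulChar.ext
    intro y
    obtain ⟨n, hn⟩ := hg y
    have hn' : ((g : ZMod p)) ^ n = (y : ZMod p) := by
      have := congrArg (fun u : (ZMod p)ˣ => (u : ZMod p)) hn
      simpa using this
    rw [MulChar.pow_apply_coe, MulChar.one_apply_coe, ← hn', map_pow, ← pow_mul, mul_comm, pow_mul, ← map_pow, hk', h,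
      one_pow]
  have h2 : 4 ∣ k := hχ ▸ orderOf_dvd_of_pow_eq_one h1
  obtain ⟨m, rfl⟩ := h2
  refine ⟨(g : ZMod p) ^ m, ?_⟩
  rw [← pow_mul, mul_comm m 4, hk']

/-- the sum of the powers of the character -/
noncomputable def Jac_G {p : ℕ} [Fact p.Prime] (χ : MulChar (ZMod p) ℂ) (a : ZMod p) : ℂ := ∑ i ∈ range 4, (χ ^ i) a

theorem Jac_G_ne {p : ℕ} [Fact p.Prime] (χ : MulChar (ZMod p) ℂ) (hχ : orderOf χ = 4) {a : ZMod p} (h : Jac_G χ a ≠ 0) :
    ∃ x : ZMod p, x ^ 4 = a := by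
  by_cases ha : a = 0
  · exfalso
    apply h
    unfold Jac_G
    apply Finset.sum_eq_zero
    intro i _
    rw [ha, MulChar.map_zero]
  · apply Jac_fourth χ hχ ha
    have h4 : χ ^ 4 = 1 := by
      rw [← hχ]
      exact pow_orderOf_eq_one χ
    have hpow : ∀ i : ℕ, (χ ^ i) a = χ a ^ i := by
      intro i
      have := MulChar.pow_apply_coe χ i (Units.mk0 a ha)
      simpa using this
    have h5 : χ a ^ 4 = 1 := by
      rw [← hpow, h4]
      exact MulChar.one_apply (isUnit_iff_ne_zero.2 ha)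
    have h6 : Jac_G χ a = 1 + χ a + χ a ^ 2 + χ a ^ 3 := by
      unfold Jac_G
      simp only [Finset.sum_range_succ, Finset.sum_range_zero, hpow]
      ring
    have h7 : (χ a - 1) * Jac_G χ a = 0 := by
      rw [h6]
      linear_combination h5
    rcases mul_eq_zero.1 h7 with h8 | h8
    · exact sub_eq_zero.1 h8
    · exact absurd h8 h

theorem Jac_shift {p : ℕ} [Fact p.Prime] (ψ φ : MulChar (ZMod p) ℂ) {u : ZMod p} (hu : u ≠ 0) :
    ∑ a : ZMod p, ψ a * φ (u - a) = ψ u * φ u * jacobiSum ψ φ := by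
  rw [← Equiv.sum_comp (Equiv.mulLeft₀ u hu)]
  unfold jacobiSum
  rw [Finset.mul_sum]
  refine Finset.sum_congr rfl fun x _ => ?_
  have h2 : (Equiv.mulLeft₀ u hu) x = u * x := rfl
  have h1 : u - (Equiv.mulLeft₀ u hu) x = u * (1 - x) := by
    rw [h2]
    ring
  rw [h1, h2, map_mul, map_mul]
  ring

theorem Jac_T_norm {p : ℕ} [Fact p.Prime] (ψ φ : MulChar (ZMod p) ℂ) {u : ZMod p} (hu : u ≠ 0) :
    ‖∑ a : ZMod p, ψ a * φ (u - a)‖ = ‖jacobiSum ψ φ‖ := by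
  rw [Jac_shift ψ φ hu, norm_mul, norm_mul, Jac_norm ψ hu, Jac_norm φ hu]
  ring

theorem Jac_one_mod (p : ℕ) [Fact p.Prime] (hp : 60 < p) (h4 : p % 4 = 1) {u : ZMod p} (hu : u ≠ 0) :
    ∃ x y : ZMod p, x ^ 4 + y ^ 4 = u := by
  by_contra hcon
  have hpp : p.Prime := Fact.out
  have hdiv : 4 ∣ Fintype.card (ZMod p) - 1 := by
    rw [ZMod.card]
    omega
  obtain ⟨χ, hχ⟩ := MulChar.exists_mulChar_orderOf (ZMod p) hdiv (Complex.isPrimitiveRoot_exp 4 (by norm_num))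
  have hS : ∑ a : ZMod p, Jac_G χ a * Jac_G χ (u - a) = 0 := by
    apply Finset.sum_eq_zero
    intro a _
    by_contra hne
    obtain ⟨x, hx⟩ := Jac_G_ne χ hχ (left_ne_zero_of_mul hne)
    obtain ⟨y, hy⟩ := Jac_G_ne χ hχ (right_ne_zero_of_mul hne)
    apply hcon
    refine ⟨x, y, ?_⟩
    rw [hx, hy]
    ring
  have hexp : ∑ a : ZMod p, Jac_G χ a * Jac_G χ (u - a) =
      ∑ i ∈ range 4, ∑ j ∈ range 4, ∑ a : ZMod p, (χ ^ i) a * (χ ^ j) (u - a) := by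
    have : ∀ a : ZMod p, Jac_G χ a * Jac_G χ (u - a) = ∑ i ∈ range 4, ∑ j ∈ range 4, (χ ^ i) a * (χ ^ j) (u - a) := by
      intro a
      unfold Jac_G
      rw [Finset.sum_mul_sum]
    rw [Finset.sum_congr rfl fun a _ => this a, Finset.sum_comm]
    refine Finset.sum_congr rfl fun i _ => ?_
    rw [Finset.sum_comm]
  set T : ℕ → ℕ → ℂ := fun i j => ∑ a : ZMod p, (χ ^ i) a * (χ ^ j) (u - a) with hT
  have hne : ∀ k : ℕ, ¬ 4 ∣ k → χ ^ k ≠ 1 := by
    intro k hk h1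
    exact hk (hχ ▸ orderOf_dvd_of_pow_eq_one h1)
  have h00 : T 0 0 = (p : ℂ) - 2 := by
    have := Jac_shift (χ ^ 0) (χ ^ 0) hu
    rw [hT]
    simp only
    rw [this, pow_zero, MulChar.one_apply (isUnit_iff_ne_zero.2 hu), jacobiSum_one_one, ZMod.card]
    ring
  have hA : ∀ j : ℕ, ¬ 4 ∣ j → ‖T 0 j‖ = 1 := by
    intro j hj
    rw [hT]
    simp only
    rw [Jac_T_norm _ _ hu, pow_zero, jacobiSum_one_nontrivial (hne j hj)]
    simp
  have hB : ∀ j : ℕ, ¬ 4 ∣ j → ‖T j 0‖ = 1 := by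
    intro j hj
    rw [hT]
    simp only
    rw [Jac_T_norm _ _ hu, pow_zero, jacobiSum_comm, jacobiSum_one_nontrivial (hne j hj)]
    simp
  have hC : ∀ i j : ℕ, ¬ 4 ∣ i → i + j = 4 → ‖T i j‖ = 1 := by
    intro i j hi hij
    have hinv : χ ^ j = (χ ^ i)⁻¹ := by
      rw [eq_inv_iff_mul_eq_one, ← pow_add, add_comm j i, hij, ← hχ]
      exact pow_orderOf_eq_one χ
    rw [hT]
    simp only
    rw [Jac_T_norm _ _ hu, hinv, jacobiSum_nontrivial_inv (hne i hi), norm_neg]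
    exact Jac_norm _ (neg_ne_zero.2 one_ne_zero)
  have hD : ∀ i j : ℕ, ¬ 4 ∣ i → ¬ 4 ∣ j → ¬ 4 ∣ i + j → ‖T i j‖ = Real.sqrt p := by
    intro i j hi hj hij
    rw [hT]
    simp only
    rw [Jac_T_norm _ _ hu]
    apply Jac_J_norm (hne i hi) (hne j hj)
    rw [← pow_add]
    exact hne _ hij
  rw [hexp] at hS
  have hsum : (p : ℂ) - 2 = -(T 0 1 + T 0 2 + T 0 3 + T 1 0 + T 2 0 + T 3 0 + T 1 3 + T 2 2 + T 3 1 + T 1 1 + T 1 2 + T 2 1
      + T 2 3 + T 3 2 + T 3 3) := by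
    have e : ∑ i ∈ range 4, ∑ j ∈ range 4, T i j = 0 := hS
    simp only [Finset.sum_range_succ, Finset.sum_range_zero] at e
    rw [← h00]
    linear_combination e
  have hn : ‖(p : ℂ) - 2‖ = (p : ℝ) - 2 := by
    have e : (p : ℂ) - 2 = (((p : ℝ) - 2 : ℝ) : ℂ) := by
      push_cast
      ring
    rw [e, Complex.norm_real, Real.norm_of_nonneg]
    have : (60 : ℝ) < p := by exact_mod_cast hp
    linarith
  have hle : (p : ℝ) - 2 ≤ 9 + 6 * Real.sqrt p := by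
    rw [← hn, hsum, norm_neg]
    have a1 := hA 1 (by norm_num)
    have a2 := hA 2 (by norm_num)
    have a3 := hA 3 (by norm_num)
    have b1 := hB 1 (by norm_num)
    have b2 := hB 2 (by norm_num)
    have b3 := hB 3 (by norm_num)
    have c1 := hC 1 3 (by norm_num) rfl
    have c2 := hC 2 2 (by norm_num) rfl
    have c3 := hC 3 1 (by norm_num) rfl
    have d1 := hD 1 1 (by norm_num) (by norm_num) (by norm_num)
    have d2 := hD 1 2 (by norm_num) (by norm_num) (by norm_num)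
    have d3 := hD 2 1 (by norm_num) (by norm_num) (by norm_num)
    have d4 := hD 2 3 (by norm_num) (by norm_num) (by norm_num)
    have d5 := hD 3 2 (by norm_num) (by norm_num) (by norm_num)
    have d6 := hD 3 3 (by norm_num) (by norm_num) (by norm_num)
    have n1 := norm_add_le (T 0 1) (T 0 2)
    have n2 := norm_add_le (T 0 1 + T 0 2) (T 0 3)
    have n3 := norm_add_le (T 0 1 + T 0 2 + T 0 3) (T 1 0)
    have n4 := norm_add_le (T 0 1 + T 0 2 + T 0 3 + T 1 0) (T 2 0)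
    have n5 := norm_add_le (T 0 1 + T 0 2 + T 0 3 + T 1 0 + T 2 0) (T 3 0)
    have n6 := norm_add_le (T 0 1 + T 0 2 + T 0 3 + T 1 0 + T 2 0 + T 3 0) (T 1 3)
    have n7 := norm_add_le (T 0 1 + T 0 2 + T 0 3 + T 1 0 + T 2 0 + T 3 0 + T 1 3) (T 2 2)
    have n8 := norm_add_le (T 0 1 + T 0 2 + T 0 3 + T 1 0 + T 2 0 + T 3 0 + T 1 3 + T 2 2) (T 3 1)
    have n9 := norm_add_le (T 0 1 + T 0 2 + T 0 3 + T 1 0 + T 2 0 + T 3 0 + T 1 3 + T 2 2 + T 3 1) (T 1 1)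
    have n10 := norm_add_le (T 0 1 + T 0 2 + T 0 3 + T 1 0 + T 2 0 + T 3 0 + T 1 3 + T 2 2 + T 3 1 + T 1 1) (T 1 2)
    have n11 := norm_add_le (T 0 1 + T 0 2 + T 0 3 + T 1 0 + T 2 0 + T 3 0 + T 1 3 + T 2 2 + T 3 1 + T 1 1 + T 1 2) (T 2 1)
    have n12 := norm_add_le (T 0 1 + T 0 2 + T 0 3 + T 1 0 + T 2 0 + T 3 0 + T 1 3 + T 2 2 + T 3 1 + T 1 1 + T 1 2 + T 2 1)
      (T 2 3)
    have n13 := norm_add_le (T 0 1 + T 0 2 + T 0 3 + T 1 0 + T 2 0 + T 3 0 + T 1 3 + T 2 2 + T 3 1 + T 1 1 + T 1 2 + T 2 1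
      + T 2 3) (T 3 2)
    have n14 := norm_add_le (T 0 1 + T 0 2 + T 0 3 + T 1 0 + T 2 0 + T 3 0 + T 1 3 + T 2 2 + T 3 1 + T 1 1 + T 1 2 + T 2 1
      + T 2 3 + T 3 2) (T 3 3)
    linarith
  have h61 : (61 : ℝ) ≤ p := by exact_mod_cast hp
  have hsq := Real.sq_sqrt (show (0 : ℝ) ≤ p by linarith)
  have hs0 := Real.sqrt_nonneg (p : ℝ)
  nlinarith

theorem Jac_three_mod_aux (p : ℕ) [Fact p.Prime] (h4 : p % 4 = 3) (s : ZMod p) : ∃ v : ZMod p, v ^ 4 = s ^ 2 := by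
  classical
  by_cases h0 : s = 0
  · exact ⟨0, by rw [h0]; ring⟩
  have hm1 : ¬ IsSquare (-1 : ZMod p) := by
    rw [ZMod.exists_sq_eq_neg_one_iff]
    exact fun h => h h4
  by_cases hs : IsSquare s
  · obtain ⟨v, hv⟩ := hs
    exact ⟨v, by rw [hv]; ring⟩
  · have h1 := quadraticChar_neg_one_iff_not_isSquare.2 hs
    have h2 := quadraticChar_neg_one_iff_not_isSquare.2 hm1
    have h3 : quadraticChar (ZMod p) (-1 * s) = 1 := by
      rw [map_mul, h1, h2]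
      norm_num
    have hne : (-1 * s : ZMod p) ≠ 0 := mul_ne_zero (neg_ne_zero.2 one_ne_zero) h0
    obtain ⟨v, hv⟩ := (quadraticChar_one_iff_isSquare hne).1 h3
    refine ⟨v, ?_⟩
    have : v ^ 4 = (v * v) ^ 2 := by ring
    rw [this, ← hv]
    ring

theorem four_sum (p : ℕ) [Fact p.Prime] (hp : 60 < p) (u : ZMod p) : ∃ x y : ZMod p, x ^ 4 + y ^ 4 = u := by
  have hpp : p.Prime := Fact.out
  by_cases hu : u = 0
  · exact ⟨0, 0, by rw [hu]; ring⟩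
  have hodd : p % 2 = 1 := by
    rcases hpp.eq_two_or_odd with h | h
    · omega
    · exact h
  have hcase : p % 4 = 1 ∨ p % 4 = 3 := by omega
  rcases hcase with h | h
  · exact Jac_one_mod p hp h hu
  · obtain ⟨s, t, hst⟩ := ZMod.sq_add_sq p u
    obtain ⟨v, hv⟩ := Jac_three_mod_aux p h s
    obtain ⟨w, hw⟩ := Jac_three_mod_aux p h t
    exact ⟨v, w, by rw [hv, hw, hst]⟩

end FD
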