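import Pool.Agent.Lib.MP_9b5ce2_ntD.Jac
import Pool.Agent.Lib.MP_10e784_ag.EL.ELHens

/-! Local solubility.

`Q = 32 * 60 !`.  Let `m ≡ 1 mod Q`, all primes of `m` are `≡ 1 mod 8`, `p` a prime.
Hensel (`hensels_lemma`, see `EL/ELHens.lean`, `EL.hens_root` for a simple root; `x ∈ ℤ_p`, then to `ℚ_p`).
`p = 2`: `m ≡ 1 mod 32`: `F = X ^ 4 - m`, `‖F 1‖ ≤ 2 ^ (-5) < 2 ^ (-4) = ‖F' 1‖ ^ 2`, so `m = x ^ 4`, `y = 0`.
`2 < p ≤ 60`: `p ∣ Q`, `m ≡ 1 mod p`: `X ^ 4 - m` has the simple root `1` modulo `p`, so `m = x ^ 4 + 0 ^ 4`.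
`p > 60`, `p ∣ m`: `p ≡ 1 mod 8`, so there is `t` with `t ^ 4 ≡ -1 mod p`; `y = 1`, `X ^ 4 - (m - 1)` has the simple root `t` modulo `p`.
`p > 60`, `p ∤ m`: `four_sum`: `x ^ 4 + y ^ 4 ≡ m mod p`, not both `x, y` are `0` modulo `p`; say `x ≠ 0`: fix an integer `y` and lift the simple root `x` of `X ^ 4 - (m - y ^ 4)`. -/

namespace FD

open Polynomial

private theorem Loc_aeval (p : ℕ) [Fact p.Prime] (F : ℤ[X]) (a : ℤ) :
    aeval ((a : ℤ) : ℤ_[p]) F = ((F.eval a : ℤ) : ℤ_[p]) := by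
  have h := Polynomial.aeval_algebraMap_apply ℤ_[p] a F
  rw [coe_aeval_eq_eval] at h
  exact_mod_cast h

private theorem Loc_root (p : ℕ) [Fact p.Prime] (hp2 : p ≠ 2) (a c : ℤ) (ha : ¬ (p : ℤ) ∣ a)
    (h : (p : ℤ) ∣ a ^ 4 - c) : ∃ z : ℤ_[p], z ^ 4 = (c : ℤ_[p]) := by
  have hpp : Prime (p : ℤ) := Nat.prime_iff_prime_int.1 (Fact.out : p.Prime)
  have h1 : (p : ℤ) ∣ (X ^ 4 - C c : ℤ[X]).eval a := by
    simpa using h
  have h2 : ¬ (p : ℤ) ∣ (derivative (X ^ 4 - C c : ℤ[X])).eval a := by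
    have h3 : (derivative (X ^ 4 - C c : ℤ[X])).eval a = 4 * a ^ 3 := by
      simp
    rw [h3]
    intro h4
    rcases hpp.dvd_or_dvd h4 with h5 | h5
    · have h6 : (p : ℤ) ∣ 2 := by
        have h7 : (p : ℤ) ∣ 2 * 2 := h5
        rcases hpp.dvd_or_dvd h7 with h8 | h8 <;> exact h8
      have h9 : p ∣ 2 := by exact_mod_cast h6
      exact hp2 ((Nat.prime_dvd_prime_iff_eq (Fact.out : p.Prime) Nat.prime_two).1 h9)
    · exact ha (hpp.dvd_of_dvd_pow h5)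
  obtain ⟨z, hz⟩ := EL.hens_root p (X ^ 4 - C c) a h1 h2
  refine ⟨z, ?_⟩
  simp only [map_sub, map_pow, aeval_X, aeval_C] at hz
  rw [sub_eq_zero] at hz
  rw [hz]
  simp

private theorem Loc_two (m : ℤ) (h : (32 : ℤ) ∣ 1 - m) : ∃ z : ℤ_[2], z ^ 4 = (m : ℤ_[2]) := by
  have h9 : ‖aeval ((1 : ℤ) : ℤ_[2]) (X ^ 4 - C m : ℤ[X])‖ <
      ‖aeval ((1 : ℤ) : ℤ_[2]) (derivative (X ^ 4 - C m : ℤ[X]))‖ ^ 2 := by
    rw [Loc_aeval, Loc_aeval]
    have h10 : (X ^ 4 - C m : ℤ[X]).eval 1 = 1 - m := by simp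
    have h11 : (derivative (X ^ 4 - C m : ℤ[X])).eval 1 = 4 := by simp
    rw [h10, h11]
    have h12 : ‖(((1 - m : ℤ)) : ℤ_[2])‖ ≤ ((2 : ℕ) : ℝ) ^ (-((5 : ℕ) : ℤ)) := by
      rw [PadicInt.norm_int_le_pow_iff_dvd]
      exact_mod_cast h
    have h13 : ‖((4 : ℤ) : ℤ_[2])‖ = (2 : ℝ)⁻¹ * (2 : ℝ)⁻¹ := by
      have h14 := PadicInt.norm_p (p := 2)
      have h15 : ((4 : ℤ) : ℤ_[2]) = ((2 : ℕ) : ℤ_[2]) * ((2 : ℕ) : ℤ_[2]) := by
        push_cast
        norm_num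
      rw [h15, norm_mul, h14]
      norm_num
    rw [h13]
    refine lt_of_le_of_lt h12 ?_
    norm_num
  obtain ⟨z, hz, -⟩ := hensels_lemma h9
  refine ⟨z, ?_⟩
  simp only [map_sub, map_pow, aeval_X, aeval_C] at hz
  rw [sub_eq_zero] at hz
  rw [hz]
  simp

private theorem Loc_eighth (p : ℕ) [Fact p.Prime] (h : p % 8 = 1) :
    ∃ t : ZMod p, t ^ 4 = -1 := by
  have hp : p.Prime := Fact.out
  obtain ⟨g, hg⟩ := IsCyclic.exists_ofOrder_eq_natCard (α := (ZMod p)ˣ)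
  rw [Nat.card_eq_fintype_card, ZMod.card_units_eq_totient, Nat.totient_prime hp] at hg
  obtain ⟨k, hk⟩ : ∃ k, p - 1 = 8 * k := ⟨(p - 1) / 8, by omega⟩
  have hk0 : 0 < k := by
    have := hp.two_le
    omega
  have h1 : g ^ (8 * k) = 1 := by rw [← hk, ← hg]; exact pow_orderOf_eq_one g
  have h2 : g ^ (4 * k) ≠ 1 := by
    intro h3
    have h4 := orderOf_dvd_of_pow_eq_one h3
    rw [hg, hk] at h4
    have h5 := Nat.le_of_dvd (by omega) h4
    omega
  refine ⟨((g ^ k : (ZMod p)ˣ) : ZMod p), ?_⟩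
  have h3 : (((g ^ k : (ZMod p)ˣ) : ZMod p) ^ 4) ^ 2 = 1 := by
    have h4 : ((g ^ k) ^ 4) ^ 2 = 1 := by
      rw [← pow_mul, ← pow_mul, ← h1]
      congr 1
      ring
    have h5 := congrArg (fun u : (ZMod p)ˣ => (u : ZMod p)) h4
    simpa using h5
  rw [pow_two] at h3
  rcases mul_self_eq_one_iff.1 h3 with h4 | h4
  · exfalso
    apply h2
    have h5 : (g ^ k) ^ 4 = 1 := by
      apply Units.ext
      push_cast
      push_cast at h4
      exact h4
    rw [← h5, ← pow_mul, mul_comm]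
  · exact h4

theorem loc4 : ∃ Q : ℕ, Q ≠ 0 ∧ 8 ∣ Q ∧ ∀ m : ℕ, 1 ≤ m → (m : ZMod Q) = 1 →
    (∀ p : ℕ, p.Prime → p ∣ m → p % 8 = 1) → Loc4 m := by
  obtain ⟨f, hf⟩ : ∃ f : ℕ, f = Nat.factorial 60 := ⟨_, rfl⟩
  have hf0 : f ≠ 0 := by rw [hf]; exact Nat.factorial_ne_zero 60
  have hfp : ∀ p : ℕ, 0 < p → p ≤ 60 → p ∣ f := by
    intro p h1 h2
    rw [hf]
    exact Nat.dvd_factorial h1 h2
  clear hf
  refine ⟨32 * f, by omega, ⟨4 * f, by ring⟩, ?_⟩
  intro m hm hmQ hmp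
  have hQ : ((32 * f : ℕ) : ℤ) ∣ (m : ℤ) - 1 := by
    rw [← ZMod.intCast_zmod_eq_zero_iff_dvd]
    push_cast at hmQ ⊢
    rw [hmQ, sub_self]
  intro p hpF
  have hp : p.Prime := hpF.out
  by_cases hp2 : p = 2
  · subst hp2
    have h32 : (32 : ℤ) ∣ 1 - m := by
      have h1 : (32 : ℤ) ∣ ((32 * f : ℕ) : ℤ) := ⟨f, by push_cast; ring⟩
      have h2 := (h1.trans hQ).neg_right
      rwa [neg_sub] at h2
    obtain ⟨z, hz⟩ := Loc_two m h32
    refine ⟨z, 0, ?_⟩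
    have h1 := congrArg (fun w : ℤ_[2] => (w : ℚ_[2])) hz
    push_cast at h1
    rw [h1]
    ring
  · by_cases hp60 : p ≤ 60
    · have h1 : (p : ℤ) ∣ (1 : ℤ) ^ 4 - m := by
        have h2 : (p : ℤ) ∣ ((32 * f : ℕ) : ℤ) := by
          exact_mod_cast (hfp p hp.pos hp60).mul_left 32
        have h3 := (h2.trans hQ).neg_right
        rw [neg_sub] at h3
        rwa [one_pow]
      have h2 : ¬ (p : ℤ) ∣ 1 := by
        intro h3
        have h4 : p ∣ 1 := by exact_mod_cast h3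
        exact hp.one_lt.ne' (Nat.dvd_one.1 h4)
      obtain ⟨z, hz⟩ := Loc_root p hp2 1 m h2 h1
      refine ⟨z, 0, ?_⟩
      have h3 := congrArg (fun w : ℤ_[p] => (w : ℚ_[p])) hz
      push_cast at h3
      rw [h3]
      ring
    · by_cases hpm : p ∣ m
      · obtain ⟨t, ht⟩ := Loc_eighth p (hmp p hp hpm)
        obtain ⟨a, rfl⟩ := ZMod.intCast_surjective t
        have h1 : (p : ℤ) ∣ a ^ 4 - ((m : ℤ) - 1) := by
          rw [← ZMod.intCast_zmod_eq_zero_iff_dvd _ p]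
          push_cast
          rw [ht, (ZMod.natCast_eq_zero_iff m p).2 hpm]
          ring
        have h2 : ¬ (p : ℤ) ∣ a := by
          intro h3
          rw [← ZMod.intCast_zmod_eq_zero_iff_dvd] at h3
          rw [h3] at ht
          have h4 : (1 : ZMod p) = 0 := by
            linear_combination ht
          exact one_ne_zero h4
        obtain ⟨z, hz⟩ := Loc_root p hp2 a _ h2 h1
        refine ⟨z, 1, ?_⟩
        have h3 := congrArg (fun w : ℤ_[p] => (w : ℚ_[p])) hz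
        push_cast at h3
        rw [h3]
        ring
      · obtain ⟨x, y, hxy⟩ := four_sum p (by omega) (m : ZMod p)
        obtain ⟨a, rfl⟩ := ZMod.intCast_surjective x
        obtain ⟨b, rfl⟩ := ZMod.intCast_surjective y
        have hm0 : (m : ZMod p) ≠ 0 := by
          rw [Ne, ZMod.natCast_eq_zero_iff]
          exact hpm
        by_cases ha : (p : ℤ) ∣ a
        · have hb : ¬ (p : ℤ) ∣ b := by
            intro hb
            rw [← ZMod.intCast_zmod_eq_zero_iff_dvd] at ha hb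
            rw [ha, hb] at hxy
            apply hm0
            rw [← hxy]
            ring
          have h1 : (p : ℤ) ∣ b ^ 4 - ((m : ℤ) - a ^ 4) := by
            rw [← ZMod.intCast_zmod_eq_zero_iff_dvd _ p]
            push_cast
            rw [← hxy]
            ring
          obtain ⟨z, hz⟩ := Loc_root p hp2 b _ hb h1
          refine ⟨a, z, ?_⟩
          have h3 := congrArg (fun w : ℤ_[p] => (w : ℚ_[p])) hz
          push_cast at h3
          rw [h3]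
          ring
        · have h1 : (p : ℤ) ∣ a ^ 4 - ((m : ℤ) - b ^ 4) := by
            rw [← ZMod.intCast_zmod_eq_zero_iff_dvd _ p]
            push_cast
            rw [← hxy]
            ring
          obtain ⟨z, hz⟩ := Loc_root p hp2 a _ ha h1
          refine ⟨z, b, ?_⟩
          have h3 := congrArg (fun w : ℤ_[p] => (w : ℚ_[p])) hz
          push_cast at h3
          rw [h3]
          ring

end FD
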