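import Pool.Agent.Lib.MP_9b5ce2_ntD.Defs
import Pool.Agent.Lib.MP_10e784_ag.PT.PTRtSum
import Pool.Agent.Lib.MP_10e784_ag.TW.TWRtLow

/-! The sum of the reciprocals of the primes congruent to one modulo eight.

`G = X ^ 4 + 1 = cyclotomic 8 ℤ` is monic and irreducible over `ℚ` (`cyclotomic.irreducible_rat`).  `PT.rt G p` is `4` for primes `p ≡ 1 mod 8` (`(ZMod p)ˣ` cyclic), `1` for `p = 2`, and `0` for the other primes (a root has order `8` in `(ZMod p)ˣ`, so `8 ∣ p - 1`).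
So `PT.PS (rt G) x = 4 TT x + O(1)`; `PT.rt_sum` and `TW.rt_low`. -/

namespace FD

open Finset Polynomial

theorem Mert_rt {p : ℕ} (hp : p.Prime) (h2 : p ≠ 2) :
    (PT.rt (cyclotomic 8 ℤ) p : ℝ) = 4 * PT.ind P8 p := by
  classical
  have : Fact p.Prime := ⟨hp⟩
  have hodd : p % 2 = 1 := hp.eq_two_or_odd.resolve_left h2
  have h8 : ((8 : ℕ) : ZMod p) ≠ 0 := by
    intro h
    rw [ZMod.natCast_eq_zero_iff] at h
    have h3 : p ∣ 2 := by
      have : p ∣ 2 ^ 3 := by simpa using h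
      exact hp.dvd_of_dvd_pow this
    exact h2 ((Nat.prime_dvd_prime_iff_eq hp Nat.prime_two).1 h3)
  have : NeZero ((8 : ℕ) : ZMod p) := ⟨h8⟩
  have h1 : PT.rt (cyclotomic 8 ℤ) p = (primitiveRoots 8 (ZMod p)).card := by
    unfold PT.rt
    rw [map_cyclotomic]
    have e : ∀ ρ : ZMod p, eval ρ (cyclotomic 8 (ZMod p)) = 0 ↔ ρ ∈ primitiveRoots 8 (ZMod p) := by
      intro ρ
      rw [mem_primitiveRoots (by norm_num), ← isRoot_cyclotomic_iff]
      rfl
    rw [Nat.card_congr (Equiv.subtypeEquivRight e), Nat.card_eq_fintype_card, Fintype.card_coe]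
  rw [h1]
  by_cases h : p % 8 = 1
  · have hex : ∃ ζ : ZMod p, IsPrimitiveRoot ζ 8 := by
      obtain ⟨g, hg⟩ := IsCyclic.exists_generator (α := (ZMod p)ˣ)
      have ho : orderOf g = p - 1 := by
        rw [orderOf_eq_card_of_forall_mem_zpowers hg, Nat.card_eq_fintype_card, ZMod.card_units]
      have h3 : IsPrimitiveRoot g (p - 1) := by
        rw [← ho]
        exact IsPrimitiveRoot.orderOf g
      have h4 : IsPrimitiveRoot (g : ZMod p) (p - 1) := IsPrimitiveRoot.coe_units_iff.2 h3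
      have h5 : p - 1 = (p - 1) / 8 * 8 := by
        have := hp.two_le
        omega
      exact ⟨_, h4.pow (by have := hp.two_le; omega) h5⟩
    obtain ⟨ζ, hζ⟩ := hex
    have h6 : Nat.totient 8 = 4 := by decide
    rw [hζ.card_primitiveRoots, h6, PT.ind, if_pos (show p ∈ P8 from h)]
    norm_num
  · have h3 : primitiveRoots 8 (ZMod p) = ∅ := by
      rw [Finset.eq_empty_iff_forall_notMem]
      intro ζ hζ
      rw [mem_primitiveRoots (by norm_num)] at hζ
      have hu : ζ ≠ 0 := hζ.ne_zero (by norm_num)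
      have h4 : orderOf (Units.mk0 ζ hu) = 8 := by
        rw [← orderOf_units]
        exact hζ.eq_orderOf.symm
      have h5 : orderOf (Units.mk0 ζ hu) ∣ Fintype.card (ZMod p)ˣ := orderOf_dvd_card
      rw [h4, ZMod.card_units] at h5
      have := hp.two_le
      omega
    rw [h3, Finset.card_empty, PT.ind, if_neg (show p ∉ P8 from h)]
    norm_num

theorem Mert_PS {x : ℝ} (hx : 2 ≤ x) : PT.PS (fun p => (PT.rt (cyclotomic 8 ℤ) p : ℝ)) x =
    4 * TT x + (PT.rt (cyclotomic 8 ℤ) 2 : ℝ) / 2 := by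
  classical
  have h1 : PT.PS (fun p => (PT.rt (cyclotomic 8 ℤ) p : ℝ)) x - 4 * TT x =
      (PT.rt (cyclotomic 8 ℤ) 2 : ℝ) / 2 := by
    unfold TT PT.PS
    rw [Finset.mul_sum, ← Finset.sum_sub_distrib, Finset.sum_eq_single 2]
    · have h2 : PT.ind P8 2 = 0 := by
        rw [PT.ind, if_neg]
        unfold P8
        decide
      rw [h2]
      push_cast
      ring
    · intro p hp hp2
      rw [Finset.mem_filter] at hp
      change (PT.rt (cyclotomic 8 ℤ) p : ℝ) / p - 4 * (PT.ind P8 p / p) = 0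
      rw [Mert_rt hp.2 hp2]
      ring
    · intro h
      exfalso
      apply h
      rw [Finset.mem_filter, Finset.mem_Icc]
      exact ⟨⟨by norm_num, Nat.le_floor (by exact_mod_cast hx)⟩, Nat.prime_two⟩
  linarith

theorem tt : ∃ A : ℝ, 0 ≤ A ∧ ∀ x : ℝ, 2 ≤ x → |TT x - Real.log (Real.log x) / 4| ≤ A := by
  have hirr : Irreducible ((cyclotomic 8 ℤ).map (Int.castRingHom ℚ)) := by
    rw [map_cyclotomic]
    exact cyclotomic.irreducible_rat (by norm_num)
  obtain ⟨C1, h1⟩ := PT.rt_sum (cyclotomic 8 ℤ) hirr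
  obtain ⟨C2, h2⟩ := TW.rt_low (cyclotomic 8 ℤ) (cyclotomic.monic 8 ℤ) hirr
  have hc : (0 : ℝ) ≤ (PT.rt (cyclotomic 8 ℤ) 2 : ℝ) := Nat.cast_nonneg _
  refine ⟨|C1| + |C2| + (PT.rt (cyclotomic 8 ℤ) 2 : ℝ), by positivity, fun x hx => ?_⟩
  have h3 := h1 x hx
  have h4 := h2 x hx
  rw [Mert_PS hx] at h3 h4
  have h5 := le_abs_self C1
  have h6 := le_abs_self C2
  have h7 := abs_nonneg C1
  have h8 := abs_nonneg C2
  rw [abs_le]
  constructor <;> linarith

end FD
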