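import Pool.Agent.Lib.MP_9b5ce2_ntD.Sieve
import Pool.Agent.Lib.MP_9b5ce2_ntD.Mert

/-! The upper bound for the numbers without prime factors `3, 5, 7 mod 8`.

`sieve 1 1` with `S` = the odd primes `p` with `p % 8 ≠ 1`, `Ω p = {w | w 0 = 0}`, `ω p = 1 / p ≤ 1/3`, `a = 1`, `H = N`: the `c ∈ [1, N]` without prime factors in `S` are `≤ C N exp (-∑_{p ≤ N, p ∈ S} 1/p)` (identify `Fin 1 → ℤ` with `ℤ`).  `∑_{p ≤ N, p ∈ S} 1/p = ∑_{p ≤ N} 1/p - TT N - 1/2` and `∑_{p ≤ N} 1/p ≥ log log N - A`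
(Mertens from below for all primes: e.g. `TW.rt_low` for `g = X`, `PT.rt X p = 1`; or a library of the pool), `TT N ≤ log log N / 4 + A` (`tt`). -/

namespace FD

open Finset

private theorem LocUp_rtX (p : ℕ) (hp : p.Prime) : PT.rt (Polynomial.X : Polynomial ℤ) p = 1 := by
  have : Fact p.Prime := ⟨hp⟩
  unfold PT.rt
  simp only [Polynomial.map_X, Polynomial.eval_X]
  rw [Nat.card_unique]

private theorem LocUp_one : ∃ A : ℝ, ∀ N : ℕ, 2 ≤ N →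
    Real.log (Real.log N) - A ≤ ∑ p ∈ (Icc 1 N).filter Nat.Prime, (1 : ℝ) / p := by
  have hirr : Irreducible ((Polynomial.X : Polynomial ℤ).map (Int.castRingHom ℚ)) := by
    rw [Polynomial.map_X]; exact Polynomial.irreducible_X
  obtain ⟨C2, hC2⟩ := TW.rt_low (Polynomial.X : Polynomial ℤ) Polynomial.monic_X hirr
  refine ⟨C2, fun N hN => ?_⟩
  have h := hC2 N (by exact_mod_cast hN)
  refine h.trans (le_of_eq ?_)
  unfold PT.PS
  rw [Nat.floor_natCast]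
  refine Finset.sum_congr rfl fun p hp => ?_
  show ((PT.rt (Polynomial.X : Polynomial ℤ) p : ℕ) : ℝ) / p = 1 / p
  rw [LocUp_rtX p (mem_filter.1 hp).2, Nat.cast_one]

open Classical in
private theorem LocUp_sum (S : Set ℕ) (hS : ∀ p : ℕ, p.Prime → p ≠ 2 → p % 8 ≠ 1 → p ∈ S) (N : ℕ) :
    ∑ p ∈ (Icc 1 N).filter Nat.Prime, (1 : ℝ) / p ≤
      ∑ p ∈ (Icc 1 N).filter (fun p => p ∈ S), (1 : ℝ) / p + TT N + 1 / 2 := by
  have hT : TT N = ∑ p ∈ (Icc 1 N).filter Nat.Prime, PT.ind P8 p / (p : ℝ) := by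
    unfold TT PT.PS
    rw [Nat.floor_natCast]
  have h1 : ∀ p ∈ (Icc 1 N).filter Nat.Prime, (1 : ℝ) / p ≤
      (if p ∈ S then (1 : ℝ) / p else 0) + PT.ind P8 p / (p : ℝ) + (if p = 2 then 1 / 2 else 0) := by
    intro p hp
    have hpp := (mem_filter.1 hp).2
    have h0 : (0 : ℝ) ≤ 1 / p := by positivity
    have hi : 0 ≤ PT.ind P8 p / (p : ℝ) := by
      unfold PT.ind
      split_ifs
      · positivity
      · simp
    by_cases h2 : p = 2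
    · subst h2
      rw [if_pos rfl]
      have h3 : (0 : ℝ) ≤ (if (2 : ℕ) ∈ S then (1 : ℝ) / ((2 : ℕ) : ℝ) else 0) := by
        split_ifs
        · positivity
        · exact le_refl _
      have h4 : (1 : ℝ) / ((2 : ℕ) : ℝ) = 1 / 2 := by norm_num
      rw [h4] at *
      linarith
    · rw [if_neg h2]
      by_cases h8 : p % 8 = 1
      · have h3 : PT.ind P8 p = 1 := by
          unfold PT.ind
          exact if_pos h8
        rw [h3]
        have h4 : (0 : ℝ) ≤ (if p ∈ S then (1 : ℝ) / (p : ℝ) else 0) := by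
          split_ifs
          · exact h0
          · exact le_refl _
        linarith
      · rw [if_pos (hS p hpp h2 h8)]
        linarith
  have h2 := Finset.sum_le_sum h1
  rw [Finset.sum_add_distrib, Finset.sum_add_distrib, ← hT] at h2
  have h3 : ∑ p ∈ (Icc 1 N).filter Nat.Prime, (if p ∈ S then (1 : ℝ) / p else 0) ≤
      ∑ p ∈ (Icc 1 N).filter (fun p => p ∈ S), (1 : ℝ) / p := by
    rw [← Finset.sum_filter]
    apply Finset.sum_le_sum_of_subset_of_nonneg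
    · intro p hp
      obtain ⟨h4, h5⟩ := mem_filter.1 hp
      exact mem_filter.2 ⟨(mem_filter.1 h4).1, h5⟩
    · intro i _ _
      positivity
  have h4 : ∑ p ∈ (Icc 1 N).filter Nat.Prime, (if p = 2 then (1 : ℝ) / 2 else 0) ≤ 1 / 2 := by
    rw [Finset.sum_ite_eq']
    split_ifs
    · exact le_refl _
    · norm_num
  linarith

private theorem LocUp_card (S : Set ℕ) (hS2 : ∀ p ∈ S, p.Prime ∧ p ≠ 2 ∧ p % 8 ≠ 1) (N : ℕ) :
    (Nat.card {c : ℕ // 1 ≤ c ∧ c ≤ N ∧ ∀ p : ℕ, p.Prime → p ∣ c → p = 2 ∨ p % 8 = 1} : ℝ) ≤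
    (Nat.card {x : Fin 1 → ℤ // (∀ c, (fun _ => (1 : ℤ)) c ≤ x c ∧ x c < (fun _ => (1 : ℤ)) c + N) ∧
        ∀ p ∈ S, (fun c => ((x c : ℤ) : ZMod p)) ∉ {w : Fin 1 → ZMod p | w 0 = 0}} : ℝ) := by
  have hfin : Finite {x : Fin 1 → ℤ // (∀ c, (fun _ => (1 : ℤ)) c ≤ x c ∧
      x c < (fun _ => (1 : ℤ)) c + N) ∧
        ∀ p ∈ S, (fun c => ((x c : ℤ) : ZMod p)) ∉ {w : Fin 1 → ZMod p | w 0 = 0}} := by
    apply Set.Finite.subset (Set.finite_Icc (fun _ : Fin 1 => (1 : ℤ)) (fun _ : Fin 1 => (1 : ℤ) + N))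
    rintro x ⟨hx, _⟩
    exact ⟨fun c => (hx c).1, fun c => (hx c).2.le⟩
  refine Nat.cast_le.2 (Nat.card_le_card_of_injective
    (fun c => ⟨fun _ => ((c.1 : ℕ) : ℤ), ?_, ?_⟩) ?_)
  · intro _
    have h1 := c.2.1
    have h2 := c.2.2.1
    simp only
    omega
  · intro p hp hmem
    obtain ⟨h1, h2, h3⟩ := hS2 p hp
    have h4 : (((c.1 : ℕ) : ℤ) : ZMod p) = 0 := hmem
    have h5 : p ∣ c.1 := by
      rw [Int.cast_natCast] at h4
      exact (ZMod.natCast_eq_zero_iff _ _).1 h4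
    rcases c.2.2.2 p h1 h5 with h | h
    · exact h2 h
    · exact h3 h
  · intro c d h
    have h1 := congrArg (fun y => y.1 0) h
    simp only [Nat.cast_inj] at h1
    exact Subtype.ext h1

open Classical in
theorem loc_up : ∃ A : ℝ, 0 < A ∧ ∀ N : ℕ, 2 ≤ N →
    (Nat.card {c : ℕ // 1 ≤ c ∧ c ≤ N ∧ ∀ p : ℕ, p.Prime → p ∣ c → p = 2 ∨ p % 8 = 1} : ℝ) ≤
      A * (N / Real.log N ^ (3 / 4 : ℝ)) := by
  obtain ⟨C, hC, hsieve⟩ := sieve 1 1 zero_le_one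
  obtain ⟨A1, hA1⟩ := LocUp_one
  obtain ⟨A2, hA2, htt⟩ := tt
  refine ⟨C * Real.exp (A1 + A2 + 1 / 2), by positivity, fun N hN => ?_⟩
  obtain ⟨S, hSi, hSm⟩ : ∃ S : Set ℕ, (∀ p : ℕ, p.Prime → p ≠ 2 → p % 8 ≠ 1 → p ∈ S) ∧
      ∀ p ∈ S, p.Prime ∧ p ≠ 2 ∧ p % 8 ≠ 1 :=
    ⟨{p | p.Prime ∧ p ≠ 2 ∧ p % 8 ≠ 1}, fun p h1 h2 h3 => ⟨h1, h2, h3⟩, fun p hp => hp⟩
  have hcard := LocUp_card S hSm N
  have hs := hsieve S (fun p => 1 / (p : ℝ)) (fun p => {w : Fin 1 → ZMod p | w 0 = 0})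
    (fun p hp => (hSm p hp).1)
    (by
      intro p hp
      have h2 : (2 : ℝ) ≤ p := by exact_mod_cast (hSm p hp).1.two_le
      refine ⟨by positivity, ?_, le_refl _⟩
      exact one_div_le_one_div_of_le (by norm_num) h2)
    (by
      intro p hp
      have hp0 : (p : ℝ) ≠ 0 := by exact_mod_cast (hSm p hp).1.ne_zero
      have h1 : Nat.card {w : Fin 1 → ZMod p // w ∈ {w : Fin 1 → ZMod p | w 0 = 0}} = 1 := by
        rw [Nat.card_eq_one_iff_unique]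
        refine ⟨⟨fun a b => ?_⟩, ⟨⟨fun _ => 0, rfl⟩⟩⟩
        apply Subtype.ext
        funext i
        have ha : a.1 0 = 0 := a.2
        have hb : b.1 0 = 0 := b.2
        rw [Subsingleton.elim i 0, ha, hb]
      rw [h1, pow_one, one_div, inv_mul_cancel₀ hp0, Nat.cast_one])
    (fun _ => 1) N (by omega)
  have hsum := LocUp_sum S hSi N
  have h1 := hA1 N hN
  have hN2 : (2 : ℝ) ≤ N := by exact_mod_cast hN
  have h2 := (abs_le.1 (htt N hN2)).2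
  have hlog : 0 < Real.log N := Real.log_pos (by linarith)
  have hexp : Real.exp (-∑ p ∈ (Icc 1 N).filter (fun p => p ∈ S), 1 / (p : ℝ)) ≤
      Real.exp (A1 + A2 + 1 / 2) * (1 / Real.log N ^ (3 / 4 : ℝ)) := by
    have h3 : (1 : ℝ) / Real.log N ^ (3 / 4 : ℝ) = Real.exp (-(3 / 4 * Real.log (Real.log N))) := by
      rw [Real.exp_neg, Real.rpow_def_of_pos hlog, one_div, mul_comm (Real.log (Real.log N))]
    rw [h3, ← Real.exp_add]
    apply Real.exp_le_exp.2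
    have h4 : ∑ p ∈ (Icc 1 N).filter Nat.Prime, (1 : ℝ) / p ≤
        ∑ p ∈ (Icc 1 N).filter (fun p => p ∈ S), (1 : ℝ) / p + TT N + 1 / 2 := hsum
    linarith
  calc (Nat.card {c : ℕ // 1 ≤ c ∧ c ≤ N ∧ ∀ p : ℕ, p.Prime → p ∣ c → p = 2 ∨ p % 8 = 1} : ℝ)
      ≤ _ := hcard
    _ ≤ C * (N : ℝ) ^ 1 * Real.exp (-∑ p ∈ (Icc 1 N).filter (fun p => p ∈ S), 1 / (p : ℝ)) := hs
    _ ≤ C * (N : ℝ) ^ 1 * (Real.exp (A1 + A2 + 1 / 2) * (1 / Real.log N ^ (3 / 4 : ℝ))) :=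
        mul_le_mul_of_nonneg_left hexp (by positivity)
    _ = C * Real.exp (A1 + A2 + 1 / 2) * (N / Real.log N ^ (3 / 4 : ℝ)) := by ring

end FD
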