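import Pool.Agent.Lib.MP_9b5ce2_ntD.Defs

/-! A necessary condition for local solubility.

`val`: let `p` be an odd prime, `p % 8 ≠ 1`, `c ≥ 1` and `x ^ 4 + y ^ 4 = c` in `ℚ_p`.  Then `4 ∣ v_p(c)`.  Proof: if `v(x) ≠ v(y)` (in particular if one of them is zero) then `v(c) = 4 min`.  If `v(x) = v(y) = k` then `x = p ^ k x'`, `y = p ^ k y'` with units `x', y'` of `ℤ_p`, `c = p ^ (4k) (x' ^ 4 + y' ^ 4)`, and `x' ^ 4 + y' ^ 4` is a unit: otherwise
`(x' / y') ^ 4 = -1` in `ZMod p` (reduction `PadicInt.toZMod`), so there is an element of order `8` in `(ZMod p)ˣ`, `8 ∣ p - 1`.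
`split`: for `c ≥ 1` with `Loc4 c` there is `k` with `c = k ^ 4 c'` and no prime `p ≠ 2` with `p % 8 ≠ 1` divides `c'`: `k` = the product of `p ^ (v_p(c) / 4)` over the odd primes `p ∣ c` with `p % 8 ≠ 1` (or: strong induction on `c`: if such a `p` divides `c` then `p ^ 4 ∣ c` and `Loc4 (c / p ^ 4)`). -/

namespace FD

/-- `-1` is not a fourth power modulo `p` unless `p ≡ 1 mod 8`. -/
theorem LocVal_no_root {p : ℕ} [hp : Fact p.Prime] (h2 : p ≠ 2) (h8 : p % 8 ≠ 1) (t : ZMod p) :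
    t ^ 4 + 1 ≠ 0 := by
  intro h
  have h4 : t ^ 4 = -1 := eq_neg_of_add_eq_zero_left h
  have hne : (-1 : ZMod p) ≠ 1 := by
    have : Fact (2 < p) := ⟨lt_of_le_of_ne hp.out.two_le (Ne.symm h2)⟩
    exact ZMod.neg_one_ne_one
  have ht : t ≠ 0 := by
    rintro rfl
    rw [zero_pow four_ne_zero, zero_add] at h
    exact one_ne_zero h
  have ho : orderOf t = 2 ^ (2 + 1) := by
    apply orderOf_eq_prime_pow
    · rw [show (2 : ℕ) ^ 2 = 4 by norm_num, h4]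
      exact hne
    · rw [show (2 : ℕ) ^ (2 + 1) = 4 * 2 by norm_num, pow_mul, h4]
      ring
  have hd : orderOf t ∣ p - 1 := by
    apply orderOf_dvd_of_pow_eq_one
    exact ZMod.pow_card_sub_one_eq_one ht
  rw [ho] at hd
  have hp2 := hp.out.two_le
  obtain ⟨k, hk⟩ := hd
  apply h8
  omega

theorem LocVal_unit {p : ℕ} [hp : Fact p.Prime] (h2 : p ≠ 2) (h8 : p % 8 ≠ 1) (t : ℤ_[p]) :
    ‖t ^ 4 + 1‖ = 1 := by
  rw [← PadicInt.isUnit_iff]
  by_contra h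
  have h1 : t ^ 4 + 1 ∈ IsLocalRing.maximalIdeal ℤ_[p] := by
    rw [IsLocalRing.mem_maximalIdeal]
    exact h
  rw [← PadicInt.ker_toZMod, RingHom.mem_ker, map_add, map_pow, map_one] at h1
  exact LocVal_no_root h2 h8 _ h1

/-- the case `‖x‖ ≤ ‖y‖` -/
theorem LocVal_aux {p : ℕ} [hp : Fact p.Prime] (h2 : p ≠ 2) (h8 : p % 8 ≠ 1) {c : ℕ} (hc : 1 ≤ c)
    {x y : ℚ_[p]} (h : x ^ 4 + y ^ 4 = c) (hxy : ‖x‖ ≤ ‖y‖) : 4 ∣ padicValNat p c := by
  have hc0 : (c : ℚ_[p]) ≠ 0 := by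
    have : c ≠ 0 := by omega
    exact_mod_cast this
  have hy : y ≠ 0 := by
    rintro rfl
    rw [norm_zero] at hxy
    have hx : x = 0 := norm_eq_zero.mp (le_antisymm hxy (norm_nonneg _))
    rw [hx] at h
    apply hc0
    rw [← h]
    norm_num
  have hy' : 0 < ‖y‖ := norm_pos_iff.mpr hy
  have ht : ‖x / y‖ ≤ 1 := by
    rw [norm_div, div_le_one hy']
    exact hxy
  have hu := LocVal_unit h2 h8 (⟨x / y, ht⟩ : ℤ_[p])
  have hu' : ‖(x / y) ^ 4 + 1‖ = 1 := hu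
  have hu0 : (x / y) ^ 4 + 1 ≠ 0 := by
    intro h0
    rw [h0, norm_zero] at hu'
    exact zero_ne_one hu'
  have e : (c : ℚ_[p]) = y ^ 4 * ((x / y) ^ 4 + 1) := by
    rw [← h]
    field_simp
  have hv : ((x / y) ^ 4 + 1 : ℚ_[p]).valuation = 0 := by
    have h3 := Padic.norm_eq_zpow_neg_valuation hu0
    rw [hu'] at h3
    have hp1 : (1 : ℝ) < p := by exact_mod_cast hp.out.one_lt
    by_contra hne
    have h4 : (p : ℝ) ^ (-((x / y) ^ 4 + 1 : ℚ_[p]).valuation) ≠ 1 := by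
      rw [Ne, zpow_eq_one_iff_right₀ (by positivity) hp1.ne']
      omega
    exact h4 h3.symm
  have h5 := congrArg Padic.valuation e
  rw [Padic.valuation_natCast, Padic.valuation_mul (pow_ne_zero 4 hy) hu0, hv, Padic.valuation_pow,
    add_zero] at h5
  have h6 : (4 : ℤ) ∣ (padicValNat p c : ℤ) := by
    rw [h5]
    exact dvd_mul_right _ _
  exact_mod_cast h6

theorem val {p : ℕ} [Fact p.Prime] (h2 : p ≠ 2) (h8 : p % 8 ≠ 1) {c : ℕ} (hc : 1 ≤ c) {x y : ℚ_[p]}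
    (h : x ^ 4 + y ^ 4 = c) : 4 ∣ padicValNat p c := by
  rcases le_total ‖x‖ ‖y‖ with hxy | hxy
  · exact LocVal_aux h2 h8 hc h hxy
  · rw [add_comm] at h
    exact LocVal_aux h2 h8 hc h hxy

theorem split {c : ℕ} (hc : 1 ≤ c) (h : Loc4 c) : ∃ k c' : ℕ, 1 ≤ k ∧ 1 ≤ c' ∧ c = k ^ 4 * c' ∧
    ∀ p : ℕ, p.Prime → p ∣ c' → p = 2 ∨ p % 8 = 1 := by
  induction c using Nat.strong_induction_on with
  | _ c ih =>
    by_cases hall : ∀ p : ℕ, p.Prime → p ∣ c → p = 2 ∨ p % 8 = 1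
    · exact ⟨1, c, le_refl 1, hc, by ring, hall⟩
    · push Not at hall
      obtain ⟨p, hp, hpc, h2, h8⟩ := hall
      have hpF : Fact p.Prime := ⟨hp⟩
      obtain ⟨x, y, hxy⟩ := h p
      have h4 := val h2 h8 hc hxy
      have h1 : 1 ≤ padicValNat p c := one_le_padicValNat_of_dvd (by omega) hpc
      have h5 : 4 ≤ padicValNat p c := Nat.le_of_dvd (by omega) h4
      have h6 : p ^ 4 ∣ c := (pow_dvd_pow p h5).trans pow_padicValNat_dvd
      obtain ⟨c1, rfl⟩ := h6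
      have hc1 : 1 ≤ c1 := by
        rcases Nat.eq_zero_or_pos c1 with h0 | h0
        · rw [h0, mul_zero] at hc; omega
        · exact h0
      have hp4 : 1 < p ^ 4 := Nat.one_lt_pow (by norm_num) hp.one_lt
      have hlt : c1 < p ^ 4 * c1 := by nlinarith
      have hloc : Loc4 c1 := by
        intro q hq
        obtain ⟨u, v, huv⟩ := h q
        have hpq : (p : ℚ_[q]) ≠ 0 := by exact_mod_cast hp.ne_zero
        refine ⟨u / p, v / p, ?_⟩
        rw [div_pow, div_pow, ← add_div, huv, div_eq_iff (pow_ne_zero 4 hpq)]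
        push_cast
        ring
      obtain ⟨k, c', hk, hc', hkc, hpr⟩ := ih c1 hlt hc1 hloc
      refine ⟨p * k, c', Nat.mul_pos hp.pos hk, hc', ?_, hpr⟩
      rw [hkc]
      ring

end FD
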