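import Pool.Agent.Lib.MP_9b5ce2_ntD.Loc
import Pool.Agent.Lib.MP_9b5ce2_ntD.Comb
import Pool.Agent.Lib.MP_9b5ce2_ntD.Mert

/-! The lower bound for the everywhere locally soluble `c`.

`Q` from `loc4`, `c, y0` from `comb Q`, `A` from `tt`.  For `N ≥ y0`: the `m` of `comb` with `y = N` satisfy `Loc4 m`, their number is `≥ c (N / log N) exp (TT N) ≥ c exp (-A) N (log N) ^ (-1 + 1/4)`.  For `2 ≤ N < y0`: `c = 1` is counted (`Loc4 1`: `x = 1, y = 0`), and `N / (log N) ^ (3/4) ≤ y0 / (log 2) ^ (3/4)`. -/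

namespace FD

private theorem Low_fin (N : ℕ) : Finite {c : ℕ // 1 ≤ c ∧ c ≤ N ∧ Loc4 c} :=
  Set.Finite.to_subtype ((Set.finite_Iic N).subset fun _ hc => hc.2.1)

private theorem Low_one : Loc4 1 := by
  intro p _
  exact ⟨1, 0, by norm_num⟩

theorem low : ∃ A : ℝ, 0 < A ∧ ∀ N : ℕ, 2 ≤ N →
    N / Real.log N ^ (3 / 4 : ℝ) ≤ A * (Nat.card {c : ℕ // 1 ≤ c ∧ c ≤ N ∧ Loc4 c} : ℝ) := by
  obtain ⟨Q, hQ, h8, hloc⟩ := loc4
  obtain ⟨c, y0, hc, hy0, hcomb⟩ := comb Q hQ h8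
  obtain ⟨A0, _, htt⟩ := tt
  have hlog2 : 0 < Real.log 2 := Real.log_pos one_lt_two
  have hA1 : 0 < Real.exp A0 / c := div_pos (Real.exp_pos _) hc
  refine ⟨max (Real.exp A0 / c) (y0 / Real.log 2 ^ (3 / 4 : ℝ)), lt_max_of_lt_left hA1, fun N hN => ?_⟩
  have := Low_fin N
  have hN2 : (2 : ℝ) ≤ N := by exact_mod_cast hN
  have hN0 : (0 : ℝ) < N := by linarith
  have hL2 : Real.log 2 ≤ Real.log N := Real.log_le_log two_pos hN2
  have hL : 0 < Real.log N := hlog2.trans_le hL2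
  have hcard0 : (0 : ℝ) ≤ (Nat.card {c : ℕ // 1 ≤ c ∧ c ≤ N ∧ Loc4 c} : ℝ) := Nat.cast_nonneg _
  rcases le_or_gt y0 (N : ℝ) with hy | hy
  · have h1 := hcomb N hy
    have h2 : (Nat.card {m : ℕ // 1 ≤ m ∧ (m : ℝ) ≤ (N : ℝ) ∧ (m : ZMod Q) = 1 ∧
        ∀ p : ℕ, p.Prime → p ∣ m → p % 8 = 1} : ℝ) ≤
        (Nat.card {c : ℕ // 1 ≤ c ∧ c ≤ N ∧ Loc4 c} : ℝ) := by
      have h3 : Nat.card {m : ℕ // 1 ≤ m ∧ (m : ℝ) ≤ (N : ℝ) ∧ (m : ZMod Q) = 1 ∧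
          ∀ p : ℕ, p.Prime → p ∣ m → p % 8 = 1} ≤ Nat.card {c : ℕ // 1 ≤ c ∧ c ≤ N ∧ Loc4 c} := by
        refine Nat.card_le_card_of_injective
          (fun m => (⟨m.1, m.2.1, by exact_mod_cast m.2.2.1, hloc m.1 m.2.1 m.2.2.2.1 m.2.2.2.2⟩ :
            {c : ℕ // 1 ≤ c ∧ c ≤ N ∧ Loc4 c})) ?_
        intro m m' h
        have h' := congrArg Subtype.val h
        exact Subtype.ext h'
      exact_mod_cast h3
    have h4 := (abs_le.1 (htt N hN2)).1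
    have h5 : Real.exp (-A0) * Real.log N ^ (1 / 4 : ℝ) ≤ Real.exp (TT N) := by
      rw [Real.rpow_def_of_pos hL, ← Real.exp_add]
      refine Real.exp_le_exp.2 ?_
      linarith
    have h6 : Real.log N ^ (3 / 4 : ℝ) * Real.log N ^ (1 / 4 : ℝ) = Real.log N := by
      rw [← Real.rpow_add hL]
      norm_num
    have h7 : 0 < Real.log N ^ (3 / 4 : ℝ) := Real.rpow_pos_of_pos hL _
    have h8' : N / Real.log N ^ (3 / 4 : ℝ) =
        Real.exp A0 / c * (c * (N / Real.log N) * (Real.exp (-A0) * Real.log N ^ (1 / 4 : ℝ))) := by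
      have h9 : Real.exp A0 * Real.exp (-A0) = 1 := by
        rw [← Real.exp_add, add_neg_cancel, Real.exp_zero]
      rw [div_eq_iff h7.ne']
      have h10 : Real.exp A0 / c * (c * (N / Real.log N) * (Real.exp (-A0) * Real.log N ^ (1 / 4 : ℝ))) *
          Real.log N ^ (3 / 4 : ℝ) = (Real.exp A0 * Real.exp (-A0)) * (c / c) *
          ((N / Real.log N) * (Real.log N ^ (3 / 4 : ℝ) * Real.log N ^ (1 / 4 : ℝ))) := by ring
      rw [h10, h9, h6, div_self hc.ne', div_mul_cancel₀ _ hL.ne']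
      ring
    calc N / Real.log N ^ (3 / 4 : ℝ) =
        Real.exp A0 / c * (c * (N / Real.log N) * (Real.exp (-A0) * Real.log N ^ (1 / 4 : ℝ))) := h8'
      _ ≤ Real.exp A0 / c * (c * (N / Real.log N) * Real.exp (TT N)) := by
        refine mul_le_mul_of_nonneg_left (mul_le_mul_of_nonneg_left h5 ?_) hA1.le
        exact mul_nonneg hc.le (div_nonneg hN0.le hL.le)
      _ ≤ Real.exp A0 / c * (Nat.card {c : ℕ // 1 ≤ c ∧ c ≤ N ∧ Loc4 c} : ℝ) :=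
        mul_le_mul_of_nonneg_left (h1.trans h2) hA1.le
      _ ≤ _ := mul_le_mul_of_nonneg_right (le_max_left _ _) hcard0
  · have h1 : (1 : ℝ) ≤ (Nat.card {c : ℕ // 1 ≤ c ∧ c ≤ N ∧ Loc4 c} : ℝ) := by
      have h2 : 0 < Nat.card {c : ℕ // 1 ≤ c ∧ c ≤ N ∧ Loc4 c} :=
        Nat.card_pos_iff.2 ⟨⟨⟨1, le_refl 1, by omega, Low_one⟩⟩, inferInstance⟩
      exact_mod_cast h2
    have h3 : 0 < Real.log 2 ^ (3 / 4 : ℝ) := Real.rpow_pos_of_pos hlog2 _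
    have h4 : Real.log 2 ^ (3 / 4 : ℝ) ≤ Real.log N ^ (3 / 4 : ℝ) :=
      Real.rpow_le_rpow hlog2.le hL2 (by norm_num)
    have h5 : 0 ≤ y0 / Real.log 2 ^ (3 / 4 : ℝ) := div_nonneg (by linarith) h3.le
    calc N / Real.log N ^ (3 / 4 : ℝ) ≤ y0 / Real.log 2 ^ (3 / 4 : ℝ) :=
        div_le_div₀ (by linarith) hy.le h3 h4
      _ = y0 / Real.log 2 ^ (3 / 4 : ℝ) * 1 := (mul_one _).symm
      _ ≤ y0 / Real.log 2 ^ (3 / 4 : ℝ) * (Nat.card {c : ℕ // 1 ≤ c ∧ c ≤ N ∧ Loc4 c} : ℝ) :=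
        mul_le_mul_of_nonneg_left h1 h5
      _ ≤ _ := mul_le_mul_of_nonneg_right (le_max_right _ _) hcard0

end FD
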