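import Pool.Agent.Lib.MP_9b5ce2_ntD.LocC
import Pool.Agent.Lib.MP_9b5ce2_ntD.Comb
import Pool.Agent.Lib.MP_9b5ce2_ntD.Mert

/-! The lower bound for the everywhere locally soluble `c` in a residue class. -/

namespace FD

theorem low_cls (c0 : ℕ) (h1 : 1 ≤ c0) (h : Loc4 c0) (M : ℕ) (hM : 1 ≤ M) :
    ∃ A : ℝ, 0 < A ∧ ∃ N0 : ℕ, ∀ N : ℕ, N0 ≤ N →
    N / Real.log N ^ (3 / 4 : ℝ) ≤
      A * (Nat.card {c : ℕ // 1 ≤ c ∧ c ≤ N ∧ (M : ℤ) ∣ (c : ℤ) - c0 ∧ Loc4 c} : ℝ) := by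
  obtain ⟨Q, hQ, h8, hMQ, hloc⟩ := loc4c c0 h1 h M hM
  obtain ⟨c, y0, hc, hy0, hcomb⟩ := comb Q hQ h8
  obtain ⟨A0, _, htt⟩ := tt
  have hA1 : 0 < Real.exp A0 / c := div_pos (Real.exp_pos _) hc
  have hc0 : (1 : ℝ) ≤ c0 := by exact_mod_cast h1
  have hc0p : (0 : ℝ) < c0 := by linarith
  refine ⟨c0 * (Real.exp A0 / c), by positivity, ⌈c0 * y0⌉₊, fun N hN => ?_⟩
  have hfin : Finite {c : ℕ // 1 ≤ c ∧ c ≤ N ∧ (M : ℤ) ∣ (c : ℤ) - c0 ∧ Loc4 c} :=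
    Set.Finite.to_subtype ((Set.finite_Iic N).subset fun _ hc => hc.2.1)
  have hNy : (c0 : ℝ) * y0 ≤ N := (Nat.le_ceil _).trans (by exact_mod_cast hN)
  obtain ⟨y, hy⟩ : ∃ y : ℝ, y = N / c0 := ⟨_, rfl⟩
  have hyN : (N : ℝ) = c0 * y := by rw [hy]; field_simp
  have hy1 : y0 ≤ y := by
    rw [hy, le_div_iff₀ hc0p]
    linarith
  have hy2 : 2 ≤ y := hy0.trans hy1
  have hyle : y ≤ N := by
    rw [hyN]
    nlinarith
  have hL : 0 < Real.log y := Real.log_pos (by linarith)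
  have hLN : Real.log y ≤ Real.log N := Real.log_le_log (by linarith) hyle
  have h2 : (Nat.card {m : ℕ // 1 ≤ m ∧ (m : ℝ) ≤ y ∧ (m : ZMod Q) = 1 ∧
        ∀ p : ℕ, p.Prime → p ∣ m → p % 8 = 1} : ℝ) ≤
        (Nat.card {c : ℕ // 1 ≤ c ∧ c ≤ N ∧ (M : ℤ) ∣ (c : ℤ) - c0 ∧ Loc4 c} : ℝ) := by
    have h3 : Nat.card {m : ℕ // 1 ≤ m ∧ (m : ℝ) ≤ y ∧ (m : ZMod Q) = 1 ∧
        ∀ p : ℕ, p.Prime → p ∣ m → p % 8 = 1} ≤
        Nat.card {c : ℕ // 1 ≤ c ∧ c ≤ N ∧ (M : ℤ) ∣ (c : ℤ) - c0 ∧ Loc4 c} := by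
      refine Nat.card_le_card_of_injective
        (fun m => (⟨c0 * m.1, Nat.mul_pos h1 m.2.1, ?_, ?_, hloc m.1 m.2.1 m.2.2.2.1 m.2.2.2.2⟩ :
          {c : ℕ // 1 ≤ c ∧ c ≤ N ∧ (M : ℤ) ∣ (c : ℤ) - c0 ∧ Loc4 c})) ?_
      · have h4 : ((c0 * m.1 : ℕ) : ℝ) ≤ N := by
          push_cast
          rw [hyN]
          exact mul_le_mul_of_nonneg_left m.2.2.1 hc0p.le
        exact_mod_cast h4
      · have h4 : ((Q : ℕ) : ℤ) ∣ (m.1 : ℤ) - 1 := by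
          rw [← ZMod.intCast_zmod_eq_zero_iff_dvd]
          push_cast
          rw [m.2.2.2.1, sub_self]
        have h5 : (M : ℤ) ∣ (m.1 : ℤ) - 1 := (Int.natCast_dvd_natCast.2 hMQ).trans h4
        have h6 := h5.mul_left (c0 : ℤ)
        have h7 : ((c0 * m.1 : ℕ) : ℤ) - c0 = (c0 : ℤ) * ((m.1 : ℤ) - 1) := by
          push_cast
          ring
        rw [h7]
        exact h6
      · intro m m' hmm
        have h' := congrArg Subtype.val hmm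
        exact Subtype.ext (Nat.eq_of_mul_eq_mul_left h1 h')
    exact_mod_cast h3
  have h4 := (abs_le.1 (htt y hy2)).1
  have h5 : Real.exp (-A0) * Real.log y ^ (1 / 4 : ℝ) ≤ Real.exp (TT y) := by
    rw [Real.rpow_def_of_pos hL, ← Real.exp_add]
    refine Real.exp_le_exp.2 ?_
    linarith
  have h6 : Real.log y ^ (3 / 4 : ℝ) * Real.log y ^ (1 / 4 : ℝ) = Real.log y := by
    rw [← Real.rpow_add hL]
    norm_num
  have h7 : 0 < Real.log y ^ (3 / 4 : ℝ) := Real.rpow_pos_of_pos hL _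
  have h8' : y / Real.log y ^ (3 / 4 : ℝ) =
      Real.exp A0 / c * (c * (y / Real.log y) * (Real.exp (-A0) * Real.log y ^ (1 / 4 : ℝ))) := by
    have h9 : Real.exp A0 * Real.exp (-A0) = 1 := by
      rw [← Real.exp_add, add_neg_cancel, Real.exp_zero]
    rw [div_eq_iff h7.ne']
    have h10 : Real.exp A0 / c * (c * (y / Real.log y) * (Real.exp (-A0) * Real.log y ^ (1 / 4 : ℝ))) *
        Real.log y ^ (3 / 4 : ℝ) = (Real.exp A0 * Real.exp (-A0)) * (c / c) *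
        ((y / Real.log y) * (Real.log y ^ (3 / 4 : ℝ) * Real.log y ^ (1 / 4 : ℝ))) := by ring
    rw [h10, h9, h6, div_self hc.ne', div_mul_cancel₀ _ hL.ne']
    ring
  have h11 : Real.log y ^ (3 / 4 : ℝ) ≤ Real.log N ^ (3 / 4 : ℝ) :=
    Real.rpow_le_rpow hL.le hLN (by norm_num)
  calc N / Real.log N ^ (3 / 4 : ℝ) = c0 * (y / Real.log N ^ (3 / 4 : ℝ)) := by
        rw [hyN, mul_div_assoc]
    _ ≤ c0 * (y / Real.log y ^ (3 / 4 : ℝ)) := by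
        refine mul_le_mul_of_nonneg_left ?_ hc0p.le
        exact div_le_div_of_nonneg_left (by linarith) h7 h11
    _ = c0 * (Real.exp A0 / c * (c * (y / Real.log y) * (Real.exp (-A0) * Real.log y ^ (1 / 4 : ℝ)))) := by
        rw [h8']
    _ ≤ c0 * (Real.exp A0 / c * (c * (y / Real.log y) * Real.exp (TT y))) := by
        refine mul_le_mul_of_nonneg_left (mul_le_mul_of_nonneg_left (mul_le_mul_of_nonneg_left h5 ?_) hA1.le) hc0p.le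
        exact mul_nonneg hc.le (div_nonneg (by linarith) hL.le)
    _ ≤ c0 * (Real.exp A0 / c * (Nat.card {c : ℕ // 1 ≤ c ∧ c ≤ N ∧ (M : ℤ) ∣ (c : ℤ) - c0 ∧ Loc4 c} : ℝ)) :=
        mul_le_mul_of_nonneg_left (mul_le_mul_of_nonneg_left ((hcomb y hy1).trans h2) hA1.le) hc0p.le
    _ = _ := by ring

end FD
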