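import Pool.Agent.Lib.MP_9b5ce2_ntD.Defs

/-! Sums of two rational fourth powers are fourth powers times primitively represented numbers.

`x = u / w`, `y = v / w` with integers `u, v` and `w ≥ 1`, not both `u, v` zero (`c ≥ 1`): `u ^ 4 + v ^ 4 = c w ^ 4`.  `g = gcd (u, v) ≥ 1`, `u = g u'`, `v = g v'`, `u', v'` coprime: `g ^ 4 (u' ^ 4 + v' ^ 4) = c w ^ 4`.  Let `d = gcd (g, w)`, `g = d k`, `w = d z`, `k, z` coprime: `k ^ 4 (u' ^ 4 + v' ^ 4) = c z ^ 4`, so `k ^ 4 ∣ c`,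
`c = k ^ 4 c'`, `u' ^ 4 + v' ^ 4 = c' z ^ 4`. -/

namespace FD

theorem rat_prim {c : ℕ} (hc : 1 ≤ c) (h : Rat4 c) : ∃ k c' : ℕ, 1 ≤ k ∧ 1 ≤ c' ∧ c = k ^ 4 * c' ∧ Prim c' := by
  obtain ⟨x, y, hxy⟩ := h
  -- integers with a common denominator
  obtain ⟨u, v, w, hw, huv⟩ : ∃ (u v : ℤ) (w : ℕ), 1 ≤ w ∧ u ^ 4 + v ^ 4 = (c : ℤ) * (w : ℤ) ^ 4 := by
    refine ⟨x.num * y.den, y.num * x.den, x.den * y.den, Nat.mul_pos x.den_pos y.den_pos, ?_⟩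
    have h1 : (x.num : ℚ) = x * x.den := (Rat.mul_den_eq_num x).symm
    have h2 : (y.num : ℚ) = y * y.den := (Rat.mul_den_eq_num y).symm
    have h3 : ((x.num * y.den : ℤ) : ℚ) ^ 4 + ((y.num * x.den : ℤ) : ℚ) ^ 4 =
        (c : ℚ) * ((x.den * y.den : ℕ) : ℚ) ^ 4 := by
      push_cast
      rw [h1, h2, ← hxy]
      ring
    exact_mod_cast h3
  have hw0 : (w : ℤ) ≠ 0 := by exact_mod_cast (by omega : w ≠ 0)
  have hc0 : (c : ℤ) ≠ 0 := by exact_mod_cast (by omega : c ≠ 0)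
  have hg : 0 < Int.gcd u v := by
    rw [Nat.pos_iff_ne_zero]
    intro h0
    obtain ⟨rfl, rfl⟩ := Int.gcd_eq_zero_iff.1 h0
    have h1 : (c : ℤ) * (w : ℤ) ^ 4 = 0 := by rw [← huv]; norm_num
    exact mul_ne_zero hc0 (pow_ne_zero 4 hw0) h1
  obtain ⟨u', v', hcop, hu, hv⟩ := Int.exists_gcd_one hg
  set g : ℕ := Int.gcd u v with hgdef
  obtain ⟨k, z, hkz, hgk, hwz⟩ := Nat.exists_coprime g w
  have hd : 0 < Nat.gcd g w := Nat.gcd_pos_of_pos_left w hg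
  set d : ℕ := Nat.gcd g w with hddef
  have hk : 1 ≤ k := by
    rcases Nat.eq_zero_or_pos k with h0 | h0
    · rw [h0, zero_mul] at hgk
      omega
    · exact h0
  have hz : 1 ≤ z := by
    rcases Nat.eq_zero_or_pos z with h0 | h0
    · rw [h0, zero_mul] at hwz
      omega
    · exact h0
  have hd0 : (d : ℤ) ^ 4 ≠ 0 := pow_ne_zero 4 (by exact_mod_cast hd.ne')
  have h1 : (k : ℤ) ^ 4 * (u' ^ 4 + v' ^ 4) = (c : ℤ) * (z : ℤ) ^ 4 := by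
    refine mul_left_cancel₀ hd0 ?_
    have h2 : (g : ℤ) = k * d := by exact_mod_cast hgk
    have h3 : (w : ℤ) = z * d := by exact_mod_cast hwz
    rw [hu, hv, h2, h3] at huv
    linear_combination huv
  have h4 : (k : ℤ) ^ 4 ∣ (c : ℤ) := by
    have h5 : IsCoprime ((k : ℤ) ^ 4) ((z : ℤ) ^ 4) :=
      IsCoprime.pow (Nat.isCoprime_iff_coprime.2 hkz)
    exact h5.dvd_of_dvd_mul_right ⟨_, h1.symm⟩
  have h5 : k ^ 4 ∣ c := by exact_mod_cast h4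
  obtain ⟨c', hc'⟩ := h5
  have hk0 : (k : ℤ) ^ 4 ≠ 0 := pow_ne_zero 4 (by exact_mod_cast (by omega : k ≠ 0))
  refine ⟨k, c', hk, ?_, hc', u', v', z, Int.isCoprime_iff_gcd_eq_one.2 hcop, hz, ?_⟩
  · rcases Nat.eq_zero_or_pos c' with h0 | h0
    · rw [h0, mul_zero] at hc'
      omega
    · exact h0
  · refine mul_left_cancel₀ hk0 ?_
    rw [h1, hc']
    push_cast
    ring

end FD
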