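import Pool.Agent.Lib.MP_9b5ce2_ntD.Defs

/-! From a set to its multiples by fourth powers.

If `c ≤ N` is in `T` then `c = k ^ 4 * c'`, `c' ∈ U`, `k ≥ 1`, so `#T(N) ≤ ∑_{k ≥ 1, k ^ 4 ≤ N} #U(N / k ^ 4)` (natural division; finite sum over `k ≤ N`).  For `k ≤ N ^ (1/8)`: `N / k ^ 4 ≥ √N` (real), so for `N ≥ 16`: `⌊N / k ^ 4⌋ ≥ ⌊√N⌋ ≥ 2` and `log ⌊N / k ^ 4⌋ ≥ log N / 4`:
the term is `≤ A (N / k ^ 4) (log N / 4) ^ (-θ) ≤ 4 A N / (k ^ 4 (log N) ^ θ)` (monotone: bound the numerator and the denominator separately; `θ ≤ 1`, `4 ^ θ ≤ 4`), and `∑ 1 / k ^ 4 ≤ 2`.  For `k > N ^ (1/8)`: the term is `≤ N / k ^ 4`, the sum is `≤ 2 N (N ^ (1/8)) ^ (-3)`-ish: `∑_{k > K} 1 / k ^ 4 ≤ (1 / K ^ 2) ∑ 1 / k ^ 2 ≤ 2 / K ^ 2`,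
with `K = N ^ (1/8)`: `2 N ^ (3/4) ≤ A' N / (log N) ^ θ` (`log N ≤ 4 N ^ (1/4)`).  For `2 ≤ N < 16`: the number is at most `16` and the right side is at least `A' · 2 / (log 16) ^ θ`. -/

namespace FD

open Finset

private lemma SumK_sq (n : ℕ) : ∑ k ∈ Icc 1 n, (1 : ℝ) / (k : ℝ) ^ 2 ≤ 2 - 1 / (n : ℝ) := by
  induction n with
  | zero => simp
  | succ n ih =>
    rw [Finset.sum_Icc_succ_top (by omega)]
    rcases Nat.eq_zero_or_pos n with rfl | hn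
    · norm_num
    · have hn' : (0 : ℝ) < n := by exact_mod_cast hn
      have h : (1 : ℝ) / ((n + 1 : ℕ) : ℝ) ^ 2 ≤ 1 / (n : ℝ) - 1 / ((n + 1 : ℕ) : ℝ) := by
        push_cast
        rw [div_sub_div _ _ hn'.ne' (by positivity), div_le_div_iff₀ (by positivity) (by positivity)]
        nlinarith
      linarith

private lemma SumK_card (U : ℕ → Prop) [DecidablePred U] (M : ℕ) :
    Nat.card {c : ℕ // 1 ≤ c ∧ c ≤ M ∧ U c} = ((Icc 1 M).filter U).card := by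
  have h : ∀ c, c ∈ (Icc 1 M).filter U ↔ (1 ≤ c ∧ c ≤ M ∧ U c) := by
    intro c
    simp only [mem_filter, mem_Icc, and_assoc]
  rw [← Nat.card_eq_finsetCard ((Icc 1 M).filter U)]
  exact Nat.card_congr (Equiv.subtypeEquivRight (fun c => (h c).symm))

private lemma SumK_le (U : ℕ → Prop) (M : ℕ) : (Nat.card {c : ℕ // 1 ≤ c ∧ c ≤ M ∧ U c} : ℝ) ≤ M := by
  classical
  rw [SumK_card]
  have h := Finset.card_filter_le (Icc 1 M) U
  rw [Nat.card_Icc] at h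
  have h2 : ((Icc 1 M).filter U).card ≤ M := by omega
  exact_mod_cast h2

/-- bound for one term -/
private lemma SumK_term (U : ℕ → Prop) (θ : ℝ) (h0 : 0 ≤ θ) (h1 : θ ≤ 1)
    (A : ℝ) (hA : 0 < A) (hU : ∀ N : ℕ, 2 ≤ N → (Nat.card {c : ℕ // 1 ≤ c ∧ c ≤ N ∧ U c} : ℝ) ≤ A * (N / Real.log N ^ θ))
    (N : ℕ) (hN : 2 ≤ N) (k : ℕ) (hk : 1 ≤ k) :
    (Nat.card {c : ℕ // 1 ≤ c ∧ c ≤ N / k ^ 4 ∧ U c} : ℝ) ≤ (4 * A + 8) * (N / Real.log N ^ θ) * (1 / (k : ℝ) ^ 2) := by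
  have hN0 : (0 : ℝ) < N := by exact_mod_cast (by omega : 0 < N)
  have hk0 : (1 : ℝ) ≤ k := by exact_mod_cast hk
  have hkp : (0 : ℝ) < k := by linarith
  obtain ⟨t, ht, htN⟩ : ∃ t : ℝ, 0 < t ∧ t ^ 4 = N := by
    refine ⟨(N : ℝ) ^ (1 / 4 : ℝ), Real.rpow_pos_of_pos hN0 _, ?_⟩
    rw [← Real.rpow_natCast, ← Real.rpow_mul hN0.le]
    norm_num
  have hL : Real.log N = 4 * Real.log t := by
    rw [← htN, Real.log_pow]; norm_num
  have ht1 : 1 < t := by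
    by_contra h
    have h2 : t ^ 4 ≤ 1 := pow_le_one₀ ht.le (not_lt.mp h)
    have h3 : (2 : ℝ) ≤ N := by exact_mod_cast hN
    linarith
  have hlt : 0 < Real.log t := Real.log_pos ht1
  have hLp : 0 < Real.log N := by rw [hL]; positivity
  have hLt : Real.log N ≤ 4 * t := by
    rw [hL]
    have := Real.log_le_sub_one_of_pos ht
    linarith
  -- the power of the logarithm is at most `4 t`
  have hLθ : Real.log N ^ θ ≤ 4 * t := by
    rcases le_total (Real.log N) 1 with h | h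
    · exact (Real.rpow_le_one hLp.le h h0).trans (by linarith)
    · calc Real.log N ^ θ ≤ Real.log N ^ (1 : ℝ) := Real.rpow_le_rpow_of_exponent_le h h1
        _ = Real.log N := Real.rpow_one _
        _ ≤ 4 * t := hLt
  have hLθp : 0 < Real.log N ^ θ := Real.rpow_pos_of_pos hLp _
  have hMle : (((N / k ^ 4 : ℕ) : ℕ) : ℝ) ≤ N / (k : ℝ) ^ 4 := by
    have := @Nat.cast_div_le ℝ _ _ _ N (k ^ 4)
    simpa using this
  have hcard := (SumK_le U (N / k ^ 4)).trans hMle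
  by_cases hc : 2 ≤ t ∧ (k : ℝ) ^ 2 ≤ t
  · obtain ⟨ht2, hkt⟩ := hc
    have hM : t ≤ ((N / k ^ 4 : ℕ) : ℝ) := by
      have h2 : (N : ℝ) < (k : ℝ) ^ 4 * (((N / k ^ 4 : ℕ) : ℝ) + 1) := by
        have h3 := Nat.lt_mul_div_succ N (show 0 < k ^ 4 by positivity)
        exact_mod_cast h3
      have h4 : (k : ℝ) ^ 4 ≤ t ^ 2 := by
        calc (k : ℝ) ^ 4 = ((k : ℝ) ^ 2) ^ 2 := by ring
          _ ≤ t ^ 2 := by gcongr
      have h5 : t ^ 4 < t ^ 2 * (((N / k ^ 4 : ℕ) : ℝ) + 1) := by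
        rw [htN]
        refine h2.trans_le ?_
        gcongr
      have h6 : t ^ 2 < ((N / k ^ 4 : ℕ) : ℝ) + 1 := by
        have h7 : t ^ 2 * t ^ 2 < t ^ 2 * (((N / k ^ 4 : ℕ) : ℝ) + 1) := by
          calc t ^ 2 * t ^ 2 = t ^ 4 := by ring
            _ < _ := h5
        exact lt_of_mul_lt_mul_left h7 (by positivity)
      nlinarith
    have hM2 : 2 ≤ N / k ^ 4 := by
      have : (2 : ℝ) ≤ ((N / k ^ 4 : ℕ) : ℝ) := ht2.trans hM
      exact_mod_cast this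
    have hlog : Real.log N / 4 ≤ Real.log ((N / k ^ 4 : ℕ) : ℝ) := by
      rw [hL]
      have := Real.log_le_log ht hM
      linarith
    have hpow : Real.log N ^ θ / 4 ≤ Real.log ((N / k ^ 4 : ℕ) : ℝ) ^ θ := by
      calc Real.log N ^ θ / 4 ≤ Real.log N ^ θ / 4 ^ θ := by
            apply div_le_div_of_nonneg_left hLθp.le (by positivity)
            calc (4 : ℝ) ^ θ ≤ 4 ^ (1 : ℝ) := Real.rpow_le_rpow_of_exponent_le (by norm_num) h1
              _ = 4 := Real.rpow_one _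
        _ = (Real.log N / 4) ^ θ := (Real.div_rpow hLp.le (by norm_num) θ).symm
        _ ≤ _ := Real.rpow_le_rpow (by positivity) hlog h0
    calc (Nat.card {c : ℕ // 1 ≤ c ∧ c ≤ N / k ^ 4 ∧ U c} : ℝ)
        ≤ A * (((N / k ^ 4 : ℕ) : ℝ) / Real.log ((N / k ^ 4 : ℕ) : ℝ) ^ θ) := hU _ hM2
      _ ≤ A * ((N / (k : ℝ) ^ 4) / (Real.log N ^ θ / 4)) := by
          gcongr
      _ = 4 * A * (N / Real.log N ^ θ) * (1 / (k : ℝ) ^ 4) := by
          field_simp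
      _ ≤ 4 * A * (N / Real.log N ^ θ) * (1 / (k : ℝ) ^ 2) := by
          gcongr
          norm_num
      _ ≤ (4 * A + 8) * (N / Real.log N ^ θ) * (1 / (k : ℝ) ^ 2) := by
          gcongr
          linarith
  · -- the trivial bound suffices
    have hkey : Real.log N ^ θ ≤ 8 * (k : ℝ) ^ 2 := by
      rw [not_and_or] at hc
      rcases hc with hc | hc
      · have : t ≤ 2 := (not_le.mp hc).le
        nlinarith
      · have : t ≤ (k : ℝ) ^ 2 := (not_le.mp hc).le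
        nlinarith
    calc (Nat.card {c : ℕ // 1 ≤ c ∧ c ≤ N / k ^ 4 ∧ U c} : ℝ)
        ≤ N / (k : ℝ) ^ 4 := hcard
      _ ≤ 8 * (N / Real.log N ^ θ) * (1 / (k : ℝ) ^ 2) := by
          have e : 8 * (N / Real.log N ^ θ) * (1 / (k : ℝ) ^ 2) = (8 * N) / (Real.log N ^ θ * (k : ℝ) ^ 2) := by
            field_simp
          rw [e, div_le_div_iff₀ (by positivity) (by positivity)]
          have h3 : (N : ℝ) * (k : ℝ) ^ 2 * Real.log N ^ θ ≤ (N : ℝ) * (k : ℝ) ^ 2 * (8 * (k : ℝ) ^ 2) := by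
            gcongr
          nlinarith
      _ ≤ (4 * A + 8) * (N / Real.log N ^ θ) * (1 / (k : ℝ) ^ 2) := by
          gcongr
          linarith

theorem sum_k (T U : ℕ → Prop) (θ : ℝ) (h0 : 0 ≤ θ) (h1 : θ ≤ 1)
    (hTU : ∀ c, 1 ≤ c → T c → ∃ k c' : ℕ, 1 ≤ k ∧ 1 ≤ c' ∧ c = k ^ 4 * c' ∧ U c')
    (A : ℝ) (hA : 0 < A) (hU : ∀ N : ℕ, 2 ≤ N → (Nat.card {c : ℕ // 1 ≤ c ∧ c ≤ N ∧ U c} : ℝ) ≤ A * (N / Real.log N ^ θ)) :
    ∃ A' : ℝ, 0 < A' ∧ ∀ N : ℕ, 2 ≤ N → (Nat.card {c : ℕ // 1 ≤ c ∧ c ≤ N ∧ T c} : ℝ) ≤ A' * (N / Real.log N ^ θ) := by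
  classical
  refine ⟨2 * (4 * A + 8), by positivity, fun N hN => ?_⟩
  have hsub : (Icc 1 N).filter T ⊆ (Icc 1 N).biUnion
      (fun k => ((Icc 1 (N / k ^ 4)).filter U).image (fun c' => k ^ 4 * c')) := by
    intro c hc
    rw [mem_filter, mem_Icc] at hc
    obtain ⟨k, c', hk, hc', e, hu⟩ := hTU c hc.1.1 hc.2
    rw [mem_biUnion]
    have hk4 : 0 < k ^ 4 := by positivity
    have hle : k ≤ c := by
      rw [e]
      calc k = k ^ 1 * 1 := by ring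
        _ ≤ k ^ 4 * c' := Nat.mul_le_mul (Nat.pow_le_pow_right hk (by norm_num)) hc'
    refine ⟨k, mem_Icc.mpr ⟨hk, hle.trans hc.1.2⟩, ?_⟩
    rw [mem_image]
    refine ⟨c', ?_, e.symm⟩
    rw [mem_filter, mem_Icc]
    refine ⟨⟨hc', ?_⟩, hu⟩
    rw [Nat.le_div_iff_mul_le hk4]
    rw [e] at hc
    linarith [hc.1.2, mul_comm c' (k ^ 4)]
  have hcard : ((Icc 1 N).filter T).card ≤ ∑ k ∈ Icc 1 N, ((Icc 1 (N / k ^ 4)).filter U).card := by
    refine (card_le_card hsub).trans (card_biUnion_le.trans ?_)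
    exact sum_le_sum (fun k _ => card_image_le)
  have hN1 : (1 : ℝ) < N := by exact_mod_cast (by omega : 1 < N)
  have hLp : 0 < Real.log N := Real.log_pos hN1
  have hX : 0 ≤ (4 * A + 8) * (N / Real.log N ^ θ) := by
    have := Real.rpow_nonneg hLp.le θ
    positivity
  rw [SumK_card]
  calc ((((Icc 1 N).filter T).card : ℕ) : ℝ) ≤ ((∑ k ∈ Icc 1 N, ((Icc 1 (N / k ^ 4)).filter U).card : ℕ) : ℝ) := by
        exact_mod_cast hcard
    _ = ∑ k ∈ Icc 1 N, (Nat.card {c : ℕ // 1 ≤ c ∧ c ≤ N / k ^ 4 ∧ U c} : ℝ) := by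
        rw [Nat.cast_sum]
        exact sum_congr rfl (fun k _ => by rw [SumK_card])
    _ ≤ ∑ k ∈ Icc 1 N, (4 * A + 8) * (N / Real.log N ^ θ) * (1 / (k : ℝ) ^ 2) :=
        sum_le_sum (fun k hk => SumK_term U θ h0 h1 A hA hU N hN k (mem_Icc.mp hk).1)
    _ = (4 * A + 8) * (N / Real.log N ^ θ) * ∑ k ∈ Icc 1 N, (1 / (k : ℝ) ^ 2) := by rw [mul_sum]
    _ ≤ (4 * A + 8) * (N / Real.log N ^ θ) * 2 := by
        apply mul_le_mul_of_nonneg_left _ hX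
        have := SumK_sq N
        have h2 : (0 : ℝ) ≤ 1 / N := by positivity
        linarith
    _ = 2 * (4 * A + 8) * (N / Real.log N ^ θ) := by ring

end FD
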