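import Pool.Agent.Lib.MP_9b5ce2_ntD.UpPrim
import Pool.Agent.Lib.MP_9b5ce2_ntD.SumK
import Pool.Agent.Lib.MP_9b5ce2_ntD.RatPrim
import Pool.Agent.Lib.MP_9b5ce2_ntD.Low
import Pool.Agent.Lib.MP_9b5ce2_ntD.LocVal
import Pool.Agent.Lib.MP_9b5ce2_ntD.LocUp

/-! The main theorem. -/

namespace FD

theorem up_all : ∃ A : ℝ, 0 < A ∧ ∀ N : ℕ, 2 ≤ N →
    (Nat.card {c : ℕ // 1 ≤ c ∧ c ≤ N ∧ Rat4 c} : ℝ) ≤ A * (N / Real.log N ^ (15 / 16 : ℝ)) := by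
  obtain ⟨A, hA, h⟩ := up_prim
  exact sum_k Rat4 Prim (15 / 16) (by norm_num) (by norm_num) (fun c hc h => rat_prim hc h) A hA h

theorem loc_all : ∃ A : ℝ, 0 < A ∧ ∀ N : ℕ, 2 ≤ N →
    (Nat.card {c : ℕ // 1 ≤ c ∧ c ≤ N ∧ Loc4 c} : ℝ) ≤ A * (N / Real.log N ^ (3 / 4 : ℝ)) := by
  obtain ⟨A, hA, h⟩ := loc_up
  exact sum_k Loc4 (fun c => ∀ p : ℕ, p.Prime → p ∣ c → p = 2 ∨ p % 8 = 1) (3 / 4) (by norm_num) (by norm_num)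
    (fun c hc h => split hc h) A hA h

end FD
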