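import Pool.Agent.Lib.MP_9b5ce2_ntD.Defs

/-! Primitive vectors in a square whose determinants are divisible by `D`.

`K = X ^ 2 / D`.  `S₁` = the `v ∈ S` with `|v.2| ≤ |v.1|`.  For `v ∈ S₁`: `v.1 ≠ 0` (coprime), the slope `s v = v.2 / v.1 ∈ [-1, 1]`.  The map `v ↦ (0 < v.1, ⌊s v * K⌋)` is injective on `S₁`: if the floors are equal then `|s v - s w| < D / X ^ 2`,
and `|s v - s w| = |v.1 * w.2 - w.1 * v.2| / (|v.1| |w.1|) ≥ |v.1 * w.2 - w.1 * v.2| / X ^ 2`, so `|v.1 * w.2 - w.1 * v.2| < D`, so it is `0` (`Int.eq_zero_of_abs_lt_dvd`); as `v, w` are coprime pairs, `v = w` or `v = -w`, and the signs of `v.1, w.1` agree, so `v = w`.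
The floors are in `[⌊-K⌋, ⌊K⌋]`, at most `2 K + 2` integers, so `#S₁ ≤ 4 K + 4`.  The same for the `v` with `|v.1| < |v.2|` (swap the coordinates, or the same lemma for the image of `S` under `Prod.swap`). -/

namespace FD

open Finset

theorem prim_card_aux (D : ℕ) (hD : 1 ≤ D) (X : ℝ) (hX : 0 < X) (S : Finset (ℤ × ℤ))
    (h1 : ∀ v ∈ S, IsCoprime v.1 v.2 ∧ |(v.1 : ℝ)| ≤ X ∧ |(v.2 : ℝ)| ≤ |(v.1 : ℝ)|)
    (h2 : ∀ v ∈ S, ∀ w ∈ S, (D : ℤ) ∣ v.1 * w.2 - w.1 * v.2) :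
    (S.card : ℝ) ≤ 4 * (X ^ 2 / D) + 4 := by
  have hD' : (0 : ℝ) < D := by exact_mod_cast hD
  set K : ℝ := X ^ 2 / D with hK
  have hK0 : 0 < K := by positivity
  have hKD : K * D = X ^ 2 := by rw [hK]; field_simp
  have hne : ∀ v ∈ S, v.1 ≠ 0 := by
    intro v hv h0
    obtain ⟨a, -, b⟩ := h1 v hv
    rw [h0] at b
    have h3 : v.2 = 0 := by
      have : |(v.2 : ℝ)| ≤ 0 := by simpa using b
      have := abs_nonpos_iff.1 this
      exact_mod_cast this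
    rw [h0, h3] at a
    obtain ⟨p, q, hpq⟩ := a
    simp at hpq
  let f : ℤ × ℤ → Bool × ℤ := fun v => (decide (0 < v.1), ⌊((v.2 : ℝ) / v.1) * K⌋)
  have hf : ∀ v ∈ S, f v ∈ (Finset.univ : Finset Bool) ×ˢ Finset.Icc ⌊-K⌋ ⌊K⌋ := by
    intro v hv
    obtain ⟨-, -, b⟩ := h1 v hv
    have hv0 : (0 : ℝ) < |(v.1 : ℝ)| := abs_pos.2 (by exact_mod_cast hne v hv)
    have h3 : |(v.2 : ℝ) / v.1| ≤ 1 := by
      rw [abs_div]
      exact (div_le_one hv0).2 b
    have h4 := abs_le.1 h3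
    rw [Finset.mem_product, Finset.mem_Icc]
    refine ⟨Finset.mem_univ _, Int.floor_le_floor ?_, Int.floor_le_floor ?_⟩
    · nlinarith [h4.1]
    · nlinarith [h4.2]
  have hinj : Set.InjOn f S := by
    intro v hv w hw hvw
    have e1 : decide (0 < v.1) = decide (0 < w.1) := congrArg Prod.fst hvw
    have e2 : ⌊((v.2 : ℝ) / v.1) * K⌋ = ⌊((w.2 : ℝ) / w.1) * K⌋ := congrArg Prod.snd hvw
    have e3 := Int.abs_sub_lt_one_of_floor_eq_floor e2
    have hv0 : (v.1 : ℝ) ≠ 0 := by exact_mod_cast hne v hv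
    have hw0 : (w.1 : ℝ) ≠ 0 := by exact_mod_cast hne w hw
    obtain ⟨cv, bv, -⟩ := h1 v hv
    obtain ⟨cw, bw, -⟩ := h1 w hw
    have e4 : |(v.1 : ℝ) * w.2 - w.1 * v.2| < D := by
      have e5 : (v.1 : ℝ) * w.2 - w.1 * v.2 =
          -(((v.2 : ℝ) / v.1 - (w.2 : ℝ) / w.1) * (v.1 * w.1)) := by
        field_simp
        ring
      have e6 : |((v.2 : ℝ) / v.1 - (w.2 : ℝ) / w.1)| * K < 1 := by
        rw [← sub_mul, abs_mul, abs_of_pos hK0] at e3
        exact e3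
      rw [e5, abs_neg, abs_mul, abs_mul]
      have e7 : |(v.1 : ℝ)| * |(w.1 : ℝ)| ≤ K * D := by
        rw [hKD, sq]
        exact mul_le_mul bv bw (abs_nonneg _) hX.le
      calc _ ≤ |((v.2 : ℝ) / v.1 - (w.2 : ℝ) / w.1)| * (K * D) :=
            mul_le_mul_of_nonneg_left e7 (abs_nonneg _)
        _ = |((v.2 : ℝ) / v.1 - (w.2 : ℝ) / w.1)| * K * D := by ring
        _ < 1 * D := by exact mul_lt_mul_of_pos_right e6 hD'
        _ = D := one_mul _
    have e5 : |v.1 * w.2 - w.1 * v.2| < (D : ℤ) := by exact_mod_cast e4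
    have e6 : v.1 * w.2 - w.1 * v.2 = 0 := Int.eq_zero_of_abs_lt_dvd (h2 v hv w hw) e5
    have e7 : v.1 * w.2 = w.1 * v.2 := by linarith
    have e8 : v.1 ∣ w.1 := cv.dvd_of_dvd_mul_right ⟨w.2, e7.symm⟩
    have e9 : w.1 ∣ v.1 := cw.dvd_of_dvd_mul_right ⟨v.2, e7⟩
    have e10 : v.1 = w.1 := by
      rcases lt_or_gt_of_ne (hne v hv) with hv1 | hv1
      · have hw1 : w.1 < 0 := by
          rcases lt_or_gt_of_ne (hne w hw) with h | h
          · exact h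
          · exfalso
            have : decide (0 < w.1) = true := decide_eq_true h
            rw [← e1] at this
            have := of_decide_eq_true this
            omega
        have a1 := Int.le_of_dvd (by omega : (0 : ℤ) < -w.1) (show -v.1 ∣ -w.1 from
          (neg_dvd.2 (dvd_neg.2 e8)))
        have a2 := Int.le_of_dvd (by omega : (0 : ℤ) < -v.1) (show -w.1 ∣ -v.1 from
          (neg_dvd.2 (dvd_neg.2 e9)))
        omega
      · have hw1 : 0 < w.1 := by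
          have : decide (0 < v.1) = true := decide_eq_true hv1
          rw [e1] at this
          exact of_decide_eq_true this
        exact le_antisymm (Int.le_of_dvd hw1 e8) (Int.le_of_dvd hv1 e9)
    rw [← e10] at e7
    exact Prod.ext e10 (mul_left_cancel₀ (hne v hv) e7).symm
  have hc := Finset.card_le_card_of_injOn f hf hinj
  rw [Finset.card_product, Finset.card_univ, Fintype.card_bool, Int.card_Icc] at hc
  have h5 : (((⌊K⌋ + 1 - ⌊-K⌋).toNat : ℕ) : ℝ) ≤ 2 * K + 2 := by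
    have a1 : 0 ≤ ⌊K⌋ + 1 - ⌊-K⌋ := by
      have := Int.floor_le_floor (show -K ≤ K by linarith)
      omega
    have a2 : (((⌊K⌋ + 1 - ⌊-K⌋).toNat : ℕ) : ℝ) = (⌊K⌋ : ℝ) + 1 - ⌊-K⌋ := by
      have a3 : (((⌊K⌋ + 1 - ⌊-K⌋).toNat : ℕ) : ℤ) = ⌊K⌋ + 1 - ⌊-K⌋ := Int.toNat_of_nonneg a1
      exact_mod_cast a3
    rw [a2]
    have a3 := Int.floor_le K
    have a4 := Int.lt_floor_add_one (-K)
    linarith
  have h6 : (S.card : ℝ) ≤ 2 * (((⌊K⌋ + 1 - ⌊-K⌋).toNat : ℕ) : ℝ) := by exact_mod_cast hc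
  linarith

theorem prim_card (D : ℕ) (hD : 1 ≤ D) (X : ℝ) (hX : 0 < X) (S : Finset (ℤ × ℤ))
    (h1 : ∀ v ∈ S, IsCoprime v.1 v.2 ∧ |(v.1 : ℝ)| ≤ X ∧ |(v.2 : ℝ)| ≤ X)
    (h2 : ∀ v ∈ S, ∀ w ∈ S, (D : ℤ) ∣ v.1 * w.2 - w.1 * v.2) : (S.card : ℝ) ≤ 8 * X ^ 2 / D + 8 := by
  classical
  have e : S.card = (S.filter fun v => |v.2| ≤ |v.1|).card +
      (S.filter fun v => ¬ |v.2| ≤ |v.1|).card :=
    (Finset.card_filter_add_card_filter_not _).symm
  have a1 := prim_card_aux D hD X hX (S.filter fun v => |v.2| ≤ |v.1|)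
    (fun v hv => by
      obtain ⟨h, h'⟩ := Finset.mem_filter.1 hv
      exact ⟨(h1 v h).1, (h1 v h).2.1, by exact_mod_cast h'⟩)
    (fun v hv w hw => h2 v (Finset.mem_filter.1 hv).1 w (Finset.mem_filter.1 hw).1)
  have a2 := prim_card_aux D hD X hX ((S.filter fun v => ¬ |v.2| ≤ |v.1|).image Prod.swap)
    (fun v hv => by
      obtain ⟨w, hw, rfl⟩ := Finset.mem_image.1 hv
      obtain ⟨h, h'⟩ := Finset.mem_filter.1 hw
      exact ⟨(h1 w h).1.symm, (h1 w h).2.2, by exact_mod_cast (lt_of_not_ge h').le⟩)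
    (fun v hv w hw => by
      obtain ⟨v', hv', rfl⟩ := Finset.mem_image.1 hv
      obtain ⟨w', hw', rfl⟩ := Finset.mem_image.1 hw
      have h3 := h2 w' (Finset.mem_filter.1 hw').1 v' (Finset.mem_filter.1 hv').1
      have h4 : v'.swap.1 * w'.swap.2 - w'.swap.1 * v'.swap.2 =
          w'.1 * v'.2 - v'.1 * w'.2 := by
        simp only [Prod.fst_swap, Prod.snd_swap]
        ring
      rw [h4]
      exact h3)
  rw [Finset.card_image_of_injective _ Prod.swap_injective] at a2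
  have e' : (S.card : ℝ) = ((S.filter fun v => |v.2| ≤ |v.1|).card : ℝ) +
      ((S.filter fun v => ¬ |v.2| ≤ |v.1|).card : ℝ) := by exact_mod_cast e
  rw [e']
  have e2 : 8 * X ^ 2 / (D : ℝ) = 8 * (X ^ 2 / D) := by ring
  rw [e2]
  linarith

end FD
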