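import Mathlib

/-! Many coprime pairs in a residue class.

Replace `a, y0` by representatives `c, d` in `[1, b]`.  `Q` = the pairs `(c + b i, d + b j)` with `i, j < n = X / b`.  A pair of `Q` which is not coprime has a common prime factor `l ≤ X`, and `l ∤ b`
(if `l ∣ b` then `l ∣ a`, `l ∣ y0`, excluded).  For a prime `l ∤ b` the number of `i < n` with `l ∣ c + b i` is at most `n / l + 1`.
Sum over all integers `2 ≤ l ≤ X`: `(n / l + 1) ^ 2 ≤ (7 / 6) n ^ 2 / l ^ 2 + 7`, so that the number of the pairs which are not coprime is at most `(7 / 8) n ^ 2 + 7 X`. -/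

namespace FD

open Finset

private lemma SmC_rep (b : ℕ) (hb : 1 ≤ b) (a : ℤ) : ∃ c : ℕ, 1 ≤ c ∧ c ≤ b ∧ (b : ℤ) ∣ (c : ℤ) - a := by
  have hb' : (0 : ℤ) < (b : ℤ) := by exact_mod_cast hb
  have h1 := Int.emod_nonneg (a - 1) hb'.ne'
  have h2 := Int.emod_lt_of_pos (a - 1) hb'
  refine ⟨((a - 1) % (b : ℤ)).toNat + 1, by omega, by omega, ?_⟩
  have h3 : (((((a - 1) % (b : ℤ)).toNat + 1 : ℕ)) : ℤ) - a = (a - 1) % (b : ℤ) - (a - 1) := by
    push_cast
    rw [Int.toNat_of_nonneg h1]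
    ring
  rw [h3]
  have h4 := Int.emod_add_mul_ediv (a - 1) (b : ℤ)
  exact ⟨-((a - 1) / (b : ℤ)), by linarith⟩

private lemma SmC_cnt (b l n c : ℕ) (hl : l.Prime) (hlb : ¬ l ∣ b) :
    (((range n).filter (fun i => l ∣ c + b * i)).card : ℝ) ≤ (n : ℝ) / l + 1 := by
  have hl0 : 0 < l := hl.pos
  have h1 : ((range n).filter (fun i => l ∣ c + b * i)).card ≤ (range (n / l + 1)).card := by
    refine Finset.card_le_card_of_injOn (fun i => i / l) ?_ ?_
    · intro i hi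
      have hi' := Finset.mem_coe.mp hi
      rw [mem_filter, mem_range] at hi'
      refine Finset.mem_coe.mpr (mem_range.mpr ?_)
      have := Nat.div_le_div_right (c := l) hi'.1.le
      show i / l < n / l + 1
      omega
    · intro i hi j hj hij
      have hi' := Finset.mem_coe.mp hi
      have hj' := Finset.mem_coe.mp hj
      rw [mem_filter, mem_range] at hi' hj'
      have hij' : i / l = j / l := hij
      have h2 : (l : ℤ) ∣ (b : ℤ) * ((i : ℤ) - j) := by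
        have e1 : (l : ℤ) ∣ ((c + b * i : ℕ) : ℤ) := by exact_mod_cast hi'.2
        have e2 : (l : ℤ) ∣ ((c + b * j : ℕ) : ℤ) := by exact_mod_cast hj'.2
        have e3 := dvd_sub e1 e2
        have e4 : ((c + b * i : ℕ) : ℤ) - ((c + b * j : ℕ) : ℤ) = (b : ℤ) * ((i : ℤ) - j) := by
          push_cast; ring
        rwa [e4] at e3
      have h3 : (l : ℤ) ∣ ((i : ℤ) - j) := by
        rcases (Nat.prime_iff_prime_int.mp hl).dvd_or_dvd h2 with h | h
        · exact absurd (by exact_mod_cast h) hlb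
        · exact h
      have h4 : i % l = j % l := by
        have h5 : (j : ℤ) ≡ (i : ℤ) [ZMOD (l : ℤ)] := (Int.modEq_iff_dvd).mpr h3
        have h6 : (j : ℕ) ≡ i [MOD l] := (Int.natCast_modEq_iff).mp h5
        exact h6.symm
      have h7 := Nat.div_add_mod i l
      have h8 := Nat.div_add_mod j l
      rw [← h7, ← h8, hij', h4]
  rw [card_range] at h1
  have h2 : (((range n).filter (fun i => l ∣ c + b * i)).card : ℝ) ≤ ((n / l + 1 : ℕ) : ℝ) := by
    exact_mod_cast h1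
  refine h2.trans ?_
  push_cast
  have := Nat.cast_div_le (α := ℝ) (m := n) (n := l)
  linarith

private lemma SmC_sum (X : ℕ) : 2 ≤ X → ∑ l ∈ Icc 2 X, (1 / (l : ℝ) ^ 2) ≤ (3 / 4 : ℝ) - 1 / (X : ℝ) := by
  intro hX
  induction X, hX using Nat.le_induction with
  | base => norm_num
  | succ X hX ih =>
    rw [Finset.sum_Icc_succ_top (by omega)]
    have hX0 : (0 : ℝ) < X := by
      have : 0 < X := by omega
      exact_mod_cast this
    have h1 : 1 / (((X + 1 : ℕ) : ℝ)) ^ 2 ≤ 1 / (X : ℝ) - 1 / ((X + 1 : ℕ) : ℝ) := by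
      push_cast
      rw [div_sub_div _ _ hX0.ne' (by positivity), div_le_div_iff₀ (by positivity) (by positivity)]
      nlinarith
    linarith

theorem cop_pairs (b : ℕ) (hb : 1 ≤ b) (a y0 : ℤ) (h : ∀ l : ℕ, l.Prime → ¬ ((l : ℤ) ∣ a ∧ (l : ℤ) ∣ y0 ∧ l ∣ b)) :
    ∃ κ : ℝ, 0 < κ ∧ ∃ X0 : ℕ, ∀ X : ℕ, X0 ≤ X → ∃ P : Finset (ℕ × ℕ),
      (∀ v ∈ P, 1 ≤ v.1 ∧ v.1 ≤ X ∧ 1 ≤ v.2 ∧ v.2 ≤ X ∧ v.1.Coprime v.2 ∧ (b : ℤ) ∣ (v.1 : ℤ) - a ∧
        (b : ℤ) ∣ (v.2 : ℤ) - y0) ∧ κ * (X : ℝ) ^ 2 ≤ (P.card : ℝ) := by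
  obtain ⟨c, hc1, hcb, hca⟩ := SmC_rep b hb a
  obtain ⟨d, hd1, hdb, hdy⟩ := SmC_rep b hb y0
  have hbR : (1 : ℝ) ≤ b := by exact_mod_cast hb
  refine ⟨1 / (64 * (b : ℝ) ^ 2), by positivity, 224 * b * b + 2 * b, ?_⟩
  intro X hX
  obtain ⟨n, hn⟩ : ∃ n, n = X / b := ⟨_, rfl⟩
  have hnX : b * n ≤ X := by rw [hn]; exact Nat.mul_div_le X b
  have hXn : X < b * (n + 1) := by
    rw [hn]
    have := Nat.lt_mul_div_succ X (show 0 < b by omega)
    exact this
  have hn224 : 224 * b ≤ n := by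
    rw [hn, Nat.le_div_iff_mul_le (by omega)]
    nlinarith
  have hX2 : 2 ≤ X := by nlinarith
  -- the pairs
  let Q : Finset (ℕ × ℕ) := (range n) ×ˢ (range n)
  let f : ℕ × ℕ → ℕ × ℕ := fun p => (c + b * p.1, d + b * p.2)
  let G : Finset (ℕ × ℕ) := Q.filter (fun p => (c + b * p.1).Coprime (d + b * p.2))
  have hf : Function.Injective f := by
    intro p q hpq
    have h1 := congrArg Prod.fst hpq
    have h2 := congrArg Prod.snd hpq
    simp only [f] at h1 h2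
    have h3 : p.1 = q.1 := Nat.eq_of_mul_eq_mul_left (show 0 < b by omega) (by omega)
    have h4 : p.2 = q.2 := Nat.eq_of_mul_eq_mul_left (show 0 < b by omega) (by omega)
    exact Prod.ext h3 h4
  have hle : ∀ i : ℕ, i < n → ∀ e : ℕ, e ≤ b → e + b * i ≤ X := by
    intro i hi e he
    have : b * (i + 1) ≤ b * n := Nat.mul_le_mul_left b hi
    nlinarith
  refine ⟨G.image f, ?_, ?_⟩
  · intro v hv
    obtain ⟨p, hp, rfl⟩ := mem_image.mp hv
    obtain ⟨hpQ, hcop⟩ := mem_filter.mp hp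
    obtain ⟨hp1, hp2⟩ := mem_product.mp hpQ
    rw [mem_range] at hp1 hp2
    refine ⟨?_, hle _ hp1 c hcb, ?_, hle _ hp2 d hdb, hcop, ?_, ?_⟩
    · show 1 ≤ c + b * p.1
      omega
    · show 1 ≤ d + b * p.2
      omega
    · have : ((c + b * p.1 : ℕ) : ℤ) - a = ((c : ℤ) - a) + (b : ℤ) * p.1 := by push_cast; ring
      show (b : ℤ) ∣ ((c + b * p.1 : ℕ) : ℤ) - a
      rw [this]
      exact dvd_add hca (dvd_mul_right _ _)
    · have : ((d + b * p.2 : ℕ) : ℤ) - y0 = ((d : ℤ) - y0) + (b : ℤ) * p.2 := by push_cast; ring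
      show (b : ℤ) ∣ ((d + b * p.2 : ℕ) : ℤ) - y0
      rw [this]
      exact dvd_add hdy (dvd_mul_right _ _)
  · rw [card_image_of_injective _ hf]
    -- the bad pairs
    let B : Finset (ℕ × ℕ) := Q.filter (fun p => ¬ (c + b * p.1).Coprime (d + b * p.2))
    have hGB : G.card + B.card = n ^ 2 := by
      have := Finset.card_filter_add_card_filter_not (s := Q) (fun p : ℕ × ℕ => (c + b * p.1).Coprime (d + b * p.2))
      have hQ : Q.card = n ^ 2 := by
        simp only [Q, card_product, card_range]; ring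
      rw [hQ] at this
      exact this
    let L : Finset ℕ := (Icc 2 X).filter (fun l => l.Prime ∧ ¬ l ∣ b)
    let T : ℕ → Finset (ℕ × ℕ) := fun l =>
      ((range n).filter (fun i => l ∣ c + b * i)) ×ˢ ((range n).filter (fun i => l ∣ d + b * i))
    have hBT : B ⊆ L.biUnion T := by
      intro p hp
      obtain ⟨hpQ, hcop⟩ := mem_filter.mp hp
      obtain ⟨hp1, hp2⟩ := mem_product.mp hpQ
      obtain ⟨l, hl, hl1, hl2⟩ := Nat.Prime.not_coprime_iff_dvd.mp hcop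
      refine mem_biUnion.mpr ⟨l, ?_, ?_⟩
      · refine mem_filter.mpr ⟨mem_Icc.mpr ⟨hl.two_le, ?_⟩, hl, ?_⟩
        · exact (Nat.le_of_dvd (by omega) hl1).trans (hle _ (mem_range.mp hp1) c hcb)
        · intro hlb
          refine h l hl ⟨?_, ?_, hlb⟩
          · have e1 : (l : ℤ) ∣ (b : ℤ) := by exact_mod_cast hlb
            have e2 : (l : ℤ) ∣ ((c + b * p.1 : ℕ) : ℤ) := by exact_mod_cast hl1
            have e3 := dvd_sub (dvd_sub e2 (e1.mul_right (p.1 : ℤ))) (e1.trans hca)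
            have e4 : ((c + b * p.1 : ℕ) : ℤ) - (b : ℤ) * (p.1 : ℤ) - ((c : ℤ) - a) = a := by push_cast; ring
            rwa [e4] at e3
          · have e1 : (l : ℤ) ∣ (b : ℤ) := by exact_mod_cast hlb
            have e2 : (l : ℤ) ∣ ((d + b * p.2 : ℕ) : ℤ) := by exact_mod_cast hl2
            have e3 := dvd_sub (dvd_sub e2 (e1.mul_right (p.2 : ℤ))) (e1.trans hdy)
            have e4 : ((d + b * p.2 : ℕ) : ℤ) - (b : ℤ) * (p.2 : ℤ) - ((d : ℤ) - y0) = y0 := by push_cast; ring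
            rwa [e4] at e3
      · exact mem_product.mpr ⟨mem_filter.mpr ⟨hp1, hl1⟩, mem_filter.mpr ⟨hp2, hl2⟩⟩
    have hBcard : (B.card : ℝ) ≤ ∑ l ∈ L, ((T l).card : ℝ) := by
      have h1 := (Finset.card_le_card hBT).trans Finset.card_biUnion_le
      have h2 : (B.card : ℝ) ≤ ((∑ l ∈ L, (T l).card : ℕ) : ℝ) := by exact_mod_cast h1
      rwa [Nat.cast_sum] at h2
    have hT : ∀ l ∈ L, ((T l).card : ℝ) ≤ (7 / 6 : ℝ) * n ^ 2 * (1 / (l : ℝ) ^ 2) + 7 := by
      intro l hl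
      obtain ⟨hl1, hl2, hl3⟩ := mem_filter.mp hl
      have hl0 : (0 : ℝ) < l := by exact_mod_cast hl2.pos
      have e1 := SmC_cnt b l n c hl2 hl3
      have e2 := SmC_cnt b l n d hl2 hl3
      have e3 : ((T l).card : ℝ) ≤ ((n : ℝ) / l + 1) ^ 2 := by
        simp only [T, card_product, Nat.cast_mul]
        rw [pow_two]
        exact mul_le_mul e1 e2 (Nat.cast_nonneg _) (by positivity)
      refine e3.trans ?_
      have e4 : (7 / 6 : ℝ) * n ^ 2 * (1 / (l : ℝ) ^ 2) = (7 / 6 : ℝ) * ((n : ℝ) / l) ^ 2 := by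
        field_simp
      rw [e4]
      nlinarith [sq_nonneg ((n : ℝ) / l - 6)]
    have hsum : ∑ l ∈ L, ((T l).card : ℝ) ≤ (7 / 8 : ℝ) * n ^ 2 + 7 * X := by
      calc ∑ l ∈ L, ((T l).card : ℝ) ≤ ∑ l ∈ L, ((7 / 6 : ℝ) * n ^ 2 * (1 / (l : ℝ) ^ 2) + 7) := Finset.sum_le_sum hT
        _ ≤ ∑ l ∈ Icc 2 X, ((7 / 6 : ℝ) * n ^ 2 * (1 / (l : ℝ) ^ 2) + 7) := by
            refine Finset.sum_le_sum_of_subset_of_nonneg (Finset.filter_subset _ _) ?_
            intro i _ _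
            positivity
        _ = (7 / 6 : ℝ) * n ^ 2 * ∑ l ∈ Icc 2 X, (1 / (l : ℝ) ^ 2) + ((Icc 2 X).card : ℝ) * 7 := by
            rw [Finset.sum_add_distrib, ← Finset.mul_sum, Finset.sum_const, nsmul_eq_mul]
        _ ≤ (7 / 8 : ℝ) * n ^ 2 + 7 * X := by
            have e1 := SmC_sum X hX2
            have e2 : (0 : ℝ) ≤ 1 / (X : ℝ) := by positivity
            have e3 : ((Icc 2 X).card : ℝ) ≤ X := by
              rw [Nat.card_Icc]
              have : X + 1 - 2 ≤ X := by omega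
              exact_mod_cast this
            have e4 : (7 / 6 : ℝ) * n ^ 2 * ∑ l ∈ Icc 2 X, (1 / (l : ℝ) ^ 2) ≤ (7 / 6 : ℝ) * n ^ 2 * (3 / 4) :=
              mul_le_mul_of_nonneg_left (by linarith) (by positivity)
            linarith
    have hGBR : (G.card : ℝ) + (B.card : ℝ) = (n : ℝ) ^ 2 := by exact_mod_cast hGB
    have hnR : 224 * (b : ℝ) ≤ n := by exact_mod_cast hn224
    have hXR : (X : ℝ) ≤ b * ((n : ℝ) + 1) := by exact_mod_cast hXn.le
    have hn1 : (1 : ℝ) ≤ n := by linarith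
    have hX' : (X : ℝ) ≤ 2 * b * n := by nlinarith
    have h7 : 7 * (X : ℝ) ≤ (1 / 16) * (n : ℝ) ^ 2 := by nlinarith
    have h8 : (1 / 16) * (n : ℝ) ^ 2 ≤ (G.card : ℝ) := by linarith
    refine le_trans ?_ h8
    rw [div_mul_eq_mul_div, one_mul, div_le_iff₀ (by positivity)]
    have h9 : (X : ℝ) ^ 2 ≤ (2 * b * n) ^ 2 := by
      exact pow_le_pow_left₀ (Nat.cast_nonneg _) hX' 2
    nlinarith

end FD
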