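import Pool.Agent.Lib.MP_9b5ce2_ntD.SmS

/-! The sum of the numbers of divisors of `x ^ 4 + y ^ 4`.

`C` from `rr_sums`.  `tau_le`: `τ(n) ≤ 2 #{d ∣ n : d ^ 2 ≤ n}`: the divisors `d` with `d ^ 2 > n` are `n / d'` with `d' ^ 2 ≤ n`.  For `v ∈ P`: `n = v.1 ^ 4 + v.2 ^ 4 ≤ 2 X ^ 4 ≤ (2 X ^ 2) ^ 2`, so `τ(n) ≤ 2 #{d ∈ Icc 1 (2 X ^ 2) : d ∣ n}`.
Interchange: `∑_{v ∈ P} τ ≤ 2 ∑_{d ≤ 2 X ^ 2} #{v ∈ P : d ∣ v.1 ^ 4 + v.2 ^ 4} ≤ 2 ∑_{d ≤ 2 X ^ 2} rr d (8 X ^ 2 / d + 8)` by `count_d` (image of the filtered set under `(a, b) ↦ ((a : ℤ), (b : ℤ))`; `Nat.isCoprime_iff_coprime`)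
`≤ 16 X ^ 2 C (1 + log (2 X ^ 2)) + 16 C (2 X ^ 2)` (`rr_sums`) `≤ C' X ^ 2 log X` (`X ≥ 2`: `log 2 ≥ 1/2` (`Real.log_two_gt_d9`), `log (2 X ^ 2) = log 2 + 2 log X ≤ 3 log X`, `1 ≤ 2 log X`). -/

namespace FD

open Finset NumberField

theorem tau_le (n : ℕ) (hn : 1 ≤ n) : n.divisors.card ≤ 2 * (n.divisors.filter fun d => d ^ 2 ≤ n).card := by
  have h1 : (n.divisors.filter fun d => d ^ 2 ≤ n).card + (n.divisors.filter fun d => ¬ d ^ 2 ≤ n).card =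
      n.divisors.card := Finset.card_filter_add_card_filter_not _
  have h2 : (n.divisors.filter fun d => ¬ d ^ 2 ≤ n).card ≤ (n.divisors.filter fun d => d ^ 2 ≤ n).card := by
    refine Finset.card_le_card_of_injOn (fun d => n / d) ?_ ?_
    · intro d hd
      rw [Finset.mem_coe, Finset.mem_filter, Nat.mem_divisors] at hd
      obtain ⟨⟨hd1, hd2⟩, hd3⟩ := hd
      obtain ⟨e, he⟩ := hd1
      have hd0 : 0 < d := by
        rcases Nat.eq_zero_or_pos d with h | h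
        · rw [h, zero_mul] at he
          exact absurd he hd2
        · exact h
      have h3 : n / d = e := by
        rw [he]
        exact Nat.mul_div_cancel_left e hd0
      have h4 : e < d := by
        by_contra hc
        push Not at hc
        apply hd3
        rw [he, pow_two]
        exact Nat.mul_le_mul_left d hc
      rw [Finset.mem_coe, Finset.mem_filter, Nat.mem_divisors]
      dsimp only
      rw [h3]
      refine ⟨⟨⟨d, by rw [he, mul_comm]⟩, hd2⟩, ?_⟩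
      rw [he, pow_two]
      exact Nat.mul_le_mul_right e h4.le
    · intro d hd d' hd' h
      rw [Finset.mem_coe, Finset.mem_filter, Nat.mem_divisors] at hd hd'
      dsimp only at h
      have h5 := Nat.div_mul_cancel hd.1.1
      have h6 := Nat.div_mul_cancel hd'.1.1
      have h7 : 0 < n / d := Nat.div_pos (Nat.le_of_dvd hn hd.1.1) (Nat.pos_of_dvd_of_pos hd.1.1 hn)
      rw [← h] at h6
      exact Nat.eq_of_mul_eq_mul_left h7 (h5.trans h6.symm)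
  omega

theorem SmD_card (X : ℕ) (hX : 2 ≤ X) (P : Finset (ℕ × ℕ))
    (hP : ∀ v ∈ P, 1 ≤ v.1 ∧ v.1 ≤ X ∧ 1 ≤ v.2 ∧ v.2 ≤ X ∧ v.1.Coprime v.2) (d : ℕ) (hd : 1 ≤ d) :
    (((P.filter fun v => d ∣ v.1 ^ 4 + v.2 ^ 4).card : ℕ) : ℝ) ≤ rr d * (8 * (X : ℝ) ^ 2 / d + 8) := by
  have hX0 : (0 : ℝ) < (X : ℝ) := by
    have : 0 < X := by omega
    exact_mod_cast this
  have hinj : Function.Injective (fun v : ℕ × ℕ => ((v.1 : ℤ), (v.2 : ℤ))) := by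
    rintro ⟨a, b⟩ ⟨a', b'⟩ h
    simp only [Prod.mk.injEq, Nat.cast_inj] at h
    rw [h.1, h.2]
  have h1 := count_d d hd (X : ℝ) hX0
    ((P.filter fun v => d ∣ v.1 ^ 4 + v.2 ^ 4).image (fun v : ℕ × ℕ => ((v.1 : ℤ), (v.2 : ℤ))))
    (by
      intro w hw
      obtain ⟨v, hv, rfl⟩ := Finset.mem_image.mp hw
      rw [Finset.mem_filter] at hv
      obtain ⟨a1, a2, a3, a4, a5⟩ := hP v hv.1
      refine ⟨Nat.isCoprime_iff_coprime.mpr a5, ?_, ?_⟩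
      · dsimp only
        rw [Int.cast_natCast, abs_of_nonneg (Nat.cast_nonneg _)]
        exact_mod_cast a2
      · dsimp only
        rw [Int.cast_natCast, abs_of_nonneg (Nat.cast_nonneg _)]
        exact_mod_cast a4)
    (by
      intro w hw
      obtain ⟨v, hv, rfl⟩ := Finset.mem_image.mp hw
      rw [Finset.mem_filter] at hv
      dsimp only
      have := hv.2
      exact_mod_cast this)
  rw [Finset.card_image_of_injective _ hinj] at h1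
  exact h1

theorem SmD_tau (X : ℕ) (a b : ℕ) (ha : 1 ≤ a) (haX : a ≤ X) (hbX : b ≤ X) :
    (a ^ 4 + b ^ 4).divisors.card ≤
      2 * ((Finset.Icc 1 (2 * X ^ 2)).filter fun d => d ∣ a ^ 4 + b ^ 4).card := by
  have hn : 1 ≤ a ^ 4 + b ^ 4 := le_trans (Nat.one_le_pow 4 a ha) (Nat.le_add_right _ _)
  refine (tau_le _ hn).trans (Nat.mul_le_mul_left 2 (Finset.card_le_card ?_))
  intro d hd
  rw [Finset.mem_filter, Nat.mem_divisors] at hd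
  obtain ⟨⟨h1, h2⟩, h3⟩ := hd
  rw [Finset.mem_filter, Finset.mem_Icc]
  refine ⟨⟨Nat.pos_of_dvd_of_pos h1 hn, ?_⟩, h1⟩
  have h4 : a ^ 4 ≤ X ^ 4 := Nat.pow_le_pow_left haX 4
  have h5 : b ^ 4 ≤ X ^ 4 := Nat.pow_le_pow_left hbX 4
  have h6 : d ^ 2 ≤ (2 * X ^ 2) ^ 2 := by nlinarith
  exact (Nat.pow_le_pow_iff_left (by norm_num)).mp h6

theorem div_sum : ∃ C : ℝ, 0 < C ∧ ∀ X : ℕ, 2 ≤ X → ∀ P : Finset (ℕ × ℕ),
    (∀ v ∈ P, 1 ≤ v.1 ∧ v.1 ≤ X ∧ 1 ≤ v.2 ∧ v.2 ≤ X ∧ v.1.Coprime v.2) →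
    ∑ v ∈ P, ((v.1 ^ 4 + v.2 ^ 4).divisors.card : ℝ) ≤ C * (X : ℝ) ^ 2 * Real.log X := by
  obtain ⟨C, hC, hs⟩ := rr_sums
  refine ⟨144 * C, by positivity, ?_⟩
  intro X hX P hP
  have hX0 : (0 : ℝ) < (X : ℝ) := by
    have : 0 < X := by omega
    exact_mod_cast this
  have hX2 : (2 : ℝ) ≤ (X : ℝ) := by exact_mod_cast hX
  have hDn : 1 ≤ 2 * X ^ 2 := by
    have := Nat.one_le_pow 2 X (by omega)
    omega
  obtain ⟨s1, s2, -⟩ := hs (2 * X ^ 2) hDn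
  have hDc : ((2 * X ^ 2 : ℕ) : ℝ) = 2 * (X : ℝ) ^ 2 := by push_cast; ring
  rw [hDc] at s1 s2
  have e1 : ∑ v ∈ P, ((v.1 ^ 4 + v.2 ^ 4).divisors.card : ℝ) ≤
      ∑ v ∈ P, 2 * ((((Finset.Icc 1 (2 * X ^ 2)).filter fun d => d ∣ v.1 ^ 4 + v.2 ^ 4).card : ℕ) : ℝ) := by
    refine Finset.sum_le_sum fun v hv => ?_
    obtain ⟨a1, a2, a3, a4, a5⟩ := hP v hv
    have := SmD_tau X v.1 v.2 a1 a2 a4
    exact_mod_cast this
  have e2 : ∑ v ∈ P, ((Finset.Icc 1 (2 * X ^ 2)).filter fun d => d ∣ v.1 ^ 4 + v.2 ^ 4).card =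
      ∑ d ∈ Finset.Icc 1 (2 * X ^ 2), (P.filter fun v => d ∣ v.1 ^ 4 + v.2 ^ 4).card := by
    simp only [Finset.card_filter]
    exact Finset.sum_comm
  have e3 : ∑ d ∈ Finset.Icc 1 (2 * X ^ 2), (((P.filter fun v => d ∣ v.1 ^ 4 + v.2 ^ 4).card : ℕ) : ℝ) ≤
      ∑ d ∈ Finset.Icc 1 (2 * X ^ 2), (rr d : ℝ) * (8 * (X : ℝ) ^ 2 / d + 8) :=
    Finset.sum_le_sum fun d hd => SmD_card X hX P hP d (Finset.mem_Icc.mp hd).1
  have e4 : ∑ d ∈ Finset.Icc 1 (2 * X ^ 2), (rr d : ℝ) * (8 * (X : ℝ) ^ 2 / d + 8) =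
      8 * (X : ℝ) ^ 2 * ∑ d ∈ Finset.Icc 1 (2 * X ^ 2), (rr d : ℝ) * (1 / (d : ℝ)) +
        8 * ((∑ d ∈ Finset.Icc 1 (2 * X ^ 2), rr d : ℕ) : ℝ) := by
    rw [Nat.cast_sum, Finset.mul_sum, Finset.mul_sum, ← Finset.sum_add_distrib]
    refine Finset.sum_congr rfl fun d _ => ?_
    ring
  have e5 : ∑ v ∈ P, 2 * ((((Finset.Icc 1 (2 * X ^ 2)).filter fun d => d ∣ v.1 ^ 4 + v.2 ^ 4).card : ℕ) : ℝ) =
      2 * ∑ d ∈ Finset.Icc 1 (2 * X ^ 2), (((P.filter fun v => d ∣ v.1 ^ 4 + v.2 ^ 4).card : ℕ) : ℝ) := by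
    rw [← Finset.mul_sum, ← Nat.cast_sum, ← Nat.cast_sum, e2]
  have l2 : (1 : ℝ) / 2 ≤ Real.log 2 := by
    have := Real.log_two_gt_d9
    linarith
  have lX : Real.log 2 ≤ Real.log X := Real.log_le_log (by norm_num) hX2
  have lD : Real.log (2 * (X : ℝ) ^ 2) = Real.log 2 + 2 * Real.log X := by
    rw [Real.log_mul (by norm_num) (by positivity), Real.log_pow]
    push_cast
    ring
  rw [lD] at s2
  have hXX : (0 : ℝ) < (X : ℝ) ^ 2 := by positivity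
  have e6 : 8 * (X : ℝ) ^ 2 * ∑ d ∈ Finset.Icc 1 (2 * X ^ 2), (rr d : ℝ) * (1 / (d : ℝ)) ≤
      8 * (X : ℝ) ^ 2 * (C * (1 + (Real.log 2 + 2 * Real.log X))) :=
    mul_le_mul_of_nonneg_left s2 (by positivity)
  have e7 : 8 * (X : ℝ) ^ 2 * (C * (1 + (Real.log 2 + 2 * Real.log X))) ≤
      8 * (X : ℝ) ^ 2 * (C * (5 * Real.log X)) := by
    refine mul_le_mul_of_nonneg_left (mul_le_mul_of_nonneg_left ?_ hC.le) (by positivity)
    linarith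
  have e8 : C * (2 * (X : ℝ) ^ 2) ≤ 4 * C * (X : ℝ) ^ 2 * Real.log X := by
    have h : 0 < C * (X : ℝ) ^ 2 := by positivity
    have : C * (X : ℝ) ^ 2 * (1 / 2) ≤ C * (X : ℝ) ^ 2 * Real.log X :=
      mul_le_mul_of_nonneg_left (l2.trans lX) h.le
    linarith
  calc ∑ v ∈ P, ((v.1 ^ 4 + v.2 ^ 4).divisors.card : ℝ)
      ≤ 2 * (8 * (X : ℝ) ^ 2 * ∑ d ∈ Finset.Icc 1 (2 * X ^ 2), (rr d : ℝ) * (1 / (d : ℝ)) +
        8 * ((∑ d ∈ Finset.Icc 1 (2 * X ^ 2), rr d : ℕ) : ℝ)) := by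
        rw [← e4]
        refine e1.trans ?_
        rw [e5]
        exact mul_le_mul_of_nonneg_left e3 (by norm_num)
    _ ≤ 2 * (8 * (X : ℝ) ^ 2 * (C * (5 * Real.log X)) + 8 * (4 * C * (X : ℝ) ^ 2 * Real.log X)) := by
        linarith [e6, e7, e8, s1]
    _ = 144 * C * (X : ℝ) ^ 2 * Real.log X := by ring

end FD
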