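import Mathlib

/-! A number `n` has at most `τ(n)` representations as a sum of two coprime positive fourth powers.

If `P` is empty there is nothing to prove.  Fix `(x, y) ∈ P`; `X = x ^ 2`, `Y = y ^ 2` (integers), `X ^ 2 + Y ^ 2 = n`.  If `n` is even then `x, y` are odd and `n ≡ 2 mod 4`; put `n' = n` (`n` odd) or `n' = n / 2` (`n` even): `n'` is odd.
For `v = (u, w) ∈ P` let `U = u ^ 2`, `W = w ^ 2`, `d v = gcd (n', U Y - W X)`, `e v = gcd (n', U Y + W X)`.  `(U Y) ^ 2 - (W X) ^ 2 = n (Y ^ 2 - W ^ 2)` is divisible by `n'`, so `n' ∣ d e`.  `d, e` are coprime: a common prime `l` is odd, divides `2 U Y`, so `l ∣ U` or `l ∣ Y`; `l ∣ n = U ^ 2 + W ^ 2 = X ^ 2 + Y ^ 2` then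
gives `l ∣ U, W` or `l ∣ X, Y`, a contradiction.  So `d e ∣ n'` and `d e = n'`.
The map `v ↦ d v` from `P` to the divisors of `n'` (which are divisors of `n`) is injective: let `d v = d v'`, `v' = (u', w')`, `U' = u' ^ 2`, `W' = w' ^ 2`; then also `e v = n' / d v = e v'`.  Modulo `d`: `U Y = W X`, `U' Y = W' X`, so `X (U W' - U' W) = U (W' X) - U' (W X) = U U' Y - U' U Y = 0`; modulo `e` in the same way
(`U Y = - W X`, `U' Y = - W' X`).  So `n' ∣ X (U W' - U' W)`, and `gcd (n', X) = 1`, so `n' ∣ U W' - U' W`; if `n` is even all of `U, W, U', W'` are odd, so `U W' - U' W` is even and (as `n'` is odd) `n ∣ U W' - U' W`.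
Since `U ^ 2 < n`, `W' ^ 2 < n`, ...: `0 ≤ U W' < n`, `0 ≤ U' W < n`, so `U W' = U' W`; `U, W` and `U', W'` are coprime and positive, so `U = U'`, `W = W'`, `u = u'`, `w = w'`. -/

namespace FD

open Finset

private lemma smp_dvd (m U W X Y : ℤ) (n : ℤ) (hm : m ∣ n) (h1 : U ^ 2 + W ^ 2 = n) (h2 : X ^ 2 + Y ^ 2 = n) :
    m ∣ (U * Y - W * X) * (U * Y + W * X) := by
  have : (U * Y - W * X) * (U * Y + W * X) = n * (U ^ 2 - X ^ 2) := by
    have h3 : W ^ 2 = n - U ^ 2 := by linarith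
    have h4 : Y ^ 2 = n - X ^ 2 := by linarith
    calc (U * Y - W * X) * (U * Y + W * X) = U ^ 2 * Y ^ 2 - W ^ 2 * X ^ 2 := by ring
      _ = n * (U ^ 2 - X ^ 2) := by rw [h3, h4]; ring
  rw [this]
  exact Dvd.dvd.mul_right hm _

private lemma smp_prime (l : ℕ) (hl : l.Prime) (U W : ℤ) (n : ℤ) (hn : (l : ℤ) ∣ n) (h1 : U ^ 2 + W ^ 2 = n)
    (hc : IsCoprime U W) (hU : (l : ℤ) ∣ U) : False := by
  have hp : Prime (l : ℤ) := Nat.prime_iff_prime_int.mp hl
  have hW : (l : ℤ) ∣ W := by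
    have : (l : ℤ) ∣ W ^ 2 := by
      have e : W ^ 2 = n - U ^ 2 := by linarith
      rw [e]
      exact dvd_sub hn (Dvd.dvd.pow hU (by norm_num))
    exact hp.dvd_of_dvd_pow this
  exact hp.not_isUnit (hc.isUnit_of_dvd' hU hW)

/-- the two greatest common divisors -/
private lemma smp_mul (m : ℕ) (n U W X Y : ℤ) (hodd : Odd m) (hmn : (m : ℤ) ∣ n)
    (h1 : U ^ 2 + W ^ 2 = n) (h2 : X ^ 2 + Y ^ 2 = n) (hUW : IsCoprime U W) (hXY : IsCoprime X Y) :
    Nat.Coprime (Int.gcd m (U * Y - W * X)) (Int.gcd m (U * Y + W * X)) ∧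
      Int.gcd m (U * Y - W * X) * Int.gcd m (U * Y + W * X) = m := by
  have hco : Nat.Coprime (Int.gcd m (U * Y - W * X)) (Int.gcd m (U * Y + W * X)) := by
    by_contra hne
    obtain ⟨l, hl, hl1, hl2⟩ := Nat.Prime.not_coprime_iff_dvd.mp hne
    have hp : Prime (l : ℤ) := Nat.prime_iff_prime_int.mp hl
    have a1 : (l : ℤ) ∣ (m : ℤ) := by
      have := Int.gcd_dvd_left (a := (m : ℤ)) (b := U * Y - W * X)
      exact dvd_trans (by exact_mod_cast hl1) this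
    have a2 : (l : ℤ) ∣ U * Y - W * X := by
      have := Int.gcd_dvd_right (a := (m : ℤ)) (b := U * Y - W * X)
      exact dvd_trans (by exact_mod_cast hl1) this
    have a3 : (l : ℤ) ∣ U * Y + W * X := by
      have := Int.gcd_dvd_right (a := (m : ℤ)) (b := U * Y + W * X)
      exact dvd_trans (by exact_mod_cast hl2) this
    have a4 : (l : ℤ) ∣ 2 * (U * Y) := by
      have : 2 * (U * Y) = (U * Y - W * X) + (U * Y + W * X) := by ring
      rw [this]
      exact dvd_add a2 a3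
    have hl2' : ¬ (l : ℤ) ∣ 2 := by
      intro h
      have h' : l ∣ 2 := by exact_mod_cast h
      have hl2 : l = 2 := (Nat.prime_dvd_prime_iff_eq hl Nat.prime_two).mp h'
      subst hl2
      have : (2 : ℕ) ∣ m := by exact_mod_cast a1
      exact (Nat.not_even_iff_odd.mpr hodd) (even_iff_two_dvd.mpr this)
    have a5 : (l : ℤ) ∣ U * Y := (hp.dvd_or_dvd a4).resolve_left hl2'
    have hln : (l : ℤ) ∣ n := dvd_trans a1 hmn
    rcases hp.dvd_or_dvd a5 with h | h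
    · exact smp_prime l hl U W n hln h1 hUW h
    · exact smp_prime l hl Y X n hln (by linarith) hXY.symm h
  refine ⟨hco, ?_⟩
  have hd1 : Int.gcd m (U * Y - W * X) ∣ m := by
    have := Int.gcd_dvd_left (a := (m : ℤ)) (b := U * Y - W * X)
    exact_mod_cast this
  have hd2 : Int.gcd m (U * Y + W * X) ∣ m := by
    have := Int.gcd_dvd_left (a := (m : ℤ)) (b := U * Y + W * X)
    exact_mod_cast this
  apply Nat.dvd_antisymm
  · exact Nat.Coprime.mul_dvd_of_dvd_of_dvd hco hd1 hd2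
  · have h3 := smp_dvd m U W X Y n hmn h1 h2
    have h4 : m ∣ (U * Y - W * X).natAbs * (U * Y + W * X).natAbs := by
      rw [← Int.natAbs_mul]
      have := Int.natAbs_dvd_natAbs.mpr h3
      simpa using this
    have h5 : Nat.gcd m ((U * Y - W * X).natAbs * (U * Y + W * X).natAbs) = m := Nat.gcd_eq_left h4
    have h6 := Nat.gcd_mul_right_dvd_mul_gcd m (U * Y - W * X).natAbs (U * Y + W * X).natAbs
    rw [h5] at h6
    simpa [Int.gcd] using h6

private lemma smp_inj (m : ℕ) (n U W X Y U' W' : ℤ) (hodd : Odd m) (hmn : (m : ℤ) ∣ n)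
    (h1 : U ^ 2 + W ^ 2 = n) (h1' : U' ^ 2 + W' ^ 2 = n) (h2 : X ^ 2 + Y ^ 2 = n) (hUW : IsCoprime U W)
    (hUW' : IsCoprime U' W') (hXY : IsCoprime X Y)
    (hd : Int.gcd m (U * Y - W * X) = Int.gcd m (U' * Y - W' * X)) :
    (m : ℤ) ∣ U * W' - U' * W := by
  obtain ⟨c1, p1⟩ := smp_mul m n U W X Y hodd hmn h1 h2 hUW hXY
  obtain ⟨c2, p2⟩ := smp_mul m n U' W' X Y hodd hmn h1' h2 hUW' hXY
  have hm0 : 0 < m := hodd.pos
  have hD0 : 0 < Int.gcd m (U * Y - W * X) := by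
    rcases Nat.eq_zero_or_pos (Int.gcd m (U * Y - W * X)) with h | h
    · rw [h] at p1; omega
    · exact h
  have he : Int.gcd m (U * Y + W * X) = Int.gcd m (U' * Y + W' * X) := by
    rw [← hd] at p2
    exact Nat.eq_of_mul_eq_mul_left hD0 (p1.trans p2.symm)
  have k1 : ((Int.gcd m (U * Y - W * X) : ℕ) : ℤ) ∣ X * (U * W' - U' * W) := by
    have a1 : ((Int.gcd m (U * Y - W * X) : ℕ) : ℤ) ∣ U * Y - W * X := Int.gcd_dvd_right _ _
    have a2 : ((Int.gcd m (U * Y - W * X) : ℕ) : ℤ) ∣ U' * Y - W' * X := by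
      rw [hd]; exact Int.gcd_dvd_right _ _
    have e : X * (U * W' - U' * W) = U' * (U * Y - W * X) - U * (U' * Y - W' * X) := by ring
    rw [e]
    exact dvd_sub (Dvd.dvd.mul_left a1 _) (Dvd.dvd.mul_left a2 _)
  have k2 : ((Int.gcd m (U * Y + W * X) : ℕ) : ℤ) ∣ X * (U * W' - U' * W) := by
    have a1 : ((Int.gcd m (U * Y + W * X) : ℕ) : ℤ) ∣ U * Y + W * X := Int.gcd_dvd_right _ _
    have a2 : ((Int.gcd m (U * Y + W * X) : ℕ) : ℤ) ∣ U' * Y + W' * X := by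
      rw [he]; exact Int.gcd_dvd_right _ _
    have e : X * (U * W' - U' * W) = U * (U' * Y + W' * X) - U' * (U * Y + W * X) := by ring
    rw [e]
    exact dvd_sub (Dvd.dvd.mul_left a2 _) (Dvd.dvd.mul_left a1 _)
  have c1' : IsCoprime ((Int.gcd m (U * Y - W * X) : ℕ) : ℤ) ((Int.gcd m (U * Y + W * X) : ℕ) : ℤ) :=
    Nat.isCoprime_iff_coprime.mpr c1
  have k3 : (m : ℤ) ∣ X * (U * W' - U' * W) := by
    have := c1'.mul_dvd k1 k2
    rw [← Nat.cast_mul, p1] at this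
    exact this
  have hX : IsCoprime (m : ℤ) X := by
    have : Nat.Coprime m X.natAbs := by
      by_contra hne
      obtain ⟨l, hl, hl1, hl2⟩ := Nat.Prime.not_coprime_iff_dvd.mp hne
      have b1 : (l : ℤ) ∣ n := dvd_trans (by exact_mod_cast hl1) hmn
      have b2 : (l : ℤ) ∣ X := Int.natCast_dvd.mpr hl2
      exact smp_prime l hl X Y n b1 h2 hXY b2
    rw [Int.isCoprime_iff_gcd_eq_one]
    simpa [Int.gcd] using this
  exact hX.dvd_of_dvd_mul_left k3

/-- the statement for two pairs of squares -/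
private lemma smp_eq (n U W U' W' : ℕ) (hn : 0 < n)
    (h1 : U ^ 2 + W ^ 2 = n) (h1' : U' ^ 2 + W' ^ 2 = n) (hU : 1 ≤ U) (hW : 1 ≤ W) (hU' : 1 ≤ U') (hW' : 1 ≤ W')
    (hUW : U.Coprime W) (hUW' : U'.Coprime W')
    (hd : (n : ℤ) ∣ (U : ℤ) * W' - U' * W) : U = U' ∧ W = W' := by
  have b1 : U * W' < n := by
    have e1 : U ^ 2 < n := by nlinarith
    have e2 : W' ^ 2 < n := by nlinarith
    have e3 : (U * W') ^ 2 < n ^ 2 := by
      calc (U * W') ^ 2 = U ^ 2 * W' ^ 2 := by ring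
        _ < n * n := Nat.mul_lt_mul'' e1 e2
        _ = n ^ 2 := by ring
    exact lt_of_pow_lt_pow_left₀ 2 (by omega) e3
  have b2 : U' * W < n := by
    have e1 : U' ^ 2 < n := by nlinarith
    have e2 : W ^ 2 < n := by nlinarith
    have e3 : (U' * W) ^ 2 < n ^ 2 := by
      calc (U' * W) ^ 2 = U' ^ 2 * W ^ 2 := by ring
        _ < n * n := Nat.mul_lt_mul'' e1 e2
        _ = n ^ 2 := by ring
    exact lt_of_pow_lt_pow_left₀ 2 (by omega) e3
  have hz : (U : ℤ) * W' - U' * W = 0 := by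
    apply Int.eq_zero_of_abs_lt_dvd hd
    have c1 : ((U * W' : ℕ) : ℤ) < n := by exact_mod_cast b1
    have c2 : ((U' * W : ℕ) : ℤ) < n := by exact_mod_cast b2
    push_cast at c1 c2
    have c3 : (0 : ℤ) ≤ U * W' := by positivity
    have c4 : (0 : ℤ) ≤ U' * W := by positivity
    rw [abs_lt]
    constructor <;> linarith
  have he : U * W' = U' * W := by
    have : (U : ℤ) * W' = U' * W := by linarith
    exact_mod_cast this
  have d1 : U ∣ U' := by
    have : U ∣ U' * W := Dvd.intro _ he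
    exact hUW.dvd_of_dvd_mul_right this
  have d2 : U' ∣ U := by
    have : U' ∣ U * W' := Dvd.intro _ he.symm
    exact hUW'.dvd_of_dvd_mul_right this
  have hE : U = U' := Nat.dvd_antisymm d1 d2
  refine ⟨hE, ?_⟩
  subst hE
  have := Nat.eq_of_mul_eq_mul_left (by omega : 0 < U) he
  exact this.symm

theorem rep_le (n : ℕ) (hn : 1 ≤ n) (P : Finset (ℕ × ℕ))
    (hP : ∀ v ∈ P, 1 ≤ v.1 ∧ 1 ≤ v.2 ∧ v.1.Coprime v.2 ∧ v.1 ^ 4 + v.2 ^ 4 = n) : P.card ≤ n.divisors.card := by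
  rcases P.eq_empty_or_nonempty with h0 | ⟨b, hb⟩
  · simp [h0]
  obtain ⟨hb1, hb2, hb3, hb4⟩ := hP b hb
  -- the odd part
  obtain ⟨m, hmodd, hmn, hlift⟩ : ∃ m : ℕ, Odd m ∧ m ∣ n ∧
      ∀ U W U' W' : ℕ, U ^ 2 + W ^ 2 = n → U' ^ 2 + W' ^ 2 = n → U.Coprime W → U'.Coprime W' →
        (m : ℤ) ∣ (U : ℤ) * W' - U' * W → (n : ℤ) ∣ (U : ℤ) * W' - U' * W := by
    rcases Nat.even_or_odd n with he | ho
    · -- even
      have key : ∀ U W : ℕ, U ^ 2 + W ^ 2 = n → U.Coprime W → Odd U ∧ Odd W := by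
        intro U W hs hc
        rcases Nat.even_or_odd U with hU | hU
        · exfalso
          have hW : Even W := by
            by_contra hW
            rw [Nat.not_even_iff_odd] at hW
            have : Odd n := by
              rw [← hs]
              exact Even.add_odd (Even.pow_of_ne_zero hU (by norm_num)) (Odd.pow hW)
            exact (Nat.not_even_iff_odd.mpr this) he
          exact Nat.not_coprime_of_dvd_of_dvd (by norm_num : 1 < 2) (even_iff_two_dvd.mp hU) (even_iff_two_dvd.mp hW) hc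
        · refine ⟨hU, ?_⟩
          by_contra hW
          rw [Nat.not_odd_iff_even] at hW
          have : Odd n := by
            rw [← hs]
            exact Odd.add_even (Odd.pow hU) (Even.pow_of_ne_zero hW (by norm_num))
          exact (Nat.not_even_iff_odd.mpr this) he
      have hbs : (b.1 ^ 2) ^ 2 + (b.2 ^ 2) ^ 2 = n := by rw [← hb4]; ring
      obtain ⟨o1, o2⟩ := key (b.1 ^ 2) (b.2 ^ 2) hbs (Nat.Coprime.pow 2 2 hb3)
      have hn4 : n % 4 = 2 := by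
        obtain ⟨a, ha⟩ := o1
        obtain ⟨c, hc⟩ := o2
        rw [← hbs, ha, hc]
        have : (2 * a + 1) ^ 2 + (2 * c + 1) ^ 2 = 4 * (a ^ 2 + a + c ^ 2 + c) + 2 := by ring
        rw [this]
        omega
      have hodd2 : Odd (n / 2) := by rw [Nat.odd_iff]; omega
      have hn2 : n = 2 * (n / 2) := by omega
      refine ⟨n / 2, hodd2, ⟨2, by omega⟩, ?_⟩
      intro U W U' W' hs hs' hc hc' hd
      obtain ⟨p1, p2⟩ := key U W hs hc
      obtain ⟨p3, p4⟩ := key U' W' hs' hc'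
      have h2 : (2 : ℤ) ∣ (U : ℤ) * W' - U' * W := by
        have q1 : Odd ((U : ℤ) * W') := by
          have : Odd (U * W') := p1.mul p4
          exact_mod_cast this
        have q2 : Odd ((U' : ℤ) * W) := by
          have : Odd (U' * W) := p3.mul p2
          exact_mod_cast this
        exact even_iff_two_dvd.mp (q1.sub_odd q2)
      have hcop : IsCoprime (2 : ℤ) ((n / 2 : ℕ) : ℤ) := by
        have : Nat.Coprime 2 (n / 2) := (Nat.coprime_two_left).mpr hodd2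
        exact_mod_cast Nat.isCoprime_iff_coprime.mpr this
      have := hcop.mul_dvd h2 hd
      have e : (n : ℤ) = 2 * ((n / 2 : ℕ) : ℤ) := by exact_mod_cast hn2
      rw [e]
      exact this
    · exact ⟨n, ho, dvd_rfl, fun _ _ _ _ _ _ _ _ h => h⟩
  have hsq : ∀ v ∈ P, (v.1 ^ 2) ^ 2 + (v.2 ^ 2) ^ 2 = n := by
    intro v hv
    obtain ⟨_, _, _, h⟩ := hP v hv
    rw [← h]; ring
  have hco : ∀ v ∈ P, Nat.Coprime (v.1 ^ 2) (v.2 ^ 2) := by
    intro v hv
    obtain ⟨_, _, h, _⟩ := hP v hv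
    exact Nat.Coprime.pow 2 2 h
  have hmn' : (m : ℤ) ∣ (n : ℤ) := by exact_mod_cast hmn
  let f : ℕ × ℕ → ℕ := fun v => Int.gcd m ((v.1 ^ 2 : ℕ) * (b.2 ^ 2 : ℕ) - (v.2 ^ 2 : ℕ) * (b.1 ^ 2 : ℕ) : ℤ)
  apply Finset.card_le_card_of_injOn f
  · intro v _
    rw [Finset.mem_coe, Nat.mem_divisors]
    refine ⟨?_, by omega⟩
    have : Int.gcd m ((v.1 ^ 2 : ℕ) * (b.2 ^ 2 : ℕ) - (v.2 ^ 2 : ℕ) * (b.1 ^ 2 : ℕ) : ℤ) ∣ m := by
      have := Int.gcd_dvd_left (a := (m : ℤ)) (b := ((v.1 ^ 2 : ℕ) * (b.2 ^ 2 : ℕ) - (v.2 ^ 2 : ℕ) * (b.1 ^ 2 : ℕ) : ℤ))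
      exact_mod_cast this
    exact dvd_trans this hmn
  · intro v hv v' hv' hvv
    rw [Finset.mem_coe] at hv hv'
    have g1 := smp_inj m (n : ℤ) ((v.1 ^ 2 : ℕ) : ℤ) ((v.2 ^ 2 : ℕ) : ℤ) ((b.1 ^ 2 : ℕ) : ℤ) ((b.2 ^ 2 : ℕ) : ℤ)
      ((v'.1 ^ 2 : ℕ) : ℤ) ((v'.2 ^ 2 : ℕ) : ℤ) hmodd hmn' (by exact_mod_cast hsq v hv) (by exact_mod_cast hsq v' hv')
      (by exact_mod_cast hsq b hb) (Nat.isCoprime_iff_coprime.mpr (hco v hv)) (Nat.isCoprime_iff_coprime.mpr (hco v' hv'))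
      (Nat.isCoprime_iff_coprime.mpr (hco b hb)) hvv
    have g2 := hlift (v.1 ^ 2) (v.2 ^ 2) (v'.1 ^ 2) (v'.2 ^ 2) (hsq v hv) (hsq v' hv') (hco v hv) (hco v' hv') g1
    obtain ⟨a1, a2, _, _⟩ := hP v hv
    obtain ⟨a3, a4, _, _⟩ := hP v' hv'
    obtain ⟨r1, r2⟩ := smp_eq n (v.1 ^ 2) (v.2 ^ 2) (v'.1 ^ 2) (v'.2 ^ 2) hn (hsq v hv) (hsq v' hv')
      (Nat.one_le_pow _ _ a1) (Nat.one_le_pow _ _ a2) (Nat.one_le_pow _ _ a3) (Nat.one_le_pow _ _ a4)
      (hco v hv) (hco v' hv') g2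
    have s1 : v.1 = v'.1 := Nat.pow_left_injective (n := 2) (by norm_num) r1
    have s2 : v.2 = v'.2 := Nat.pow_left_injective (n := 2) (by norm_num) r2
    exact Prod.ext s1 s2

end FD
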