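import Pool.Agent.Lib.MP_9b5ce2_ntD.SmU
import Pool.Agent.Lib.MP_9b5ce2_ntD.SmP
import Pool.Agent.Lib.MP_9b5ce2_ntD.SmD
import Pool.Agent.Lib.MP_9b5ce2_ntD.SmC
import Pool.Agent.Lib.MP_9b5ce2_ntD.SmK

/-! The lower bound in a residue class.

`z, b, a, y0` from `cls_small`, `κ, X0` from `cop_pairs`, `C` from `div_sum`.  `A = max z (4 C / κ ^ 2)`.  Let `X = Nat.sqrt (Nat.sqrt N)`, so `X ^ 4 ≤ N`, `√N ≤ 4 X ^ 2` (`N < (X + 1) ^ 4 ≤ (2 X) ^ 4`), and `X ≥ max X0 2` if `N` is large.  `P` from `cop_pairs`.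
For `v ∈ P` there is `c` with `v.1 ^ 4 + v.2 ^ 4 = c z ^ 4`, `m ∣ c - c0`; `c ≥ 1` and `c ≤ 2 X ^ 4 / 16 ≤ N`; it is in the set `W` on the right (with `z ≤ A`).  `f v = (v.1 ^ 4 + v.2 ^ 4) / z ^ 4` (natural division).  All the values `f v` are in `W` (a finite set).
Cauchy-Schwarz: `(#P) ^ 2 = (∑_{c ∈ f P} #fibre) ^ 2 ≤ #(f P) ∑_{c ∈ f P} (#fibre) ^ 2` (`sq_sum_le_card_mul_sum_sq`), `∑_c (#fibre) ^ 2 = ∑_{v ∈ P} #{w ∈ P : f w = f v}`, and `#{w ∈ P : f w = f v} ≤ τ(v.1 ^ 4 + v.2 ^ 4)` by `rep_le` (`w.1 ^ 4 + w.2 ^ 4 = f v z ^ 4 = v.1 ^ 4 + v.2 ^ 4`).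
So by `div_sum` `κ ^ 2 X ^ 4 ≤ #W C X ^ 2 log X`, `√N ≤ 4 X ^ 2 ≤ (4 C / κ ^ 2) log N #W`. -/

namespace FD

open Finset NumberField

private theorem SmF_cs (P : Finset (ℕ × ℕ)) (W : Finset ℕ) (f : ℕ × ℕ → ℕ) (hf : ∀ v ∈ P, f v ∈ W) :
    ((P.card : ℝ)) ^ 2 ≤ (W.card : ℝ) * ∑ v ∈ P, ((P.filter fun w => f w = f v).card : ℝ) := by
  classical
  have h1 : (P.card : ℝ) = ∑ c ∈ W, ((P.filter fun w => f w = c).card : ℝ) := by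
    rw [Finset.card_eq_sum_card_fiberwise (f := f) (t := W) (fun v hv => hf v hv)]
    push_cast
    rfl
  have h2 : (∑ c ∈ W, ((P.filter fun w => f w = c).card : ℝ)) ^ 2
      ≤ (W.card : ℝ) * ∑ c ∈ W, ((P.filter fun w => f w = c).card : ℝ) ^ 2 := sq_sum_le_card_mul_sum_sq
  have h3 : ∑ v ∈ P, ((P.filter fun w => f w = f v).card : ℝ)
      = ∑ c ∈ W, ((P.filter fun w => f w = c).card : ℝ) ^ 2 := by
    rw [← Finset.sum_fiberwise_of_maps_to (s := P) (t := W) (g := f) (fun v hv => hf v hv)]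
    refine Finset.sum_congr rfl fun c _ => ?_
    rw [Finset.sum_congr rfl (g := fun _ => ((P.filter fun w => f w = c).card : ℝ))]
    · rw [Finset.sum_const, nsmul_eq_mul, sq]
    · intro v hv
      rw [(Finset.mem_filter.1 hv).2]
  rw [h3, h1]
  exact h2

theorem low_small (c0 : ℕ) (h1 : 1 ≤ c0) (hf : ∀ p : ℕ, p.Prime → ¬ p ^ 4 ∣ c0) (h : Loc4 c0) (m : ℕ) (hm : 1 ≤ m) :
    ∃ A : ℝ, 0 < A ∧ ∃ N0 : ℕ, ∀ N : ℕ, N0 ≤ N → Real.sqrt N ≤ A * Real.log N *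
      (Nat.card {c : ℕ // 1 ≤ c ∧ c ≤ N ∧ (m : ℤ) ∣ (c : ℤ) - c0 ∧ ∃ (x y : ℤ) (z : ℕ), IsCoprime x y ∧ 1 < z ∧
        (z : ℝ) ≤ A ∧ x ^ 4 + y ^ 4 = (c : ℤ) * (z : ℤ) ^ 4} : ℝ) := by
  classical
  obtain ⟨z, b, a, y0, hz, hb, hl, hcls⟩ := cls_small c0 h1 hf h m hm
  obtain ⟨κ, hκ, X0, hX0⟩ := cop_pairs b hb a y0 hl
  obtain ⟨C, hC, hdiv⟩ := div_sum
  have hκ2 : 0 < κ ^ 2 := by positivity
  have hq : 0 < 4 * C / κ ^ 2 := by positivity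
  have hz0 : (0 : ℝ) < z := by exact_mod_cast (by omega : 0 < z)
  refine ⟨(z : ℝ) + 4 * C / κ ^ 2, by positivity, (max X0 2) ^ 4, fun N hN => ?_⟩
  set X : ℕ := Nat.sqrt (Nat.sqrt N) with hX
  have hXs : X ^ 2 ≤ Nat.sqrt N := by
    rw [sq]
    exact Nat.sqrt_le (Nat.sqrt N)
  have hX4 : X ^ 4 ≤ N := by
    calc X ^ 4 = (X ^ 2) ^ 2 := by ring
      _ ≤ (Nat.sqrt N) ^ 2 := Nat.pow_le_pow_left hXs 2
      _ ≤ N := by
        rw [sq]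
        exact Nat.sqrt_le N
  have hMX : max X0 2 ≤ X := by
    rw [hX, Nat.le_sqrt, Nat.le_sqrt]
    calc max X0 2 * max X0 2 * (max X0 2 * max X0 2) = (max X0 2) ^ 4 := by ring
      _ ≤ N := hN
  have hX0X : X0 ≤ X := le_trans (le_max_left _ _) hMX
  have hX2 : 2 ≤ X := le_trans (le_max_right _ _) hMX
  have hNlt : N < (X + 1) ^ 4 := by
    have e1 : Nat.sqrt N < (X + 1) ^ 2 := by
      rw [sq]
      exact Nat.lt_succ_sqrt (Nat.sqrt N)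
    have e2 : N < (Nat.sqrt N + 1) ^ 2 := by
      rw [sq]
      exact Nat.lt_succ_sqrt N
    calc N < (Nat.sqrt N + 1) ^ 2 := e2
      _ ≤ ((X + 1) ^ 2) ^ 2 := Nat.pow_le_pow_left e1 2
      _ = (X + 1) ^ 4 := by ring
  have hXr : (2 : ℝ) ≤ X := by exact_mod_cast hX2
  have hsN : Real.sqrt N ≤ 4 * (X : ℝ) ^ 2 := by
    have e1 : (N : ℝ) ≤ ((X : ℝ) + 1) ^ 4 := by exact_mod_cast hNlt.le
    have e2 : Real.sqrt N ≤ ((X : ℝ) + 1) ^ 2 := by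
      rw [Real.sqrt_le_left (by positivity)]
      calc (N : ℝ) ≤ ((X : ℝ) + 1) ^ 4 := e1
        _ = (((X : ℝ) + 1) ^ 2) ^ 2 := by ring
    nlinarith
  obtain ⟨P, hP, hPc⟩ := hX0 X hX0X
  set W : Finset ℕ := (Finset.Icc 1 N).filter fun c => (m : ℤ) ∣ (c : ℤ) - c0 ∧ ∃ (x y : ℤ) (z' : ℕ), IsCoprime x y ∧
    1 < z' ∧ (z' : ℝ) ≤ (z : ℝ) + 4 * C / κ ^ 2 ∧ x ^ 4 + y ^ 4 = (c : ℤ) * (z' : ℤ) ^ 4 with hW
  have hcard : (Nat.card {c : ℕ // 1 ≤ c ∧ c ≤ N ∧ (m : ℤ) ∣ (c : ℤ) - c0 ∧ ∃ (x y : ℤ) (z' : ℕ), IsCoprime x y ∧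
      1 < z' ∧ (z' : ℝ) ≤ (z : ℝ) + 4 * C / κ ^ 2 ∧ x ^ 4 + y ^ 4 = (c : ℤ) * (z' : ℤ) ^ 4}) = W.card := by
    rw [← Nat.card_eq_finsetCard W]
    refine Nat.card_congr (Equiv.subtypeEquivRight fun c => ?_)
    simp only [hW, Finset.mem_filter, Finset.mem_Icc, and_assoc]
  rw [hcard]
  have hval : ∀ v ∈ P, z ^ 4 * ((v.1 ^ 4 + v.2 ^ 4) / z ^ 4) = v.1 ^ 4 + v.2 ^ 4 ∧
      (v.1 ^ 4 + v.2 ^ 4) / z ^ 4 ∈ W := by
    intro v hv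
    obtain ⟨a1, a2, a3, a4, a5, a6, a7⟩ := hP v hv
    obtain ⟨c, hc, hmc⟩ := hcls v.1 v.2 a6 a7
    have hd : z ^ 4 ∣ v.1 ^ 4 + v.2 ^ 4 := by
      have : ((z ^ 4 : ℕ) : ℤ) ∣ ((v.1 ^ 4 + v.2 ^ 4 : ℕ) : ℤ) := by
        push_cast
        rw [hc]
        exact Dvd.intro_left c rfl
      exact_mod_cast this
    have hmul : z ^ 4 * ((v.1 ^ 4 + v.2 ^ 4) / z ^ 4) = v.1 ^ 4 + v.2 ^ 4 := Nat.mul_div_cancel' hd
    refine ⟨hmul, ?_⟩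
    set q : ℕ := (v.1 ^ 4 + v.2 ^ 4) / z ^ 4 with hqd
    have hz4 : (0 : ℤ) < (z : ℤ) ^ 4 := by
      have : (0 : ℤ) < z := by exact_mod_cast (by omega : 0 < z)
      positivity
    have hcq : (q : ℤ) = c := by
      have e : (z : ℤ) ^ 4 * (q : ℤ) = (z : ℤ) ^ 4 * c := by
        have : ((z ^ 4 * q : ℕ) : ℤ) = ((v.1 ^ 4 + v.2 ^ 4 : ℕ) : ℤ) := by rw [hmul]
        push_cast at this
        rw [this, hc]
        ring
      exact mul_left_cancel₀ hz4.ne' e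
    have hpos : 0 < v.1 ^ 4 + v.2 ^ 4 := by
      have : 0 < v.1 ^ 4 := by positivity
      omega
    have hq1 : 1 ≤ q := by
      rcases Nat.eq_zero_or_pos q with h0 | h0
      · rw [h0] at hmul
        omega
      · exact h0
    have hqN : q ≤ N := by
      have e1 : v.1 ^ 4 ≤ X ^ 4 := Nat.pow_le_pow_left a2 4
      have e2 : v.2 ^ 4 ≤ X ^ 4 := Nat.pow_le_pow_left a4 4
      have e3 : 2 ^ 4 ≤ z ^ 4 := Nat.pow_le_pow_left hz 4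
      have e4 : 2 ^ 4 * q ≤ z ^ 4 * q := Nat.mul_le_mul_right q e3
      omega
    rw [hW, Finset.mem_filter, Finset.mem_Icc]
    refine ⟨⟨hq1, hqN⟩, ?_, (v.1 : ℤ), (v.2 : ℤ), z, ?_, hz, ?_, ?_⟩
    · rw [hcq]
      exact hmc
    · exact Nat.isCoprime_iff_coprime.2 a5
    · linarith
    · rw [hcq]
      exact hc
  have hcs := SmF_cs P W (fun v => (v.1 ^ 4 + v.2 ^ 4) / z ^ 4) (fun v hv => (hval v hv).2)
  have hfib : ∑ v ∈ P, ((P.filter fun w => (w.1 ^ 4 + w.2 ^ 4) / z ^ 4 = (v.1 ^ 4 + v.2 ^ 4) / z ^ 4).card : ℝ)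
      ≤ ∑ v ∈ P, ((v.1 ^ 4 + v.2 ^ 4).divisors.card : ℝ) := by
    refine Finset.sum_le_sum fun v hv => ?_
    have hpos : 1 ≤ v.1 ^ 4 + v.2 ^ 4 := by
      have e := (hP v hv).1
      have : 0 < v.1 ^ 4 := by positivity
      omega
    have := rep_le (v.1 ^ 4 + v.2 ^ 4) hpos
      (P.filter fun w => (w.1 ^ 4 + w.2 ^ 4) / z ^ 4 = (v.1 ^ 4 + v.2 ^ 4) / z ^ 4) (fun w hw => by
        obtain ⟨hw1, hw2⟩ := Finset.mem_filter.1 hw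
        obtain ⟨a1, a2, a3, a4, a5, a6, a7⟩ := hP w hw1
        refine ⟨a1, a3, a5, ?_⟩
        rw [← (hval w hw1).1, ← (hval v hv).1, hw2])
    exact_mod_cast this
  have hds := hdiv X hX2 P (fun v hv => by
    obtain ⟨a1, a2, a3, a4, a5, a6, a7⟩ := hP v hv
    exact ⟨a1, a2, a3, a4, a5⟩)
  have hlogX : 0 < Real.log X := Real.log_pos (by linarith)
  have hXN : (X : ℝ) ≤ N := by
    have : X ≤ N := le_trans (Nat.le_self_pow (by norm_num) X) hX4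
    exact_mod_cast this
  have hlogN : Real.log X ≤ Real.log N := Real.log_le_log (by linarith) hXN
  have hW0 : (0 : ℝ) ≤ W.card := by positivity
  have hmain : κ ^ 2 * (X : ℝ) ^ 4 ≤ (W.card : ℝ) * (C * (X : ℝ) ^ 2 * Real.log X) := by
    calc κ ^ 2 * (X : ℝ) ^ 4 = (κ * (X : ℝ) ^ 2) ^ 2 := by ring
      _ ≤ (P.card : ℝ) ^ 2 := by
        apply pow_le_pow_left₀ (by positivity) hPc
      _ ≤ _ := hcs
      _ ≤ (W.card : ℝ) * (C * (X : ℝ) ^ 2 * Real.log X) := by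
        exact mul_le_mul_of_nonneg_left (le_trans hfib hds) hW0
  have hX2pos : (0 : ℝ) < (X : ℝ) ^ 2 := by positivity
  have hmain2 : κ ^ 2 * (X : ℝ) ^ 2 ≤ (W.card : ℝ) * (C * Real.log X) := by
    have e : (κ ^ 2 * (X : ℝ) ^ 2) * (X : ℝ) ^ 2 ≤ ((W.card : ℝ) * (C * Real.log X)) * (X : ℝ) ^ 2 := by
      calc (κ ^ 2 * (X : ℝ) ^ 2) * (X : ℝ) ^ 2 = κ ^ 2 * (X : ℝ) ^ 4 := by ring
        _ ≤ _ := hmain
        _ = _ := by ring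
    exact le_of_mul_le_mul_right e hX2pos
  have hmain3 : (X : ℝ) ^ 2 ≤ (W.card : ℝ) * (C * Real.log X) / κ ^ 2 := by
    rw [le_div_iff₀ hκ2]
    linarith
  have hlogN0 : 0 < Real.log N := lt_of_lt_of_le hlogX hlogN
  calc Real.sqrt N ≤ 4 * (X : ℝ) ^ 2 := hsN
    _ ≤ 4 * ((W.card : ℝ) * (C * Real.log X) / κ ^ 2) := by linarith
    _ = (4 * C / κ ^ 2) * Real.log X * W.card := by ring
    _ ≤ (4 * C / κ ^ 2) * Real.log N * W.card := by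
      apply mul_le_mul_of_nonneg_right _ hW0
      exact mul_le_mul_of_nonneg_left hlogN hq.le
    _ ≤ ((z : ℝ) + 4 * C / κ ^ 2) * Real.log N * W.card := by
      apply mul_le_mul_of_nonneg_right _ hW0
      apply mul_le_mul_of_nonneg_right _ hlogN0.le
      linarith

end FD
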