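import Pool.Agent.Lib.MP_9b5ce2_ntD.Defs

/-! The number of ideals of bounded norm; Abel summation.

`abel`: with `a n = C - r n` and `s T = ∑_{n ≤ T} a n ≥ 0`: induction on `T`: `s T * w T ≤ ∑_{n ≤ T} a n * w n` for `T ≥ 1` (step: `s T * w T ≥ s T * w (T + 1)`).
`ideal_count`: `NumberField.Ideal.tendsto_norm_le_div_atTop₀` for `E` (composed with `Nat.cast`) or `tendsto_norm_le_div_atTop`: `#{I ≠ 0 : N I ≤ T} / T` converges, so it is bounded for `T ≥ T₀` and the finitely many other `T ≥ 1` are covered by a larger constant;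
and the sum on the left is the number of the `I` with `1 ≤ N I ≤ T` (`Ideal.finite_setOf_absNorm_eq`, disjoint union; `N I = 0` iff `I = 0`: `Ideal.absNorm_eq_zero_iff`).  See `Mathlib/NumberTheory/NumberField/DedekindZeta.lean` line 79 for the same comparison.
`rr_inv`, `rr_sq`: `abel` with `w n = 1 / n`, `1 / n ^ 2`, `harmonic_le_one_add_log` resp. `∑_{n ≤ T} 1 / n ^ 2 ≤ 2`. -/

namespace FD

open Finset NumberField

/-- the number of the ideals of norm `n` -/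
noncomputable def rr (n : ℕ) : ℕ := Nat.card {I : Ideal (𝓞 E) // Ideal.absNorm I = n}

private theorem SmI_abel_aux (r : ℕ → ℕ) (C : ℝ) (h : ∀ T : ℕ, ((∑ n ∈ Icc 1 T, r n : ℕ) : ℝ) ≤ C * T)
    (w : ℕ → ℝ) (hw : ∀ n, 1 ≤ n → w (n + 1) ≤ w n) (T : ℕ) :
    (C * T - ((∑ n ∈ Icc 1 T, r n : ℕ) : ℝ)) * w T ≤ ∑ n ∈ Icc 1 T, (C - (r n : ℝ)) * w n := by
  induction T with
  | zero => simp
  | succ T ih =>
    rw [Finset.sum_Icc_succ_top (by omega), Finset.sum_Icc_succ_top (by omega)]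
    have h1 : (C * T - ((∑ n ∈ Icc 1 T, r n : ℕ) : ℝ)) * w (T + 1) ≤
        (C * T - ((∑ n ∈ Icc 1 T, r n : ℕ) : ℝ)) * w T := by
      rcases Nat.eq_zero_or_pos T with h0 | h0
      · subst h0
        simp
      · exact mul_le_mul_of_nonneg_left (hw T h0) (by linarith [h T])
    have h2 : (C * ((T + 1 : ℕ) : ℝ) - (((∑ n ∈ Icc 1 T, r n) + r (T + 1) : ℕ) : ℝ)) * w (T + 1) =
        (C * T - ((∑ n ∈ Icc 1 T, r n : ℕ) : ℝ)) * w (T + 1) + (C - (r (T + 1) : ℝ)) * w (T + 1) := by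
      push_cast
      ring
    rw [h2]
    linarith

theorem abel (r : ℕ → ℕ) (C : ℝ) (h : ∀ T : ℕ, ((∑ n ∈ Icc 1 T, r n : ℕ) : ℝ) ≤ C * T) (w : ℕ → ℝ)
    (hw0 : ∀ n, 0 ≤ w n) (hw : ∀ n, 1 ≤ n → w (n + 1) ≤ w n) (T : ℕ) :
    ∑ n ∈ Icc 1 T, (r n : ℝ) * w n ≤ C * ∑ n ∈ Icc 1 T, w n := by
  have h1 := SmI_abel_aux r C h w hw T
  have h2 : 0 ≤ (C * T - ((∑ n ∈ Icc 1 T, r n : ℕ) : ℝ)) * w T :=
    mul_nonneg (by linarith [h T]) (hw0 T)
  have h3 : ∑ n ∈ Icc 1 T, (C - (r n : ℝ)) * w n =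
      C * ∑ n ∈ Icc 1 T, w n - ∑ n ∈ Icc 1 T, (r n : ℝ) * w n := by
    rw [Finset.mul_sum, ← Finset.sum_sub_distrib]
    exact Finset.sum_congr rfl fun n _ => by ring
  linarith

theorem ideal_count : ∃ C : ℝ, 0 < C ∧ ∀ T : ℕ, ((∑ n ∈ Icc 1 T, rr n : ℕ) : ℝ) ≤ C * T := by
  have ht := (NumberField.Ideal.tendsto_norm_le_div_atTop₀ E).comp tendsto_natCast_atTop_atTop
  have ht2 := ht.congr (f₂ := fun n : ℕ => ((∑ k ∈ Icc 1 n, rr k : ℕ) : ℝ) / n) (fun n ↦ by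
    simp only [Function.comp_apply, Nat.cast_le]
    congr
    unfold rr
    rw [← add_left_inj 1, ← Ideal.card_norm_le_eq_card_norm_le_add_one,
      show Finset.Icc 1 n = Finset.Ioc 0 n from Finset.Icc_succ_left_eq_Ioc _ _,
      show 1 = Nat.card {I : Ideal (𝓞 E) // Ideal.absNorm I = 0} by simp [Ideal.absNorm_eq_zero_iff],
      Finset.sum_Ioc_add_eq_sum_Icc (n.zero_le),
      ← Finset.card_preimage_eq_sum_card_image_eq (fun k _ ↦ Ideal.finite_setOfPred_absNorm_eq k)]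
    simp [Set.coe_eq_subtype])
  obtain ⟨C, hC⟩ := ht2.bddAbove_range
  refine ⟨max C 1, lt_of_lt_of_le one_pos (le_max_right _ _), fun T => ?_⟩
  rcases Nat.eq_zero_or_pos T with h0 | h0
  · subst h0
    simp
  · have h1 : ((∑ k ∈ Icc 1 T, rr k : ℕ) : ℝ) / T ≤ C := hC ⟨T, rfl⟩
    have h2 : (0 : ℝ) < T := by exact_mod_cast h0
    rw [div_le_iff₀ h2] at h1
    exact h1.trans (mul_le_mul_of_nonneg_right (le_max_left _ _) h2.le)

private theorem SmI_sq (T : ℕ) (hT : 1 ≤ T) : ∑ n ∈ Icc 1 T, 1 / (n : ℝ) ^ 2 ≤ 2 - 1 / (T : ℝ) := by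
  induction T, hT using Nat.le_induction with
  | base => norm_num
  | succ T hT ih =>
    rw [Finset.sum_Icc_succ_top (by omega)]
    have h2 : (0 : ℝ) < T := by exact_mod_cast hT
    have h3 : 1 / (T : ℝ) - 1 / ((T : ℝ) + 1) - 1 / ((T : ℝ) + 1) ^ 2 = 1 / (T * (T + 1) ^ 2) := by
      field_simp
      ring
    have h4 : (0 : ℝ) < 1 / (T * (T + 1) ^ 2) := by positivity
    push_cast
    linarith

theorem rr_sums : ∃ C : ℝ, 0 < C ∧ ∀ T : ℕ, 1 ≤ T → ((∑ n ∈ Icc 1 T, rr n : ℕ) : ℝ) ≤ C * T ∧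
    ∑ n ∈ Icc 1 T, (rr n : ℝ) * (1 / (n : ℝ)) ≤ C * (1 + Real.log T) ∧
    ∑ n ∈ Icc 1 T, (rr n : ℝ) * (1 / (n : ℝ) ^ 2) ≤ C := by
  obtain ⟨C, hC, h⟩ := ideal_count
  refine ⟨2 * C, by linarith, fun T hT => ?_⟩
  have hT2 : (1 : ℝ) ≤ T := by exact_mod_cast hT
  have hl : 0 ≤ Real.log T := Real.log_nonneg hT2
  refine ⟨?_, ?_, ?_⟩
  · have h1 := h T
    have h2 : 0 ≤ C * T := by positivity
    linarith
  · have h1 := abel rr C h (fun n => 1 / (n : ℝ)) (fun n => by positivity) (fun n hn => by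
      have hn2 : (1 : ℝ) ≤ n := by exact_mod_cast hn
      push_cast
      exact one_div_le_one_div_of_le (by linarith) (by linarith)) T
    have h2 : ∑ n ∈ Icc 1 T, 1 / (n : ℝ) ≤ 1 + Real.log T := by
      have h3 := harmonic_le_one_add_log T
      rw [harmonic_eq_sum_Icc] at h3
      push_cast at h3
      refine le_trans (le_of_eq ?_) h3
      exact Finset.sum_congr rfl fun n _ => by rw [one_div]
    have h4 : C * ∑ n ∈ Icc 1 T, 1 / (n : ℝ) ≤ C * (1 + Real.log T) := mul_le_mul_of_nonneg_left h2 hC.le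
    have h5 : 0 ≤ C * (1 + Real.log T) := by positivity
    linarith
  · have h1 := abel rr C h (fun n => 1 / (n : ℝ) ^ 2) (fun n => by positivity) (fun n hn => by
      have hn2 : (1 : ℝ) ≤ n := by exact_mod_cast hn
      push_cast
      exact one_div_le_one_div_of_le (by positivity) (pow_le_pow_left₀ (by linarith) (by linarith) 2)) T
    have h2 := SmI_sq T hT
    have h3 : (0 : ℝ) ≤ 1 / T := by positivity
    have h4 : C * ∑ n ∈ Icc 1 T, 1 / (n : ℝ) ^ 2 ≤ C * 2 := mul_le_mul_of_nonneg_left (by linarith) hC.le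
    linarith

end FD
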