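import Pool.Agent.Lib.MP_9b5ce2_ntD.Idl

/-! Pairs `(x, y)`, `(x', y')` with the same ideal `(x - ζ y, d)`: `d` divides `x y' - x' y`. -/

namespace FD

open Finset NumberField

theorem pair_int {x y : ℤ} (h : IsCoprime x y) (d : ℕ) (hd0 : 1 ≤ d) (hd : (d : ℤ) ∣ x ^ 4 + y ^ 4) (m : ℤ)
    (hm : (m : 𝓞 E) ∈ Ideal.span {al x y, (d : 𝓞 E)}) : (d : ℤ) ∣ m := by
  have hdm : ((d : ℤ) : 𝓞 E) ∈ Ideal.span {al x y, (d : 𝓞 E)} := by
    rw [Int.cast_natCast]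
    exact Ideal.subset_span (by simp)
  set g : ℕ := Int.gcd (d : ℤ) m with hg
  have hgd : g ∣ d := by
    have h1 := Int.gcd_dvd_left (a := (d : ℤ)) (b := m)
    exact_mod_cast h1
  have hgm : (g : ℤ) ∣ m := Int.gcd_dvd_right (a := (d : ℤ)) (b := m)
  have hgI : (g : 𝓞 E) ∈ Ideal.span {al x y, (d : 𝓞 E)} := by
    have h1 : ((g : ℤ) : 𝓞 E) = ((d : ℤ) : 𝓞 E) * ((Int.gcdA d m : ℤ) : 𝓞 E) +
        (m : 𝓞 E) * ((Int.gcdB d m : ℤ) : 𝓞 E) := by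
      rw [hg, Int.gcd_eq_gcd_ab (d : ℤ) m]
      push_cast
      ring
    rw [← Int.cast_natCast (R := 𝓞 E) g, h1]
    exact Ideal.add_mem _ (Ideal.mul_mem_right _ _ hdm) (Ideal.mul_mem_right _ _ hm)
  have hI : Ideal.span {al x y, (d : 𝓞 E)} = Ideal.span {al x y, (g : 𝓞 E)} := by
    apply le_antisymm
    · rw [Ideal.span_le]
      rintro z hz
      simp only [Set.mem_insert_iff, Set.mem_singleton_iff] at hz
      rcases hz with rfl | rfl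
      · exact Ideal.subset_span (by simp)
      · obtain ⟨k, hk⟩ := hgd
        have h1 : (g : 𝓞 E) ∈ Ideal.span {al x y, (g : 𝓞 E)} := Ideal.subset_span (by simp)
        rw [hk, Nat.cast_mul]
        exact Ideal.mul_mem_right _ _ h1
    · rw [Ideal.span_le]
      rintro z hz
      simp only [Set.mem_insert_iff, Set.mem_singleton_iff] at hz
      rcases hz with rfl | rfl
      · exact Ideal.subset_span (by simp)
      · exact hgI
  have h2 := congrArg Ideal.absNorm hI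
  rw [pair_norm h d hd, pair_norm h g ((Int.natCast_dvd_natCast.2 hgd).trans hd)] at h2
  rw [h2]
  exact hgm

theorem pair_det {x y x' y' : ℤ} (h : IsCoprime x y) (d : ℕ) (hd0 : 1 ≤ d) (hd : (d : ℤ) ∣ x ^ 4 + y ^ 4)
    (e : Ideal.span {al x y, (d : 𝓞 E)} = Ideal.span {al x' y', (d : 𝓞 E)}) : (d : ℤ) ∣ x * y' - x' * y := by
  apply pair_int h d hd0 hd
  have h1 : ((x * y' - x' * y : ℤ) : 𝓞 E) = (y' : 𝓞 E) * al x y - (y : 𝓞 E) * al x' y' := by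
    unfold al
    push_cast
    ring
  rw [h1]
  refine Ideal.sub_mem _ (Ideal.mul_mem_left _ _ (Ideal.subset_span (by simp))) ?_
  rw [e]
  exact Ideal.mul_mem_left _ _ (Ideal.subset_span (by simp))

theorem pair_det4 {x y x' y' : ℤ} (h : IsCoprime x y) (h' : IsCoprime x' y') (z : ℕ) (hz0 : 1 ≤ z)
    (hz : (z : ℤ) ^ 4 ∣ x ^ 4 + y ^ 4) (hz' : (z : ℤ) ^ 4 ∣ x' ^ 4 + y' ^ 4)
    (e : Ideal.span {al x y, (z : 𝓞 E)} = Ideal.span {al x' y', (z : 𝓞 E)}) : ((z ^ 4 : ℕ) : ℤ) ∣ x * y' - x' * y := by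
  have key : ∀ {a b : ℤ}, IsCoprime a b → (z : ℤ) ^ 4 ∣ a ^ 4 + b ^ 4 →
      Ideal.span {al a b, (z : 𝓞 E)} * Ideal.span {al a b, (z : 𝓞 E)} *
        (Ideal.span {al a b, (z : 𝓞 E)} * Ideal.span {al a b, (z : 𝓞 E)}) =
      Ideal.span {al a b, ((z ^ 4 : ℕ) : 𝓞 E)} := by
    intro a b hab hd
    have h1 : ((z * z : ℕ) : ℤ) ∣ a ^ 4 + b ^ 4 := by
      refine dvd_trans ⟨(z : ℤ) * z, ?_⟩ hd
      push_cast
      ring
    have h2 : ((z * z * (z * z) : ℕ) : ℤ) ∣ a ^ 4 + b ^ 4 := by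
      refine dvd_trans ⟨1, ?_⟩ hd
      push_cast
      ring
    rw [pair_mul hab z z h1, pair_mul hab (z * z) (z * z) h2]
    rw [show z * z * (z * z) = z ^ 4 by ring]
  have hz4 : ((z ^ 4 : ℕ) : ℤ) ∣ x ^ 4 + y ^ 4 := by
    rw [Nat.cast_pow]
    exact hz
  refine pair_det h (z ^ 4) (Nat.one_le_pow _ _ hz0) hz4 ?_
  rw [← key h hz, ← key h' hz', e]

end FD
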