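import Pool.Agent.Lib.MP_9b5ce2_ntD.SmR
import Pool.Agent.Lib.MP_9b5ce2_ntD.SmA
import Pool.Agent.Lib.MP_9b5ce2_ntD.SmI

/-! Counting coprime pairs with `d ∣ x ^ 4 + y ^ 4`.

Write `I (x, y, d) = Ideal.span {al x y, (d : 𝓞 E)}`; it has norm `d` (`pair_norm`).
`count_d`: the map `v ↦ I (v.1, v.2, d)` from `S` to the set of the ideals of norm `d` (`rr d` elements); every fibre has at most `8 X ^ 2 / d + 8` elements by `pair_det` and `prim_card`.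
`count_z`: the same with `v ↦ I (v.1, v.2, z)`, `pair_det4` and `prim_card` for `D = z ^ 4`. -/

namespace FD

open Finset NumberField

private theorem SmS_image (n : ℕ) (hn : 1 ≤ n) (T : Finset (Ideal (𝓞 E)))
    (hT : ∀ J ∈ T, Ideal.absNorm J = n) : T.card ≤ rr n := by
  classical
  have hfin : {I : Ideal (𝓞 E) | Ideal.absNorm I = n}.Finite := Ideal.finite_setOfPred_absNorm_eq n
  have : Finite {I : Ideal (𝓞 E) // Ideal.absNorm I = n} := hfin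
  have h1 := Nat.card_le_card_of_injective
    (fun J : T => (⟨J.1, hT J.1 J.2⟩ : {I : Ideal (𝓞 E) // Ideal.absNorm I = n}))
    (fun a b h => Subtype.ext (Subtype.mk.inj h))
  rwa [Nat.card_eq_fintype_card, Fintype.card_coe] at h1

private theorem SmS_fib (n : ℕ) (hn : 1 ≤ n) (B : ℝ) (hB : 0 ≤ B) (S : Finset (ℤ × ℤ))
    (I : ℤ × ℤ → Ideal (𝓞 E)) (hI : ∀ v ∈ S, Ideal.absNorm (I v) = n)
    (hf : ∀ S' ⊆ S, (∀ v ∈ S', ∀ w ∈ S', I v = I w) → (S'.card : ℝ) ≤ B) :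
    (S.card : ℝ) ≤ rr n * B := by
  classical
  have h1 : (S.card : ℝ) = ∑ J ∈ S.image I, ((S.filter fun v => I v = J).card : ℝ) := by
    rw [Finset.card_eq_sum_card_image I S, Nat.cast_sum]
  have h2 : ∀ J ∈ S.image I, ((S.filter fun v => I v = J).card : ℝ) ≤ B := by
    intro J _
    apply hf _ (Finset.filter_subset _ _)
    intro v hv w hw
    rw [(Finset.mem_filter.1 hv).2, (Finset.mem_filter.1 hw).2]
  have h3 : (S.image I).card ≤ rr n := by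
    apply SmS_image n hn
    intro J hJ
    obtain ⟨v, hv, rfl⟩ := Finset.mem_image.1 hJ
    exact hI v hv
  rw [h1]
  refine (Finset.sum_le_sum h2).trans ?_
  rw [Finset.sum_const, nsmul_eq_mul]
  exact mul_le_mul_of_nonneg_right (by exact_mod_cast h3) hB

theorem count_d (d : ℕ) (hd : 1 ≤ d) (X : ℝ) (hX : 0 < X) (S : Finset (ℤ × ℤ))
    (h1 : ∀ v ∈ S, IsCoprime v.1 v.2 ∧ |(v.1 : ℝ)| ≤ X ∧ |(v.2 : ℝ)| ≤ X)
    (h2 : ∀ v ∈ S, (d : ℤ) ∣ v.1 ^ 4 + v.2 ^ 4) : (S.card : ℝ) ≤ rr d * (8 * X ^ 2 / d + 8) := by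
  refine SmS_fib d hd _ (by positivity) S (fun v => Ideal.span {al v.1 v.2, (d : 𝓞 E)})
    (fun v hv => pair_norm (h1 v hv).1 d (h2 v hv)) ?_
  intro S' hS' he
  refine prim_card d hd X hX S' (fun v hv => h1 v (hS' hv)) ?_
  intro v hv w hw
  exact pair_det (h1 v (hS' hv)).1 d hd (h2 v (hS' hv)) (he v hv w hw)

theorem count_z (z : ℕ) (hz : 1 ≤ z) (X : ℝ) (hX : 0 < X) (S : Finset (ℤ × ℤ))
    (h1 : ∀ v ∈ S, IsCoprime v.1 v.2 ∧ |(v.1 : ℝ)| ≤ X ∧ |(v.2 : ℝ)| ≤ X)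
    (h2 : ∀ v ∈ S, (z : ℤ) ^ 4 ∣ v.1 ^ 4 + v.2 ^ 4) : (S.card : ℝ) ≤ rr z * (8 * X ^ 2 / (z : ℝ) ^ 4 + 8) := by
  refine SmS_fib z hz _ (by positivity) S (fun v => Ideal.span {al v.1 v.2, (z : 𝓞 E)})
    (fun v hv => pair_norm (h1 v hv).1 z ((dvd_pow_self (z : ℤ) (by norm_num)).trans (h2 v hv))) ?_
  intro S' hS' he
  have h3 := prim_card (z ^ 4) (Nat.one_le_pow _ _ hz) X hX S' (fun v hv => h1 v (hS' hv)) (by
    intro v hv w hw
    exact pair_det4 (h1 v (hS' hv)).1 (h1 w (hS' hw)).1 z hz (h2 v (hS' hv)) (h2 w (hS' hw))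
      (he v hv w hw))
  rwa [Nat.cast_pow] at h3

end FD
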