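import Pool.Agent.Lib.MP_9b5ce2_ntD.SmS

/-! The upper bound for the `c` with a small solution.

`C` from `rr_sums`.  A number `c` in the set is `(x ^ 4 + y ^ 4) / z ^ 4` for some `z ≤ Z` and `(x, y) ∈ S z`, `S z` = the coprime pairs with `x ^ 4 + y ^ 4 ≤ N z ^ 4` and `z ^ 4 ∣ x ^ 4 + y ^ 4` (a finite set: filter of a box `Icc (-B) B ×ˢ Icc (-B) B`, `B = N z`; `|x| ≤ N ^ (1/4) z`).
So the number is at most `∑_{z ≤ Z} #(S z)` (image of a sigma or `card_biUnion_le`), and by `count_z` with `X = N ^ (1/4) z`: `#(S z) ≤ rr z (8 √N / z ^ 2 + 8)` (`X ^ 2 / z ^ 4 = √N / z ^ 2`).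
The sum is at most `8 √N ∑ rr z / z ^ 2 + 8 ∑ rr z ≤ 8 C √N + 8 C Z` (`rr_sums`).  `A = 8 C`. -/

namespace FD

open Finset NumberField

open Classical in
/-- the coprime pairs with `x ^ 4 + y ^ 4 ≤ N z ^ 4` divisible by `z ^ 4` -/
private noncomputable def SmU_S (N z : ℕ) : Finset (ℤ × ℤ) :=
  (Icc (-((N * z : ℕ) : ℤ)) ((N * z : ℕ) : ℤ) ×ˢ Icc (-((N * z : ℕ) : ℤ)) ((N * z : ℕ) : ℤ)).filter
    fun v => IsCoprime v.1 v.2 ∧ v.1 ^ 4 + v.2 ^ 4 ≤ (N : ℤ) * (z : ℤ) ^ 4 ∧ (z : ℤ) ^ 4 ∣ v.1 ^ 4 + v.2 ^ 4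

private theorem SmU_abs (N z : ℕ) (x : ℤ) (h : x ^ 4 ≤ (N : ℤ) * (z : ℤ) ^ 4) :
    |(x : ℝ)| ≤ Real.sqrt (Real.sqrt N) * z := by
  have hq : (Real.sqrt (Real.sqrt N)) ^ 4 = N := by
    have e : (Real.sqrt (Real.sqrt N)) ^ 4 = ((Real.sqrt (Real.sqrt N)) ^ 2) ^ 2 := by ring
    rw [e, Real.sq_sqrt (Real.sqrt_nonneg _), Real.sq_sqrt (Nat.cast_nonneg _)]
  have h1 : |(x : ℝ)| ^ 4 ≤ (Real.sqrt (Real.sqrt N) * z) ^ 4 := by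
    rw [mul_pow, hq]
    have h2 : |(x : ℝ)| ^ 4 = (x : ℝ) ^ 4 := by
      have e : |(x : ℝ)| ^ 4 = (|(x : ℝ)| ^ 2) ^ 2 := by ring
      rw [e, sq_abs]
      ring
    rw [h2]
    exact_mod_cast h
  exact le_of_pow_le_pow_left₀ (by norm_num) (by positivity) h1

private theorem SmU_absN (N z : ℕ) (x : ℤ) (h : x ^ 4 ≤ (N : ℤ) * (z : ℤ) ^ 4) :
    |x| ≤ ((N * z : ℕ) : ℤ) := by
  have h1 : |x| ^ 4 ≤ ((N * z : ℕ) : ℤ) ^ 4 := by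
    have h2 : |x| ^ 4 = x ^ 4 := by
      have e : |x| ^ 4 = (|x| ^ 2) ^ 2 := by ring
      rw [e, sq_abs]
      ring
    rw [h2]
    refine h.trans ?_
    push_cast
    rw [mul_pow]
    have hN : (N : ℤ) ≤ (N : ℤ) ^ 4 := by
      rcases Nat.eq_zero_or_pos N with h0 | h0
      · subst h0; simp
      · have : (1 : ℤ) ≤ N := by exact_mod_cast h0
        exact le_self_pow₀ this (by norm_num)
    exact mul_le_mul_of_nonneg_right hN (by positivity)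
  exact le_of_pow_le_pow_left₀ (by norm_num) (by positivity) h1

private theorem SmU_card (N z : ℕ) (hN : 1 ≤ N) (hz : 1 ≤ z) :
    ((SmU_S N z).card : ℝ) ≤ 8 * Real.sqrt N * ((rr z : ℝ) * (1 / (z : ℝ) ^ 2)) + 8 * rr z := by
  have hN' : (0 : ℝ) < N := by exact_mod_cast hN
  have hz' : (0 : ℝ) < z := by exact_mod_cast hz
  have hq : 0 < Real.sqrt (Real.sqrt N) := Real.sqrt_pos.mpr (Real.sqrt_pos.mpr hN')
  have h4 : ∀ x : ℤ, 0 ≤ x ^ 4 := fun x => by positivity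
  have h := count_z z hz (Real.sqrt (Real.sqrt N) * z) (mul_pos hq hz') (SmU_S N z)
    (fun v hv => by
      unfold SmU_S at hv
      rw [mem_filter] at hv
      refine ⟨hv.2.1, SmU_abs N z _ ?_, SmU_abs N z _ ?_⟩
      · linarith [hv.2.2.1, h4 v.2]
      · linarith [hv.2.2.1, h4 v.1])
    (fun v hv => by
      unfold SmU_S at hv
      rw [mem_filter] at hv
      exact hv.2.2.2)
  refine h.trans (le_of_eq ?_)
  have e : (Real.sqrt (Real.sqrt N) * z) ^ 2 = Real.sqrt N * (z : ℝ) ^ 2 := by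
    rw [mul_pow, Real.sq_sqrt (Real.sqrt_nonneg _)]
  rw [e]
  field_simp

theorem up_small : ∃ A : ℝ, 0 < A ∧ ∀ N Z : ℕ, 1 ≤ N → 1 ≤ Z →
    (Nat.card {c : ℕ // 1 ≤ c ∧ c ≤ N ∧ ∃ (x y : ℤ) (z : ℕ), IsCoprime x y ∧ 1 ≤ z ∧ z ≤ Z ∧
      x ^ 4 + y ^ 4 = (c : ℤ) * (z : ℤ) ^ 4} : ℝ) ≤ A * (Real.sqrt N + Z) := by
  classical
  obtain ⟨C, hC, hr⟩ := rr_sums
  refine ⟨8 * C, by positivity, fun N Z hN hZ => ?_⟩
  obtain ⟨h1, _, h3⟩ := hr Z hZ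
  obtain ⟨F, hF⟩ : ∃ F : Finset ℤ, F = (Icc 1 Z).biUnion fun z =>
    (SmU_S N z).image fun v => (v.1 ^ 4 + v.2 ^ 4) / (z : ℤ) ^ 4 := ⟨_, rfl⟩
  have hmem : ∀ c : {c : ℕ // 1 ≤ c ∧ c ≤ N ∧ ∃ (x y : ℤ) (z : ℕ), IsCoprime x y ∧ 1 ≤ z ∧ z ≤ Z ∧
      x ^ 4 + y ^ 4 = (c : ℤ) * (z : ℤ) ^ 4}, ((c : ℕ) : ℤ) ∈ F := by
    rintro ⟨c, hc1, hcN, x, y, z, hco, hz1, hzZ, he⟩
    rw [hF, mem_biUnion]
    refine ⟨z, mem_Icc.mpr ⟨hz1, hzZ⟩, mem_image.mpr ⟨(x, y), ?_, ?_⟩⟩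
    · unfold SmU_S
      have hle : x ^ 4 + y ^ 4 ≤ (N : ℤ) * (z : ℤ) ^ 4 := by
        rw [he]
        have : (c : ℤ) ≤ N := by exact_mod_cast hcN
        exact mul_le_mul_of_nonneg_right this (by positivity)
      have hx0 : 0 ≤ x ^ 4 := by positivity
      have hy0 : 0 ≤ y ^ 4 := by positivity
      have hx := abs_le.mp (SmU_absN N z x (by linarith))
      have hy := abs_le.mp (SmU_absN N z y (by linarith))
      rw [mem_filter, mem_product]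
      exact ⟨⟨mem_Icc.mpr hx, mem_Icc.mpr hy⟩, hco, hle, ⟨(c : ℤ), by rw [he]; ring⟩⟩
    · have hz0 : ((z : ℤ) ^ 4) ≠ 0 := by
        have : (z : ℤ) ≠ 0 := by exact_mod_cast (by omega : z ≠ 0)
        positivity
      show (x ^ 4 + y ^ 4) / (z : ℤ) ^ 4 = (c : ℤ)
      rw [he, Int.mul_ediv_cancel _ hz0]
  have hcard : Nat.card {c : ℕ // 1 ≤ c ∧ c ≤ N ∧ ∃ (x y : ℤ) (z : ℕ), IsCoprime x y ∧ 1 ≤ z ∧ z ≤ Z ∧
      x ^ 4 + y ^ 4 = (c : ℤ) * (z : ℤ) ^ 4} ≤ F.card := by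
    have h5 := Nat.card_le_card_of_injective (β := F)
      (fun c : {c : ℕ // 1 ≤ c ∧ c ≤ N ∧ ∃ (x y : ℤ) (z : ℕ), IsCoprime x y ∧ 1 ≤ z ∧ z ≤ Z ∧
        x ^ 4 + y ^ 4 = (c : ℤ) * (z : ℤ) ^ 4} => (⟨((c : ℕ) : ℤ), hmem c⟩ : F))
      (fun a b hab => by
        have h6 : (((a : ℕ) : ℤ)) = ((b : ℕ) : ℤ) := congrArg (fun t : F => (t : ℤ)) hab
        exact Subtype.ext (by exact_mod_cast h6))
    rwa [Nat.card_eq_fintype_card (α := F), Fintype.card_coe] at h5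
  have hF2 : F.card ≤ ∑ z ∈ Icc 1 Z, (SmU_S N z).card := by
    rw [hF]
    exact card_biUnion_le.trans (sum_le_sum fun z _ => card_image_le)
  have hF3 : (F.card : ℝ) ≤ ∑ z ∈ Icc 1 Z, ((SmU_S N z).card : ℝ) := by exact_mod_cast hF2
  have hF4 : ∑ z ∈ Icc 1 Z, ((SmU_S N z).card : ℝ) ≤
      ∑ z ∈ Icc 1 Z, (8 * Real.sqrt N * ((rr z : ℝ) * (1 / (z : ℝ) ^ 2)) + 8 * rr z) :=
    sum_le_sum fun z hz => SmU_card N z hN (mem_Icc.mp hz).1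
  rw [sum_add_distrib, ← mul_sum, ← mul_sum] at hF4
  have h1' : ∑ z ∈ Icc 1 Z, (rr z : ℝ) ≤ C * Z := by exact_mod_cast h1
  have hs : 0 ≤ Real.sqrt N := Real.sqrt_nonneg _
  have h7 : 8 * Real.sqrt N * ∑ z ∈ Icc 1 Z, (rr z : ℝ) * (1 / (z : ℝ) ^ 2) ≤ 8 * Real.sqrt N * C :=
    mul_le_mul_of_nonneg_left h3 (by positivity)
  have hcard' : (Nat.card {c : ℕ // 1 ≤ c ∧ c ≤ N ∧ ∃ (x y : ℤ) (z : ℕ), IsCoprime x y ∧ 1 ≤ z ∧ z ≤ Z ∧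
      x ^ 4 + y ^ 4 = (c : ℤ) * (z : ℤ) ^ 4} : ℝ) ≤ F.card := by exact_mod_cast hcard
  linarith

end FD
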