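import Pool.Agent.Lib.MP_9b5ce2_ntD.Desc
import Pool.Agent.Lib.MP_9b5ce2_ntD.AlLe
import Pool.Agent.Lib.MP_9b5ce2_ntD.Mert

/-! The upper bound for the number of the primitively represented `c`. -/

namespace FD

open Finset

private theorem UpPrim_fin (B H : ℕ) : Finite {a : Fin 4 → ℤ // (∀ i, |a i| ≤ (H : ℤ)) ∧
    ∀ p : ℕ, p.Prime → B < p → Al p (fun i => (a i : ZMod p))} := by
  have h1 : (Set.Icc (fun _ : Fin 4 => -(H : ℤ)) (fun _ => (H : ℤ))).Finite := Set.finite_Icc _ _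
  refine Set.Finite.subset h1 ?_
  rintro a ⟨ha, -⟩
  exact ⟨fun i => (abs_le.1 (ha i)).1, fun i => (abs_le.1 (ha i)).2⟩

/-- The upper bound for the number of the primitively represented `c`. -/
theorem up_prim : ∃ A : ℝ, 0 < A ∧ ∀ N : ℕ, 2 ≤ N →
    (Nat.card {c : ℕ // 1 ≤ c ∧ c ≤ N ∧ Prim c} : ℝ) ≤ A * (N / Real.log N ^ (15 / 16 : ℝ)) := by
  classical
  obtain ⟨B, C, hB, hC, hdesc⟩ := desc
  obtain ⟨A1, hA1, hal⟩ := al_le B
  obtain ⟨A2, hA2, htt⟩ := tt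
  refine ⟨((B : ℝ) + 1) * A1 * (16 * C ^ 4) * (Real.exp (15 / 4 * A2) * 4 ^ (15 / 16 : ℝ)),
    by positivity, fun N hN => ?_⟩
  have hN' : (2 : ℝ) ≤ N := by exact_mod_cast hN
  have hN0 : (0 : ℝ) < N := by linarith
  set X : ℝ := (N : ℝ) ^ ((1 : ℝ) / 4) with hX
  have hX1 : 1 < X := Real.one_lt_rpow (by linarith) (by norm_num)
  have hX4 : X ^ 4 = N := by
    rw [hX, ← Real.rpow_natCast, ← Real.rpow_mul hN0.le]
    norm_num
  set H : ℕ := ⌈C * X⌉₊ with hH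
  have hCX : 1 < C * X := by nlinarith
  have hH2 : 2 ≤ H := by
    have h1 : 1 < H := Nat.lt_ceil.2 (by exact_mod_cast hCX)
    omega
  have hHle : (H : ℝ) ≤ 2 * C * X := by
    have h1 := Nat.ceil_lt_add_one (by linarith : 0 ≤ C * X)
    rw [← hH] at h1
    linarith
  have hHge : C * X ≤ H := Nat.le_ceil _
  have hXH : X ≤ H := by nlinarith
  have hfin := UpPrim_fin B H
  -- the injection
  have key : ∀ c : {c : ℕ // 1 ≤ c ∧ c ≤ N ∧ Prim c},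
      ∃ t : {a : Fin 4 → ℤ // (∀ i, |a i| ≤ (H : ℤ)) ∧
        ∀ p : ℕ, p.Prime → B < p → Al p (fun i => (a i : ZMod p))} × Fin (B + 1),
        1 ≤ (t.2 : ℕ) ∧ (Algebra.norm ℤ (ga t.1.1)).natAbs = c.1 * (t.2 : ℕ) ^ 4 := by
    rintro ⟨c, hc1, hcN, x, y, z, hxy, hz, he⟩
    obtain ⟨a, r, hr1, hrB, hn, ha, hAl⟩ := hdesc x y c z hxy hc1 hz he
    have ha' : ∀ i, |a i| ≤ (H : ℤ) := by
      intro i
      have h1 : (c : ℝ) ^ ((1 : ℝ) / 4) ≤ X :=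
        Real.rpow_le_rpow (by positivity) (by exact_mod_cast hcN) (by norm_num)
      have h2 : |(a i : ℝ)| ≤ H := by
        refine (ha i).trans (le_trans ?_ hHge)
        exact mul_le_mul_of_nonneg_left h1 (by linarith)
      exact_mod_cast h2
    exact ⟨(⟨a, ha', hAl⟩, ⟨r, by omega⟩), hr1, hn⟩
  choose F hF1 hF2 using key
  have hinj : Function.Injective F := by
    intro c c' h
    have h1 := hF2 c
    rw [h, hF2 c'] at h1
    have h2 : 0 < (((F c').2 : Fin (B + 1)) : ℕ) ^ 4 := pow_pos (hF1 c') 4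
    exact Subtype.ext (Nat.eq_of_mul_eq_mul_right h2 h1.symm)
  have hcard := Nat.card_le_card_of_injective F hinj
  rw [Nat.card_prod, Nat.card_fin] at hcard
  have hcard' : (Nat.card {c : ℕ // 1 ≤ c ∧ c ≤ N ∧ Prim c} : ℝ) ≤
      (Nat.card {a : Fin 4 → ℤ // (∀ i, |a i| ≤ (H : ℤ)) ∧
        ∀ p : ℕ, p.Prime → B < p → Al p (fun i => (a i : ZMod p))} : ℝ) * ((B : ℝ) + 1) := by
    exact_mod_cast hcard
  have hal' := hal H (by omega)
  -- the exponential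
  have hlogN : 0 < Real.log N := Real.log_pos (by linarith)
  have hlogH : Real.log N / 4 ≤ Real.log H := by
    have h1 : Real.log X = Real.log N / 4 := by
      rw [hX, Real.log_rpow hN0]
      ring
    rw [← h1]
    exact Real.log_le_log (by linarith) hXH
  have hlogH0 : 0 < Real.log H := by linarith
  have hexp : Real.exp (-(15 / 4 * TT H)) ≤
      Real.exp (15 / 4 * A2) * 4 ^ (15 / 16 : ℝ) * (Real.log N ^ (15 / 16 : ℝ))⁻¹ := by
    have h1 := (abs_le.1 (htt H (by exact_mod_cast hH2))).1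
    have h2 : -(15 / 4 * TT H) ≤ 15 / 4 * A2 + -(15 / 16 * Real.log (Real.log H)) := by linarith
    have h3 : Real.exp (-(15 / 16 * Real.log (Real.log H))) = (Real.log H ^ (15 / 16 : ℝ))⁻¹ := by
      rw [Real.exp_neg, Real.rpow_def_of_pos hlogH0, mul_comm]
    have h4 : (Real.log H ^ (15 / 16 : ℝ))⁻¹ ≤ ((Real.log N / 4) ^ (15 / 16 : ℝ))⁻¹ :=
      inv_anti₀ (Real.rpow_pos_of_pos (by linarith) _)
        (Real.rpow_le_rpow (by linarith) hlogH (by norm_num))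
    have h5 : ((Real.log N / 4) ^ (15 / 16 : ℝ))⁻¹ =
        4 ^ (15 / 16 : ℝ) * (Real.log N ^ (15 / 16 : ℝ))⁻¹ := by
      rw [Real.div_rpow hlogN.le (by norm_num), inv_div, div_eq_mul_inv]
    calc Real.exp (-(15 / 4 * TT H))
        ≤ Real.exp (15 / 4 * A2 + -(15 / 16 * Real.log (Real.log H))) := Real.exp_le_exp.2 h2
      _ = Real.exp (15 / 4 * A2) * (Real.log H ^ (15 / 16 : ℝ))⁻¹ := by rw [Real.exp_add, h3]
      _ ≤ Real.exp (15 / 4 * A2) * (4 ^ (15 / 16 : ℝ) * (Real.log N ^ (15 / 16 : ℝ))⁻¹) := by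
          rw [← h5]
          exact mul_le_mul_of_nonneg_left h4 (Real.exp_pos _).le
      _ = Real.exp (15 / 4 * A2) * 4 ^ (15 / 16 : ℝ) * (Real.log N ^ (15 / 16 : ℝ))⁻¹ := by ring
  have hH4 : (H : ℝ) ^ 4 ≤ 16 * C ^ 4 * N := by
    have h1 : (H : ℝ) ^ 4 ≤ (2 * C * X) ^ 4 := pow_le_pow_left₀ (by positivity) hHle 4
    have h2 : (2 * C * X) ^ 4 = 16 * C ^ 4 * X ^ 4 := by ring
    rwa [h2, hX4] at h1
  have hL0 : 0 < (Real.log N ^ (15 / 16 : ℝ))⁻¹ := inv_pos.2 (Real.rpow_pos_of_pos hlogN _)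
  have hmain : A1 * (H : ℝ) ^ 4 * Real.exp (-(15 / 4 * TT H)) ≤
      A1 * (16 * C ^ 4 * N) * (Real.exp (15 / 4 * A2) * 4 ^ (15 / 16 : ℝ) *
        (Real.log N ^ (15 / 16 : ℝ))⁻¹) :=
    mul_le_mul (mul_le_mul_of_nonneg_left hH4 hA1.le) hexp (Real.exp_pos _).le (by positivity)
  calc (Nat.card {c : ℕ // 1 ≤ c ∧ c ≤ N ∧ Prim c} : ℝ)
      ≤ (Nat.card {a : Fin 4 → ℤ // (∀ i, |a i| ≤ (H : ℤ)) ∧
        ∀ p : ℕ, p.Prime → B < p → Al p (fun i => (a i : ZMod p))} : ℝ) * ((B : ℝ) + 1) := hcard'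
    _ ≤ (A1 * (16 * C ^ 4 * N) * (Real.exp (15 / 4 * A2) * 4 ^ (15 / 16 : ℝ) *
        (Real.log N ^ (15 / 16 : ℝ))⁻¹)) * ((B : ℝ) + 1) :=
        mul_le_mul_of_nonneg_right (hal'.trans hmain) (by positivity)
    _ = ((B : ℝ) + 1) * A1 * (16 * C ^ 4) * (Real.exp (15 / 4 * A2) * 4 ^ (15 / 16 : ℝ)) *
        (N / Real.log N ^ (15 / 16 : ℝ)) := by
        rw [div_eq_mul_inv]
        ring

end FD
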